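import Pool.Agent.Lib.MP_392c14_co.Ev.ChkF

/-! The inequalities to be checked for every graph (raw operations, no Mathlib). -/

set_option autoImplicit false

namespace K4m.Ev

/-- the inequality at `rho = t = p / q`; `pp`, `pn` are the positive and negative parts of the
penalty -/
noncomputable def ineqR (a5 a3 K5 K3 Km p q c pp pn s5v s3v x y d1 d0 : Nat) : Bool :=
  Nat.ble
    (Nat.add (Nat.mul q (Nat.add (Nat.add (Nat.add (Nat.mul (Nat.mul 2 a5) s5v)
      (Nat.mul (Nat.mul 48 a3) s3v)) (Nat.mul 48 d1)) pp))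
      (Nat.mul p (Nat.add (Nat.mul 6 (Nat.add x y)) (Nat.mul 10080 Km))))
    (Nat.add (Nat.mul q (Nat.add (Nat.add (Nat.add (Nat.add (Nat.add c pn)
      (Nat.mul (Nat.mul 5040 a5) K5)) (Nat.mul (Nat.mul 5040 a3) K3))
      (Nat.mul 6 x)) (Nat.mul 5040 Km)))
      (Nat.mul p (Nat.mul 48 (Nat.add d1 d0))))

/-- the degree coefficient is at most `Dm` in absolute value -/
noncomputable def dbR (Km Dm d1 d0 : Nat) : Bool :=
  Bool.rec false (Nat.ble (Nat.mul 10080 Km) (Nat.add Dm (Nat.mul 48 (Nat.add d1 d0))))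
    (Nat.ble (Nat.mul 48 (Nat.add d1 d0)) (Nat.add Dm (Nat.mul 10080 Km)))

/-- all three -/
noncomputable def chkR (a5 a3 K5 K3 Km p0 q0 c0 p1 q1 c1 Dm pp pn : Nat) :
    Nat → Nat → Nat → Nat → Nat → Nat → Bool :=
  fun s5v s3v x y d1 d0 =>
    Bool.rec false (Bool.rec false (dbR Km Dm d1 d0)
      (ineqR a5 a3 K5 K3 Km p1 q1 c1 pp pn s5v s3v x y d1 d0))
      (ineqR a5 a3 K5 K3 Km p0 q0 c0 pp pn s5v s3v x y d1 d0)

end K4m.Ev
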