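import Pool.Agent.Lib.MP_392c14_co.Ev.Chk

/-! Weighted cuts (raw operations, no Mathlib): the weight of a code is a digit of 10 bits, and
the leaf of the code in the table has 24 digits, one for each permutation of the roots. -/

set_option autoImplicit false

namespace K4m.Ev

/-- sum of the products of the digits of `a`, `b`, `c` (10 bits each, `n` digits) -/
noncomputable def w3 (n : Nat) : Nat → Nat → Nat → Nat → Nat :=
  Nat.rec (motive := fun _ => Nat → Nat → Nat → Nat → Nat) (fun _ _ _ acc => acc)
    (fun _ ih a b c acc => ih (Nat.shiftRight a 10) (Nat.shiftRight b 10) (Nat.shiftRight c 10)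
      (Nat.add acc (Nat.mul (Nat.mod a 1024) (Nat.mul (Nat.mod b 1024) (Nat.mod c 1024))))) n

/-- apply `k` to `a` unless `a = 0` -/
noncomputable def nz (k : Nat → Nat) (acc a : Nat) : Nat :=
  Nat.rec (motive := fun _ => Nat) acc (fun n _ => k (Nat.succ n)) a

/-- weighted cut term: `k` root sets, four 10-bit fields each (three codes and one edge bit) -/
noncomputable def cutW (T : Tr Nat) (e0 : Nat) (k : Nat) : Nat → Nat → Nat :=
  Nat.rec (motive := fun _ => Nat → Nat → Nat) (fun _ acc => acc)
    (fun _ ih out acc => ih (Nat.shiftRight out 40)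
      (Bool.rec acc (nz (fun a => nz (fun b => nz (fun c => w3 24 a b c acc) acc
          (force (Tr.get T) (Nat.mod (Nat.shiftRight out 20) 1024))) acc
          (force (Tr.get T) (Nat.mod (Nat.shiftRight out 10) 1024))) acc
          (force (Tr.get T) (Nat.mod out 1024)))
        (Nat.beq (Nat.mod (Nat.shiftRight out 30) 1024) e0))) k

end K4m.Ev
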