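import Pool.Agent.Lib.MP_392c14_co.Ev.Chk
import Pool.Agent.Lib.MP_392c14_co.Ev.ChkW

/-! Evaluation of the whole certificate on one code (raw operations, no Mathlib). -/

set_option autoImplicit false

namespace K4m.Ev

/-- list of cuts: table, multiplier, set of codes (the latter is not used in the evaluation);
`consw` is a weighted cut -/
inductive CL where
  | nil : CL
  | cons : Nat → Nat → List Nat → CL → CL
  | consw : Tr Nat → Nat → CL → CL

/-- weighted sum of the cut counts with edge digit `e0` -/
noncomputable def cutsR (e0 out : Nat) (L : CL) : Nat → Nat :=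
  CL.rec (motive := fun _ => Nat → Nat) (fun acc => acc)
    (fun T l _ _ ih acc => ih (Nat.add acc (Nat.mul l (cut T e0 35 out 0))))
    (fun T l _ ih acc => ih (Nat.add acc (Nat.mul l (cutW T e0 35 out 0)))) L

/-- all the terms of the certificate on the code `m`, given to `k` in the order: five roots, three
roots, cuts (edge, no edge), degree (edge, no edge) -/
noncomputable def evalR (W B : Nat) (Q : Tr (Tr Nat)) (tab : Tr CD) (W3 B3 I3 : Nat) (Q3 : Tr Nat)
    (cl : CL) (Wm Bm Tm offm : Nat) (M5 M3 MC MD : List Nat)
    (k : Nat → Nat → Nat → Nat → Nat → Nat → Bool) (m : Nat) : Bool :=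
  force (fun o5 => force (fun o3 => force (fun oC => force (fun oD =>
    force (fun a5 => force (fun a3 => force (fun x => force (fun y =>
      force (fun d1 => force (fun d0 => k a5 a3 x y d1 d0)
        (dsum Wm Bm Tm offm 0 105 oD 0)) (dsum Wm Bm Tm offm 1 105 oD 0))
        (cutsR 0 oC cl 0)) (cutsR 1 oC cl 0))
        (s3 W3 B3 I3 Q3 105 o3 0)) (s5 W B Q tab 21 o5 0))
    (scat MD m 0)) (scat MC m 0)) (scat M3 m 0)) (scat M5 m 0)

end K4m.Ev
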