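/-! Kernel evaluation of a flag algebra certificate of order 7, with raw operations on natural
numbers (this file does not need Mathlib). -/

set_option autoImplicit false

namespace K4m.Ev

/-- binary trees, addressed by the binary digits of an index (lowest digit first) -/
inductive Tr (α : Type) where
  | leaf : α → Tr α
  | node : Tr α → Tr α → Tr α

noncomputable def Tr.get {α : Type} (t : Tr α) : Nat → α :=
  Tr.rec (motive := fun _ => Nat → α) (fun v _ => v)
    (fun _ _ l r i => Bool.rec (r (Nat.div i 2)) (l (Nat.div i 2)) (Nat.beq (Nat.mod i 2) 0)) t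

/-- apply `k` to the value of `i` (the kernel evaluates `i` first) -/
noncomputable def force {β : Type} (k : Nat → β) (i : Nat) : β :=
  Nat.rec (motive := fun _ => β) (k 0) (fun n _ => k (Nat.succ n)) i

/-- sum of the masks of the bits of `m` -/
noncomputable def scat (L : List Nat) : Nat → Nat → Nat :=
  List.rec (motive := fun _ => Nat → Nat → Nat) (fun _ acc => acc)
    (fun M _ ih m acc => ih (Nat.div m 2) (Nat.add acc (Nat.mul (Nat.mod m 2) M))) L

/-- data of a labelled 5-graph: table of the flags of its canonical form (12 bits each), number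
of orderings, padding, masks of the relabellings -/
inductive CD where
  | mk : Nat → Nat → Nat → List Nat → CD

noncomputable def vecG (G n : Nat) : Nat → Nat :=
  Nat.rec (motive := fun _ => Nat → Nat) (fun _ => 0)
    (fun _ ih R => Nat.add (Nat.mod (Nat.shiftRight G (Nat.mul 12 (Nat.mod R 1024))) 4096)
      (Nat.mul 4096 (ih (Nat.div R 1024)))) n

/-- entry `x, y` of the table `Q`; digits of `W` bits, 64 digits per leaf -/
noncomputable def look (W B : Nat) (Q : Tr (Tr Nat)) (x y : Nat) : Nat :=
  force (fun a => force (fun b => Nat.mod (Nat.shiftRight (Tr.get (Tr.get Q a) b)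
    (Nat.mul W (Nat.mod y 64))) B) (Nat.div y 64)) x

noncomputable def vloop (W B : Nat) (Q : Tr (Tr Nat)) (n : Nat) : Nat → Nat → Nat → Nat :=
  Nat.rec (motive := fun _ => Nat → Nat → Nat → Nat) (fun _ _ acc => acc)
    (fun _ ih X Y acc => ih (Nat.div X 4096) (Nat.div Y 4096)
      (Nat.add acc (look W B Q (Nat.mod X 4096) (Nat.mod Y 4096)))) n

noncomputable def vval (W B : Nat) (Q : Tr (Tr Nat)) (cd : CD) (lx ly : Nat) : Nat :=
  CD.rec (motive := fun _ => Nat) (fun G n pad masks =>
    force (fun X => force (fun Y => vloop W B Q n X Y pad) (vecG G n (scat masks ly 0)))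
      (vecG G n (scat masks lx 0))) cd

/-- SOS term with five roots: `k` root sets, three 10-bit fields each -/
noncomputable def s5 (W B : Nat) (Q : Tr (Tr Nat)) (tab : Tr CD) (k : Nat) : Nat → Nat → Nat :=
  Nat.rec (motive := fun _ => Nat → Nat → Nat) (fun _ acc => acc)
    (fun _ ih out acc => ih (Nat.shiftRight out 30)
      (Nat.add acc (force (fun c => force (fun lx => force (fun ly => vval W B Q (Tr.get tab c) lx ly)
        (Nat.mod (Nat.shiftRight out 20) 1024)) (Nat.mod (Nat.shiftRight out 10) 1024))
          (Nat.mod out 1024)))) k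

/-- index of a code in the table of the 3-rooted flags (8 bits each) -/
noncomputable def idx3 (I3 c : Nat) : Nat := Nat.mod (Nat.shiftRight I3 (Nat.mul 8 c)) 256

noncomputable def look3 (W B : Nat) (Q : Tr Nat) (x y : Nat) : Nat :=
  force (fun a => Nat.mod (Nat.shiftRight (Tr.get Q a) (Nat.mul W (Nat.mod y 128))) B) x

noncomputable def v3 (W B I3 : Nat) (Q : Tr Nat) (c d : Nat) : Nat :=
  force (fun c => force (fun d => look3 W B Q (idx3 I3 c) (idx3 I3 d)) d) c

/-- SOS term with three roots: `k` root sets, six 10-bit fields each -/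
noncomputable def s3 (W B I3 : Nat) (Q : Tr Nat) (k : Nat) : Nat → Nat → Nat :=
  Nat.rec (motive := fun _ => Nat → Nat → Nat) (fun _ acc => acc)
    (fun _ ih out acc => ih (Nat.shiftRight out 20)
      (Nat.add acc (v3 W B I3 Q (Nat.mod out 1024) (Nat.mod (Nat.shiftRight out 10) 1024)))) k

/-- number of binary digits 1 (at most `n` digits) added to `acc` -/
noncomputable def popc (n : Nat) : Nat → Nat → Nat :=
  Nat.rec (motive := fun _ => Nat → Nat → Nat) (fun _ acc => acc)
    (fun _ ih z acc => ih (Nat.div z 2) (Nat.add acc (Nat.mod z 2))) n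

/-- popcount with a quick exit for 0 -/
noncomputable def popq (z acc : Nat) : Nat :=
  Nat.rec (motive := fun _ => Nat) acc (fun n _ => popc 24 (Nat.succ n) acc) z

noncomputable def tab24 (T c : Nat) : Nat := Nat.mod (Nat.shiftRight T (Nat.mul 24 c)) 16777216

/-- cut term: `k` root sets, four 10-bit fields each (three codes and one edge bit);
the result is `acc + #` of pairs with edge bit `e0` -/
noncomputable def cut (T e0 : Nat) (k : Nat) : Nat → Nat → Nat :=
  Nat.rec (motive := fun _ => Nat → Nat → Nat) (fun _ acc => acc)
    (fun _ ih out acc => ih (Nat.shiftRight out 40)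
      (Bool.rec acc (popq (Nat.land (Nat.land (force (tab24 T) (Nat.mod out 1024))
        (force (tab24 T) (Nat.mod (Nat.shiftRight out 10) 1024)))
        (force (tab24 T) (Nat.mod (Nat.shiftRight out 20) 1024))) acc)
        (Nat.beq (Nat.mod (Nat.shiftRight out 30) 1024) e0))) k

noncomputable def tabW (W B T c : Nat) : Nat := Nat.mod (Nat.shiftRight T (Nat.mul W c)) B

/-- degree term: `k` pairs, two 10-bit fields each (code and edge bit); sum of the table entries
over the pairs with edge bit `e0`, and of `off` over the others -/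
noncomputable def dsum (W B T off e0 : Nat) (k : Nat) : Nat → Nat → Nat :=
  Nat.rec (motive := fun _ => Nat → Nat → Nat) (fun _ acc => acc)
    (fun _ ih out acc => ih (Nat.shiftRight out 20)
      (Nat.add acc (Bool.rec off (force (tabW W B T) (Nat.mod out 1024))
        (Nat.beq (Nat.mod (Nat.shiftRight out 10) 1024) e0)))) k

/-- all tests of a list -/
noncomputable def allR (p : Nat → Bool) (L : List Nat) : Bool :=
  List.rec (motive := fun _ => Bool) true (fun m _ ih => Bool.rec false ih (force p m)) L

end K4m.Ev
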