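import Mathlib
import Pool.Agent.Lib.MP_392c14_co.Complete
import Pool.Agent.Lib.MP_392c14_co.Ev.Chk

/-! Bit gathering: the codes of labelled sub-3-graphs are lists of bits of `code7`. -/

set_option autoImplicit false

namespace K4m.Ev

/-- the number with binary digits `m.testBit s`, `s` in the list of sources -/
def gath (src : List ℕ) (m : ℕ) : ℕ := bits (src.map fun i => m.testBit i)

/-- sources of `code5 (H.pull f)` -/
noncomputable def cs (f : Fin 5 → Fin 7) : List ℕ :=
  [C.tid (f 0) (f 1) (f 2), C.tid (f 0) (f 1) (f 3), C.tid (f 0) (f 2) (f 3), C.tid (f 1) (f 2) (f 3),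
    C.tid (f 0) (f 1) (f 4), C.tid (f 0) (f 2) (f 4), C.tid (f 1) (f 2) (f 4),
    C.tid (f 0) (f 3) (f 4), C.tid (f 1) (f 3) (f 4), C.tid (f 2) (f 3) (f 4)]

/-- the link of `x` on the pairs of the five vertices `f` (10 bits) -/
def lk (H : TG (Fin 7)) (f : Fin 5 → Fin 7) (x : Fin 7) : ℕ :=
  bits [H.E (f 0) (f 1) x, H.E (f 0) (f 2) x, H.E (f 1) (f 2) x, H.E (f 0) (f 3) x,
    H.E (f 1) (f 3) x, H.E (f 2) (f 3) x, H.E (f 0) (f 4) x, H.E (f 1) (f 4) x,
    H.E (f 2) (f 4) x, H.E (f 3) (f 4) x]

/-- sources of the link -/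
noncomputable def ls (f : Fin 5 → Fin 7) (x : Fin 7) : List ℕ :=
  [C.tid (f 0) (f 1) x, C.tid (f 0) (f 2) x, C.tid (f 1) (f 2) x, C.tid (f 0) (f 3) x,
    C.tid (f 1) (f 3) x, C.tid (f 2) (f 3) x, C.tid (f 0) (f 4) x, C.tid (f 1) (f 4) x,
    C.tid (f 2) (f 4) x, C.tid (f 3) (f 4) x]

theorem code5_pull (H : TG (Fin 7)) (f : Fin 5 → Fin 7) :
    code5 (H.pull f) = gath (cs f) (code7 H) := by
  simp only [gath, cs, code5, TG.pull, List.map_cons, List.map_nil, tb]

theorem lk_eq (H : TG (Fin 7)) (f : Fin 5 → Fin 7) (x : Fin 7) :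
    lk H f x = gath (ls f x) (code7 H) := by
  simp only [gath, ls, lk, List.map_cons, List.map_nil, tb]

theorem bit_eq (H : TG (Fin 7)) (x y z : Fin 7) :
    (H.E x y z).toNat = gath [C.tid x y z] (code7 H) := by
  simp only [gath, List.map_cons, List.map_nil, tb, bits]; simp

theorem gath_lt (src : List ℕ) (m : ℕ) : gath src m < 2 ^ src.length := by
  induction src with
  | nil => simp [gath, bits]
  | cons a l ih =>
    have h : gath (a :: l) m = (m.testBit a).toNat + 2 * gath l m := rfl
    rw [h, List.length_cons, pow_succ]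
    have := Bool.toNat_le (m.testBit a)
    omega

theorem force_eq {β : Type} (k : ℕ → β) (i : ℕ) : force k i = k i := by
  cases i <;> rfl

/-- packed fields of `w` bits -/
def packF (w : ℕ) : List ℕ → ℕ
  | [] => 0
  | a :: l => a + 2 ^ w * packF w l

/-- mask of the source bit `i` in one field -/
def mask1 (i : ℕ) : List ℕ → ℕ
  | [] => 0
  | s :: l => (if s = i then 1 else 0) + 2 * mask1 i l

/-- the masks of the fields `srcs` (`w` bits each), for the source bits `i, i+1, ..., i+n-1` -/
def masksOf (w : ℕ) (srcs : List (List ℕ)) (i : ℕ) : ℕ → List ℕ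
  | 0 => []
  | n + 1 => packF w (srcs.map (mask1 i)) :: masksOf w srcs (i + 1) n

theorem scat_nil (m acc : ℕ) : scat [] m acc = acc := rfl

theorem scat_cons (M : ℕ) (L : List ℕ) (m acc : ℕ) :
    scat (M :: L) m acc = scat L (m / 2) (acc + m % 2 * M) := rfl

theorem packF_add (w : ℕ) (f g : List ℕ → ℕ) (srcs : List (List ℕ)) :
    packF w (srcs.map fun s => f s + g s) = packF w (srcs.map f) + packF w (srcs.map g) := by
  induction srcs with
  | nil => rfl
  | cons s l ih => simp only [List.map_cons, packF, ih]; ring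

theorem packF_mul (w c : ℕ) (f : List ℕ → ℕ) (srcs : List (List ℕ)) :
    packF w (srcs.map fun s => c * f s) = c * packF w (srcs.map f) := by
  induction srcs with
  | nil => rfl
  | cons s l ih => simp only [List.map_cons, packF, ih]; ring

/-- the part of `gath` coming from the sources in `[i, i+n)` -/
def gathR (i n : ℕ) (m : ℕ) : List ℕ → ℕ
  | [] => 0
  | s :: l => (if i ≤ s ∧ s < i + n then (m.testBit (s - i)).toNat else 0) + 2 * gathR i n m l

theorem gathR_zero (i m : ℕ) (l : List ℕ) : gathR i 0 m l = 0 := by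
  induction l with
  | nil => rfl
  | cons s l ih =>
    rw [gathR, ih, if_neg (by omega)]

theorem gathR_succ (i n m : ℕ) (l : List ℕ) :
    gathR i (n + 1) m l = m % 2 * mask1 i l + gathR (i + 1) n (m / 2) l := by
  induction l with
  | nil => rfl
  | cons s l ih =>
    rw [gathR, mask1, gathR, ih]
    have key : (if i ≤ s ∧ s < i + (n + 1) then (m.testBit (s - i)).toNat else 0)
        = m % 2 * (if s = i then 1 else 0)
          + (if i + 1 ≤ s ∧ s < i + 1 + n then ((m / 2).testBit (s - (i + 1))).toNat else 0) := by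
      by_cases h : s = i
      · subst h
        rw [if_pos (by omega), if_pos rfl, if_neg (by omega), Nat.sub_self, Nat.testBit_zero]
        rcases Nat.mod_two_eq_zero_or_one m with h | h <;> simp [h]
      · by_cases h2 : i + 1 ≤ s ∧ s < i + 1 + n
        · rw [if_pos (by omega), if_neg h, if_pos h2]
          have : s - i = (s - (i + 1)) + 1 := by omega
          rw [this, Nat.testBit_succ]; simp
        · rw [if_neg (by omega), if_neg h, if_neg h2]; simp
    rw [key]; ring

theorem gathR_full (n m : ℕ) (l : List ℕ) (hl : ∀ s ∈ l, s < n) : gathR 0 n m l = gath l m := by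
  induction l with
  | nil => rfl
  | cons s l ih =>
    have h : gath (s :: l) m = (m.testBit s).toNat + 2 * gath l m := rfl
    rw [h, gathR, ih (fun t ht => hl t (List.mem_cons_of_mem _ ht)),
      if_pos ⟨Nat.zero_le _, by simpa using hl s List.mem_cons_self⟩, Nat.sub_zero]

theorem scat_masksOf_aux (w : ℕ) (srcs : List (List ℕ)) (n : ℕ) : ∀ (i m acc : ℕ),
    scat (masksOf w srcs i n) m acc = acc + packF w (srcs.map (gathR i n m)) := by
  induction n with
  | zero =>
    intro i m acc
    have h : packF w (srcs.map (gathR i 0 m)) = 0 := by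
      induction srcs with
      | nil => rfl
      | cons s l ih => rw [List.map_cons, packF, ih, gathR_zero]; simp
    rw [h]; rfl
  | succ n ih =>
    intro i m acc
    rw [masksOf, scat_cons, ih]
    have : srcs.map (gathR i (n + 1) m)
        = srcs.map (fun s => m % 2 * mask1 i s + gathR (i + 1) n (m / 2) s) :=
      List.map_congr_left fun s _ => gathR_succ i n m s
    rw [this, packF_add, packF_mul]; ring

theorem scat_masksOf (w : ℕ) (srcs : List (List ℕ)) (n m : ℕ)
    (h : ∀ s ∈ srcs, ∀ t ∈ s, t < n) :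
    scat (masksOf w srcs 0 n) m 0 = packF w (srcs.map fun s => gath s m) := by
  rw [scat_masksOf_aux, Nat.zero_add]
  congr 1
  exact List.map_congr_left fun s hs => gathR_full n m s (h s hs)

/-- reading the first field -/
theorem packF_mod (w a : ℕ) (l : List ℕ) (ha : a < 2 ^ w) : packF w (a :: l) % 2 ^ w = a := by
  rw [packF, Nat.add_mul_mod_self_left, Nat.mod_eq_of_lt ha]

theorem packF_div (w a : ℕ) (l : List ℕ) (ha : a < 2 ^ w) :
    packF w (a :: l) / 2 ^ w = packF w l := by
  rw [packF, Nat.add_mul_div_left _ _ (by positivity), Nat.div_eq_of_lt ha, Nat.zero_add]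

end K4m.Ev
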