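import Mathlib
import Pool.Agent.Lib.MP_392c14_co.Ev.Base

/-! Codes of the labelled `K_4^-`-free 3-graphs on 5 vertices, and relabelling of codes. -/

set_option autoImplicit false

namespace K4m.Ev

/-- the 253 codes -/
def lab5 : List ℕ :=
  [0, 1, 2, 3, 4, 5, 6, 8, 9, 10, 12, 16, 17, 18, 19, 20, 21, 22, 24, 25, 26, 28, 32, 33, 34, 35,
  36, 37, 38, 40, 41, 42, 44, 48, 50, 52, 54, 56, 58, 60, 64, 65, 66, 67, 68, 69, 70, 72, 73, 74,
  76, 80, 82, 84, 86, 88, 90, 92, 96, 98, 100, 102, 104, 106, 108, 128, 129, 130, 131, 132, 133,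
  134, 136, 137, 138, 140, 144, 145, 148, 149, 152, 153, 156, 160, 161, 162, 163, 168, 169, 170,
  176, 184, 192, 193, 194, 195, 196, 197, 198, 200, 201, 202, 204, 208, 212, 216, 220, 224, 226,
  232, 234, 256, 257, 258, 259, 260, 261, 262, 264, 265, 266, 268, 272, 273, 276, 277, 280, 281,
  284, 288, 289, 290, 291, 292, 293, 294, 296, 297, 298, 300, 304, 308, 312, 316, 320, 321, 322,
  323, 324, 325, 326, 336, 340, 352, 354, 356, 358, 384, 385, 388, 389, 392, 393, 396, 416, 417,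
  424, 425, 448, 449, 452, 453, 480, 512, 513, 514, 515, 516, 517, 518, 520, 521, 522, 524, 528,
  529, 530, 531, 532, 533, 534, 536, 537, 538, 540, 544, 545, 546, 547, 552, 553, 554, 560, 562,
  568, 570, 576, 577, 578, 579, 580, 581, 582, 592, 594, 596, 598, 608, 610, 640, 641, 642, 643,
  648, 649, 650, 656, 657, 664, 665, 704, 705, 706, 707, 720, 768, 769, 770, 771, 772, 773, 774,
  784, 785, 788, 789, 800, 801, 802, 803, 816, 896, 897]

/-- relabelling of a code: `code5 (K.pull τ) = act τ (code5 K)` -/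
noncomputable def act (τ : Fin 5 → Fin 5) (c : ℕ) : ℕ :=
  gath [C.tid (τ 0) (τ 1) (τ 2), C.tid (τ 0) (τ 1) (τ 3), C.tid (τ 0) (τ 2) (τ 3),
    C.tid (τ 1) (τ 2) (τ 3), C.tid (τ 0) (τ 1) (τ 4), C.tid (τ 0) (τ 2) (τ 4),
    C.tid (τ 1) (τ 2) (τ 4), C.tid (τ 0) (τ 3) (τ 4), C.tid (τ 1) (τ 3) (τ 4),
    C.tid (τ 2) (τ 3) (τ 4)] c

theorem tid5 : ∀ x y z : Fin 5, C.tid x y z < 10 ∨ C.tid x y z = 63 := by decide +kernel

theorem code5_testBit (K : TG (Fin 5)) (n : ℕ) (hn : n < 10 ∨ n = 63) :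
    (code5 K).testBit n = (code7 (K.pull ![0, 1, 2, 3, 4, 0, 0])).testBit n := by
  have h1 : code5 K = bits [K.E 0 1 2, K.E 0 1 3, K.E 0 2 3, K.E 1 2 3,
    K.E 0 1 4, K.E 0 2 4, K.E 1 2 4, K.E 0 3 4, K.E 1 3 4, K.E 2 3 4] := rfl
  rcases hn with h | h
  · rw [h1, testBit_bits, code7, testBit_bits]
    interval_cases n <;> rfl
  · subst h
    rw [h1, testBit_bits, testBit_code7_ge _ 63 (by norm_num)]
    rfl

theorem tb5 (K : TG (Fin 5)) (x y z : Fin 5) :
    (code5 K).testBit (C.tid x y z) = K.E x y z := by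
  rw [code5_testBit K _ (tid5 x y z)]
  have h := tb (K.pull ![0, 1, 2, 3, 4, 0, 0]) (x.castLE (by norm_num)) (y.castLE (by norm_num))
    (z.castLE (by norm_num))
  have e : ∀ t : Fin 5, (![0, 1, 2, 3, 4, 0, 0] : Fin 7 → Fin 5) (t.castLE (by norm_num)) = t := by
    decide
  simp only [Fin.val_castLE] at h
  rw [h]
  show K.E _ _ _ = _
  rw [e, e, e]

theorem code5_pull5 (K : TG (Fin 5)) (τ : Fin 5 → Fin 5) :
    code5 (K.pull τ) = act τ (code5 K) := by
  simp only [act, gath, List.map_cons, List.map_nil, tb5]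
  rfl

theorem code5_lt (K : TG (Fin 5)) : code5 K < 1024 := by
  have h : code5 K = act id (code5 K) := by
    rw [← code5_pull5]; rfl
  rw [h]
  exact gath_lt _ _

theorem lab5_aux : ∀ b0 b1 b2 b3 b4 b5 b6 b7 b8 b9 : Bool,
    (!(b0 && b1 && b2) && !(b0 && b1 && b3) && !(b0 && b2 && b3) && !(b1 && b2 && b3)) = true →
    (!(b0 && b4 && b5) && !(b0 && b4 && b6) && !(b0 && b5 && b6) && !(b4 && b5 && b6)) = true →
    (!(b1 && b4 && b7) && !(b1 && b4 && b8) && !(b1 && b7 && b8) && !(b4 && b7 && b8)) = true →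
    (!(b2 && b5 && b7) && !(b2 && b5 && b9) && !(b2 && b7 && b9) && !(b5 && b7 && b9)) = true →
    (!(b3 && b6 && b8) && !(b3 && b6 && b9) && !(b3 && b8 && b9) && !(b6 && b8 && b9)) = true →
    bits [b0, b1, b2, b3, b4, b5, b6, b7, b8, b9] ∈ lab5 := by
  decide +kernel

theorem free4 {V : Type} (K : TG V) (a b c d : V) :
    (!(K.E a b c && K.E a b d && K.E a c d) && !(K.E a b c && K.E a b d && K.E b c d) &&
     !(K.E a b c && K.E a c d && K.E b c d) && !(K.E a b d && K.E a c d && K.E b c d)) = true := by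
  have h1 := K.free a b c d
  have h2 := K.free b a c d
  have h3 := K.free c a b d
  have h4 := K.free d a b c
  rw [K.symm₁ a b c, K.symm₁ a b d] at h2
  rw [K.symm₁ a c b, K.symm₂ a b c, K.symm₁ a c d, K.symm₁ b c d] at h3
  rw [K.symm₁ a d b, K.symm₂ a b d, K.symm₁ a d c, K.symm₂ a c d, K.symm₁ b d c,
    K.symm₂ b c d] at h4
  cases hA : K.E a b c <;> cases hB : K.E a b d <;> cases hC : K.E a c d <;>
    cases hD : K.E b c d <;> simp_all

theorem code5_mem (K : TG (Fin 5)) : code5 K ∈ lab5 :=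
  lab5_aux (K.E 0 1 2) (K.E 0 1 3) (K.E 0 2 3) (K.E 1 2 3)
    (K.E 0 1 4) (K.E 0 2 4) (K.E 1 2 4) (K.E 0 3 4) (K.E 1 3 4) (K.E 2 3 4)
    (free4 K 0 1 2 3) (free4 K 0 1 2 4) (free4 K 0 1 3 4) (free4 K 0 2 3 4) (free4 K 1 2 3 4)

end K4m.Ev
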