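import Mathlib

/-! Sums over `Perm (Fin 7)` by coset representatives. -/

set_option autoImplicit false

namespace K4m.Ev

theorem sum_flatMap {R α : Type} [AddCommMonoid R] (L : List α) (g : α → List R) :
    (L.flatMap g).sum = (L.map fun a => (g a).sum).sum := by
  induction L with
  | nil => rfl
  | cons a l ih => rw [List.flatMap_cons, List.sum_append, ih, List.map_cons, List.sum_cons]

/-- general form: `inv` separates the representatives and does not see `K` -/
theorem sum_cosets_gen {R α : Type} [AddCommMonoid R] (inv : Equiv.Perm (Fin 7) → α)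
    (S K : List (Equiv.Perm (Fin 7)))
    (hS : (S.map inv).Nodup) (hK : K.Nodup)
    (hb : ∀ k ∈ K, ∀ s, inv (s * k) = inv s) (hc : S.length * K.length = 5040)
    (f : Equiv.Perm (Fin 7) → R) :
    ∑ σ, f σ = (S.map fun s => (K.map fun k => f (s * k)).sum).sum := by
  have hinj : ∀ s ∈ S, ∀ s' ∈ S, inv s = inv s' → s = s' := by
    intro s hs s' hs' h
    exact List.inj_on_of_nodup_map hS hs hs' h
  have hSn : S.Nodup := List.Nodup.of_map _ hS
  set L : List (Equiv.Perm (Fin 7)) := S.flatMap fun s => K.map fun k => s * k with hL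
  have hLn : L.Nodup := by
    rw [hL, List.nodup_flatMap]
    refine ⟨fun s _ => hK.map (fun a b h => mul_left_cancel h), ?_⟩
    refine List.Nodup.pairwise_of_forall_ne hSn ?_
    intro a ha b hb' hab
    intro x hx hy
    simp only [List.mem_map] at hx hy
    obtain ⟨k, hk, rfl⟩ := hx
    obtain ⟨k', hk', h⟩ := hy
    apply hab
    apply hinj a ha b hb'
    rw [← hb k hk a, ← hb k' hk' b, h]
  have hlen : L.length = 5040 := by
    rw [hL, List.length_flatMap]
    simp only [List.length_map, List.map_const', List.sum_replicate, smul_eq_mul]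
    exact hc
  have hF : (⟨(L : Multiset _), Multiset.coe_nodup.2 hLn⟩ : Finset (Equiv.Perm (Fin 7)))
      = Finset.univ := by
    apply Finset.eq_univ_of_card
    rw [Finset.card_mk, Multiset.coe_card, hlen, Fintype.card_perm, Fintype.card_fin]
    rfl
  rw [← hF, Finset.sum_mk, Multiset.map_coe, Multiset.sum_coe, hL, List.map_flatMap,
    sum_flatMap]
  simp only [List.map_map, Function.comp_def]

theorem sum_cosets {R : Type} [AddCommMonoid R] (beta : Fin 7 → Fin 3)
    (S K : List (Equiv.Perm (Fin 7)))
    (hS : (S.map fun s => (fun x => beta (s.symm x))).Nodup) (hK : K.Nodup)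
    (hb : ∀ k ∈ K, ∀ x, beta (k x) = beta x) (hc : S.length * K.length = 5040)
    (f : Equiv.Perm (Fin 7) → R) :
    ∑ σ, f σ = (S.map fun s => (K.map fun k => f (s * k)).sum).sum := by
  refine sum_cosets_gen (fun s => (fun x => beta (s.symm x))) S K hS hK ?_ hc f
  intro k hk s
  funext x
  have h : (s * k).symm x = k.symm (s.symm x) := rfl
  rw [h]
  have := hb k hk (k.symm (s.symm x))
  rw [Equiv.apply_symm_apply] at this
  exact this.symm

end K4m.Ev
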