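import Mathlib
import Pool.Agent.Lib.MP_392c14_co.Ev.Base
import Pool.Agent.Lib.MP_392c14_co.Ev.Coset

set_option autoImplicit false

namespace K4m.Ev

/-- the vector coded by `s` (3 bits per entry) -/
def vec (s : ℕ) (i : Fin 7) : Fin 7 := Fin.ofNat 7 (Nat.land (Nat.shiftRight s (Nat.mul 3 i)) 7)

theorem vec_val (s : ℕ) (h : C.isPerm s = true) (i : Fin 7) :
    ((vec s i : Fin 7) : ℕ) = C.dg s (3 * (i : ℕ)) := by
  obtain ⟨σ, hσ⟩ := isPerm_sound s h
  have h1 : C.dg s (3 * (i : ℕ)) < 7 := by rw [← hσ]; exact (σ i).2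
  show C.dg s (3 * (i : ℕ)) % 7 = _
  exact Nat.mod_eq_of_lt h1

/-- the permutation coded by `s` -/
noncomputable def toP (s : ℕ) : Equiv.Perm (Fin 7) :=
  if h : C.isPerm s = true then (isPerm_sound s h).choose else 1

theorem toP_apply (s : ℕ) (h : C.isPerm s = true) (i : Fin 7) : toP s i = vec s i := by
  apply Fin.ext
  rw [vec_val s h, toP, dif_pos h]
  exact (isPerm_sound s h).choose_spec i

/-- key of a permutation: adjacency matrix of the image of the coloured graph `β` -/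
def pkey (β : Fin 7 → Fin 7 → ℕ) (σ : Fin 7 → Fin 7) : ℕ :=
  ∑ i : Fin 7, ∑ j : Fin 7, β i j * 2 ^ (7 * (σ i : ℕ) + (σ j : ℕ))

theorem pkey_mul (β : Fin 7 → Fin 7 → ℕ) (s k : Equiv.Perm (Fin 7))
    (hk : ∀ i j, β (k i) (k j) = β i j) : pkey β (s * k : Equiv.Perm (Fin 7)) = pkey β s := by
  unfold pkey
  rw [← Equiv.sum_comp k (fun i => ∑ j : Fin 7, β i j * 2 ^ (7 * (s i : ℕ) + (s j : ℕ)))]
  refine Finset.sum_congr rfl fun i _ => ?_
  rw [← Equiv.sum_comp k (fun j => β (k i) j * 2 ^ (7 * (s (k i) : ℕ) + (s j : ℕ)))]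
  refine Finset.sum_congr rfl fun j _ => ?_
  rw [hk]; rfl

/-- code of a permutation -/
def enc (σ : Fin 7 → Fin 7) : ℕ := ∑ i : Fin 7, (σ i : ℕ) * 8 ^ (i : ℕ)

/-- `f` is invariant under right multiplication by `a` -/
def RInv {R : Type} (f : Equiv.Perm (Fin 7) → R) (a : Equiv.Perm (Fin 7)) : Prop :=
  ∀ σ, f (σ * a) = f σ

theorem RInv.one {R : Type} (f : Equiv.Perm (Fin 7) → R) : RInv f 1 := fun σ => by rw [mul_one]

theorem RInv.mul {R : Type} {f : Equiv.Perm (Fin 7) → R} {a b : Equiv.Perm (Fin 7)}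
    (ha : RInv f a) (hb : RInv f b) : RInv f (a * b) := fun σ => by
  rw [← mul_assoc, hb, ha]

/-- products of the elements of two lists -/
def pr (A B : List (Equiv.Perm (Fin 7))) : List (Equiv.Perm (Fin 7)) :=
  A.flatMap fun a => B.map fun b => a * b

theorem RInv.pr {R : Type} {f : Equiv.Perm (Fin 7) → R} {A B : List (Equiv.Perm (Fin 7))}
    (ha : ∀ a ∈ A, RInv f a) (hb : ∀ b ∈ B, RInv f b) : ∀ c ∈ pr A B, RInv f c := by
  intro c hc
  simp only [Ev.pr, List.mem_flatMap, List.mem_map] at hc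
  obtain ⟨a, h1, b, h2, rfl⟩ := hc
  exact (ha a h1).mul (hb b h2)

/-- `a` preserves the coloured graph `β` -/
def Pres (β : Fin 7 → Fin 7 → ℕ) (a : Equiv.Perm (Fin 7)) : Prop :=
  ∀ i j, β (a i) (a j) = β i j

theorem Pres.one (β : Fin 7 → Fin 7 → ℕ) : Pres β 1 := fun _ _ => rfl

theorem Pres.mul {β : Fin 7 → Fin 7 → ℕ} {a b : Equiv.Perm (Fin 7)}
    (ha : Pres β a) (hb : Pres β b) : Pres β (a * b) := fun i j => by
  rw [Equiv.Perm.mul_apply, Equiv.Perm.mul_apply, ha, hb]

theorem Pres.pr {β : Fin 7 → Fin 7 → ℕ} {A B : List (Equiv.Perm (Fin 7))}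
    (ha : ∀ a ∈ A, Pres β a) (hb : ∀ b ∈ B, Pres β b) : ∀ c ∈ pr A B, Pres β c := by
  intro c hc
  simp only [Ev.pr, List.mem_flatMap, List.mem_map] at hc
  obtain ⟨a, h1, b, h2, rfl⟩ := hc
  exact (ha a h1).mul (hb b h2)

/-- the six elements of a symmetric group on three letters -/
def six (a b : Equiv.Perm (Fin 7)) : List (Equiv.Perm (Fin 7)) :=
  [1, a, b, a * b, b * a, a * b * a]

/-- the 24 elements of a symmetric group on four letters -/
def tf (a b c : Equiv.Perm (Fin 7)) : List (Equiv.Perm (Fin 7)) :=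
  pr (six a b) [1, c, c * b, c * b * a]

theorem RInv.six {R : Type} {f : Equiv.Perm (Fin 7) → R} {a b : Equiv.Perm (Fin 7)}
    (ha : RInv f a) (hb : RInv f b) : ∀ c ∈ six a b, RInv f c := by
  intro c hc
  simp only [Ev.six, List.mem_cons, List.not_mem_nil, or_false] at hc
  rcases hc with rfl | rfl | rfl | rfl | rfl | rfl
  exacts [RInv.one f, ha, hb, ha.mul hb, hb.mul ha, (ha.mul hb).mul ha]

theorem Pres.six {β : Fin 7 → Fin 7 → ℕ} {a b : Equiv.Perm (Fin 7)}
    (ha : Pres β a) (hb : Pres β b) : ∀ c ∈ six a b, Pres β c := by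
  intro c hc
  simp only [Ev.six, List.mem_cons, List.not_mem_nil, or_false] at hc
  rcases hc with rfl | rfl | rfl | rfl | rfl | rfl
  exacts [Pres.one β, ha, hb, ha.mul hb, hb.mul ha, (ha.mul hb).mul ha]

theorem RInv.tf {R : Type} {f : Equiv.Perm (Fin 7) → R} {a b c : Equiv.Perm (Fin 7)}
    (ha : RInv f a) (hb : RInv f b) (hc : RInv f c) : ∀ d ∈ tf a b c, RInv f d := by
  refine RInv.pr (RInv.six ha hb) ?_
  intro d hd
  simp only [List.mem_cons, List.not_mem_nil, or_false] at hd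
  rcases hd with rfl | rfl | rfl | rfl
  exacts [RInv.one f, hc, hc.mul hb, (hc.mul hb).mul ha]

theorem Pres.tf {β : Fin 7 → Fin 7 → ℕ} {a b c : Equiv.Perm (Fin 7)}
    (ha : Pres β a) (hb : Pres β b) (hc : Pres β c) : ∀ d ∈ tf a b c, Pres β d := by
  refine Pres.pr (Pres.six ha hb) ?_
  intro d hd
  simp only [List.mem_cons, List.not_mem_nil, or_false] at hd
  rcases hd with rfl | rfl | rfl | rfl
  exacts [Pres.one β, hc, hc.mul hb, (hc.mul hb).mul ha]

theorem RInv.two {R : Type} {f : Equiv.Perm (Fin 7) → R} {a : Equiv.Perm (Fin 7)}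
    (ha : RInv f a) : ∀ c ∈ [1, a], RInv f c := by
  intro c hc
  simp only [List.mem_cons, List.not_mem_nil, or_false] at hc
  rcases hc with rfl | rfl
  exacts [RInv.one f, ha]

theorem Pres.two {β : Fin 7 → Fin 7 → ℕ} {a : Equiv.Perm (Fin 7)}
    (ha : Pres β a) : ∀ c ∈ [1, a], Pres β c := by
  intro c hc
  simp only [List.mem_cons, List.not_mem_nil, or_false] at hc
  rcases hc with rfl | rfl
  exacts [Pres.one β, ha]

/-- sum over the symmetric group, representatives coded by numbers -/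
theorem sum_codes {R : Type} [AddCommMonoid R] (β : Fin 7 → Fin 7 → ℕ) (S : List ℕ)
    (K : List (Equiv.Perm (Fin 7)))
    (hp : ∀ s ∈ S, C.isPerm s = true) (hS : (S.map fun s => pkey β (vec s)).Nodup)
    (hK : (K.map fun k : Equiv.Perm (Fin 7) => enc k).Nodup)
    (hb : ∀ k ∈ K, ∀ i j, β (k i) (k j) = β i j)
    (hc : S.length * K.length = 5040) (f : Equiv.Perm (Fin 7) → R) :
    ∑ σ, f σ = (S.map fun s => (K.map fun k => f (toP s * k)).sum).sum := by
  have h := sum_cosets_gen (fun σ : Equiv.Perm (Fin 7) => pkey β σ) (S.map toP) K ?_ ?_ ?_ ?_ f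
  · rw [h, List.map_map]; rfl
  · rw [List.map_map]
    have : S.map ((fun σ : Equiv.Perm (Fin 7) => pkey β σ) ∘ toP)
        = S.map fun s => pkey β (vec s) := by
      refine List.map_congr_left fun s hs => ?_
      show pkey β (toP s) = _
      congr 1
      funext i
      exact toP_apply s (hp s hs) i
    rw [this]; exact hS
  · exact List.Nodup.of_map _ hK
  · intro k hk s
    exact pkey_mul β s k (hb k hk)
  · rw [List.length_map]; exact hc

/-- the same for a function invariant under `K` -/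
theorem sum_codes_inv (β : Fin 7 → Fin 7 → ℕ) (S : List ℕ) (K : List (Equiv.Perm (Fin 7)))
    (hp : ∀ s ∈ S, C.isPerm s = true) (hS : (S.map fun s => pkey β (vec s)).Nodup)
    (hK : (K.map fun k : Equiv.Perm (Fin 7) => enc k).Nodup)
    (hb : ∀ k ∈ K, ∀ i j, β (k i) (k j) = β i j)
    (hc : S.length * K.length = 5040) (f : Equiv.Perm (Fin 7) → ℤ)
    (hf : ∀ k ∈ K, RInv f k) :
    ∑ σ, f σ = (K.length : ℤ) * (S.map fun s => f (toP s)).sum := by
  rw [sum_codes β S K hp hS hK hb hc f, ← List.sum_map_mul_left]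
  congr 1
  refine List.map_congr_left fun s _ => ?_
  have : K.map (fun k => f (toP s * k)) = K.map (fun _ => f (toP s)) :=
    List.map_congr_left fun k hk => hf k hk (toP s)
  rw [this, List.map_const', List.sum_replicate, nsmul_eq_mul]

end K4m.Ev
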