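import Mathlib
import Pool.Agent.Lib.MP_392c14_co.Ev.PermC
import Pool.Agent.Lib.MP_392c14_co.Ev.Lab5
import Pool.Agent.Lib.MP_392c14_co.Ev.QL3

/-! The SOS term with three roots. -/

set_option autoImplicit false
set_option maxRecDepth 100000

namespace K4m.Ev

/-- representatives: root set and splitting of the remaining four vertices -/
def S3 : List ℕ :=
  [1754760, 1726088, 1468040, 1754312, 1725640, 1467592, 1750280, 1692936, 1434888, 1717576,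
  1688904, 1172808, 1455496, 1426824, 1168776, 1753808, 1725136, 1467088, 1749776, 1692432, 1434384,
  1717072, 1688400, 1172304, 1454992, 1426320, 1168272, 1745688, 1659672, 1401624, 1712984, 1655640,
  1139544, 1450904, 1393560, 1135512, 1680224, 1651552, 877408, 1418144, 1389472, 873376, 1156008,
  1127336, 869288, 1753297, 1724625, 1466577, 1749265, 1691921, 1433873, 1716561, 1687889, 1171793,
  1454481, 1425809, 1167761, 1745177, 1659161, 1401113, 1712473, 1655129, 1139033, 1450393, 1393049,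
  1135001, 1679713, 1651041, 876897, 1417633, 1388961, 872865, 1155497, 1126825, 868777, 1741082,
  1626394, 1368346, 1708378, 1622362, 1106266, 1446298, 1360282, 1102234, 1675618, 1618274, 844130,
  1413538, 1356194, 840098, 1151402, 1094058, 836010, 1642851, 1614179, 581987, 1380771, 1352099,
  577955, 1118635, 1089963, 573867, 856492, 827820, 569772]

def S3keys : List ℕ :=
  [425517492847495, 353239669261191, 318321652253575, 425516392056203, 353102169965963,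
  300729339282827, 425516125587859, 317901551241619, 300446737566099, 353067811934627,
  317867459678627, 300276247499171, 296331293958595, 296048958710211, 295912560206275,
  425515859265805, 353033454309645, 291933249560845, 425516658410773, 317833368391957,
  291651180650773, 353136527623461, 317935642560805, 291548873449765, 305127383713093,
  304844515658053, 304639934288197, 425517763363609, 300242158293273, 291514784227609,
  353274031080233, 300480830966057, 291685274034473, 322719700845385, 322299331414345,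
  322231148548425, 318356280410929, 300763965359409, 291967875621169, 357637984191313,
  357500482815313, 357431767142737, 429949899080545, 429948796208481, 429948263401825,
  425515592943377, 352999096682273, 287535205156673, 425516924766985, 317799277103905,
  287253402585921, 353170885284617, 317969733882641, 287185186689857, 309525428151049,
  309242293756689, 309003621081889, 425518033882373, 300208069086497, 287117008244033,
  353308392903941, 300514924369169, 287321589355841, 327117749445893, 326697111594257,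
  326594837423393, 318390908573957, 300798591441161, 287604457281857, 362036299131141,
  361898795673865, 361795722357025, 434382305325317, 434381200371977, 434380401226001,
  425518575321475, 291412516479265, 287048829702465, 353377117208963, 291787554627857,
  287389776546113, 335913847816579, 335424489984273, 335390398679329, 318460165685635,
  292071754506505, 287673710085441, 370832930308483, 370626706870537, 370592349226273,
  443247119368579, 443245477300489, 443245210961169, 301006459044227, 292210364997893,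
  287812318495553, 388288851018115, 388220131037445, 388185771311905, 460975837086083,
  460975299971333, 460975031550737, 496459590074755, 496459585766661, 496459583685385]

/-- the fields: codes on the first five vertices and on the vertices 0, 1, 2, 5, 6 -/
def src3 : List (List ℕ) :=
  [[0, 1, 2, 3, 4, 5, 6, 7, 8, 9], [0, 10, 11, 12, 20, 21, 22, 30, 31, 32], [0, 1, 2, 3, 10, 11, 12,
  13, 14, 15], [0, 4, 5, 6, 20, 21, 22, 26, 27, 28], [0, 1, 2, 3, 20, 21, 22, 23, 24, 25], [0, 4, 5,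
  6, 10, 11, 12, 16, 17, 18], [1, 0, 2, 3, 4, 7, 8, 5, 6, 9], [1, 10, 13, 14, 20, 23, 24, 30, 31,
  33], [1, 0, 2, 3, 10, 13, 14, 11, 12, 15], [1, 4, 7, 8, 20, 23, 24, 26, 27, 29], [1, 0, 2, 3, 20,
  23, 24, 21, 22, 25], [1, 4, 7, 8, 10, 13, 14, 16, 17, 19], [4, 0, 5, 6, 1, 7, 8, 2, 3, 9], [4, 10,
  16, 17, 20, 26, 27, 30, 31, 34], [4, 0, 5, 6, 10, 16, 17, 11, 12, 18], [4, 1, 7, 8, 20, 26, 27,
  23, 24, 29], [4, 0, 5, 6, 20, 26, 27, 21, 22, 28], [4, 1, 7, 8, 10, 16, 17, 13, 14, 19], [10, 0,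
  11, 12, 1, 13, 14, 2, 3, 15], [10, 4, 16, 17, 20, 30, 31, 26, 27, 34], [10, 0, 11, 12, 4, 16, 17,
  5, 6, 18], [10, 1, 13, 14, 20, 30, 31, 23, 24, 33], [10, 0, 11, 12, 20, 30, 31, 21, 22, 32], [10,
  1, 13, 14, 4, 16, 17, 7, 8, 19], [20, 0, 21, 22, 1, 23, 24, 2, 3, 25], [20, 4, 26, 27, 10, 30, 31,
  16, 17, 34], [20, 0, 21, 22, 4, 26, 27, 5, 6, 28], [20, 1, 23, 24, 10, 30, 31, 13, 14, 33], [20,
  0, 21, 22, 10, 30, 31, 11, 12, 32], [20, 1, 23, 24, 4, 26, 27, 7, 8, 29], [2, 0, 1, 3, 5, 7, 9, 4,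
  6, 8], [2, 11, 13, 15, 21, 23, 25, 30, 32, 33], [2, 0, 1, 3, 11, 13, 15, 10, 12, 14], [2, 5, 7, 9,
  21, 23, 25, 26, 28, 29], [2, 0, 1, 3, 21, 23, 25, 20, 22, 24], [2, 5, 7, 9, 11, 13, 15, 16, 18,
  19], [5, 0, 4, 6, 2, 7, 9, 1, 3, 8], [5, 11, 16, 18, 21, 26, 28, 30, 32, 34], [5, 0, 4, 6, 11, 16,
  18, 10, 12, 17], [5, 2, 7, 9, 21, 26, 28, 23, 25, 29], [5, 0, 4, 6, 21, 26, 28, 20, 22, 27], [5,
  2, 7, 9, 11, 16, 18, 13, 15, 19], [11, 0, 10, 12, 2, 13, 15, 1, 3, 14], [11, 5, 16, 18, 21, 30,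
  32, 26, 28, 34], [11, 0, 10, 12, 5, 16, 18, 4, 6, 17], [11, 2, 13, 15, 21, 30, 32, 23, 25, 33],
  [11, 0, 10, 12, 21, 30, 32, 20, 22, 31], [11, 2, 13, 15, 5, 16, 18, 7, 9, 19], [21, 0, 20, 22, 2,
  23, 25, 1, 3, 24], [21, 5, 26, 28, 11, 30, 32, 16, 18, 34], [21, 0, 20, 22, 5, 26, 28, 4, 6, 27],
  [21, 2, 23, 25, 11, 30, 32, 13, 15, 33], [21, 0, 20, 22, 11, 30, 32, 10, 12, 31], [21, 2, 23, 25,
  5, 26, 28, 7, 9, 29], [7, 1, 4, 8, 2, 5, 9, 0, 3, 6], [7, 13, 16, 19, 23, 26, 29, 30, 33, 34], [7,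
  1, 4, 8, 13, 16, 19, 10, 14, 17], [7, 2, 5, 9, 23, 26, 29, 21, 25, 28], [7, 1, 4, 8, 23, 26, 29,
  20, 24, 27], [7, 2, 5, 9, 13, 16, 19, 11, 15, 18], [13, 1, 10, 14, 2, 11, 15, 0, 3, 12], [13, 7,
  16, 19, 23, 30, 33, 26, 29, 34], [13, 1, 10, 14, 7, 16, 19, 4, 8, 17], [13, 2, 11, 15, 23, 30, 33,
  21, 25, 32], [13, 1, 10, 14, 23, 30, 33, 20, 24, 31], [13, 2, 11, 15, 7, 16, 19, 5, 9, 18], [23,
  1, 20, 24, 2, 21, 25, 0, 3, 22], [23, 7, 26, 29, 13, 30, 33, 16, 19, 34], [23, 1, 20, 24, 7, 26,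
  29, 4, 8, 27], [23, 2, 21, 25, 13, 30, 33, 11, 15, 32], [23, 1, 20, 24, 13, 30, 33, 10, 14, 31],
  [23, 2, 21, 25, 7, 26, 29, 5, 9, 28], [16, 4, 10, 17, 5, 11, 18, 0, 6, 12], [16, 7, 13, 19, 26,
  30, 34, 23, 29, 33], [16, 4, 10, 17, 7, 13, 19, 1, 8, 14], [16, 5, 11, 18, 26, 30, 34, 21, 28,
  32], [16, 4, 10, 17, 26, 30, 34, 20, 27, 31], [16, 5, 11, 18, 7, 13, 19, 2, 9, 15], [26, 4, 20,
  27, 5, 21, 28, 0, 6, 22], [26, 7, 23, 29, 16, 30, 34, 13, 19, 33], [26, 4, 20, 27, 7, 23, 29, 1,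
  8, 24], [26, 5, 21, 28, 16, 30, 34, 11, 18, 32], [26, 4, 20, 27, 16, 30, 34, 10, 17, 31], [26, 5,
  21, 28, 7, 23, 29, 2, 9, 25], [30, 10, 20, 31, 11, 21, 32, 0, 12, 22], [30, 13, 23, 33, 16, 26,
  34, 7, 19, 29], [30, 10, 20, 31, 13, 23, 33, 1, 14, 24], [30, 11, 21, 32, 16, 26, 34, 5, 18, 28],
  [30, 10, 20, 31, 16, 26, 34, 4, 17, 27], [30, 11, 21, 32, 13, 23, 33, 2, 15, 25], [3, 0, 1, 2, 6,
  8, 9, 4, 5, 7], [3, 12, 14, 15, 22, 24, 25, 31, 32, 33], [3, 0, 1, 2, 12, 14, 15, 10, 11, 13], [3,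
  6, 8, 9, 22, 24, 25, 27, 28, 29], [3, 0, 1, 2, 22, 24, 25, 20, 21, 23], [3, 6, 8, 9, 12, 14, 15,
  17, 18, 19], [6, 0, 4, 5, 3, 8, 9, 1, 2, 7], [6, 12, 17, 18, 22, 27, 28, 31, 32, 34], [6, 0, 4, 5,
  12, 17, 18, 10, 11, 16], [6, 3, 8, 9, 22, 27, 28, 24, 25, 29], [6, 0, 4, 5, 22, 27, 28, 20, 21,
  26], [6, 3, 8, 9, 12, 17, 18, 14, 15, 19], [12, 0, 10, 11, 3, 14, 15, 1, 2, 13], [12, 6, 17, 18,
  22, 31, 32, 27, 28, 34], [12, 0, 10, 11, 6, 17, 18, 4, 5, 16], [12, 3, 14, 15, 22, 31, 32, 24, 25,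
  33], [12, 0, 10, 11, 22, 31, 32, 20, 21, 30], [12, 3, 14, 15, 6, 17, 18, 8, 9, 19], [22, 0, 20,
  21, 3, 24, 25, 1, 2, 23], [22, 6, 27, 28, 12, 31, 32, 17, 18, 34], [22, 0, 20, 21, 6, 27, 28, 4,
  5, 26], [22, 3, 24, 25, 12, 31, 32, 14, 15, 33], [22, 0, 20, 21, 12, 31, 32, 10, 11, 30], [22, 3,
  24, 25, 6, 27, 28, 8, 9, 29], [8, 1, 4, 7, 3, 6, 9, 0, 2, 5], [8, 14, 17, 19, 24, 27, 29, 31, 33,
  34], [8, 1, 4, 7, 14, 17, 19, 10, 13, 16], [8, 3, 6, 9, 24, 27, 29, 22, 25, 28], [8, 1, 4, 7, 24,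
  27, 29, 20, 23, 26], [8, 3, 6, 9, 14, 17, 19, 12, 15, 18], [14, 1, 10, 13, 3, 12, 15, 0, 2, 11],
  [14, 8, 17, 19, 24, 31, 33, 27, 29, 34], [14, 1, 10, 13, 8, 17, 19, 4, 7, 16], [14, 3, 12, 15, 24,
  31, 33, 22, 25, 32], [14, 1, 10, 13, 24, 31, 33, 20, 23, 30], [14, 3, 12, 15, 8, 17, 19, 6, 9,
  18], [24, 1, 20, 23, 3, 22, 25, 0, 2, 21], [24, 8, 27, 29, 14, 31, 33, 17, 19, 34], [24, 1, 20,
  23, 8, 27, 29, 4, 7, 26], [24, 3, 22, 25, 14, 31, 33, 12, 15, 32], [24, 1, 20, 23, 14, 31, 33, 10,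
  13, 30], [24, 3, 22, 25, 8, 27, 29, 6, 9, 28], [17, 4, 10, 16, 6, 12, 18, 0, 5, 11], [17, 8, 14,
  19, 27, 31, 34, 24, 29, 33], [17, 4, 10, 16, 8, 14, 19, 1, 7, 13], [17, 6, 12, 18, 27, 31, 34, 22,
  28, 32], [17, 4, 10, 16, 27, 31, 34, 20, 26, 30], [17, 6, 12, 18, 8, 14, 19, 3, 9, 15], [27, 4,
  20, 26, 6, 22, 28, 0, 5, 21], [27, 8, 24, 29, 17, 31, 34, 14, 19, 33], [27, 4, 20, 26, 8, 24, 29,
  1, 7, 23], [27, 6, 22, 28, 17, 31, 34, 12, 18, 32], [27, 4, 20, 26, 17, 31, 34, 10, 16, 30], [27,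
  6, 22, 28, 8, 24, 29, 3, 9, 25], [31, 10, 20, 30, 12, 22, 32, 0, 11, 21], [31, 14, 24, 33, 17, 27,
  34, 8, 19, 29], [31, 10, 20, 30, 14, 24, 33, 1, 13, 23], [31, 12, 22, 32, 17, 27, 34, 6, 18, 28],
  [31, 10, 20, 30, 17, 27, 34, 4, 16, 26], [31, 12, 22, 32, 14, 24, 33, 3, 15, 25], [9, 2, 5, 7, 3,
  6, 8, 0, 1, 4], [9, 15, 18, 19, 25, 28, 29, 32, 33, 34], [9, 2, 5, 7, 15, 18, 19, 11, 13, 16], [9,
  3, 6, 8, 25, 28, 29, 22, 24, 27], [9, 2, 5, 7, 25, 28, 29, 21, 23, 26], [9, 3, 6, 8, 15, 18, 19,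
  12, 14, 17], [15, 2, 11, 13, 3, 12, 14, 0, 1, 10], [15, 9, 18, 19, 25, 32, 33, 28, 29, 34], [15,
  2, 11, 13, 9, 18, 19, 5, 7, 16], [15, 3, 12, 14, 25, 32, 33, 22, 24, 31], [15, 2, 11, 13, 25, 32,
  33, 21, 23, 30], [15, 3, 12, 14, 9, 18, 19, 6, 8, 17], [25, 2, 21, 23, 3, 22, 24, 0, 1, 20], [25,
  9, 28, 29, 15, 32, 33, 18, 19, 34], [25, 2, 21, 23, 9, 28, 29, 5, 7, 26], [25, 3, 22, 24, 15, 32,
  33, 12, 14, 31], [25, 2, 21, 23, 15, 32, 33, 11, 13, 30], [25, 3, 22, 24, 9, 28, 29, 6, 8, 27],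
  [18, 5, 11, 16, 6, 12, 17, 0, 4, 10], [18, 9, 15, 19, 28, 32, 34, 25, 29, 33], [18, 5, 11, 16, 9,
  15, 19, 2, 7, 13], [18, 6, 12, 17, 28, 32, 34, 22, 27, 31], [18, 5, 11, 16, 28, 32, 34, 21, 26,
  30], [18, 6, 12, 17, 9, 15, 19, 3, 8, 14], [28, 5, 21, 26, 6, 22, 27, 0, 4, 20], [28, 9, 25, 29,
  18, 32, 34, 15, 19, 33], [28, 5, 21, 26, 9, 25, 29, 2, 7, 23], [28, 6, 22, 27, 18, 32, 34, 12, 17,
  31], [28, 5, 21, 26, 18, 32, 34, 11, 16, 30], [28, 6, 22, 27, 9, 25, 29, 3, 8, 24], [32, 11, 21,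
  30, 12, 22, 31, 0, 10, 20], [32, 15, 25, 33, 18, 28, 34, 9, 19, 29], [32, 11, 21, 30, 15, 25, 33,
  2, 13, 23], [32, 12, 22, 31, 18, 28, 34, 6, 17, 27], [32, 11, 21, 30, 18, 28, 34, 5, 16, 26], [32,
  12, 22, 31, 15, 25, 33, 3, 14, 24], [19, 7, 13, 16, 8, 14, 17, 1, 4, 10], [19, 9, 15, 18, 29, 33,
  34, 25, 28, 32], [19, 7, 13, 16, 9, 15, 18, 2, 5, 11], [19, 8, 14, 17, 29, 33, 34, 24, 27, 31],
  [19, 7, 13, 16, 29, 33, 34, 23, 26, 30], [19, 8, 14, 17, 9, 15, 18, 3, 6, 12], [29, 7, 23, 26, 8,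
  24, 27, 1, 4, 20], [29, 9, 25, 28, 19, 33, 34, 15, 18, 32], [29, 7, 23, 26, 9, 25, 28, 2, 5, 21],
  [29, 8, 24, 27, 19, 33, 34, 14, 17, 31], [29, 7, 23, 26, 19, 33, 34, 13, 16, 30], [29, 8, 24, 27,
  9, 25, 28, 3, 6, 22], [33, 13, 23, 30, 14, 24, 31, 1, 10, 20], [33, 15, 25, 32, 19, 29, 34, 9, 18,
  28], [33, 13, 23, 30, 15, 25, 32, 2, 11, 21], [33, 14, 24, 31, 19, 29, 34, 8, 17, 27], [33, 13,
  23, 30, 19, 29, 34, 7, 16, 26], [33, 14, 24, 31, 15, 25, 32, 3, 12, 22], [34, 16, 26, 30, 17, 27,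
  31, 4, 10, 20], [34, 18, 28, 32, 19, 29, 33, 9, 15, 25], [34, 16, 26, 30, 18, 28, 32, 5, 11, 21],
  [34, 17, 27, 31, 19, 29, 33, 8, 14, 24], [34, 16, 26, 30, 19, 29, 33, 7, 13, 23], [34, 17, 27, 31,
  18, 28, 32, 6, 12, 22]]

/-- equivalence relation with the classes {0,1,2}, {3,4}, {5,6} -/
def beta3 (i j : Fin 7) : ℕ :=
  if ((i : ℕ) < 3 ∧ (j : ℕ) < 3) ∨ (3 ≤ (i : ℕ) ∧ (i : ℕ) < 5 ∧ 3 ≤ (j : ℕ) ∧ (j : ℕ) < 5) ∨
    (5 ≤ (i : ℕ) ∧ 5 ≤ (j : ℕ)) then 1 else 0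

/-- the 48 permutations preserving it -/
def K3 : List (Equiv.Perm (Fin 7)) :=
  pr (pr (pr (six (Equiv.swap 0 1) (Equiv.swap 1 2)) [1, Equiv.swap 3 4]) [1, Equiv.swap 5 6])
    [1, Equiv.swap 3 5 * Equiv.swap 4 6]

theorem S3_perm : ∀ s ∈ S3, C.isPerm s = true := by decide +kernel

theorem S3_keys : (S3.map fun s => pkey beta3 (vec s)) = S3keys := by decide +kernel

theorem S3_nodup : S3keys.Nodup := by decide +kernel

theorem K3_nodup : (K3.map fun k : Equiv.Perm (Fin 7) => enc k).Nodup := by decide +kernel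

theorem K3_beta : ∀ k ∈ K3, ∀ i j, beta3 (k i) (k j) = beta3 i j :=
  Pres.pr (Pres.pr (Pres.pr (Pres.six (by unfold Pres; decide +kernel) (by unfold Pres; decide +kernel))
    (Pres.two (by unfold Pres; decide +kernel))) (Pres.two (by unfold Pres; decide +kernel)))
    (Pres.two (by unfold Pres; decide +kernel))

theorem S3_K3 : S3.length * K3.length = 5040 := by decide +kernel

theorem src3_eq : (S3.flatMap fun s => [cs fun i => vec s (![0, 1, 2, 3, 4] i),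
    cs fun i => vec s (![0, 1, 2, 5, 6] i)]) = src3 := by decide +kernel

theorem src3_lt : ∀ s ∈ src3, ∀ t ∈ s, t < 35 := by decide +kernel


/-! ### the loop -/

theorem s3_succ (W B I3 : ℕ) (Q : Tr ℕ) (k out acc : ℕ) :
    s3 W B I3 Q (k + 1) out acc = s3 W B I3 Q k (out >>> 20)
      (acc + v3 W B I3 Q (out % 1024) ((out >>> 10) % 1024)) := rfl

theorem two_fields (a b : ℕ) (l : List ℕ) (ha : a < 1024) (hb : b < 1024) :
    packF 10 (a :: b :: l) % 1024 = a ∧ (packF 10 (a :: b :: l) >>> 10) % 1024 = b ∧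
      packF 10 (a :: b :: l) >>> 20 = packF 10 l := by
  have h1 := packF_mod 10 a (b :: l) ha
  have h2 := packF_div 10 a (b :: l) ha
  have h3 := packF_mod 10 b l hb
  have h4 := packF_div 10 b l hb
  have e : (2 : ℕ) ^ 10 = 1024 := by norm_num
  rw [e] at h1 h2 h3 h4
  refine ⟨h1, ?_, ?_⟩
  · rw [Nat.shiftRight_eq_div_pow, e, h2, h3]
  · have : (20 : ℕ) = 10 + 10 := rfl
    rw [this, Nat.shiftRight_add, Nat.shiftRight_eq_div_pow, Nat.shiftRight_eq_div_pow, e, h2, h4]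

theorem s3_eq (W B I3 : ℕ) (Q : Tr ℕ) (l : List (ℕ × ℕ))
    (hl : ∀ p ∈ l, p.1 < 1024 ∧ p.2 < 1024) : ∀ acc : ℕ,
    s3 W B I3 Q l.length (packF 10 (l.flatMap fun p => [p.1, p.2])) acc =
      acc + (l.map fun p => v3 W B I3 Q p.1 p.2).sum := by
  induction l with
  | nil => intro acc; rfl
  | cons p l ih =>
    intro acc
    obtain ⟨ha, hb⟩ := hl p List.mem_cons_self
    obtain ⟨h1, h2, h3⟩ := two_fields p.1 p.2 (l.flatMap fun p => [p.1, p.2]) ha hb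
    have e : (p :: l).flatMap (fun p => [p.1, p.2]) =
        p.1 :: p.2 :: l.flatMap (fun p => [p.1, p.2]) := rfl
    rw [e, List.length_cons, s3_succ, h1, h2, h3, ih (fun q hq => hl q (List.mem_cons_of_mem _ hq)),
      List.map_cons, List.sum_cons]
    omega

/-! ### invariance -/

theorem v3_eq (W B I3 : ℕ) (Q : Tr ℕ) (c d : ℕ) :
    v3 W B I3 Q c d = look3 W B Q (idx3 I3 c) (idx3 I3 d) := by
  unfold v3
  rw [force_eq, force_eq]

/-- the symmetries of `v3` -/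
structure Sym3 (W B I3 : ℕ) (Q : Tr ℕ) : Prop where
  h34 : ∀ c ∈ lab5, ∀ d ∈ lab5, c % 2 = d % 2 →
    v3 W B I3 Q (act ![0, 1, 2, 4, 3] c) d = v3 W B I3 Q c d
  hs : ∀ c ∈ lab5, ∀ d ∈ lab5, c % 2 = d % 2 → v3 W B I3 Q c d = v3 W B I3 Q d c
  h01 : ∀ c ∈ lab5, ∀ d ∈ lab5, c % 2 = d % 2 →
    v3 W B I3 Q (act ![1, 0, 2, 3, 4] c) (act ![1, 0, 2, 3, 4] d) = v3 W B I3 Q c d
  h12 : ∀ c ∈ lab5, ∀ d ∈ lab5, c % 2 = d % 2 →
    v3 W B I3 Q (act ![0, 2, 1, 3, 4] c) (act ![0, 2, 1, 3, 4] d) = v3 W B I3 Q c d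

theorem code5_mod (K : TG (Fin 5)) : code5 K % 2 = (K.E 0 1 2).toNat := by
  unfold code5
  rw [bits, Nat.add_mul_mod_self_left]
  cases K.E 0 1 2 <;> rfl

theorem mod_eq (H : TG (Fin 7)) (e e' : Fin 5 → Fin 7) (h0 : e 0 = e' 0) (h1 : e 1 = e' 1)
    (h2 : e 2 = e' 2) : code5 (H.pull e) % 2 = code5 (H.pull e') % 2 := by
  rw [code5_mod, code5_mod]
  show (H.E (e 0) (e 1) (e 2)).toNat = (H.E (e' 0) (e' 1) (e' 2)).toNat
  rw [h0, h1, h2]

theorem mod12 (H : TG (Fin 7)) (σ : Equiv.Perm (Fin 7)) :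
    code5 (H.pull fun i => σ (![0, 1, 2, 3, 4] i)) % 2 =
      code5 (H.pull fun i => σ (![0, 1, 2, 5, 6] i)) % 2 := mod_eq H _ _ rfl rfl rfl

theorem mod34 : ∀ c ∈ lab5, act ![0, 1, 2, 4, 3] c % 2 = c % 2 := by decide +kernel

theorem pull_comp (H : TG (Fin 7)) (σ a : Equiv.Perm (Fin 7)) (e e' : Fin 5 → Fin 7)
    (τ : Fin 5 → Fin 5) (h : ∀ i, a (e i) = e' (τ i)) :
    code5 (H.pull fun i => (σ * a) (e i)) = act τ (code5 (H.pull fun i => σ (e' i))) := by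
  rw [← code5_pull5]
  have h2 : (H.pull fun i => (σ * a) (e i)) = (H.pull fun i => σ (e' i)).pull τ := by
    have h3 : (fun i => (σ * a) (e i)) = fun i => σ (e' (τ i)) := by
      funext i; rw [Equiv.Perm.mul_apply, h]
    rw [h3]; rfl
  rw [h2]

theorem pull_comp' (H : TG (Fin 7)) (σ a : Equiv.Perm (Fin 7)) (e e' : Fin 5 → Fin 7)
    (h : ∀ i, a (e i) = e' i) :
    code5 (H.pull fun i => (σ * a) (e i)) = code5 (H.pull fun i => σ (e' i)) := by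
  have h3 : (fun i => (σ * a) (e i)) = fun i => σ (e' i) := by
    funext i; rw [Equiv.Perm.mul_apply, h]
  rw [h3]

/-- the summand of the three-rooted term -/
noncomputable def g3 (W B I3 : ℕ) (off : ℤ) (Q : Tr ℕ) (H : TG (Fin 7))
    (σ : Equiv.Perm (Fin 7)) : ℤ :=
  (v3 W B I3 Q (code5 (H.pull fun i => σ (![0, 1, 2, 3, 4] i)))
    (code5 (H.pull fun i => σ (![0, 1, 2, 5, 6] i))) : ℤ) - off

theorem g3_34 {W B I3 : ℕ} {off : ℤ} {Q : Tr ℕ} (hq : Sym3 W B I3 Q) (H : TG (Fin 7)) :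
    RInv (g3 W B I3 off Q H) (Equiv.swap 3 4) := by
  intro σ
  unfold g3
  rw [pull_comp H σ (Equiv.swap 3 4) ![0, 1, 2, 3, 4] ![0, 1, 2, 3, 4] ![0, 1, 2, 4, 3] (by decide),
    pull_comp' H σ (Equiv.swap 3 4) ![0, 1, 2, 5, 6] ![0, 1, 2, 5, 6] (by decide),
    hq.h34 _ (code5_mem _) _ (code5_mem _) (mod12 H σ)]

theorem act_mem (τ : Fin 5 → Fin 5) (K : TG (Fin 5)) : act τ (code5 K) ∈ lab5 := by
  rw [← code5_pull5]; exact code5_mem _

theorem g3_56 {W B I3 : ℕ} {off : ℤ} {Q : Tr ℕ} (hq : Sym3 W B I3 Q) (H : TG (Fin 7)) :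
    RInv (g3 W B I3 off Q H) (Equiv.swap 5 6) := by
  intro σ
  unfold g3
  rw [pull_comp' H σ (Equiv.swap 5 6) ![0, 1, 2, 3, 4] ![0, 1, 2, 3, 4] (by decide),
    pull_comp H σ (Equiv.swap 5 6) ![0, 1, 2, 5, 6] ![0, 1, 2, 5, 6] ![0, 1, 2, 4, 3] (by decide),
    hq.hs _ (code5_mem _) _ (act_mem _ _)
      (by rw [mod34 _ (code5_mem _)]; exact mod12 H σ),
    hq.h34 _ (code5_mem _) _ (code5_mem _) (mod12 H σ).symm,
    hq.hs _ (code5_mem _) _ (code5_mem _) (mod12 H σ).symm]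

theorem g3_ex {W B I3 : ℕ} {off : ℤ} {Q : Tr ℕ} (hq : Sym3 W B I3 Q) (H : TG (Fin 7)) :
    RInv (g3 W B I3 off Q H) (Equiv.swap 3 5 * Equiv.swap 4 6) := by
  intro σ
  unfold g3
  rw [pull_comp' H σ (Equiv.swap 3 5 * Equiv.swap 4 6) ![0, 1, 2, 3, 4] ![0, 1, 2, 5, 6] (by decide),
    pull_comp' H σ (Equiv.swap 3 5 * Equiv.swap 4 6) ![0, 1, 2, 5, 6] ![0, 1, 2, 3, 4] (by decide),
    hq.hs _ (code5_mem _) _ (code5_mem _) (mod12 H σ).symm]

theorem g3_01 {W B I3 : ℕ} {off : ℤ} {Q : Tr ℕ} (hq : Sym3 W B I3 Q) (H : TG (Fin 7)) :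
    RInv (g3 W B I3 off Q H) (Equiv.swap 0 1) := by
  intro σ
  unfold g3
  rw [pull_comp H σ (Equiv.swap 0 1) ![0, 1, 2, 3, 4] ![0, 1, 2, 3, 4] ![1, 0, 2, 3, 4] (by decide),
    pull_comp H σ (Equiv.swap 0 1) ![0, 1, 2, 5, 6] ![0, 1, 2, 5, 6] ![1, 0, 2, 3, 4] (by decide),
    hq.h01 _ (code5_mem _) _ (code5_mem _) (mod12 H σ)]

theorem g3_12 {W B I3 : ℕ} {off : ℤ} {Q : Tr ℕ} (hq : Sym3 W B I3 Q) (H : TG (Fin 7)) :
    RInv (g3 W B I3 off Q H) (Equiv.swap 1 2) := by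
  intro σ
  unfold g3
  rw [pull_comp H σ (Equiv.swap 1 2) ![0, 1, 2, 3, 4] ![0, 1, 2, 3, 4] ![0, 2, 1, 3, 4] (by decide),
    pull_comp H σ (Equiv.swap 1 2) ![0, 1, 2, 5, 6] ![0, 1, 2, 5, 6] ![0, 2, 1, 3, 4] (by decide),
    hq.h12 _ (code5_mem _) _ (code5_mem _) (mod12 H σ)]

theorem g3_K {W B I3 : ℕ} {off : ℤ} {Q : Tr ℕ} (hq : Sym3 W B I3 Q) (H : TG (Fin 7)) :
    ∀ k ∈ K3, RInv (g3 W B I3 off Q H) k :=
  RInv.pr (RInv.pr (RInv.pr (RInv.six (g3_01 hq H) (g3_12 hq H)) (RInv.two (g3_34 hq H)))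
    (RInv.two (g3_56 hq H))) (RInv.two (g3_ex hq H))

/-- the masks of the three-rooted term -/
noncomputable def masks3 : List ℕ := masksOf 10 src3 0 35

theorem map_two {α : Type} (S : List α) (F G : α → List ℕ) (g : List ℕ → ℕ) :
    (S.flatMap fun s => [F s, G s]).map g =
      (S.map fun s => ((g (F s), g (G s)) : ℕ × ℕ)).flatMap fun p => [p.1, p.2] := by
  induction S with
  | nil => rfl
  | cons a l ih => rw [List.flatMap_cons, List.map_append, ih]; rfl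

theorem sum_sub_const (off : ℤ) (F : ℕ → ℕ) (L : List ℕ) :
    (L.map fun s => (F s : ℤ) - off).sum = ((L.map F).sum : ℕ) - (L.length : ℤ) * off := by
  induction L with
  | nil => simp
  | cons a t ih =>
    rw [List.map_cons, List.sum_cons, ih, List.map_cons, List.sum_cons, List.length_cons]
    push_cast; ring

theorem gath_cs_lt (f : Fin 5 → Fin 7) (m : ℕ) : gath (cs f) m < 1024 := by
  have h := gath_lt (cs f) m
  have e : (cs f).length = 10 := rfl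
  rw [e] at h
  exact lt_of_lt_of_eq h (by norm_num)

theorem three_aux (W B I3 : ℕ) (off : ℤ) (Q : Tr ℕ) (H : TG (Fin 7)) (S : List ℕ)
    (src : List (List ℕ)) (hp : ∀ s ∈ S, C.isPerm s = true)
    (hsrc : (S.flatMap fun s => [cs fun i => vec s (![0, 1, 2, 3, 4] i),
      cs fun i => vec s (![0, 1, 2, 5, 6] i)]) = src) (hlt : ∀ s ∈ src, ∀ t ∈ s, t < 35) :
    (S.map fun s => g3 W B I3 off Q H (toP s)).sum =
      (s3 W B I3 Q S.length (scat (masksOf 10 src 0 35) (code7 H) 0) 0 : ℤ) - S.length * off := by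
  rw [scat_masksOf 10 src 35 (code7 H) hlt, ← hsrc, map_two]
  have hl : ∀ p ∈ (S.map fun s => ((gath (cs fun i => vec s (![0, 1, 2, 3, 4] i)) (code7 H),
      gath (cs fun i => vec s (![0, 1, 2, 5, 6] i)) (code7 H)) : ℕ × ℕ)),
      p.1 < 1024 ∧ p.2 < 1024 := by
    intro p hp
    obtain ⟨s, _, hs⟩ := List.mem_map.1 hp
    rw [← hs]
    dsimp only
    exact ⟨gath_cs_lt _ _, gath_cs_lt _ _⟩
  have h3 := s3_eq W B I3 Q _ hl 0
  rw [List.length_map, Nat.zero_add] at h3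
  rw [h3, List.map_map, ← sum_sub_const]
  refine congrArg List.sum (List.map_congr_left ?_)
  intro s hs
  have e : ∀ i, toP s i = vec s i := toP_apply s (hp s hs)
  simp only [g3, e, code5_pull, Function.comp_def]

theorem S3_length : S3.length = 105 := by decide +kernel

theorem K3_length : K3.length = 48 := by decide +kernel

theorem sum_three (W B I3 : ℕ) (off : ℤ) (Q : Tr ℕ) (hq : Sym3 W B I3 Q) (H : TG (Fin 7)) :
    ∑ σ : Equiv.Perm (Fin 7), ((v3 W B I3 Q (code5 (H.pull fun i => σ (![0, 1, 2, 3, 4] i)))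
      (code5 (H.pull fun i => σ (![0, 1, 2, 5, 6] i))) : ℤ) - off) =
      48 * ((s3 W B I3 Q 105 (scat masks3 (code7 H) 0) 0 : ℤ) - 105 * off) := by
  have h := sum_codes_inv beta3 S3 K3 S3_perm (by rw [S3_keys]; exact S3_nodup) K3_nodup K3_beta
    S3_K3 (g3 W B I3 off Q H) (g3_K hq H)
  rw [three_aux W B I3 off Q H S3 src3 S3_perm src3_eq src3_lt, S3_length, K3_length] at h
  exact h

/-! ### the kernel check -/

theorem and'_eq (a b : Bool) : and' a b = true ↔ a = true ∧ b = true := by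
  cases a <;> simp [and']

/-- list version of `QL` -/
def QL.toL : QL → List (ℕ × ℕ × ℕ × ℕ)
  | QL.nil => []
  | QL.cons a b c d t => (a, b, c, d) :: t.toL

theorem ichk3_sound (I3 P1 P2 b N0 N1 : ℕ) (L : QL) (h : ichk3 I3 P1 P2 b N0 N1 L = true) :
    ∀ q ∈ L.toL, idx3 I3 q.1 < hi3 b N0 N1 (q.1 % 2) ∧ lo3 b (q.1 % 2) ≤ idx3 I3 q.1 ∧
      idx3 I3 q.2.1 = idx3 I3 q.1 ∧
      idx3 I3 q.2.2.1 = p8 P1 (idx3 I3 q.1) ∧ idx3 I3 q.2.2.2 = p8 P2 (idx3 I3 q.1) := by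
  induction L with
  | nil => intro q hq; simp [QL.toL] at hq
  | cons x y c d t ih =>
    have h' : and' (Nat.ble (Nat.succ (idx3 I3 x)) (hi3 b N0 N1 (Nat.mod x 2)))
      (and' (Nat.ble (lo3 b (Nat.mod x 2)) (idx3 I3 x))
      (and' (Nat.beq (idx3 I3 y) (idx3 I3 x))
      (and' (Nat.beq (idx3 I3 c) (p8 P1 (idx3 I3 x)))
        (and' (Nat.beq (idx3 I3 d) (p8 P2 (idx3 I3 x))) (ichk3 I3 P1 P2 b N0 N1 t))))) = true := h
    rw [and'_eq, and'_eq, and'_eq, and'_eq, and'_eq] at h'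
    obtain ⟨h1, h0, h2, h3, h4, h5⟩ := h'
    intro q hq
    rw [QL.toL, List.mem_cons] at hq
    rcases hq with rfl | hq
    · exact ⟨Nat.le_of_ble_eq_true h1, Nat.le_of_ble_eq_true h0, Nat.eq_of_beq_eq_true h2,
        Nat.eq_of_beq_eq_true h3, Nat.eq_of_beq_eq_true h4⟩
    · exact ih h5 q hq

theorem qrow3_sound (W B : ℕ) (Q : Tr ℕ) (P1 P2 b x n : ℕ)
    (h : qrow3 W B Q P1 P2 b x n = true) :
    ∀ y < n, look3 W B Q (b + y) x = look3 W B Q x (b + y) ∧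
      look3 W B Q (p8 P1 x) (p8 P1 (b + y)) = look3 W B Q x (b + y) ∧
      look3 W B Q (p8 P2 x) (p8 P2 (b + y)) = look3 W B Q x (b + y) := by
  induction n with
  | zero => intro y hy; omega
  | succ n ih =>
    have h' : and' (force (fun v => and' (Nat.beq (look3 W B Q (Nat.add b n) x) v)
      (and' (Nat.beq (look3 W B Q (p8 P1 x) (p8 P1 (Nat.add b n))) v)
        (Nat.beq (look3 W B Q (p8 P2 x) (p8 P2 (Nat.add b n))) v)))
          (look3 W B Q x (Nat.add b n))) (qrow3 W B Q P1 P2 b x n) = true := h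
    rw [and'_eq, force_eq, and'_eq, and'_eq] at h'
    obtain ⟨⟨h1, h2, h3⟩, h4⟩ := h'
    intro y hy
    rcases Nat.lt_succ_iff_lt_or_eq.1 hy with hy | rfl
    · exact ih h4 y hy
    · exact ⟨Nat.eq_of_beq_eq_true h1, Nat.eq_of_beq_eq_true h2, Nat.eq_of_beq_eq_true h3⟩

theorem qchk3_sound (W B : ℕ) (Q : Tr ℕ) (P1 P2 b n : ℕ) (h : qchk3 W B Q P1 P2 b n = true) :
    ∀ x < n, ∀ y ≤ x, look3 W B Q (b + y) (b + x) = look3 W B Q (b + x) (b + y) ∧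
      look3 W B Q (p8 P1 (b + x)) (p8 P1 (b + y)) = look3 W B Q (b + x) (b + y) ∧
      look3 W B Q (p8 P2 (b + x)) (p8 P2 (b + y)) = look3 W B Q (b + x) (b + y) := by
  induction n with
  | zero => intro x hx; omega
  | succ n ih =>
    have h' : and' (force (fun x' => qrow3 W B Q P1 P2 b x' (Nat.succ n)) (Nat.add b n))
      (qchk3 W B Q P1 P2 b n) = true := h
    rw [and'_eq, force_eq] at h'
    obtain ⟨h1, h2⟩ := h'
    intro x hx y hy
    rcases Nat.lt_succ_iff_lt_or_eq.1 hx with hx | rfl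
    · exact ih h2 x hx y hy
    · exact qrow3_sound W B Q P1 P2 b _ _ h1 y (Nat.lt_succ_of_le hy)

theorem QL3_eq : QL3.toL = lab5.map fun c => (c, act ![0, 1, 2, 4, 3] c, act ![1, 0, 2, 3, 4] c,
    act ![0, 2, 1, 3, 4] c) := by decide +kernel

theorem act_closed : ∀ c ∈ lab5, (act ![1, 0, 2, 3, 4] c ∈ lab5 ∧ act ![1, 0, 2, 3, 4] c % 2 = c % 2) ∧
    (act ![0, 2, 1, 3, 4] c ∈ lab5 ∧ act ![0, 2, 1, 3, 4] c % 2 = c % 2) := by decide +kernel

/-- same block: the two tests cover all pairs -/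
theorem block3 (W B : ℕ) (Q : Tr ℕ) (P1 P2 b N0 N1 : ℕ)
    (h0 : qchk3 W B Q P1 P2 0 N0 = true) (h1 : qchk3 W B Q P1 P2 b N1 = true)
    (r x y : ℕ) (hr : r < 2) (hx1 : lo3 b r ≤ x) (hx2 : x < hi3 b N0 N1 r)
    (hy1 : lo3 b r ≤ y) (hyx : y ≤ x) :
    look3 W B Q y x = look3 W B Q x y ∧
      look3 W B Q (p8 P1 x) (p8 P1 y) = look3 W B Q x y ∧
      look3 W B Q (p8 P2 x) (p8 P2 y) = look3 W B Q x y := by
  have e0 : hi3 b N0 N1 0 = N0 := by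
    show b * 0 + N0 = N0
    omega
  have e1 : hi3 b N0 N1 1 = b + N1 := by
    show b * 1 + N1 = b + N1
    omega
  have l0 : lo3 b 0 = 0 := by
    show b * 0 = 0
    omega
  have l1 : lo3 b 1 = b := by
    show b * 1 = b
    omega
  interval_cases r
  · rw [e0] at hx2
    have := qchk3_sound W B Q P1 P2 0 N0 h0 x hx2 y hyx
    simpa only [Nat.zero_add] using this
  · rw [e1] at hx2
    rw [l1] at hx1 hy1
    have := qchk3_sound W B Q P1 P2 b N1 h1 (x - b) (by omega) (y - b) (by omega)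
    rw [Nat.add_sub_cancel' hx1, Nat.add_sub_cancel' hy1] at this
    exact this

theorem sym3_of_chk (W B I3 : ℕ) (Q : Tr ℕ) (P1 P2 b N0 N1 : ℕ)
    (h : chk3 W B I3 Q P1 P2 b N0 N1 QL3 = true) : Sym3 W B I3 Q := by
  rw [chk3, and'_eq, and'_eq] at h
  obtain ⟨hi, hq0, hq1⟩ := h
  have h1 : ∀ c ∈ lab5, idx3 I3 c < hi3 b N0 N1 (c % 2) ∧ lo3 b (c % 2) ≤ idx3 I3 c ∧
      idx3 I3 (act ![0, 1, 2, 4, 3] c) = idx3 I3 c ∧
      idx3 I3 (act ![1, 0, 2, 3, 4] c) = p8 P1 (idx3 I3 c) ∧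
      idx3 I3 (act ![0, 2, 1, 3, 4] c) = p8 P2 (idx3 I3 c) := by
    intro c hc
    exact ichk3_sound I3 P1 P2 b N0 N1 QL3 hi (c, act ![0, 1, 2, 4, 3] c,
      act ![1, 0, 2, 3, 4] c, act ![0, 2, 1, 3, 4] c) (by rw [QL3_eq]; exact List.mem_map_of_mem hc)
  have h2 : ∀ c ∈ lab5, ∀ d ∈ lab5, c % 2 = d % 2 → idx3 I3 d ≤ idx3 I3 c →
      look3 W B Q (idx3 I3 d) (idx3 I3 c) = look3 W B Q (idx3 I3 c) (idx3 I3 d) ∧
      look3 W B Q (p8 P1 (idx3 I3 c)) (p8 P1 (idx3 I3 d)) = look3 W B Q (idx3 I3 c) (idx3 I3 d) ∧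
      look3 W B Q (p8 P2 (idx3 I3 c)) (p8 P2 (idx3 I3 d)) =
        look3 W B Q (idx3 I3 c) (idx3 I3 d) := by
    intro c hc d hd hcd hle
    exact block3 W B Q P1 P2 b N0 N1 hq0 hq1 (c % 2) _ _ (Nat.mod_lt _ (by norm_num))
      (h1 c hc).2.1 (h1 c hc).1 (by rw [hcd]; exact (h1 d hd).2.1) hle
  have hs : ∀ c ∈ lab5, ∀ d ∈ lab5, c % 2 = d % 2 → v3 W B I3 Q c d = v3 W B I3 Q d c := by
    intro c hc d hd hcd
    rw [v3_eq, v3_eq]
    rcases le_total (idx3 I3 c) (idx3 I3 d) with hle | hle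
    · exact (h2 d hd c hc hcd.symm hle).1
    · exact (h2 c hc d hd hcd hle).1.symm
  refine ⟨?_, hs, ?_, ?_⟩
  · intro c hc d _ _
    rw [v3_eq, v3_eq, (h1 c hc).2.2.1]
  · intro c hc d hd hcd
    rcases le_total (idx3 I3 d) (idx3 I3 c) with hle | hle
    · rw [v3_eq, v3_eq, (h1 c hc).2.2.2.1, (h1 d hd).2.2.2.1]
      exact (h2 c hc d hd hcd hle).2.1
    · rw [hs _ (act_closed c hc).1.1 _ (act_closed d hd).1.1
        (by rw [(act_closed c hc).1.2, (act_closed d hd).1.2, hcd]), hs c hc d hd hcd, v3_eq, v3_eq,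
        (h1 c hc).2.2.2.1, (h1 d hd).2.2.2.1]
      exact (h2 d hd c hc hcd.symm hle).2.1
  · intro c hc d hd hcd
    rcases le_total (idx3 I3 d) (idx3 I3 c) with hle | hle
    · rw [v3_eq, v3_eq, (h1 c hc).2.2.2.2, (h1 d hd).2.2.2.2]
      exact (h2 c hc d hd hcd hle).2.2
    · rw [hs _ (act_closed c hc).2.1 _ (act_closed d hd).2.1
        (by rw [(act_closed c hc).2.2, (act_closed d hd).2.2, hcd]), hs c hc d hd hcd, v3_eq, v3_eq,
        (h1 c hc).2.2.2.2, (h1 d hd).2.2.2.2]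
      exact (h2 d hd c hc hcd.symm hle).2.2

end K4m.Ev
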