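import Mathlib
import Pool.Agent.Lib.MP_392c14_co.Ev.Three

/-! The degree term. -/

set_option autoImplicit false
set_option maxRecDepth 100000

namespace K4m.Ev

/-- representatives: root, the four other vertices of the code, the pair -/
def SD : List ℕ :=
  [584472, 846608, 1108688, 1370320, 1628368, 879368, 1141448, 1403080, 1661128, 1174152, 1435784,
  1693832, 1468040, 1726088, 1754760, 551705, 813841, 1075921, 1337553, 1595601, 879361, 1141441,
  1403073, 1661121, 1174145, 1435777, 1693825, 1468033, 1726081, 1754753, 289562, 813834, 1075914,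
  1337546, 1595594, 846594, 1108674, 1370306, 1628354, 1174082, 1435714, 1693762, 1467970, 1726018,
  1754690, 289555, 551691, 1075851, 1337483, 1595531, 584451, 1108611, 1370243, 1628291, 1141315,
  1402947, 1660995, 1467459, 1725507, 1754179, 289492, 551628, 813708, 1336972, 1595020, 584388,
  846468, 1369732, 1627780, 879172, 1402436, 1660484, 1434692, 1692740, 1750084, 288981, 551117,
  813197, 1074829, 1590925, 583877, 845957, 1107589, 1623685, 878661, 1140293, 1656389, 1172549,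
  1688645, 1717317, 284886, 547022, 809102, 1070734, 1328782, 579782, 841862, 1103494, 1361542,
  874566, 1136198, 1394246, 1168454, 1426502, 1455174]

def SDkeys : List ℕ :=
  [65794, 16777474, 4294967554, 1099511628034, 281474976710914, 16842754, 4295032834, 1099511693314,
  281474976776194, 4311744514, 1099528404994, 281474993487874, 1103806595074, 281479271677954,
  282574488338434, 66049, 16777729, 4294967809, 1099511628289, 281474976711169, 16843264,
  4295033344, 1099511693824, 281474976776704, 4311745024, 1099528405504, 281474993488384,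
  1103806595584, 281479271678464, 282574488338944, 131329, 16908289, 4295098369, 1099511758849,
  281474976841729, 16908544, 4295098624, 1099511759104, 281474976841984, 4311875584, 1099528536064,
  281474993618944, 1103806726144, 281479271809024, 282574488469504, 33554689, 33619969, 4328521729,
  1099545182209, 281475010265089, 33620224, 4328521984, 1099545182464, 281475010265344, 4328587264,
  1099545247744, 281475010330624, 1103840149504, 281479305232384, 282574521892864, 8589934849,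
  8590000129, 8606711809, 1108101562369, 281483566645249, 8590000384, 8606712064, 1108101562624,
  281483566645504, 8606777344, 1108101627904, 281483566710784, 1108118339584, 281483583422464,
  282583078273024, 2199023255809, 2199023321089, 2199040032769, 2203318222849, 283673999966209,
  2199023321344, 2199040033024, 2203318223104, 283673999966464, 2199040098304, 2203318288384,
  283674000031744, 2203335000064, 283674016743424, 283678294933504, 562949953421569,
  562949953486849, 562949970198529, 562954248388609, 564049465049089, 562949953487104,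
  562949970198784, 562954248388864, 564049465049344, 562949970264064, 562954248454144,
  564049465114624, 562954265165824, 564049481826304, 564053760016384]

/-- the fields: codes on (root, four vertices), and the edge (root, pair) -/
def srcD : List (List ℕ) :=
  [[7, 13, 16, 19, 23, 26, 29, 30, 33, 34], [0], [5, 11, 16, 18, 21, 26, 28, 30, 32, 34], [1], [2,
  11, 13, 15, 21, 23, 25, 30, 32, 33], [4], [2, 5, 7, 9, 21, 23, 25, 26, 28, 29], [10], [2, 5, 7, 9,
  11, 13, 15, 16, 18, 19], [20], [4, 10, 16, 17, 20, 26, 27, 30, 31, 34], [2], [1, 10, 13, 14, 20,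
  23, 24, 30, 31, 33], [5], [1, 4, 7, 8, 20, 23, 24, 26, 27, 29], [11], [1, 4, 7, 8, 10, 13, 14, 16,
  17, 19], [21], [0, 10, 11, 12, 20, 21, 22, 30, 31, 32], [7], [0, 4, 5, 6, 20, 21, 22, 26, 27, 28],
  [13], [0, 4, 5, 6, 10, 11, 12, 16, 17, 18], [23], [0, 1, 2, 3, 20, 21, 22, 23, 24, 25], [16], [0,
  1, 2, 3, 10, 11, 12, 13, 14, 15], [26], [0, 1, 2, 3, 4, 5, 6, 7, 8, 9], [30], [8, 14, 17, 19, 24,
  27, 29, 31, 33, 34], [0], [6, 12, 17, 18, 22, 27, 28, 31, 32, 34], [1], [3, 12, 14, 15, 22, 24,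
  25, 31, 32, 33], [4], [3, 6, 8, 9, 22, 24, 25, 27, 28, 29], [10], [3, 6, 8, 9, 12, 14, 15, 17, 18,
  19], [20], [4, 10, 17, 16, 20, 27, 26, 31, 30, 34], [3], [1, 10, 14, 13, 20, 24, 23, 31, 30, 33],
  [6], [1, 4, 8, 7, 20, 24, 23, 27, 26, 29], [12], [1, 4, 8, 7, 10, 14, 13, 17, 16, 19], [22], [0,
  10, 12, 11, 20, 22, 21, 31, 30, 32], [8], [0, 4, 6, 5, 20, 22, 21, 27, 26, 28], [14], [0, 4, 6, 5,
  10, 12, 11, 17, 16, 18], [24], [0, 1, 3, 2, 20, 22, 21, 24, 23, 25], [17], [0, 1, 3, 2, 10, 12,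
  11, 14, 13, 15], [27], [0, 1, 3, 2, 4, 6, 5, 8, 7, 9], [31], [9, 15, 18, 19, 25, 28, 29, 32, 33,
  34], [0], [6, 12, 18, 17, 22, 28, 27, 32, 31, 34], [2], [3, 12, 15, 14, 22, 25, 24, 32, 31, 33],
  [5], [3, 6, 9, 8, 22, 25, 24, 28, 27, 29], [11], [3, 6, 9, 8, 12, 15, 14, 18, 17, 19], [21], [5,
  11, 18, 16, 21, 28, 26, 32, 30, 34], [3], [2, 11, 15, 13, 21, 25, 23, 32, 30, 33], [6], [2, 5, 9,
  7, 21, 25, 23, 28, 26, 29], [12], [2, 5, 9, 7, 11, 15, 13, 18, 16, 19], [22], [0, 11, 12, 10, 21,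
  22, 20, 32, 30, 31], [9], [0, 5, 6, 4, 21, 22, 20, 28, 26, 27], [15], [0, 5, 6, 4, 11, 12, 10, 18,
  16, 17], [25], [0, 2, 3, 1, 21, 22, 20, 25, 23, 24], [18], [0, 2, 3, 1, 11, 12, 10, 15, 13, 14],
  [28], [0, 2, 3, 1, 5, 6, 4, 9, 7, 8], [32], [9, 15, 19, 18, 25, 29, 28, 33, 32, 34], [1], [8, 14,
  19, 17, 24, 29, 27, 33, 31, 34], [2], [3, 14, 15, 12, 24, 25, 22, 33, 31, 32], [7], [3, 8, 9, 6,
  24, 25, 22, 29, 27, 28], [13], [3, 8, 9, 6, 14, 15, 12, 19, 17, 18], [23], [7, 13, 19, 16, 23, 29,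
  26, 33, 30, 34], [3], [2, 13, 15, 11, 23, 25, 21, 33, 30, 32], [8], [2, 7, 9, 5, 23, 25, 21, 29,
  26, 28], [14], [2, 7, 9, 5, 13, 15, 11, 19, 16, 18], [24], [1, 13, 14, 10, 23, 24, 20, 33, 30,
  31], [9], [1, 7, 8, 4, 23, 24, 20, 29, 26, 27], [15], [1, 7, 8, 4, 13, 14, 10, 19, 16, 17], [25],
  [1, 2, 3, 0, 23, 24, 20, 25, 21, 22], [19], [1, 2, 3, 0, 13, 14, 10, 15, 11, 12], [29], [1, 2, 3,
  0, 7, 8, 4, 9, 5, 6], [33], [9, 18, 19, 15, 28, 29, 25, 34, 32, 33], [4], [8, 17, 19, 14, 27, 29,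
  24, 34, 31, 33], [5], [6, 17, 18, 12, 27, 28, 22, 34, 31, 32], [7], [6, 8, 9, 3, 27, 28, 22, 29,
  24, 25], [16], [6, 8, 9, 3, 17, 18, 12, 19, 14, 15], [26], [7, 16, 19, 13, 26, 29, 23, 34, 30,
  33], [6], [5, 16, 18, 11, 26, 28, 21, 34, 30, 32], [8], [5, 7, 9, 2, 26, 28, 21, 29, 23, 25],
  [17], [5, 7, 9, 2, 16, 18, 11, 19, 13, 15], [27], [4, 16, 17, 10, 26, 27, 20, 34, 30, 31], [9],
  [4, 7, 8, 1, 26, 27, 20, 29, 23, 24], [18], [4, 7, 8, 1, 16, 17, 10, 19, 13, 14], [28], [4, 5, 6,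
  0, 26, 27, 20, 28, 21, 22], [19], [4, 5, 6, 0, 16, 17, 10, 18, 11, 12], [29], [4, 5, 6, 0, 7, 8,
  1, 9, 2, 3], [34], [15, 18, 19, 9, 32, 33, 25, 34, 28, 29], [10], [14, 17, 19, 8, 31, 33, 24, 34,
  27, 29], [11], [12, 17, 18, 6, 31, 32, 22, 34, 27, 28], [13], [12, 14, 15, 3, 31, 32, 22, 33, 24,
  25], [16], [12, 14, 15, 3, 17, 18, 6, 19, 8, 9], [30], [13, 16, 19, 7, 30, 33, 23, 34, 26, 29],
  [12], [11, 16, 18, 5, 30, 32, 21, 34, 26, 28], [14], [11, 13, 15, 2, 30, 32, 21, 33, 23, 25],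
  [17], [11, 13, 15, 2, 16, 18, 5, 19, 7, 9], [31], [10, 16, 17, 4, 30, 31, 20, 34, 26, 27], [15],
  [10, 13, 14, 1, 30, 31, 20, 33, 23, 24], [18], [10, 13, 14, 1, 16, 17, 4, 19, 7, 8], [32], [10,
  11, 12, 0, 30, 31, 20, 32, 21, 22], [19], [10, 11, 12, 0, 16, 17, 4, 18, 5, 6], [33], [10, 11, 12,
  0, 13, 14, 1, 15, 2, 3], [34], [25, 28, 29, 9, 32, 33, 15, 34, 18, 19], [20], [24, 27, 29, 8, 31,
  33, 14, 34, 17, 19], [21], [22, 27, 28, 6, 31, 32, 12, 34, 17, 18], [23], [22, 24, 25, 3, 31, 32,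
  12, 33, 14, 15], [26], [22, 24, 25, 3, 27, 28, 6, 29, 8, 9], [30], [23, 26, 29, 7, 30, 33, 13, 34,
  16, 19], [22], [21, 26, 28, 5, 30, 32, 11, 34, 16, 18], [24], [21, 23, 25, 2, 30, 32, 11, 33, 13,
  15], [27], [21, 23, 25, 2, 26, 28, 5, 29, 7, 9], [31], [20, 26, 27, 4, 30, 31, 10, 34, 16, 17],
  [25], [20, 23, 24, 1, 30, 31, 10, 33, 13, 14], [28], [20, 23, 24, 1, 26, 27, 4, 29, 7, 8], [32],
  [20, 21, 22, 0, 30, 31, 10, 32, 11, 12], [29], [20, 21, 22, 0, 26, 27, 4, 28, 5, 6], [33], [20,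
  21, 22, 0, 23, 24, 1, 25, 2, 3], [34]]

/-- colours: root 2, pair 1 (on the diagonal) -/
def betaD (i j : Fin 7) : ℕ :=
  if i = j then (if (i : ℕ) = 0 then 2 else if (i : ℕ) < 5 then 0 else 1) else 0

/-- the 48 permutations preserving it -/
def KD : List (Equiv.Perm (Fin 7)) :=
  pr (tf (Equiv.swap 1 2) (Equiv.swap 2 3) (Equiv.swap 3 4)) [1, Equiv.swap 5 6]

theorem SD_perm : ∀ s ∈ SD, C.isPerm s = true := by decide +kernel

theorem SD_keys : (SD.map fun s => pkey betaD (vec s)) = SDkeys := by decide +kernel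

theorem SD_nodup : SDkeys.Nodup := by decide +kernel

theorem KD_nodup : (KD.map fun k : Equiv.Perm (Fin 7) => enc k).Nodup := by decide +kernel

theorem KD_beta : ∀ k ∈ KD, ∀ i j, betaD (k i) (k j) = betaD i j :=
  Pres.pr (Pres.tf (by unfold Pres; decide +kernel) (by unfold Pres; decide +kernel)
    (by unfold Pres; decide +kernel)) (Pres.two (by unfold Pres; decide +kernel))

theorem SD_length : SD.length = 105 := by decide +kernel

theorem KD_length : KD.length = 48 := by decide +kernel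

theorem SD_KD : SD.length * KD.length = 5040 := by rw [SD_length, KD_length]

theorem srcD_eq : (SD.flatMap fun s => [cs fun i => vec s (![0, 1, 2, 3, 4] i),
    [C.tid (vec s 0) (vec s 5) (vec s 6)]]) = srcD := by decide +kernel

theorem srcD_lt : ∀ s ∈ srcD, ∀ t ∈ s, t < 35 := by decide +kernel

/-! ### the loop -/

theorem brec_nat (x y : ℕ) (b : Bool) :
    (Bool.rec (motive := fun _ => ℕ) x y b) = if b = true then y else x := by
  cases b <;> rfl

theorem dsum_succ (W B T off e0 k out acc : ℕ) :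
    dsum W B T off e0 (k + 1) out acc = dsum W B T off e0 k (out >>> 20)
      (acc + Bool.rec (motive := fun _ => ℕ) off (force (tabW W B T) (out % 1024))
        (Nat.beq ((out >>> 10) % 1024) e0)) := rfl

theorem dsum_eq (W B T off e0 : ℕ) (l : List (ℕ × ℕ))
    (hl : ∀ p ∈ l, p.1 < 1024 ∧ p.2 < 1024) : ∀ acc : ℕ,
    dsum W B T off e0 l.length (packF 10 (l.flatMap fun p => [p.1, p.2])) acc =
      acc + (l.map fun p => if p.2 = e0 then tabW W B T p.1 else off).sum := by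
  induction l with
  | nil => intro acc; rfl
  | cons p l ih =>
    intro acc
    obtain ⟨ha, hb⟩ := hl p List.mem_cons_self
    obtain ⟨h1, h2, h3⟩ := two_fields p.1 p.2 (l.flatMap fun p => [p.1, p.2]) ha hb
    have e : (p :: l).flatMap (fun p => [p.1, p.2]) =
        p.1 :: p.2 :: l.flatMap (fun p => [p.1, p.2]) := rfl
    have h4 : (Nat.beq p.2 e0 = true) ↔ p.2 = e0 :=
      ⟨Nat.eq_of_beq_eq_true, fun h => by rw [h]; exact Nat.beq_refl e0⟩
    rw [e, List.length_cons, dsum_succ, h1, h2, h3, force_eq, brec_nat,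
      ih (fun q hq => hl q (List.mem_cons_of_mem _ hq)), List.map_cons, List.sum_cons]
    simp only [h4]
    omega

/-! ### invariance -/

/-- the symmetries of the table -/
structure SymD (W B T : ℕ) : Prop where
  h12 : ∀ c ∈ lab5, tabW W B T (act ![0, 2, 1, 3, 4] c) = tabW W B T c
  h23 : ∀ c ∈ lab5, tabW W B T (act ![0, 1, 3, 2, 4] c) = tabW W B T c
  h34 : ∀ c ∈ lab5, tabW W B T (act ![0, 1, 2, 4, 3] c) = tabW W B T c

/-- the summand of the degree term -/
noncomputable def gD (W B T : ℕ) (off : ℤ) (e0 : ℕ) (H : TG (Fin 7))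
    (σ : Equiv.Perm (Fin 7)) : ℤ :=
  if (H.E (σ 0) (σ 5) (σ 6)).toNat = e0 then
    (tabW W B T (code5 (H.pull fun i => σ (![0, 1, 2, 3, 4] i))) : ℤ) - off else 0

theorem gD_aux {W B T : ℕ} {off : ℤ} {e0 : ℕ} (H : TG (Fin 7)) (a : Equiv.Perm (Fin 7))
    (τ : Fin 5 → Fin 5) (h0 : a 0 = 0) (h5 : a 5 = 5) (h6 : a 6 = 6)
    (h : ∀ i, a (![0, 1, 2, 3, 4] i) = (![0, 1, 2, 3, 4] : Fin 5 → Fin 7) (τ i))
    (hτ : ∀ c ∈ lab5, tabW W B T (act τ c) = tabW W B T c) : RInv (gD W B T off e0 H) a := by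
  intro σ
  unfold gD
  rw [pull_comp H σ a ![0, 1, 2, 3, 4] ![0, 1, 2, 3, 4] τ h, hτ _ (code5_mem _),
    Equiv.Perm.mul_apply, Equiv.Perm.mul_apply, Equiv.Perm.mul_apply, h0, h5, h6]

theorem gD_56 {W B T : ℕ} {off : ℤ} {e0 : ℕ} (H : TG (Fin 7)) :
    RInv (gD W B T off e0 H) (Equiv.swap 5 6) := by
  intro σ
  unfold gD
  rw [pull_comp' H σ (Equiv.swap 5 6) ![0, 1, 2, 3, 4] ![0, 1, 2, 3, 4] (by decide),
    Equiv.Perm.mul_apply, Equiv.Perm.mul_apply, Equiv.Perm.mul_apply, Equiv.swap_apply_left,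
    Equiv.swap_apply_right, Equiv.swap_apply_of_ne_of_ne (by decide) (by decide), H.symm₂]

theorem gD_K {W B T : ℕ} {off : ℤ} {e0 : ℕ} (hT : SymD W B T) (H : TG (Fin 7)) :
    ∀ k ∈ KD, RInv (gD W B T off e0 H) k :=
  RInv.pr (RInv.tf
    (gD_aux H _ ![0, 2, 1, 3, 4] (by decide) (by decide) (by decide) (by decide) hT.h12)
    (gD_aux H _ ![0, 1, 3, 2, 4] (by decide) (by decide) (by decide) (by decide) hT.h23)
    (gD_aux H _ ![0, 1, 2, 4, 3] (by decide) (by decide) (by decide) (by decide) hT.h34))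
    (RInv.two (gD_56 H))

/-- the masks of the degree term -/
noncomputable def masksD : List ℕ := masksOf 10 srcD 0 35

theorem gath_one_lt (i m : ℕ) : gath [i] m < 1024 := by
  have h := gath_lt [i] m
  have e : [i].length = 1 := rfl
  rw [e] at h
  omega

attribute [local irreducible] gath cs tabW bits code7 in
theorem deg_aux (W B T off e0 : ℕ) (H : TG (Fin 7)) (S : List ℕ)
    (src : List (List ℕ)) (hp : ∀ s ∈ S, C.isPerm s = true)
    (hsrc : (S.flatMap fun s => [cs fun i => vec s (![0, 1, 2, 3, 4] i),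
      [C.tid (vec s 0) (vec s 5) (vec s 6)]]) = src) (hlt : ∀ s ∈ src, ∀ t ∈ s, t < 35) :
    (S.map fun s => gD W B T off e0 H (toP s)).sum =
      (dsum W B T off e0 S.length (scat (masksOf 10 src 0 35) (code7 H) 0) 0 : ℤ)
        - S.length * off := by
  rw [scat_masksOf 10 src 35 (code7 H) hlt, ← hsrc, map_two]
  have hl : ∀ p ∈ (S.map fun s => ((gath (cs fun i => vec s (![0, 1, 2, 3, 4] i)) (code7 H),
      gath [C.tid (vec s 0) (vec s 5) (vec s 6)] (code7 H)) : ℕ × ℕ)),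
      p.1 < 1024 ∧ p.2 < 1024 := by
    intro p hp
    obtain ⟨s, _, hs⟩ := List.mem_map.1 hp
    rw [← hs]
    dsimp only
    exact ⟨gath_cs_lt _ _, gath_one_lt _ _⟩
  have h3 := dsum_eq W B T off e0 _ hl 0
  rw [List.length_map, Nat.zero_add] at h3
  rw [h3, List.map_map, ← sum_sub_const]
  refine congrArg List.sum (List.map_congr_left ?_)
  intro s hs
  have e : ∀ i, toP s i = vec s i := toP_apply s (hp s hs)
  simp only [gD, e, code5_pull, bit_eq, Function.comp_def]
  by_cases hb : gath [C.tid (vec s 0) (vec s 5) (vec s 6)] (code7 H) = e0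
  · rw [if_pos hb, if_pos hb]
  · rw [if_neg hb, if_neg hb, sub_self]

theorem sum_deg (W B T off e0 : ℕ) (hT : SymD W B T) (H : TG (Fin 7)) :
    ∑ σ : Equiv.Perm (Fin 7), (if (H.E (σ 0) (σ 5) (σ 6)).toNat = e0 then
      (tabW W B T (code5 (H.pull fun i => σ (![0, 1, 2, 3, 4] i))) : ℤ) - off else 0) =
      48 * ((dsum W B T off e0 105 (scat masksD (code7 H) 0) 0 : ℤ) - 105 * off) := by
  have h := sum_codes_inv betaD SD KD SD_perm (by rw [SD_keys]; exact SD_nodup) KD_nodup KD_beta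
    SD_KD (gD W B T off e0 H) (gD_K hT H)
  rw [deg_aux W B T off e0 H SD srcD SD_perm srcD_eq srcD_lt, SD_length, KD_length] at h
  exact h

/-! ### the kernel check -/

theorem chkD_sound (W B T : ℕ) (L : QL) (h : chkD W B T L = true) :
    ∀ q ∈ L.toL, tabW W B T q.2.1 = tabW W B T q.1 ∧ tabW W B T q.2.2.1 = tabW W B T q.1 ∧
      tabW W B T q.2.2.2 = tabW W B T q.1 := by
  induction L with
  | nil => intro q hq; simp [QL.toL] at hq
  | cons x y c d t ih =>
    have h' : force (fun v => and' (Nat.beq (tabW W B T y) v) (and' (Nat.beq (tabW W B T c) v)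
      (and' (Nat.beq (tabW W B T d) v) (chkD W B T t)))) (tabW W B T x) = true := h
    rw [force_eq, and'_eq, and'_eq, and'_eq] at h'
    obtain ⟨h1, h2, h3, h4⟩ := h'
    intro q hq
    rw [QL.toL, List.mem_cons] at hq
    rcases hq with rfl | hq
    · exact ⟨Nat.eq_of_beq_eq_true h1, Nat.eq_of_beq_eq_true h2, Nat.eq_of_beq_eq_true h3⟩
    · exact ih h4 q hq

theorem QLD_eq : QLD.toL = lab5.map fun c => (c, act ![0, 2, 1, 3, 4] c, act ![0, 1, 3, 2, 4] c,
    act ![0, 1, 2, 4, 3] c) := by decide +kernel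

theorem symD_of_chk (W B T : ℕ) (h : chkD W B T QLD = true) : SymD W B T := by
  have h1 : ∀ c ∈ lab5, tabW W B T (act ![0, 2, 1, 3, 4] c) = tabW W B T c ∧
      tabW W B T (act ![0, 1, 3, 2, 4] c) = tabW W B T c ∧
      tabW W B T (act ![0, 1, 2, 4, 3] c) = tabW W B T c := by
    intro c hc
    exact chkD_sound W B T QLD h (c, act ![0, 2, 1, 3, 4] c, act ![0, 1, 3, 2, 4] c,
      act ![0, 1, 2, 4, 3] c) (by rw [QLD_eq]; exact List.mem_map_of_mem hc)
  exact ⟨fun c hc => (h1 c hc).1, fun c hc => (h1 c hc).2.1, fun c hc => (h1 c hc).2.2⟩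

end K4m.Ev
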