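import Mathlib
import Pool.Agent.Lib.MP_392c14_co.Ev.Deg

/-! The cut term. -/

set_option autoImplicit false
set_option maxRecDepth 100000

namespace K4m.Ev

/-- representatives: four roots, three other vertices -/
def SC : List ℕ :=
  [1754760, 1751176, 1718920, 1457288, 1747144, 1714888, 1453256, 1682184, 1420552, 1158472,
  1743056, 1710800, 1449168, 1678096, 1416464, 1154384, 1645336, 1383704, 1121624, 859488, 1738961,
  1706705, 1445073, 1674001, 1412369, 1150289, 1641241, 1379609, 1117529, 855393, 1608474, 1346842,
  1084762, 822626, 560483]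

def SCkeys : List ℕ :=
  [282578783305728, 282574505115648, 281479288455168, 1103823372288, 282574488403968,
  281479271743488, 1103806660608, 281474993553408, 1099528470528, 4311810048, 282574488338688,
  281479271678208, 1103806595328, 281474993488128, 1099528405248, 4311744768, 281474976776448,
  1099511693568, 4295033088, 16843008, 282574488338433, 281479271677953, 1103806595073,
  281474993487873, 1099528404993, 4311744513, 281474976776193, 1099511693313, 4295032833, 16842753,
  281474976710913, 1099511628033, 4294967553, 16777473, 65793]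

/-- the fields: the three codes, and the edge on the three other vertices -/
def srcC : List (List ℕ) :=
  [[0, 1, 2, 3, 4, 5, 6, 7, 8, 9], [0, 1, 2, 3, 10, 11, 12, 13, 14, 15], [0, 1, 2, 3, 20, 21, 22,
  23, 24, 25], [34], [0, 4, 5, 6, 1, 2, 3, 7, 8, 9], [0, 4, 5, 6, 10, 11, 12, 16, 17, 18], [0, 4, 5,
  6, 20, 21, 22, 26, 27, 28], [33], [0, 10, 11, 12, 1, 2, 3, 13, 14, 15], [0, 10, 11, 12, 4, 5, 6,
  16, 17, 18], [0, 10, 11, 12, 20, 21, 22, 30, 31, 32], [29], [0, 20, 21, 22, 1, 2, 3, 23, 24, 25],
  [0, 20, 21, 22, 4, 5, 6, 26, 27, 28], [0, 20, 21, 22, 10, 11, 12, 30, 31, 32], [19], [1, 4, 7, 8,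
  0, 2, 3, 5, 6, 9], [1, 4, 7, 8, 10, 13, 14, 16, 17, 19], [1, 4, 7, 8, 20, 23, 24, 26, 27, 29],
  [32], [1, 10, 13, 14, 0, 2, 3, 11, 12, 15], [1, 10, 13, 14, 4, 7, 8, 16, 17, 19], [1, 10, 13, 14,
  20, 23, 24, 30, 31, 33], [28], [1, 20, 23, 24, 0, 2, 3, 21, 22, 25], [1, 20, 23, 24, 4, 7, 8, 26,
  27, 29], [1, 20, 23, 24, 10, 13, 14, 30, 31, 33], [18], [4, 10, 16, 17, 0, 5, 6, 11, 12, 18], [4,
  10, 16, 17, 1, 7, 8, 13, 14, 19], [4, 10, 16, 17, 20, 26, 27, 30, 31, 34], [25], [4, 20, 26, 27,
  0, 5, 6, 21, 22, 28], [4, 20, 26, 27, 1, 7, 8, 23, 24, 29], [4, 20, 26, 27, 10, 16, 17, 30, 31,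
  34], [15], [10, 20, 30, 31, 0, 11, 12, 21, 22, 32], [10, 20, 30, 31, 1, 13, 14, 23, 24, 33], [10,
  20, 30, 31, 4, 16, 17, 26, 27, 34], [9], [2, 5, 7, 9, 0, 1, 3, 4, 6, 8], [2, 5, 7, 9, 11, 13, 15,
  16, 18, 19], [2, 5, 7, 9, 21, 23, 25, 26, 28, 29], [31], [2, 11, 13, 15, 0, 1, 3, 10, 12, 14], [2,
  11, 13, 15, 5, 7, 9, 16, 18, 19], [2, 11, 13, 15, 21, 23, 25, 30, 32, 33], [27], [2, 21, 23, 25,
  0, 1, 3, 20, 22, 24], [2, 21, 23, 25, 5, 7, 9, 26, 28, 29], [2, 21, 23, 25, 11, 13, 15, 30, 32,
  33], [17], [5, 11, 16, 18, 0, 4, 6, 10, 12, 17], [5, 11, 16, 18, 2, 7, 9, 13, 15, 19], [5, 11, 16,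
  18, 21, 26, 28, 30, 32, 34], [24], [5, 21, 26, 28, 0, 4, 6, 20, 22, 27], [5, 21, 26, 28, 2, 7, 9,
  23, 25, 29], [5, 21, 26, 28, 11, 16, 18, 30, 32, 34], [14], [11, 21, 30, 32, 0, 10, 12, 20, 22,
  31], [11, 21, 30, 32, 2, 13, 15, 23, 25, 33], [11, 21, 30, 32, 5, 16, 18, 26, 28, 34], [8], [7,
  13, 16, 19, 1, 4, 8, 10, 14, 17], [7, 13, 16, 19, 2, 5, 9, 11, 15, 18], [7, 13, 16, 19, 23, 26,
  29, 30, 33, 34], [22], [7, 23, 26, 29, 1, 4, 8, 20, 24, 27], [7, 23, 26, 29, 2, 5, 9, 21, 25, 28],
  [7, 23, 26, 29, 13, 16, 19, 30, 33, 34], [12], [13, 23, 30, 33, 1, 10, 14, 20, 24, 31], [13, 23,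
  30, 33, 2, 11, 15, 21, 25, 32], [13, 23, 30, 33, 7, 16, 19, 26, 29, 34], [6], [16, 26, 30, 34, 4,
  10, 17, 20, 27, 31], [16, 26, 30, 34, 5, 11, 18, 21, 28, 32], [16, 26, 30, 34, 7, 13, 19, 23, 29,
  33], [3], [3, 6, 8, 9, 0, 1, 2, 4, 5, 7], [3, 6, 8, 9, 12, 14, 15, 17, 18, 19], [3, 6, 8, 9, 22,
  24, 25, 27, 28, 29], [30], [3, 12, 14, 15, 0, 1, 2, 10, 11, 13], [3, 12, 14, 15, 6, 8, 9, 17, 18,
  19], [3, 12, 14, 15, 22, 24, 25, 31, 32, 33], [26], [3, 22, 24, 25, 0, 1, 2, 20, 21, 23], [3, 22,
  24, 25, 6, 8, 9, 27, 28, 29], [3, 22, 24, 25, 12, 14, 15, 31, 32, 33], [16], [6, 12, 17, 18, 0, 4,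
  5, 10, 11, 16], [6, 12, 17, 18, 3, 8, 9, 14, 15, 19], [6, 12, 17, 18, 22, 27, 28, 31, 32, 34],
  [23], [6, 22, 27, 28, 0, 4, 5, 20, 21, 26], [6, 22, 27, 28, 3, 8, 9, 24, 25, 29], [6, 22, 27, 28,
  12, 17, 18, 31, 32, 34], [13], [12, 22, 31, 32, 0, 10, 11, 20, 21, 30], [12, 22, 31, 32, 3, 14,
  15, 24, 25, 33], [12, 22, 31, 32, 6, 17, 18, 27, 28, 34], [7], [8, 14, 17, 19, 1, 4, 7, 10, 13,
  16], [8, 14, 17, 19, 3, 6, 9, 12, 15, 18], [8, 14, 17, 19, 24, 27, 29, 31, 33, 34], [21], [8, 24,
  27, 29, 1, 4, 7, 20, 23, 26], [8, 24, 27, 29, 3, 6, 9, 22, 25, 28], [8, 24, 27, 29, 14, 17, 19,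
  31, 33, 34], [11], [14, 24, 31, 33, 1, 10, 13, 20, 23, 30], [14, 24, 31, 33, 3, 12, 15, 22, 25,
  32], [14, 24, 31, 33, 8, 17, 19, 27, 29, 34], [5], [17, 27, 31, 34, 4, 10, 16, 20, 26, 30], [17,
  27, 31, 34, 6, 12, 18, 22, 28, 32], [17, 27, 31, 34, 8, 14, 19, 24, 29, 33], [2], [9, 15, 18, 19,
  2, 5, 7, 11, 13, 16], [9, 15, 18, 19, 3, 6, 8, 12, 14, 17], [9, 15, 18, 19, 25, 28, 29, 32, 33,
  34], [20], [9, 25, 28, 29, 2, 5, 7, 21, 23, 26], [9, 25, 28, 29, 3, 6, 8, 22, 24, 27], [9, 25, 28,
  29, 15, 18, 19, 32, 33, 34], [10], [15, 25, 32, 33, 2, 11, 13, 21, 23, 30], [15, 25, 32, 33, 3,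
  12, 14, 22, 24, 31], [15, 25, 32, 33, 9, 18, 19, 28, 29, 34], [4], [18, 28, 32, 34, 5, 11, 16, 21,
  26, 30], [18, 28, 32, 34, 6, 12, 17, 22, 27, 31], [18, 28, 32, 34, 9, 15, 19, 25, 29, 33], [1],
  [19, 29, 33, 34, 7, 13, 16, 23, 26, 30], [19, 29, 33, 34, 8, 14, 17, 24, 27, 31], [19, 29, 33, 34,
  9, 15, 18, 25, 28, 32], [0]]

/-- the permutations of the four roots in lexicographic order -/
def L24 : List ℕ :=
  [1754760, 1754312, 1754704, 1753808, 1754200, 1753752, 1754753, 1754305, 1754641, 1753297,
  1754137, 1753241, 1754690, 1753794, 1754634, 1753290, 1753626, 1753178, 1754179, 1753731, 1754123,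
  1753227, 1753619, 1753171]

/-- table for the code 220 -/
def T220 : ℕ := 0x42000000000000000000000000000000000000000000000000000000000000000000000000000000000010080000000000000000000000000000000000000000000000000000000000000000000000000000000000000000000000000000000000000000000000000000000000000000000000000000000000000000000000000000000000000000000000000000000000000000000000000000000000000000000000000000000000000000000000000000000000000000000000000000000000000000000000000000000000000000000000000000000000000000000000000000000000000000000000000000000000000000000000000000000000000000000000000000000000000000000000000000000000000000000000000000000081000000000000000000000000000000000000000000000000000000000000000000000000000000000000000000000000000000000000000000000000000000000000000000000000000000000000000000000000000000000000000000000000000000000000000000000000000000000000000000000000000000000004002000000000000000000000000000000000000000000000000000000000000000000000000000000000000000000000000000000000000000000000000000000000000000000000000000000000000000000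000000000000000000000000000000000000000000000000000000000000000000000000000000000000000000000000000000000000000000000000000000000000000000000000000000000000000000000000000000000000000000000000000000000000000000000000000000000000000000000420000000000000000000000000000000000000000000000000000000000000000000000000000000000000000000000000000000000000000000000000000000000000000000000000000000000000000000000100800000000000000000000000000000000000000000000000000000000000000000000000000000000000000000000000000000000000000000000000000000000000000000000000000000000000000000000000000000000000000000000000000000000000000000000000000000000000000000000000000000000000000000000000000000000000000000000000000000000000000000000000000000000000000000000000000000000000000000000000000000000000000000000000000000000000000000000000000000000000000000000000000000000000000000000000000000000000000000000000000000000000000000000000000000000000000000000000000000000000000000000000000000000000000000000000000000000000000000000000000000000000000000000000000000000000000000000000000000000000000000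000000000000000000000000000000020040000000000000000000000000000000000000000000000000000000000000000000000000000000000000000000000000000000000000000000000000000000000000000000000000000000000000000000008001000000000000000000000000000000000000000000000000000000000000000000000000000000000000000000000000000000000000000000000000000000000000000000000000000000000000000000000000000000000000000000000000000000000000000000000000000000000000000000000000000000000000000000000000000000000000000000000000000000000000000000000000000000000000000000000000000000000000000000000000000000000000000000000000000000000000000810000000000000000000000000000000000000000000000000000000000000000000000000000000000000000000000000000000000000000000000000000000000000000000000000000000000000000000000000000000000000000000000000000000000000000000000000000000000000000000000000000000000004200000000000000000000000000000000000000000000000000000000000000000000000000000000000000000000000000000000000000000000000000000000000000000000000000000000000000000000000000000000000000000000000000000000000000000000000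000000000000000000000000000000000000000000000000000000000000000000000000000000000000000000000000000000000000000000000000000000000000000000000000000000000000000000000000000000000000000000000000000000000000000000000000000000000000000000000000000000000000000000000000000000000200400000000000000000000000000000000000000000000000000000000000000000000000000000000008100000000000000000000000000000000000000000000000000000000000000000000000000000000000000000000000000000000000000000000000000000000000000000000000000000000000000000000000000000000000000000000000000000000000000000000000000000000000000000000000000000000000000000000000000000000000000000000000000000000000000000000000000000000000000000000000000000000000000000000000000000000000000000000000000000000000000000000000000000000000000000000000000000000000000000000000000000000000000000000000000000000000000000000000000000000000000000000000000000000000000000000000000000000000000000000000000000000000000000000000000000000000000000000000000000000000000000000000000000000000000000000000000000000000000000000000000000000000000000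0000000000000000000000000000000000000000000000000000000000000000000000000000000000000000000000000000000000000000000000000000000000000000000000000000000000000000000000000000000000000000000000000000000000000000000000000000000000000000000000000000000000000000000000000000000000000000000000000000000000000000000000000000000000000000000000000000000000000000000000000000000000000000000000000000000000000000000000000000000000000000000000000000000000000000000000000000000000000000000000000000000000000000000000000000000000000000000000000000000000000000000000000000000000000000000000000000000000000000000000000000000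

/-- table for the codes 72, 264, 520 -/
def T72 : ℕ := 0x3f000000000000000000000fc000000000000000000000000000000000000000000000000000000000000000000000000000000000000000000000000000000000000000000000000000000000000000000000000000000000000000000000000000000000000000000000000000000000000000000000000000000000000000000000000000000000000000000000000000000000000000000000000000000000000000000000000000000000000000000000000000000000000000000000000000000000000000000000000000000000000000000000000000000000000000000000000000000000000000000000000000000000000000000000000000000000000000000000000000000000000000000000000000000000000000000000000000000000000000000000000000000000000000000000000000000000000000000000000000000000000000000000000000000000000000000000000000000000000000000000000000000000000000000000000000000000000000000000000000000000000000000000000000000000000000000000000000000000000000000000000000000000000000000000000000000000000000000000000000000000000000000000000000000000000000000000000000000000000000000000000000000000000000000000000000000000000000000000000000000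000000000000000000000000000000000000000000000000000000000000000000000000000000000000000000000000000000000000000000000000000000000000000000000000000000000000000000000000000000000000000000000000000000000000000000000000000000000000000000000000000000000000000000000000000000000000000000000000000000000000000000000000000000000000000000000000000000000000000000000000000000000000000000000000000000000000000000000000000000000000000000000000000000000000000000000000000000000000000000000000000000000000000000000000000000000000000003f00000000000000000000000000000003f00000000000000000000000000000000000000000000000000000000000000000000000000000000000000000000000000000000000000000000000000000000000000000000000000000000000000000000000000000000000000000000000000000000000000000000000000000000000000000000000000000000000000000000000000000000000000000000000000000000000000000000000000000000000000000000000000000000000000000000000000000000000000000000000000000000000000000000000000000000000000000000000000000000000000000000000000000000000000000000000000000000000000000000000000000000000000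0000000000000000000000000000000000000000000000000000000000000000000000000000000000000000000000000000000000000000000000000000000000000000000000000000000000000000000000000000000000000000000000000000000000000000000000000000000000000000000000fc000000003f00000000000000000000000000000000000000000000000000000000000000000000000000000000000000000000000000000000000000000000000000000000000000000000000000000000000000000000000000000000000000000000000000000000000000000000000000000000000000000000000000000000000000000000000000000000000000000000000000000000000000000000000000000000000000000000000000000000000003f000000000000000000000000000000000000fc0000000000000000000000000000000000000000000000000000000000000000000000000000000000000000000000000000000000000000000000000000000000000000000000000000000000000000000000000000000fc0000000000000fc000000000000000000000000000000000000000000000000000000000000000000000000000000000000000003f000fc0000000000000000000000000000000000000000000000000000000000000000000000000000000000000000000000000000000000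

noncomputable def c24 (k : ℕ) : ℕ := L24.getD k 0

/-- the `k`-th permutation of the roots, on five vertices -/
noncomputable def tau (k : ℕ) (i : Fin 5) : Fin 5 := Fin.ofNat 5 (C.dg (c24 k) (3 * (i : ℕ)))

/-- colour 1 for the three other vertices -/
def betaC (i j : Fin 7) : ℕ :=
  if i = j then (if (i : ℕ) < 4 then 0 else 1) else 0

noncomputable def KC1 : List (Equiv.Perm (Fin 7)) := (List.range 24).map fun k => toP (c24 k)

def KC2 : List (Equiv.Perm (Fin 7)) := six (Equiv.swap 4 5) (Equiv.swap 5 6)

theorem SC_perm : ∀ s ∈ SC, C.isPerm s = true := by decide +kernel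

theorem SC_keys : (SC.map fun s => pkey betaC (vec s)) = SCkeys := by decide +kernel

theorem SC_nodup : SCkeys.Nodup := by decide +kernel

theorem SC_length : SC.length = 35 := by decide +kernel

theorem c24_perm : ∀ k < 24, C.isPerm (c24 k) = true := by decide +kernel

theorem c24_pres : ∀ k < 24, ∀ i j, betaC (vec (c24 k) i) (vec (c24 k) j) = betaC i j := by
  decide +kernel

theorem c24_fix : ∀ k < 24, vec (c24 k) 4 = 4 ∧ vec (c24 k) 5 = 5 ∧ vec (c24 k) 6 = 6 := by
  decide +kernel

theorem c24_tau4 : ∀ k < 24, ∀ i : Fin 5, vec (c24 k) ((![0, 1, 2, 3, 4] : Fin 5 → Fin 7) i) =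
    (![0, 1, 2, 3, 4] : Fin 5 → Fin 7) (tau k i) := by decide +kernel

theorem c24_tau5 : ∀ k < 24, ∀ i : Fin 5, vec (c24 k) ((![0, 1, 2, 3, 5] : Fin 5 → Fin 7) i) =
    (![0, 1, 2, 3, 5] : Fin 5 → Fin 7) (tau k i) := by decide +kernel

theorem c24_tau6 : ∀ k < 24, ∀ i : Fin 5, vec (c24 k) ((![0, 1, 2, 3, 6] : Fin 5 → Fin 7) i) =
    (![0, 1, 2, 3, 6] : Fin 5 → Fin 7) (tau k i) := by decide +kernel

theorem KC_nodup' : ((List.range 24).flatMap fun k => KC2.map fun b : Equiv.Perm (Fin 7) =>
    enc fun i => vec (c24 k) (b i)).Nodup := by decide +kernel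

theorem KC_nodup : ((pr KC1 KC2).map fun k : Equiv.Perm (Fin 7) => enc k).Nodup := by
  have h : ((pr KC1 KC2).map fun k : Equiv.Perm (Fin 7) => enc k) =
      (List.range 24).flatMap fun k => KC2.map fun b : Equiv.Perm (Fin 7) =>
        enc fun i => vec (c24 k) (b i) := by
    rw [pr, KC1, List.flatMap_map, List.map_flatMap]
    refine List.flatMap_congr ?_
    intro k hk
    rw [List.map_map]
    refine List.map_congr_left fun b _ => ?_
    show enc (fun i => (toP (c24 k) * b : Equiv.Perm (Fin 7)) i) = _
    congr 1
    funext i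
    rw [Equiv.Perm.mul_apply, toP_apply _ (c24_perm k (List.mem_range.1 hk))]
  rw [h]; exact KC_nodup'

theorem KC1_pres : ∀ a ∈ KC1, Pres betaC a := by
  intro a ha
  obtain ⟨k, hk, rfl⟩ := List.mem_map.1 ha
  have hk' := List.mem_range.1 hk
  intro i j
  rw [toP_apply _ (c24_perm k hk'), toP_apply _ (c24_perm k hk')]
  exact c24_pres k hk' i j

theorem KC_beta : ∀ k ∈ pr KC1 KC2, ∀ i j, betaC (k i) (k j) = betaC i j :=
  Pres.pr KC1_pres (Pres.six (by unfold Pres; decide +kernel) (by unfold Pres; decide +kernel))

theorem KC_length : (pr KC1 KC2).length = 144 := by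
  rw [pr, List.length_flatMap]
  simp only [List.length_map, KC1, List.map_const', List.sum_replicate, List.length_range]
  rfl

theorem SC_KC : SC.length * (pr KC1 KC2).length = 5040 := by rw [SC_length, KC_length]

theorem srcC_eq : (SC.flatMap fun s => [cs fun i => vec s (![0, 1, 2, 3, 4] i),
    cs fun i => vec s (![0, 1, 2, 3, 5] i), cs fun i => vec s (![0, 1, 2, 3, 6] i),
    [C.tid (vec s 4) (vec s 5) (vec s 6)]]) = srcC := by decide +kernel

theorem srcC_lt : ∀ s ∈ srcC, ∀ t ∈ s, t < 35 := by decide +kernel

/-! ### the loop -/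

theorem popc_eq (n : ℕ) : ∀ z acc : ℕ,
    popc n z acc = acc + ∑ k ∈ Finset.range n, (z.testBit k).toNat := by
  induction n with
  | zero => intro z acc; rfl
  | succ n ih =>
    intro z acc
    have h : popc (n + 1) z acc = popc n (z / 2) (acc + z % 2) := rfl
    rw [h, ih, Finset.sum_range_succ']
    have h2 : z % 2 = (z.testBit 0).toNat := by
      rw [Nat.testBit_zero]
      rcases Nat.mod_two_eq_zero_or_one z with h | h <;> simp [h]
    simp only [Nat.testBit_succ]
    omega

theorem popq_eq (z acc : ℕ) :
    popq z acc = acc + ∑ k ∈ Finset.range 24, (z.testBit k).toNat := by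
  cases z with
  | zero =>
    have h : popq 0 acc = acc := rfl
    rw [h, Finset.sum_eq_zero]
    · rfl
    · intro k _
      rw [Nat.zero_testBit]; rfl
  | succ n =>
    have h : popq (n + 1) acc = popc 24 (n + 1) acc := rfl
    rw [h, popc_eq]

theorem cut_succ (T e0 k out acc : ℕ) :
    cut T e0 (k + 1) out acc = cut T e0 k (out >>> 40)
      (Bool.rec (motive := fun _ => ℕ) acc
        (popq ((force (tab24 T) (out % 1024) &&& force (tab24 T) ((out >>> 10) % 1024)) &&&
          force (tab24 T) ((out >>> 20) % 1024)) acc)
        (Nat.beq ((out >>> 30) % 1024) e0)) := rfl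

theorem four_fields (a b c d : ℕ) (l : List ℕ) (ha : a < 1024) (hb : b < 1024) (hc : c < 1024)
    (hd : d < 1024) :
    packF 10 (a :: b :: c :: d :: l) % 1024 = a ∧
      (packF 10 (a :: b :: c :: d :: l) >>> 10) % 1024 = b ∧
      (packF 10 (a :: b :: c :: d :: l) >>> 20) % 1024 = c ∧
      (packF 10 (a :: b :: c :: d :: l) >>> 30) % 1024 = d ∧
      packF 10 (a :: b :: c :: d :: l) >>> 40 = packF 10 l := by
  obtain ⟨h1, h2, h3⟩ := two_fields a b (c :: d :: l) ha hb
  obtain ⟨h4, h5, h6⟩ := two_fields c d l hc hd
  refine ⟨h1, h2, by rw [h3, h4], ?_, ?_⟩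
  · have : (30 : ℕ) = 20 + 10 := rfl
    rw [this, Nat.shiftRight_add, h3, h5]
  · have : (40 : ℕ) = 20 + 20 := rfl
    rw [this, Nat.shiftRight_add, h3, h6]

/-- the value of one root set -/
noncomputable def cval (T : ℕ) (a b c : ℕ) : ℕ :=
  ∑ k ∈ Finset.range 24, ((tab24 T a).testBit k && (tab24 T b).testBit k &&
    (tab24 T c).testBit k).toNat

theorem cut_eq (T e0 : ℕ) (l : List (ℕ × ℕ × ℕ × ℕ))
    (hl : ∀ p ∈ l, p.1 < 1024 ∧ p.2.1 < 1024 ∧ p.2.2.1 < 1024 ∧ p.2.2.2 < 1024) : ∀ acc : ℕ,
    cut T e0 l.length (packF 10 (l.flatMap fun p => [p.1, p.2.1, p.2.2.1, p.2.2.2])) acc =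
      acc + (l.map fun p => if p.2.2.2 = e0 then cval T p.1 p.2.1 p.2.2.1 else 0).sum := by
  induction l with
  | nil => intro acc; rfl
  | cons p l ih =>
    intro acc
    obtain ⟨ha, hb, hc, hd⟩ := hl p List.mem_cons_self
    obtain ⟨h1, h2, h3, h4, h5⟩ := four_fields p.1 p.2.1 p.2.2.1 p.2.2.2
      (l.flatMap fun p => [p.1, p.2.1, p.2.2.1, p.2.2.2]) ha hb hc hd
    have e : (p :: l).flatMap (fun p => [p.1, p.2.1, p.2.2.1, p.2.2.2]) =
        p.1 :: p.2.1 :: p.2.2.1 :: p.2.2.2 ::
          l.flatMap (fun p => [p.1, p.2.1, p.2.2.1, p.2.2.2]) := rfl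
    have h6 : (Nat.beq p.2.2.2 e0 = true) ↔ p.2.2.2 = e0 :=
      ⟨Nat.eq_of_beq_eq_true, fun h => by rw [h]; exact Nat.beq_refl e0⟩
    rw [e, List.length_cons, cut_succ, h1, h2, h3, h4, h5, force_eq, force_eq, force_eq, brec_nat,
      ih (fun q hq => hl q (List.mem_cons_of_mem _ hq)), List.map_cons, List.sum_cons, popq_eq]
    simp only [h6, Nat.testBit_and]
    unfold cval
    split_ifs <;> omega

/-! ### the sum -/

/-- the table `T` describes the set `S` of codes -/
def SymC (T : ℕ) (S : List ℕ) : Prop :=
  ∀ c ∈ lab5, ∀ k < 24, (tab24 T c).testBit k = decide (act (tau k) c ∈ S)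

/-- indicator of the cut pattern, as a function of the codes -/
def gC' (U : List ℕ) (e0 : ℕ) (a b c : ℕ) (e : Bool) : ℤ :=
  if (a ∈ U ∧ b ∈ U ∧ c ∈ U) ∧ e.toNat = e0 then 1 else 0

theorem gC'_12 (U : List ℕ) (e0 a b c : ℕ) (e : Bool) : gC' U e0 b a c e = gC' U e0 a b c e := by
  unfold gC'
  refine if_congr ?_ rfl rfl
  tauto

theorem gC'_23 (U : List ℕ) (e0 a b c : ℕ) (e : Bool) : gC' U e0 a c b e = gC' U e0 a b c e := by
  unfold gC'
  refine if_congr ?_ rfl rfl
  tauto

/-- indicator of the cut pattern -/
noncomputable def gC (U : List ℕ) (e0 : ℕ) (H : TG (Fin 7)) (σ : Equiv.Perm (Fin 7)) : ℤ :=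
  gC' U e0 (code5 (H.pull fun i => σ (![0, 1, 2, 3, 4] i)))
    (code5 (H.pull fun i => σ (![0, 1, 2, 3, 5] i)))
    (code5 (H.pull fun i => σ (![0, 1, 2, 3, 6] i))) (H.E (σ 4) (σ 5) (σ 6))

theorem gC_45 (U : List ℕ) (e0 : ℕ) (H : TG (Fin 7)) : RInv (gC U e0 H) (Equiv.swap 4 5) := by
  intro σ
  unfold gC
  rw [pull_comp' H σ (Equiv.swap 4 5) ![0, 1, 2, 3, 4] ![0, 1, 2, 3, 5] (by decide),
    pull_comp' H σ (Equiv.swap 4 5) ![0, 1, 2, 3, 5] ![0, 1, 2, 3, 4] (by decide),
    pull_comp' H σ (Equiv.swap 4 5) ![0, 1, 2, 3, 6] ![0, 1, 2, 3, 6] (by decide),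
    Equiv.Perm.mul_apply, Equiv.Perm.mul_apply, Equiv.Perm.mul_apply, Equiv.swap_apply_left,
    Equiv.swap_apply_right, Equiv.swap_apply_of_ne_of_ne (by decide) (by decide), H.symm₁]
  exact gC'_12 _ _ _ _ _ _

theorem gC_56 (U : List ℕ) (e0 : ℕ) (H : TG (Fin 7)) : RInv (gC U e0 H) (Equiv.swap 5 6) := by
  intro σ
  unfold gC
  rw [pull_comp' H σ (Equiv.swap 5 6) ![0, 1, 2, 3, 4] ![0, 1, 2, 3, 4] (by decide),
    pull_comp' H σ (Equiv.swap 5 6) ![0, 1, 2, 3, 5] ![0, 1, 2, 3, 6] (by decide),
    pull_comp' H σ (Equiv.swap 5 6) ![0, 1, 2, 3, 6] ![0, 1, 2, 3, 5] (by decide),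
    Equiv.Perm.mul_apply, Equiv.Perm.mul_apply, Equiv.Perm.mul_apply, Equiv.swap_apply_left,
    Equiv.swap_apply_right, Equiv.swap_apply_of_ne_of_ne (by decide) (by decide), H.symm₂]
  exact gC'_23 _ _ _ _ _ _

/-- the masks of the cut term -/
noncomputable def masksC : List ℕ := masksOf 10 srcC 0 35

theorem map_four {α : Type} (S : List α) (F G F' G' : α → List ℕ) (g : List ℕ → ℕ) :
    (S.flatMap fun s => [F s, G s, F' s, G' s]).map g =
      (S.map fun s => ((g (F s), g (G s), g (F' s), g (G' s)) : ℕ × ℕ × ℕ × ℕ)).flatMap
        fun p => [p.1, p.2.1, p.2.2.1, p.2.2.2] := by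
  induction S with
  | nil => rfl
  | cons a l ih => rw [List.flatMap_cons, List.map_append, ih]; rfl

theorem sum_range_list (F : ℕ → ℤ) (n : ℕ) :
    ((List.range n).map F).sum = ∑ k ∈ Finset.range n, F k := by
  induction n with
  | zero => rfl
  | succ n ih =>
    rw [List.range_succ, List.map_append, List.sum_append, ih, Finset.sum_range_succ]
    simp

/-- the value at a product -/
theorem gC_val (T : ℕ) (U : List ℕ) (hT : SymC T U) (e0 : ℕ) (H : TG (Fin 7)) (s : ℕ)
    (hs : C.isPerm s = true) (k : ℕ) (hk : k < 24) :
    gC U e0 H (toP s * toP (c24 k)) =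
      if (H.E (vec s 4) (vec s 5) (vec s 6)).toNat = e0 then
        (((tab24 T (code5 (H.pull fun i => vec s (![0, 1, 2, 3, 4] i)))).testBit k &&
          (tab24 T (code5 (H.pull fun i => vec s (![0, 1, 2, 3, 5] i)))).testBit k &&
          (tab24 T (code5 (H.pull fun i => vec s (![0, 1, 2, 3, 6] i)))).testBit k).toNat : ℤ)
      else 0 := by
  have e : ∀ i, toP s i = vec s i := toP_apply s hs
  have e2 : ∀ i, toP (c24 k) i = vec (c24 k) i := toP_apply _ (c24_perm k hk)
  unfold gC
  rw [pull_comp H (toP s) (toP (c24 k)) ![0, 1, 2, 3, 4] ![0, 1, 2, 3, 4] (tau k)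
      (fun i => by rw [e2]; exact c24_tau4 k hk i),
    pull_comp H (toP s) (toP (c24 k)) ![0, 1, 2, 3, 5] ![0, 1, 2, 3, 5] (tau k)
      (fun i => by rw [e2]; exact c24_tau5 k hk i),
    pull_comp H (toP s) (toP (c24 k)) ![0, 1, 2, 3, 6] ![0, 1, 2, 3, 6] (tau k)
      (fun i => by rw [e2]; exact c24_tau6 k hk i),
    Equiv.Perm.mul_apply, Equiv.Perm.mul_apply, Equiv.Perm.mul_apply, e2, e2, e2,
    (c24_fix k hk).1, (c24_fix k hk).2.1, (c24_fix k hk).2.2, e, e, e,
    hT _ (code5_mem _) k hk, hT _ (code5_mem _) k hk, hT _ (code5_mem _) k hk]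
  simp only [e, gC']
  by_cases hb : (H.E (vec s 4) (vec s 5) (vec s 6)).toNat = e0
  · rw [if_pos hb]
    simp only [hb, and_true]
    by_cases h1 : act (tau k) (code5 (H.pull fun i => vec s (![0, 1, 2, 3, 4] i))) ∈ U <;>
    by_cases h2 : act (tau k) (code5 (H.pull fun i => vec s (![0, 1, 2, 3, 5] i))) ∈ U <;>
    by_cases h3 : act (tau k) (code5 (H.pull fun i => vec s (![0, 1, 2, 3, 6] i))) ∈ U <;>
    simp [h1, h2, h3]
  · rw [if_neg hb, if_neg (fun h => hb h.2)]

theorem pr_sum (f : Equiv.Perm (Fin 7) → ℤ) (A B : List (Equiv.Perm (Fin 7)))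
    (hB : ∀ b ∈ B, RInv f b) (s : Equiv.Perm (Fin 7)) :
    ((pr A B).map fun k => f (s * k)).sum = (B.length : ℤ) * (A.map fun a => f (s * a)).sum := by
  rw [pr, List.map_flatMap, sum_flatMap, ← List.sum_map_mul_left]
  congr 1
  refine List.map_congr_left fun a _ => ?_
  rw [List.map_map]
  have : B.map ((fun k => f (s * k)) ∘ fun b => a * b) = B.map (fun _ => f (s * a)) :=
    List.map_congr_left fun b hb => by
      show f (s * (a * b)) = _
      rw [← mul_assoc, hB b hb]
  rw [this, List.map_const', List.sum_replicate, nsmul_eq_mul]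

attribute [local irreducible] gath cs tab24 bits code7 in
theorem cut_aux (T : ℕ) (U : List ℕ) (hT : SymC T U) (e0 : ℕ) (H : TG (Fin 7)) (S : List ℕ)
    (src : List (List ℕ)) (hp : ∀ s ∈ S, C.isPerm s = true)
    (hsrc : (S.flatMap fun s => [cs fun i => vec s (![0, 1, 2, 3, 4] i),
      cs fun i => vec s (![0, 1, 2, 3, 5] i), cs fun i => vec s (![0, 1, 2, 3, 6] i),
      [C.tid (vec s 4) (vec s 5) (vec s 6)]]) = src) (hlt : ∀ s ∈ src, ∀ t ∈ s, t < 35) :
    (S.map fun s => (KC1.map fun a => gC U e0 H (toP s * a)).sum).sum =
      ((cut T e0 S.length (scat (masksOf 10 src 0 35) (code7 H) 0) 0 : ℕ) : ℤ) := by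
  rw [scat_masksOf 10 src 35 (code7 H) hlt, ← hsrc, map_four]
  have hl : ∀ p ∈ (S.map fun s => ((gath (cs fun i => vec s (![0, 1, 2, 3, 4] i)) (code7 H),
      gath (cs fun i => vec s (![0, 1, 2, 3, 5] i)) (code7 H),
      gath (cs fun i => vec s (![0, 1, 2, 3, 6] i)) (code7 H),
      gath [C.tid (vec s 4) (vec s 5) (vec s 6)] (code7 H)) : ℕ × ℕ × ℕ × ℕ)),
      p.1 < 1024 ∧ p.2.1 < 1024 ∧ p.2.2.1 < 1024 ∧ p.2.2.2 < 1024 := by
    intro p hp
    obtain ⟨s, _, hs⟩ := List.mem_map.1 hp
    rw [← hs]
    dsimp only
    exact ⟨gath_cs_lt _ _, gath_cs_lt _ _, gath_cs_lt _ _, gath_one_lt _ _⟩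
  have h3 := cut_eq T e0 _ hl 0
  rw [List.length_map, Nat.zero_add] at h3
  rw [h3, List.map_map]
  have hcast : ∀ (L : List ℕ) (F : ℕ → ℕ), (((L.map F).sum : ℕ) : ℤ) =
      (L.map fun s => (F s : ℤ)).sum := by
    intro L F
    induction L with
    | nil => rfl
    | cons a t ih =>
      rw [List.map_cons, List.sum_cons, List.map_cons, List.sum_cons, ← ih]
      push_cast; ring
  rw [hcast]
  refine congrArg List.sum (List.map_congr_left ?_)
  intro s hs
  have h4 : (KC1.map fun a => gC U e0 H (toP s * a)) = (List.range 24).map fun k =>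
      if (H.E (vec s 4) (vec s 5) (vec s 6)).toNat = e0 then
        (((tab24 T (code5 (H.pull fun i => vec s (![0, 1, 2, 3, 4] i)))).testBit k &&
          (tab24 T (code5 (H.pull fun i => vec s (![0, 1, 2, 3, 5] i)))).testBit k &&
          (tab24 T (code5 (H.pull fun i => vec s (![0, 1, 2, 3, 6] i)))).testBit k).toNat : ℤ)
      else 0 := by
    rw [KC1, List.map_map]
    refine List.map_congr_left fun k hk => ?_
    exact gC_val T U hT e0 H s (hp s hs) k (List.mem_range.1 hk)
  rw [h4, sum_range_list]
  simp only [code5_pull, bit_eq, Function.comp_def]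
  by_cases hb : gath [C.tid (vec s 4) (vec s 5) (vec s 6)] (code7 H) = e0
  · simp only [if_pos hb]
    unfold cval
    push_cast
    rfl
  · simp only [if_neg hb, Finset.sum_const_zero, Nat.cast_zero]

theorem sum_cut (T : ℕ) (U : List ℕ) (hT : SymC T U) (e0 : ℕ) (H : TG (Fin 7)) :
    ∑ σ : Equiv.Perm (Fin 7), (if (code5 (H.pull fun i => σ (![0, 1, 2, 3, 4] i)) ∈ U ∧
      code5 (H.pull fun i => σ (![0, 1, 2, 3, 5] i)) ∈ U ∧
      code5 (H.pull fun i => σ (![0, 1, 2, 3, 6] i)) ∈ U) ∧
      (H.E (σ 4) (σ 5) (σ 6)).toNat = e0 then (1 : ℤ) else 0) =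
      6 * ((cut T e0 35 (scat masksC (code7 H) 0) 0 : ℕ) : ℤ) := by
  have h := sum_codes betaC SC (pr KC1 KC2) SC_perm (by rw [SC_keys]; exact SC_nodup) KC_nodup
    KC_beta SC_KC (gC U e0 H)
  have h2 : ∀ b ∈ KC2, RInv (gC U e0 H) b := RInv.six (gC_45 U e0 H) (gC_56 U e0 H)
  have h3 : (SC.map fun s => ((pr KC1 KC2).map fun k => gC U e0 H (toP s * k)).sum) =
      SC.map fun s => (6 : ℤ) * (KC1.map fun a => gC U e0 H (toP s * a)).sum :=
    List.map_congr_left fun s _ => pr_sum _ KC1 KC2 h2 (toP s)
  have h4 := cut_aux T U hT e0 H SC srcC SC_perm srcC_eq srcC_lt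
  rw [SC_length] at h4
  rw [h3, List.sum_map_mul_left, h4] at h
  refine Eq.trans ?_ h
  refine Finset.sum_congr rfl fun σ _ => ?_
  rw [gC, gC']

theorem sym220 : SymC T220 [220] := by unfold SymC; decide +kernel

theorem sym72 : SymC T72 [72, 264, 520] := by unfold SymC; decide +kernel

end K4m.Ev
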