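import Mathlib
import Pool.Agent.Lib.MP_392c14_co.Ev.Cut
import Pool.Agent.Lib.MP_392c14_co.Ev.ChkW

/-! The weighted cut term. -/

set_option autoImplicit false
set_option maxRecDepth 100000

namespace K4m.Ev

theorem w3_eq (n : ℕ) : ∀ a b c acc : ℕ, w3 n a b c acc = acc + ∑ k ∈ Finset.range n,
    (a >>> (10 * k)) % 1024 * ((b >>> (10 * k)) % 1024 * ((c >>> (10 * k)) % 1024)) := by
  induction n with
  | zero => intro a b c acc; rfl
  | succ n ih =>
    intro a b c acc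
    have h : w3 (n + 1) a b c acc = w3 n (a >>> 10) (b >>> 10) (c >>> 10)
      (acc + a % 1024 * (b % 1024 * (c % 1024))) := rfl
    rw [h, ih, Finset.sum_range_succ']
    simp only [Nat.mul_zero, Nat.shiftRight_zero]
    have e : ∀ x k : ℕ, (x >>> 10) >>> (10 * k) = x >>> (10 * (k + 1)) := by
      intro x k
      rw [← Nat.shiftRight_add]
      congr 1
      ring
    simp only [e]
    ring

theorem nz_eq (k : ℕ → ℕ) (acc a : ℕ) (h : k 0 = acc) : nz k acc a = k a := by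
  cases a with
  | zero => exact h.symm
  | succ n => rfl

theorem w3_zero1 (n : ℕ) (b c acc : ℕ) : w3 n 0 b c acc = acc := by
  rw [w3_eq]
  simp

theorem w3_zero2 (n : ℕ) (a c acc : ℕ) : w3 n a 0 c acc = acc := by
  rw [w3_eq]
  simp

theorem w3_zero3 (n : ℕ) (a b acc : ℕ) : w3 n a b 0 acc = acc := by
  rw [w3_eq]
  simp

/-- digit `k` of the leaf of the code `c` -/
noncomputable def wd (T : Tr ℕ) (k c : ℕ) : ℕ := (T.get c >>> (10 * k)) % 1024

/-- the weight of a code -/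
noncomputable def wt (T : Tr ℕ) (c : ℕ) : ℕ := T.get c % 1024

theorem wd_zero (T : Tr ℕ) (c : ℕ) : wd T 0 c = wt T c := by
  unfold wd wt
  rw [Nat.mul_zero, Nat.shiftRight_zero]

theorem cutW_succ (T : Tr ℕ) (e0 k out acc : ℕ) :
    cutW T e0 (k + 1) out acc = cutW T e0 k (out >>> 40)
      (Bool.rec (motive := fun _ => ℕ) acc
        (nz (fun a => nz (fun b => nz (fun c => w3 24 a b c acc) acc
          (force T.get ((out >>> 20) % 1024))) acc
          (force T.get ((out >>> 10) % 1024))) acc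
          (force T.get (out % 1024)))
        (Nat.beq ((out >>> 30) % 1024) e0)) := rfl

/-- the value of one root set -/
noncomputable def cvalW (T : Tr ℕ) (a b c : ℕ) : ℕ :=
  ∑ k ∈ Finset.range 24, wd T k a * (wd T k b * wd T k c)

theorem nz3 (A B C acc : ℕ) :
    nz (fun a => nz (fun b => nz (fun c => w3 24 a b c acc) acc C) acc B) acc A
      = w3 24 A B C acc := by
  have e3 : ∀ a b, nz (fun c => w3 24 a b c acc) acc C = w3 24 a b C acc := fun a b =>
    nz_eq _ _ _ (w3_zero3 _ _ _ _)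
  have e2 : ∀ a, nz (fun b => w3 24 a b C acc) acc B = w3 24 a B C acc := fun a =>
    nz_eq _ _ _ (w3_zero2 _ _ _ _)
  simp only [e3, e2]
  exact nz_eq _ _ _ (w3_zero1 _ _ _ _)

theorem cutW_eq (T : Tr ℕ) (e0 : ℕ) (l : List (ℕ × ℕ × ℕ × ℕ))
    (hl : ∀ p ∈ l, p.1 < 1024 ∧ p.2.1 < 1024 ∧ p.2.2.1 < 1024 ∧ p.2.2.2 < 1024) : ∀ acc : ℕ,
    cutW T e0 l.length (packF 10 (l.flatMap fun p => [p.1, p.2.1, p.2.2.1, p.2.2.2])) acc =
      acc + (l.map fun p => if p.2.2.2 = e0 then cvalW T p.1 p.2.1 p.2.2.1 else 0).sum := by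
  induction l with
  | nil => intro acc; rfl
  | cons p l ih =>
    intro acc
    obtain ⟨ha, hb, hc, hd⟩ := hl p List.mem_cons_self
    obtain ⟨h1, h2, h3, h4, h5⟩ := four_fields p.1 p.2.1 p.2.2.1 p.2.2.2
      (l.flatMap fun p => [p.1, p.2.1, p.2.2.1, p.2.2.2]) ha hb hc hd
    have e : (p :: l).flatMap (fun p => [p.1, p.2.1, p.2.2.1, p.2.2.2]) =
        p.1 :: p.2.1 :: p.2.2.1 :: p.2.2.2 ::
          l.flatMap (fun p => [p.1, p.2.1, p.2.2.1, p.2.2.2]) := rfl
    have h6 : (Nat.beq p.2.2.2 e0 = true) ↔ p.2.2.2 = e0 :=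
      ⟨Nat.eq_of_beq_eq_true, fun h => by rw [h]; exact Nat.beq_refl e0⟩
    rw [e, List.length_cons, cutW_succ, h1, h2, h3, h4, h5, force_eq, force_eq, force_eq, nz3,
      brec_nat, ih (fun q hq => hl q (List.mem_cons_of_mem _ hq)), List.map_cons, List.sum_cons,
      w3_eq]
    simp only [h6]
    unfold cvalW wd
    split_ifs <;> omega

/-- the table `T` is compatible with the permutations of the roots -/
def SymW (T : Tr ℕ) : Prop := ∀ c ∈ lab5, ∀ k < 24, wd T k c = wt T (act (tau k) c)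

/-- the weighted cut pattern, as a function of the codes -/
noncomputable def gW' (T : Tr ℕ) (e0 : ℕ) (a b c : ℕ) (e : Bool) : ℤ :=
  if e.toNat = e0 then ((wt T a * (wt T b * wt T c) : ℕ) : ℤ) else 0

theorem gW'_12 (T : Tr ℕ) (e0 a b c : ℕ) (e : Bool) : gW' T e0 b a c e = gW' T e0 a b c e := by
  unfold gW'
  rw [Nat.mul_left_comm]

theorem gW'_23 (T : Tr ℕ) (e0 a b c : ℕ) (e : Bool) : gW' T e0 a c b e = gW' T e0 a b c e := by
  unfold gW'
  rw [Nat.mul_comm (wt T c)]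

/-- the weighted cut pattern -/
noncomputable def gW (T : Tr ℕ) (e0 : ℕ) (H : TG (Fin 7)) (σ : Equiv.Perm (Fin 7)) : ℤ :=
  gW' T e0 (code5 (H.pull fun i => σ (![0, 1, 2, 3, 4] i)))
    (code5 (H.pull fun i => σ (![0, 1, 2, 3, 5] i)))
    (code5 (H.pull fun i => σ (![0, 1, 2, 3, 6] i))) (H.E (σ 4) (σ 5) (σ 6))

theorem gW_45 (T : Tr ℕ) (e0 : ℕ) (H : TG (Fin 7)) : RInv (gW T e0 H) (Equiv.swap 4 5) := by
  intro σ
  unfold gW
  rw [pull_comp' H σ (Equiv.swap 4 5) ![0, 1, 2, 3, 4] ![0, 1, 2, 3, 5] (by decide),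
    pull_comp' H σ (Equiv.swap 4 5) ![0, 1, 2, 3, 5] ![0, 1, 2, 3, 4] (by decide),
    pull_comp' H σ (Equiv.swap 4 5) ![0, 1, 2, 3, 6] ![0, 1, 2, 3, 6] (by decide),
    Equiv.Perm.mul_apply, Equiv.Perm.mul_apply, Equiv.Perm.mul_apply, Equiv.swap_apply_left,
    Equiv.swap_apply_right, Equiv.swap_apply_of_ne_of_ne (by decide) (by decide), H.symm₁]
  exact gW'_12 _ _ _ _ _ _

theorem gW_56 (T : Tr ℕ) (e0 : ℕ) (H : TG (Fin 7)) : RInv (gW T e0 H) (Equiv.swap 5 6) := by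
  intro σ
  unfold gW
  rw [pull_comp' H σ (Equiv.swap 5 6) ![0, 1, 2, 3, 4] ![0, 1, 2, 3, 4] (by decide),
    pull_comp' H σ (Equiv.swap 5 6) ![0, 1, 2, 3, 5] ![0, 1, 2, 3, 6] (by decide),
    pull_comp' H σ (Equiv.swap 5 6) ![0, 1, 2, 3, 6] ![0, 1, 2, 3, 5] (by decide),
    Equiv.Perm.mul_apply, Equiv.Perm.mul_apply, Equiv.Perm.mul_apply, Equiv.swap_apply_left,
    Equiv.swap_apply_right, Equiv.swap_apply_of_ne_of_ne (by decide) (by decide), H.symm₂]
  exact gW'_23 _ _ _ _ _ _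

/-- the value at a product -/
theorem gW_val (T : Tr ℕ) (hT : SymW T) (e0 : ℕ) (H : TG (Fin 7)) (s : ℕ)
    (hs : C.isPerm s = true) (k : ℕ) (hk : k < 24) :
    gW T e0 H (toP s * toP (c24 k)) =
      if (H.E (vec s 4) (vec s 5) (vec s 6)).toNat = e0 then
        ((wd T k (code5 (H.pull fun i => vec s (![0, 1, 2, 3, 4] i))) *
          (wd T k (code5 (H.pull fun i => vec s (![0, 1, 2, 3, 5] i))) *
          wd T k (code5 (H.pull fun i => vec s (![0, 1, 2, 3, 6] i)))) : ℕ) : ℤ)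
      else 0 := by
  have e : ∀ i, toP s i = vec s i := toP_apply s hs
  have e2 : ∀ i, toP (c24 k) i = vec (c24 k) i := toP_apply _ (c24_perm k hk)
  unfold gW
  rw [pull_comp H (toP s) (toP (c24 k)) ![0, 1, 2, 3, 4] ![0, 1, 2, 3, 4] (tau k)
      (fun i => by rw [e2]; exact c24_tau4 k hk i),
    pull_comp H (toP s) (toP (c24 k)) ![0, 1, 2, 3, 5] ![0, 1, 2, 3, 5] (tau k)
      (fun i => by rw [e2]; exact c24_tau5 k hk i),
    pull_comp H (toP s) (toP (c24 k)) ![0, 1, 2, 3, 6] ![0, 1, 2, 3, 6] (tau k)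
      (fun i => by rw [e2]; exact c24_tau6 k hk i),
    Equiv.Perm.mul_apply, Equiv.Perm.mul_apply, Equiv.Perm.mul_apply, e2, e2, e2,
    (c24_fix k hk).1, (c24_fix k hk).2.1, (c24_fix k hk).2.2, e, e, e,
    hT _ (code5_mem _) k hk, hT _ (code5_mem _) k hk, hT _ (code5_mem _) k hk]
  simp only [e, gW']

attribute [local irreducible] gath cs wd bits code7 in
theorem cutW_aux (T : Tr ℕ) (hT : SymW T) (e0 : ℕ) (H : TG (Fin 7)) (S : List ℕ)
    (src : List (List ℕ)) (hp : ∀ s ∈ S, C.isPerm s = true)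
    (hsrc : (S.flatMap fun s => [cs fun i => vec s (![0, 1, 2, 3, 4] i),
      cs fun i => vec s (![0, 1, 2, 3, 5] i), cs fun i => vec s (![0, 1, 2, 3, 6] i),
      [C.tid (vec s 4) (vec s 5) (vec s 6)]]) = src) (hlt : ∀ s ∈ src, ∀ t ∈ s, t < 35) :
    (S.map fun s => (KC1.map fun a => gW T e0 H (toP s * a)).sum).sum =
      ((cutW T e0 S.length (scat (masksOf 10 src 0 35) (code7 H) 0) 0 : ℕ) : ℤ) := by
  rw [scat_masksOf 10 src 35 (code7 H) hlt, ← hsrc, map_four]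
  have hl : ∀ p ∈ (S.map fun s => ((gath (cs fun i => vec s (![0, 1, 2, 3, 4] i)) (code7 H),
      gath (cs fun i => vec s (![0, 1, 2, 3, 5] i)) (code7 H),
      gath (cs fun i => vec s (![0, 1, 2, 3, 6] i)) (code7 H),
      gath [C.tid (vec s 4) (vec s 5) (vec s 6)] (code7 H)) : ℕ × ℕ × ℕ × ℕ)),
      p.1 < 1024 ∧ p.2.1 < 1024 ∧ p.2.2.1 < 1024 ∧ p.2.2.2 < 1024 := by
    intro p hp
    obtain ⟨s, _, hs⟩ := List.mem_map.1 hp
    rw [← hs]
    dsimp only
    exact ⟨gath_cs_lt _ _, gath_cs_lt _ _, gath_cs_lt _ _, gath_one_lt _ _⟩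
  have h3 := cutW_eq T e0 _ hl 0
  rw [List.length_map, Nat.zero_add] at h3
  rw [h3, List.map_map]
  have hcast : ∀ (L : List ℕ) (F : ℕ → ℕ), (((L.map F).sum : ℕ) : ℤ) =
      (L.map fun s => (F s : ℤ)).sum := by
    intro L F
    induction L with
    | nil => rfl
    | cons a t ih =>
      rw [List.map_cons, List.sum_cons, List.map_cons, List.sum_cons, ← ih]
      push_cast; ring
  rw [hcast]
  refine congrArg List.sum (List.map_congr_left ?_)
  intro s hs
  have h4 : (KC1.map fun a => gW T e0 H (toP s * a)) = (List.range 24).map fun k =>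
      if (H.E (vec s 4) (vec s 5) (vec s 6)).toNat = e0 then
        ((wd T k (code5 (H.pull fun i => vec s (![0, 1, 2, 3, 4] i))) *
          (wd T k (code5 (H.pull fun i => vec s (![0, 1, 2, 3, 5] i))) *
          wd T k (code5 (H.pull fun i => vec s (![0, 1, 2, 3, 6] i)))) : ℕ) : ℤ)
      else 0 := by
    rw [KC1, List.map_map]
    refine List.map_congr_left fun k hk => ?_
    exact gW_val T hT e0 H s (hp s hs) k (List.mem_range.1 hk)
  rw [h4, sum_range_list]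
  simp only [code5_pull, bit_eq, Function.comp_def]
  by_cases hb : gath [C.tid (vec s 4) (vec s 5) (vec s 6)] (code7 H) = e0
  · simp only [if_pos hb]
    unfold cvalW
    push_cast
    rfl
  · simp only [if_neg hb, Finset.sum_const_zero, Nat.cast_zero]

theorem sum_cutW (T : Tr ℕ) (hT : SymW T) (e0 : ℕ) (H : TG (Fin 7)) :
    ∑ σ : Equiv.Perm (Fin 7), gW T e0 H σ =
      6 * ((cutW T e0 35 (scat masksC (code7 H) 0) 0 : ℕ) : ℤ) := by
  have h := sum_codes betaC SC (pr KC1 KC2) SC_perm (by rw [SC_keys]; exact SC_nodup) KC_nodup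
    KC_beta SC_KC (gW T e0 H)
  have h2 : ∀ b ∈ KC2, RInv (gW T e0 H) b := RInv.six (gW_45 T e0 H) (gW_56 T e0 H)
  have h3 : (SC.map fun s => ((pr KC1 KC2).map fun k => gW T e0 H (toP s * k)).sum) =
      SC.map fun s => (6 : ℤ) * (KC1.map fun a => gW T e0 H (toP s * a)).sum :=
    List.map_congr_left fun s _ => pr_sum _ KC1 KC2 h2 (toP s)
  have h4 := cutW_aux T hT e0 H SC srcC SC_perm srcC_eq srcC_lt
  rw [SC_length] at h4
  rw [h3, List.sum_map_mul_left, h4] at h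
  exact h

end K4m.Ev
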