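import Mathlib
import Pool.Agent.Lib.MP_392c14_co.Ev.Base

/-! The sum over `S_7` of a function of the images of the blocks `{0,..,4}`, `{5}`, `{6}`. -/

set_option autoImplicit false
set_option maxRecDepth 100000

namespace K4m.Ev

/-- the 120 permutations of `Fin 5`, as functions -/
def P5 : List (Fin 5 → Fin 5) := [![0,1,2,3,4], ![0,1,2,4,3], ![0,1,3,2,4], ![0,1,3,4,2], ![0,1,4,2,3], ![0,1,4,3,2],
  ![0,2,1,3,4], ![0,2,1,4,3], ![0,2,3,1,4], ![0,2,3,4,1], ![0,2,4,1,3], ![0,2,4,3,1],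
  ![0,3,1,2,4], ![0,3,1,4,2], ![0,3,2,1,4], ![0,3,2,4,1], ![0,3,4,1,2], ![0,3,4,2,1],
  ![0,4,1,2,3], ![0,4,1,3,2], ![0,4,2,1,3], ![0,4,2,3,1], ![0,4,3,1,2], ![0,4,3,2,1],
  ![1,0,2,3,4], ![1,0,2,4,3], ![1,0,3,2,4], ![1,0,3,4,2], ![1,0,4,2,3], ![1,0,4,3,2],
  ![1,2,0,3,4], ![1,2,0,4,3], ![1,2,3,0,4], ![1,2,3,4,0], ![1,2,4,0,3], ![1,2,4,3,0],
  ![1,3,0,2,4], ![1,3,0,4,2], ![1,3,2,0,4], ![1,3,2,4,0], ![1,3,4,0,2], ![1,3,4,2,0],
  ![1,4,0,2,3], ![1,4,0,3,2], ![1,4,2,0,3], ![1,4,2,3,0], ![1,4,3,0,2], ![1,4,3,2,0],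
  ![2,0,1,3,4], ![2,0,1,4,3], ![2,0,3,1,4], ![2,0,3,4,1], ![2,0,4,1,3], ![2,0,4,3,1],
  ![2,1,0,3,4], ![2,1,0,4,3], ![2,1,3,0,4], ![2,1,3,4,0], ![2,1,4,0,3], ![2,1,4,3,0],
  ![2,3,0,1,4], ![2,3,0,4,1], ![2,3,1,0,4], ![2,3,1,4,0], ![2,3,4,0,1], ![2,3,4,1,0],
  ![2,4,0,1,3], ![2,4,0,3,1], ![2,4,1,0,3], ![2,4,1,3,0], ![2,4,3,0,1], ![2,4,3,1,0],
  ![3,0,1,2,4], ![3,0,1,4,2], ![3,0,2,1,4], ![3,0,2,4,1], ![3,0,4,1,2], ![3,0,4,2,1],
  ![3,1,0,2,4], ![3,1,0,4,2], ![3,1,2,0,4], ![3,1,2,4,0], ![3,1,4,0,2], ![3,1,4,2,0],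
  ![3,2,0,1,4], ![3,2,0,4,1], ![3,2,1,0,4], ![3,2,1,4,0], ![3,2,4,0,1], ![3,2,4,1,0],
  ![3,4,0,1,2], ![3,4,0,2,1], ![3,4,1,0,2], ![3,4,1,2,0], ![3,4,2,0,1], ![3,4,2,1,0],
  ![4,0,1,2,3], ![4,0,1,3,2], ![4,0,2,1,3], ![4,0,2,3,1], ![4,0,3,1,2], ![4,0,3,2,1],
  ![4,1,0,2,3], ![4,1,0,3,2], ![4,1,2,0,3], ![4,1,2,3,0], ![4,1,3,0,2], ![4,1,3,2,0],
  ![4,2,0,1,3], ![4,2,0,3,1], ![4,2,1,0,3], ![4,2,1,3,0], ![4,2,3,0,1], ![4,2,3,1,0],
  ![4,3,0,1,2], ![4,3,0,2,1], ![4,3,1,0,2], ![4,3,1,2,0], ![4,3,2,0,1], ![4,3,2,1,0]]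

/-- the 21 transversal permutations of `Fin 7` -/
def R7 : Fin 21 → (Fin 7 → Fin 7) := ![![0,1,2,3,4,5,6], ![0,1,2,3,5,4,6], ![0,1,2,3,6,4,5],
  ![0,1,2,4,5,3,6], ![0,1,2,4,6,3,5], ![0,1,2,5,6,3,4],
  ![0,1,3,4,5,2,6], ![0,1,3,4,6,2,5], ![0,1,3,5,6,2,4],
  ![0,1,4,5,6,2,3], ![0,2,3,4,5,1,6], ![0,2,3,4,6,1,5],
  ![0,2,3,5,6,1,4], ![0,2,4,5,6,1,3], ![0,3,4,5,6,1,2],
  ![1,2,3,4,5,0,6], ![1,2,3,4,6,0,5], ![1,2,3,5,6,0,4],
  ![1,2,4,5,6,0,3], ![1,3,4,5,6,0,2], ![2,3,4,5,6,0,1]]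

theorem P5_inj' : (P5.all fun p => decide (List.ofFn p).Nodup) = true := by
  decide +kernel

theorem P5_inj : ∀ p ∈ P5, Function.Injective p := fun p hp =>
  List.nodup_ofFn.1 (of_decide_eq_true (List.all_eq_true.1 P5_inj' p hp))

theorem P5_nodup : P5.Nodup := by decide +kernel

theorem sum_perm5 {M : Type*} [AddCommMonoid M] (F : (Fin 5 → Fin 5) → M) :
    ∑ π : Equiv.Perm (Fin 5), F π = (P5.map F).sum := by
  classical
  rw [← List.sum_toFinset F P5_nodup]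
  have hinj : Function.Injective (fun π : Equiv.Perm (Fin 5) => (π : Fin 5 → Fin 5)) :=
    fun π π' h => Equiv.ext fun x => congrFun h x
  have h : P5.toFinset = Finset.univ.image (fun π : Equiv.Perm (Fin 5) => (π : Fin 5 → Fin 5)) := by
    apply Finset.eq_of_subset_of_card_le
    · intro p hp
      have hp' := P5_inj p (List.mem_toFinset.1 hp)
      exact Finset.mem_image.2
        ⟨Equiv.ofBijective p (Finite.injective_iff_bijective.1 hp'), Finset.mem_univ _, rfl⟩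
    · rw [Finset.card_image_of_injective _ hinj, List.toFinset_card_of_nodup P5_nodup,
        Finset.card_univ, Fintype.card_perm, Fintype.card_fin]
      decide
  rw [h, Finset.sum_image fun _ _ _ _ h => hinj h]

theorem R7_inj : ∀ i, Function.Injective (R7 i) := by
  unfold Function.Injective
  decide +kernel

noncomputable def R7p (i : Fin 21) : Equiv.Perm (Fin 7) :=
  Equiv.ofBijective (R7 i) (Finite.injective_iff_bijective.1 (R7_inj i))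

theorem R7_sep : ∀ i j : Fin 21,
    ((R7 i 5 = R7 j 5 ∧ R7 i 6 = R7 j 6) ∨ (R7 i 5 = R7 j 6 ∧ R7 i 6 = R7 j 5)) → i = j := by
  decide +kernel

/-- `Fin 5 ⊕ Fin 2 ≃ Fin 7` -/
def e52 : Fin 5 ⊕ Fin 2 ≃ Fin 7 := finSumFinEquiv

def ext52 (p : Equiv.Perm (Fin 5) × Equiv.Perm (Fin 2)) : Equiv.Perm (Fin 7) :=
  e52.permCongr (Equiv.sumCongr p.1 p.2)

theorem e52_inl : ∀ i : Fin 5, e52 (Sum.inl i) = ![0,1,2,3,4] i := by decide
theorem e52_inr : ∀ i : Fin 2, e52 (Sum.inr i) = ![5,6] i := by decide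

theorem ext52_inl (p : Equiv.Perm (Fin 5) × Equiv.Perm (Fin 2)) (i : Fin 5) :
    ext52 p (![0,1,2,3,4] i) = ![0,1,2,3,4] (p.1 i) := by
  rw [← e52_inl, ← e52_inl]
  simp [ext52, Equiv.permCongr_apply]

theorem ext52_inr (p : Equiv.Perm (Fin 5) × Equiv.Perm (Fin 2)) (i : Fin 2) :
    ext52 p (![5,6] i) = ![5,6] (p.2 i) := by
  rw [← e52_inr, ← e52_inr]
  simp [ext52, Equiv.permCongr_apply]

theorem ext52_inj : Function.Injective ext52 := by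
  intro p q h
  have h1 := e52.permCongr.injective h
  have h2 : Equiv.Perm.sumCongrHom (Fin 5) (Fin 2) p = Equiv.Perm.sumCongrHom (Fin 5) (Fin 2) q := h1
  exact Equiv.Perm.sumCongrHom_injective h2

theorem perm2 (ε : Equiv.Perm (Fin 2)) : (ε 0 = 0 ∧ ε 1 = 1) ∨ (ε 0 = 1 ∧ ε 1 = 0) := by
  revert ε; decide

theorem cos_inj : Function.Injective
    (fun t : Fin 21 × Equiv.Perm (Fin 5) × Equiv.Perm (Fin 2) => R7p t.1 * ext52 t.2) := by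
  rintro ⟨i, p⟩ ⟨j, q⟩ h
  have h5 : R7 i (ext52 p 5) = R7 j (ext52 q 5) := by
    have := congrArg (fun σ : Equiv.Perm (Fin 7) => σ 5) h
    exact this
  have h6 : R7 i (ext52 p 6) = R7 j (ext52 q 6) := by
    have := congrArg (fun σ : Equiv.Perm (Fin 7) => σ 6) h
    exact this
  have p5 : ext52 p 5 = ![5,6] (p.2 0) := ext52_inr p 0
  have p6 : ext52 p 6 = ![5,6] (p.2 1) := ext52_inr p 1
  have q5 : ext52 q 5 = ![5,6] (q.2 0) := ext52_inr q 0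
  have q6 : ext52 q 6 = ![5,6] (q.2 1) := ext52_inr q 1
  rw [p5, q5] at h5
  rw [p6, q6] at h6
  have hij : i = j := by
    apply R7_sep
    rcases perm2 p.2 with ⟨a, b⟩ | ⟨a, b⟩ <;> rcases perm2 q.2 with ⟨c, d⟩ | ⟨c, d⟩ <;>
      rw [a, c] at h5 <;> rw [b, d] at h6
    · exact Or.inl ⟨h5, h6⟩
    · exact Or.inr ⟨h5, h6⟩
    · exact Or.inr ⟨h6, h5⟩
    · exact Or.inl ⟨h6, h5⟩
  subst hij
  have h2 : ext52 p = ext52 q := mul_left_cancel h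
  rw [ext52_inj h2]

theorem sum_perm7 {M : Type*} [AddCommMonoid M] (f : Equiv.Perm (Fin 7) → M) :
    ∑ σ : Equiv.Perm (Fin 7), f σ
      = ∑ i : Fin 21, ∑ p : Equiv.Perm (Fin 5) × Equiv.Perm (Fin 2), f (R7p i * ext52 p) := by
  classical
  have hb : Function.Bijective
      (fun t : Fin 21 × Equiv.Perm (Fin 5) × Equiv.Perm (Fin 2) => R7p t.1 * ext52 t.2) := by
    refine (Fintype.bijective_iff_injective_and_card _).2 ⟨cos_inj, ?_⟩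
    simp only [Fintype.card_prod, Fintype.card_perm, Fintype.card_fin]
    norm_num [Nat.factorial]
  rw [← Function.Bijective.sum_comp hb f, Fintype.sum_prod_type]

/-- the function `g` of the root vector and the two others -/
theorem sum_perm7_52 {M : Type*} [AddCommMonoid M]
    (g : (Fin 5 → Fin 7) → Fin 7 → Fin 7 → M) (hg : ∀ f x y, g f x y = g f y x) :
    ∑ σ : Equiv.Perm (Fin 7), g (fun i => σ (![0,1,2,3,4] i)) (σ 5) (σ 6)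
      = 2 • ∑ i : Fin 21, (P5.map fun π => g (fun j => R7 i (![0,1,2,3,4] (π j)))
          (R7 i 5) (R7 i 6)).sum := by
  classical
  rw [sum_perm7, Finset.smul_sum]
  refine Finset.sum_congr rfl fun i _ => ?_
  rw [Fintype.sum_prod_type, ← sum_perm5 (fun π => g (fun j => R7 i (![0,1,2,3,4] (π j)))
          (R7 i 5) (R7 i 6)), Finset.smul_sum]
  refine Finset.sum_congr rfl fun π _ => ?_
  have key : ∀ ε : Equiv.Perm (Fin 2), g (fun j => (R7p i * ext52 (π, ε)) (![0,1,2,3,4] j))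
      ((R7p i * ext52 (π, ε)) 5) ((R7p i * ext52 (π, ε)) 6)
      = g (fun j => R7 i (![0,1,2,3,4] (π j))) (R7 i 5) (R7 i 6) := by
    intro ε
    have e0 : (fun j => (R7p i * ext52 (π, ε)) (![0,1,2,3,4] j))
        = fun j => R7 i (![0,1,2,3,4] (π j)) := by
      funext j
      exact congrArg (R7 i) (ext52_inl (π, ε) j)
    have e5 : (R7p i * ext52 (π, ε)) 5 = R7 i (![5,6] (ε 0)) :=
      congrArg (R7 i) (ext52_inr (π, ε) 0)
    have e6 : (R7p i * ext52 (π, ε)) 6 = R7 i (![5,6] (ε 1)) :=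
      congrArg (R7 i) (ext52_inr (π, ε) 1)
    rw [e0, e5, e6]
    rcases perm2 ε with ⟨a, b⟩ | ⟨a, b⟩ <;> rw [a, b]
    · rfl
    · exact hg _ _ _
  rw [Finset.sum_congr rfl fun ε _ => key ε, Finset.sum_const, Finset.card_univ,
    Fintype.card_perm, Fintype.card_fin]
  norm_num [Nat.factorial]

end K4m.Ev
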