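import Mathlib
import Pool.Agent.Lib.MP_392c14_co.Ev.Coset5

/-! The five-root term: `Σ_σ h5 (H.pull σ)` through the raw kernel function `s5`. -/

set_option autoImplicit false
set_option maxRecDepth 100000

namespace K4m.Ev

/-! ### bits of `code5` and of links -/

theorem tid5f : ∀ x y z : Fin 5, C.tid x y z < 10 ∨ (C.tid x y z = 63 ∧ (x = y ∨ y = z ∨ x = z)) := by
  decide +kernel

theorem tb5f (H : TG (Fin 7)) (f : Fin 5 → Fin 7) (x y z : Fin 5) :
    (code5 (H.pull f)).testBit (C.tid x y z) = H.E (f x) (f y) (f z) := by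
  let K : TG (Fin 7) := H.pull (fun i => f (![0,1,2,3,4,0,0] i))
  have hK : ∀ i j k : Fin 5, K.E (![0,1,2,3,4] i) (![0,1,2,3,4] j) (![0,1,2,3,4] k)
      = H.E (f i) (f j) (f k) := by
    intro i j k
    have : ∀ i : Fin 5, (![0,1,2,3,4,0,0] : Fin 7 → Fin 5) (![0,1,2,3,4] i) = i := by decide
    show H.E (f (![0,1,2,3,4,0,0] (![0,1,2,3,4] i))) (f (![0,1,2,3,4,0,0] (![0,1,2,3,4] j)))
      (f (![0,1,2,3,4,0,0] (![0,1,2,3,4] k))) = _
    rw [this, this, this]
  have hv : ∀ i : Fin 5, (((![0,1,2,3,4] : Fin 5 → Fin 7) i : Fin 7) : ℕ) = i := by decide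
  have hcode : ∀ n < 10, (code5 (H.pull f)).testBit n = (code7 K).testBit n := by
    intro n hn
    have e : code5 (H.pull f) = bits ((trs.take 10).map fun t => K.E t.1 t.2.1 t.2.2) := rfl
    rw [e, code7_eq, testBit_bits, testBit_bits, List.getElem?_map, List.getElem?_map,
      List.getElem?_take_of_lt hn]
  rcases tid5f x y z with h | ⟨h, hd⟩
  · rw [hcode _ h, ← hK]
    have := tb K (![0,1,2,3,4] x) (![0,1,2,3,4] y) (![0,1,2,3,4] z)
    rw [hv, hv, hv] at this
    exact this
  · have h1 : (code5 (H.pull f)).testBit (C.tid x y z) = false := by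
      rw [h]
      have : code5 (H.pull f) < 2 ^ 63 := by
        rw [code5_pull]
        exact lt_of_lt_of_le (gath_lt _ _) (by simp [cs])
      exact Nat.testBit_lt_two_pow this
    rw [h1]
    rcases hd with rfl | rfl | rfl
    · exact (H.irr _ _).symm
    · rw [← H.symm₁, ← H.symm₂, ]; exact (H.irr _ _).symm
    · rw [← H.symm₂]; exact (H.irr _ _).symm

/-- pairs of `Fin 5` -/
def prs : List (Fin 5 × Fin 5) :=
  [(0,1), (0,2), (1,2), (0,3), (1,3), (2,3), (0,4), (1,4), (2,4), (3,4)]

theorem lk_def (H : TG (Fin 7)) (f : Fin 5 → Fin 7) (x : Fin 7) :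
    lk H f x = bits (prs.map fun p => H.E (f p.1) (f p.2) x) := rfl

/-- index of a pair -/
noncomputable def pid (x y : ℕ) : ℕ := C.tid x y 5 - 10

theorem pid_sorted : ∀ x y : Fin 5, x < y → prs[pid x y]? = some (x, y) := by decide +kernel

theorem pid_swap : ∀ x y : Fin 5, pid y x = pid x y := by decide +kernel

theorem pid_diag : ∀ x : Fin 5, prs[pid x x]? = none := by decide +kernel

theorem tbl (H : TG (Fin 7)) (f : Fin 5 → Fin 7) (v : Fin 7) (x y : Fin 5) :
    (lk H f v).testBit (pid x y) = H.E (f x) (f y) v := by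
  have key : ∀ x y : Fin 5, x < y → (lk H f v).testBit (pid x y) = H.E (f x) (f y) v := by
    intro x y h
    rw [lk_def, testBit_bits, List.getElem?_map, pid_sorted x y h]; rfl
  rcases lt_trichotomy x y with h | h | h
  · exact key x y h
  · subst h
    rw [lk_def, testBit_bits, List.getElem?_map, pid_diag x, H.irr]; rfl
  · rw [pid_swap, ← H.symm₁]; exact key y x h

/-- sources of the relabelled code -/
noncomputable def csrc (p : Fin 5 → Fin 5) : List ℕ :=
  [C.tid (p 0) (p 1) (p 2), C.tid (p 0) (p 1) (p 3), C.tid (p 0) (p 2) (p 3), C.tid (p 1) (p 2) (p 3),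
    C.tid (p 0) (p 1) (p 4), C.tid (p 0) (p 2) (p 4), C.tid (p 1) (p 2) (p 4),
    C.tid (p 0) (p 3) (p 4), C.tid (p 1) (p 3) (p 4), C.tid (p 2) (p 3) (p 4)]

noncomputable def lsrc (p : Fin 5 → Fin 5) : List ℕ :=
  [pid (p 0) (p 1), pid (p 0) (p 2), pid (p 1) (p 2), pid (p 0) (p 3), pid (p 1) (p 3),
    pid (p 2) (p 3), pid (p 0) (p 4), pid (p 1) (p 4), pid (p 2) (p 4), pid (p 3) (p 4)]

theorem code5_relabel (H : TG (Fin 7)) (f : Fin 5 → Fin 7) (p : Fin 5 → Fin 5) :
    code5 (H.pull fun i => f (p i)) = gath (csrc p) (code5 (H.pull f)) := by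
  simp only [gath, csrc, List.map_cons, List.map_nil, tb5f]
  rfl

theorem lk_relabel (H : TG (Fin 7)) (f : Fin 5 → Fin 7) (p : Fin 5 → Fin 5) (x : Fin 7) :
    lk H (fun i => f (p i)) x = gath (lsrc p) (lk H f x) := by
  simp only [gath, lsrc, List.map_cons, List.map_nil, tbl]
  rfl

theorem pid_lt : ∀ x y : Fin 5, x ≠ y → pid x y < 10 := by decide +kernel

theorem lsrc_lt (p : Fin 5 → Fin 5) (hp : Function.Injective p) : ∀ t ∈ lsrc p, t < 10 := by
  intro t ht
  simp only [lsrc, List.mem_cons, List.not_mem_nil, or_false] at ht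
  rcases ht with h | h | h | h | h | h | h | h | h | h <;> rw [h] <;>
    exact pid_lt _ _ fun h => absurd (hp h) (by decide)

/-! ### the loops -/

/-- entry of a table with 12-bit entries -/
def gf (G x : ℕ) : ℕ := (G >>> (12 * x)) % 4096

theorem gf_lt (G x : ℕ) : gf G x < 4096 := Nat.mod_lt _ (by norm_num)

theorem vecG_eq {α : Type} (G : ℕ) (a : α → ℕ) (ha : ∀ p, a p < 1024) (L : List α) :
    vecG G L.length (packF 10 (L.map a)) = packF 12 (L.map fun p => gf G (a p)) := by
  induction L with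
  | nil => rfl
  | cons p L ih =>
    have e : vecG G (p :: L).length (packF 10 ((p :: L).map a))
        = gf G (packF 10 ((p :: L).map a) % 1024)
          + 4096 * vecG G L.length (packF 10 ((p :: L).map a) / 1024) := rfl
    have h1 : packF 10 ((p :: L).map a) % 1024 = a p := packF_mod 10 (a p) (L.map a) (ha p)
    have h2 : packF 10 ((p :: L).map a) / 1024 = packF 10 (L.map a) :=
      packF_div 10 (a p) (L.map a) (ha p)
    rw [e, h1, h2, ih]
    rfl

theorem vloop_eq {α : Type} (W B : ℕ) (Q : Tr (Tr ℕ)) (u v : α → ℕ) (hu : ∀ p, u p < 4096)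
    (hv : ∀ p, v p < 4096) (L : List α) : ∀ acc,
    vloop W B Q L.length (packF 12 (L.map u)) (packF 12 (L.map v)) acc
      = acc + (L.map fun p => look W B Q (u p) (v p)).sum := by
  induction L with
  | nil => intro acc; rfl
  | cons p L ih =>
    intro acc
    have e : vloop W B Q (p :: L).length (packF 12 ((p :: L).map u)) (packF 12 ((p :: L).map v)) acc
        = vloop W B Q L.length (packF 12 ((p :: L).map u) / 4096)
          (packF 12 ((p :: L).map v) / 4096)
          (acc + look W B Q (packF 12 ((p :: L).map u) % 4096)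
            (packF 12 ((p :: L).map v) % 4096)) := rfl
    have h1 : packF 12 ((p :: L).map u) % 4096 = u p := packF_mod 12 (u p) (L.map u) (hu p)
    have h2 : packF 12 ((p :: L).map u) / 4096 = packF 12 (L.map u) :=
      packF_div 12 (u p) (L.map u) (hu p)
    have h3 : packF 12 ((p :: L).map v) % 4096 = v p := packF_mod 12 (v p) (L.map v) (hv p)
    have h4 : packF 12 ((p :: L).map v) / 4096 = packF 12 (L.map v) :=
      packF_div 12 (v p) (L.map v) (hv p)
    rw [e, h1, h2, h3, h4, ih, List.map_cons, List.sum_cons]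
    ring

theorem gath10_lt (src : List ℕ) (h : src.length = 10) (m : ℕ) : gath src m < 1024 := by
  have := gath_lt src m
  rwa [h] at this

theorem vval_eq (W B : ℕ) (Q : Tr (Tr ℕ)) (G n pad : ℕ) (masks : List ℕ) (L : List (Fin 5 → Fin 5))
    (hL : ∀ p ∈ L, Function.Injective p)
    (hn : n = L.length) (hm : masks = masksOf 10 (L.map lsrc) 0 10) (lx ly : ℕ) :
    vval W B Q (CD.mk G n pad masks) lx ly
      = pad + (L.map fun p => look W B Q (gf G (gath (lsrc p) lx)) (gf G (gath (lsrc p) ly))).sum := by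
  have e : vval W B Q (CD.mk G n pad masks) lx ly
      = force (fun X => force (fun Y => vloop W B Q n X Y pad) (vecG G n (scat masks ly 0)))
      (vecG G n (scat masks lx 0)) := rfl
  have hs : ∀ l, scat masks l 0 = packF 10 (L.map fun p => gath (lsrc p) l) := by
    intro l
    rw [hm, scat_masksOf]
    · rw [List.map_map]; rfl
    · intro s hs t ht
      obtain ⟨p, hp, rfl⟩ := List.mem_map.1 hs
      exact lsrc_lt p (hL p hp) t ht
  rw [e, force_eq, force_eq, hs, hs, hn,
    vecG_eq G (fun p => gath (lsrc p) ly) (fun p => gath10_lt _ rfl _) L,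
    vecG_eq G (fun p => gath (lsrc p) lx) (fun p => gath10_lt _ rfl _) L,
    vloop_eq W B Q (fun p => gf G (gath (lsrc p) lx)) (fun p => gf G (gath (lsrc p) ly))
      (fun p => gf_lt _ _) (fun p => gf_lt _ _) L]

/-- a root set: code of the roots, links of the two others -/
theorem s5_eq (W B : ℕ) (Q : Tr (Tr ℕ)) (tab : Tr CD) (T : List (ℕ × ℕ × ℕ))
    (hT : ∀ t ∈ T, t.1 < 1024 ∧ t.2.1 < 1024 ∧ t.2.2 < 1024) : ∀ acc,
    s5 W B Q tab T.length (packF 10 (T.flatMap fun t => [t.1, t.2.1, t.2.2])) acc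
      = acc + (T.map fun t => vval W B Q (tab.get t.1) t.2.1 t.2.2).sum := by
  induction T with
  | nil => intro acc; rfl
  | cons t T ih =>
    intro acc
    obtain ⟨h1, h2, h3⟩ := hT t List.mem_cons_self
    have ih' := ih fun t ht => hT t (List.mem_cons_of_mem _ ht)
    have e : ∀ out, s5 W B Q tab (t :: T).length out acc = s5 W B Q tab T.length (out >>> 30)
        (acc + (force (fun c => force (fun lx => force (fun ly => vval W B Q (tab.get c) lx ly)
        ((out >>> 20) % 1024)) ((out >>> 10) % 1024)) (out % 1024))) := fun out => rfl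
    set R := packF 10 (T.flatMap fun t => [t.1, t.2.1, t.2.2]) with hR
    have hout : packF 10 ((t :: T).flatMap fun t => [t.1, t.2.1, t.2.2])
        = t.1 + 1024 * (t.2.1 + 1024 * (t.2.2 + 1024 * R)) := rfl
    rw [e, force_eq, force_eq, force_eq, hout]
    have a1 : (t.1 + 1024 * (t.2.1 + 1024 * (t.2.2 + 1024 * R))) % 1024 = t.1 := by omega
    have a2 : (t.1 + 1024 * (t.2.1 + 1024 * (t.2.2 + 1024 * R))) >>> 10 % 1024 = t.2.1 := by
      rw [Nat.shiftRight_eq_div_pow]; norm_num; omega
    have a3 : (t.1 + 1024 * (t.2.1 + 1024 * (t.2.2 + 1024 * R))) >>> 20 % 1024 = t.2.2 := by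
      rw [Nat.shiftRight_eq_div_pow]; norm_num; omega
    have a4 : (t.1 + 1024 * (t.2.1 + 1024 * (t.2.2 + 1024 * R))) >>> 30 = R := by
      rw [Nat.shiftRight_eq_div_pow]; norm_num; omega
    rw [a1, a2, a3, a4, ih', List.map_cons, List.sum_cons]
    ring

/-! ### the tables -/

/-- the root graphs -/
def g5 : List ℕ := [0, 192, 220, 480, 512, 704, 768, 769, 788, 896, 897]

/-- the quadratic form of the type `τ` -/
noncomputable def q5 (W : ℕ) (Q : Tr (Tr ℕ)) (gt : ℕ → ℕ) (τ x y : ℕ) : ℤ :=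
  if τ ∈ g5 then (look W (2 ^ W) Q (gf (gt τ) x) (gf (gt τ) y) : ℤ) - 2 ^ (W - 1) else 0

/-- the entry of the table is right -/
def CDok (off : ℕ) (gt : ℕ → ℕ) (c : ℕ) (cd : CD) : Prop :=
  ∃ G masks, cd = CD.mk G (P5.filter fun p => gath (csrc p) c ∈ g5).length
      ((120 - (P5.filter fun p => gath (csrc p) c ∈ g5).length) * off) masks ∧
    masks = masksOf 10 ((P5.filter fun p => gath (csrc p) c ∈ g5).map lsrc) 0 10 ∧
    ∀ p ∈ P5.filter fun p => gath (csrc p) c ∈ g5, gt (gath (csrc p) c) = G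

theorem sum_filter_zero {α : Type} (L : List α) (P : α → Prop) [DecidablePred P] (f : α → ℤ)
    (h : ∀ a ∈ L, ¬ P a → f a = 0) : (L.map f).sum = ((L.filter P).map f).sum := by
  induction L with
  | nil => rfl
  | cons a L ih =>
    have ih' := ih fun a ha => h a (List.mem_cons_of_mem _ ha)
    by_cases hp : P a
    · rw [List.filter_cons_of_pos (by simpa using hp), List.map_cons, List.sum_cons, List.map_cons,
        List.sum_cons, ih']
    · rw [List.filter_cons_of_neg (by simpa using hp), List.map_cons, List.sum_cons, ih',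
        h a List.mem_cons_self hp, zero_add]

theorem sum_sub_const5 {α : Type} (L : List α) (f : α → ℕ) (o : ℤ) :
    (L.map fun a => (f a : ℤ) - o).sum = ((L.map f).sum : ℕ) - L.length * o := by
  induction L with
  | nil => simp
  | cons a L ih =>
    rw [List.map_cons, List.sum_cons, ih, List.map_cons, List.sum_cons, List.length_cons]
    push_cast; ring

/-- the sum over the orderings of the roots -/
theorem sum_orders (W : ℕ) (Q : Tr (Tr ℕ)) (gt : ℕ → ℕ) (c : ℕ) (cd : CD)
    (h : CDok (2 ^ (W - 1)) gt c cd) (lx ly : ℕ) :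
    (P5.map fun p => q5 W Q gt (gath (csrc p) c) (gath (lsrc p) lx) (gath (lsrc p) ly)).sum
      = (vval W (2 ^ W) Q cd lx ly : ℤ) - 120 * 2 ^ (W - 1) := by
  obtain ⟨G, masks, rfl, hm, hG⟩ := h
  rw [sum_filter_zero P5 (fun p => gath (csrc p) c ∈ g5)
    (fun p => q5 W Q gt (gath (csrc p) c) (gath (lsrc p) lx) (gath (lsrc p) ly))
    (fun p _ hp => by unfold q5; exact if_neg hp)]
  set L := P5.filter fun p => gath (csrc p) c ∈ g5 with hL
  have hsub : ∀ p ∈ L, p ∈ P5 := fun p hp => (List.mem_filter.1 hp).1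
  rw [vval_eq W (2 ^ W) Q G L.length _ masks L (fun p hp => P5_inj p (hsub p hp)) rfl hm]
  have e : L.map (fun p => q5 W Q gt (gath (csrc p) c) (gath (lsrc p) lx) (gath (lsrc p) ly))
      = L.map (fun p => ((look W (2 ^ W) Q (gf G (gath (lsrc p) lx)) (gf G (gath (lsrc p) ly)) : ℕ)
        : ℤ) - 2 ^ (W - 1)) := by
    apply List.map_congr_left
    intro p hp
    have h1 : gath (csrc p) c ∈ g5 := by simpa using (List.mem_filter.1 hp).2
    rw [q5, if_pos h1, hG p hp]
  rw [e, sum_sub_const5 L (fun p => look W (2 ^ W) Q (gf G (gath (lsrc p) lx))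
    (gf G (gath (lsrc p) ly))) (2 ^ (W - 1))]
  have hlen : L.length ≤ 120 := by
    have := List.length_filter_le (fun p => decide (gath (csrc p) c ∈ g5)) P5
    exact this
  push_cast [Nat.cast_sub hlen]
  ring

end K4m.Ev
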