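import Mathlib
import Pool.Agent.Lib.MP_392c14_co.Ev.Five

/-! The five-root term: tables and the sum over `S_7`. -/

set_option autoImplicit false
set_option maxRecDepth 100000

namespace K4m.Ev

/-- sources of the relabelled codes and links, for the 120 permutations -/
def srcT : List (List ℕ × List ℕ) := [
  ([0,1,2,3,4,5,6,7,8,9], [0,1,2,3,4,5,6,7,8,9]),
  ([0,4,5,6,1,2,3,7,8,9], [0,1,2,6,7,8,3,4,5,9]),
  ([1,0,2,3,4,7,8,5,6,9], [0,3,4,1,2,5,6,7,9,8]),
  ([1,4,7,8,0,2,3,5,6,9], [0,3,4,6,7,9,1,2,5,8]),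
  ([4,0,5,6,1,7,8,2,3,9], [0,6,7,1,2,8,3,4,9,5]),
  ([4,1,7,8,0,5,6,2,3,9], [0,6,7,3,4,9,1,2,8,5]),
  ([0,2,1,3,5,4,6,7,9,8], [1,0,2,3,5,4,6,8,7,9]),
  ([0,5,4,6,2,1,3,7,9,8], [1,0,2,6,8,7,3,5,4,9]),
  ([2,0,1,3,5,7,9,4,6,8], [1,3,5,0,2,4,6,8,9,7]),
  ([2,5,7,9,0,1,3,4,6,8], [1,3,5,6,8,9,0,2,4,7]),
  ([5,0,4,6,2,7,9,1,3,8], [1,6,8,0,2,7,3,5,9,4]),
  ([5,2,7,9,0,4,6,1,3,8], [1,6,8,3,5,9,0,2,7,4]),
  ([1,2,0,3,7,4,8,5,9,6], [3,0,4,1,5,2,6,9,7,8]),
  ([1,7,4,8,2,0,3,5,9,6], [3,0,4,6,9,7,1,5,2,8]),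
  ([2,1,0,3,7,5,9,4,8,6], [3,1,5,0,4,2,6,9,8,7]),
  ([2,7,5,9,1,0,3,4,8,6], [3,1,5,6,9,8,0,4,2,7]),
  ([7,1,4,8,2,5,9,0,3,6], [3,6,9,0,4,7,1,5,8,2]),
  ([7,2,5,9,1,4,8,0,3,6], [3,6,9,1,5,8,0,4,7,2]),
  ([4,5,0,6,7,1,8,2,9,3], [6,0,7,1,8,2,3,9,4,5]),
  ([4,7,1,8,5,0,6,2,9,3], [6,0,7,3,9,4,1,8,2,5]),
  ([5,4,0,6,7,2,9,1,8,3], [6,1,8,0,7,2,3,9,5,4]),
  ([5,7,2,9,4,0,6,1,8,3], [6,1,8,3,9,5,0,7,2,4]),
  ([7,4,1,8,5,2,9,0,6,3], [6,3,9,0,7,4,1,8,5,2]),
  ([7,5,2,9,4,1,8,0,6,3], [6,3,9,1,8,5,0,7,4,2]),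
  ([0,1,3,2,4,6,5,8,7,9], [0,2,1,4,3,5,7,6,8,9]),
  ([0,4,6,5,1,3,2,8,7,9], [0,2,1,7,6,8,4,3,5,9]),
  ([1,0,3,2,4,8,7,6,5,9], [0,4,3,2,1,5,7,6,9,8]),
  ([1,4,8,7,0,3,2,6,5,9], [0,4,3,7,6,9,2,1,5,8]),
  ([4,0,6,5,1,8,7,3,2,9], [0,7,6,2,1,8,4,3,9,5]),
  ([4,1,8,7,0,6,5,3,2,9], [0,7,6,4,3,9,2,1,8,5]),
  ([0,3,1,2,6,4,5,8,9,7], [2,0,1,4,5,3,7,8,6,9]),
  ([0,6,4,5,3,1,2,8,9,7], [2,0,1,7,8,6,4,5,3,9]),
  ([3,0,1,2,6,8,9,4,5,7], [2,4,5,0,1,3,7,8,9,6]),
  ([3,6,8,9,0,1,2,4,5,7], [2,4,5,7,8,9,0,1,3,6]),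
  ([6,0,4,5,3,8,9,1,2,7], [2,7,8,0,1,6,4,5,9,3]),
  ([6,3,8,9,0,4,5,1,2,7], [2,7,8,4,5,9,0,1,6,3]),
  ([1,3,0,2,8,4,7,6,9,5], [4,0,3,2,5,1,7,9,6,8]),
  ([1,8,4,7,3,0,2,6,9,5], [4,0,3,7,9,6,2,5,1,8]),
  ([3,1,0,2,8,6,9,4,7,5], [4,2,5,0,3,1,7,9,8,6]),
  ([3,8,6,9,1,0,2,4,7,5], [4,2,5,7,9,8,0,3,1,6]),
  ([8,1,4,7,3,6,9,0,2,5], [4,7,9,0,3,6,2,5,8,1]),
  ([8,3,6,9,1,4,7,0,2,5], [4,7,9,2,5,8,0,3,6,1]),
  ([4,6,0,5,8,1,7,3,9,2], [7,0,6,2,8,1,4,9,3,5]),
  ([4,8,1,7,6,0,5,3,9,2], [7,0,6,4,9,3,2,8,1,5]),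
  ([6,4,0,5,8,3,9,1,7,2], [7,2,8,0,6,1,4,9,5,3]),
  ([6,8,3,9,4,0,5,1,7,2], [7,2,8,4,9,5,0,6,1,3]),
  ([8,4,1,7,6,3,9,0,5,2], [7,4,9,0,6,3,2,8,5,1]),
  ([8,6,3,9,4,1,7,0,5,2], [7,4,9,2,8,5,0,6,3,1]),
  ([0,2,3,1,5,6,4,9,7,8], [1,2,0,5,3,4,8,6,7,9]),
  ([0,5,6,4,2,3,1,9,7,8], [1,2,0,8,6,7,5,3,4,9]),
  ([2,0,3,1,5,9,7,6,4,8], [1,5,3,2,0,4,8,6,9,7]),
  ([2,5,9,7,0,3,1,6,4,8], [1,5,3,8,6,9,2,0,4,7]),
  ([5,0,6,4,2,9,7,3,1,8], [1,8,6,2,0,7,5,3,9,4]),
  ([5,2,9,7,0,6,4,3,1,8], [1,8,6,5,3,9,2,0,7,4]),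
  ([0,3,2,1,6,5,4,9,8,7], [2,1,0,5,4,3,8,7,6,9]),
  ([0,6,5,4,3,2,1,9,8,7], [2,1,0,8,7,6,5,4,3,9]),
  ([3,0,2,1,6,9,8,5,4,7], [2,5,4,1,0,3,8,7,9,6]),
  ([3,6,9,8,0,2,1,5,4,7], [2,5,4,8,7,9,1,0,3,6]),
  ([6,0,5,4,3,9,8,2,1,7], [2,8,7,1,0,6,5,4,9,3]),
  ([6,3,9,8,0,5,4,2,1,7], [2,8,7,5,4,9,1,0,6,3]),
  ([2,3,0,1,9,5,7,6,8,4], [5,1,3,2,4,0,8,9,6,7]),
  ([2,9,5,7,3,0,1,6,8,4], [5,1,3,8,9,6,2,4,0,7]),
  ([3,2,0,1,9,6,8,5,7,4], [5,2,4,1,3,0,8,9,7,6]),
  ([3,9,6,8,2,0,1,5,7,4], [5,2,4,8,9,7,1,3,0,6]),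
  ([9,2,5,7,3,6,8,0,1,4], [5,8,9,1,3,6,2,4,7,0]),
  ([9,3,6,8,2,5,7,0,1,4], [5,8,9,2,4,7,1,3,6,0]),
  ([5,6,0,4,9,2,7,3,8,1], [8,1,6,2,7,0,5,9,3,4]),
  ([5,9,2,7,6,0,4,3,8,1], [8,1,6,5,9,3,2,7,0,4]),
  ([6,5,0,4,9,3,8,2,7,1], [8,2,7,1,6,0,5,9,4,3]),
  ([6,9,3,8,5,0,4,2,7,1], [8,2,7,5,9,4,1,6,0,3]),
  ([9,5,2,7,6,3,8,0,4,1], [8,5,9,1,6,3,2,7,4,0]),
  ([9,6,3,8,5,2,7,0,4,1], [8,5,9,2,7,4,1,6,3,0]),
  ([1,2,3,0,7,8,4,9,5,6], [3,4,0,5,1,2,9,6,7,8]),
  ([1,7,8,4,2,3,0,9,5,6], [3,4,0,9,6,7,5,1,2,8]),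
  ([2,1,3,0,7,9,5,8,4,6], [3,5,1,4,0,2,9,6,8,7]),
  ([2,7,9,5,1,3,0,8,4,6], [3,5,1,9,6,8,4,0,2,7]),
  ([7,1,8,4,2,9,5,3,0,6], [3,9,6,4,0,7,5,1,8,2]),
  ([7,2,9,5,1,8,4,3,0,6], [3,9,6,5,1,8,4,0,7,2]),
  ([1,3,2,0,8,7,4,9,6,5], [4,3,0,5,2,1,9,7,6,8]),
  ([1,8,7,4,3,2,0,9,6,5], [4,3,0,9,7,6,5,2,1,8]),
  ([3,1,2,0,8,9,6,7,4,5], [4,5,2,3,0,1,9,7,8,6]),
  ([3,8,9,6,1,2,0,7,4,5], [4,5,2,9,7,8,3,0,1,6]),
  ([8,1,7,4,3,9,6,2,0,5], [4,9,7,3,0,6,5,2,8,1]),
  ([8,3,9,6,1,7,4,2,0,5], [4,9,7,5,2,8,3,0,6,1]),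
  ([2,3,1,0,9,7,5,8,6,4], [5,3,1,4,2,0,9,8,6,7]),
  ([2,9,7,5,3,1,0,8,6,4], [5,3,1,9,8,6,4,2,0,7]),
  ([3,2,1,0,9,8,6,7,5,4], [5,4,2,3,1,0,9,8,7,6]),
  ([3,9,8,6,2,1,0,7,5,4], [5,4,2,9,8,7,3,1,0,6]),
  ([9,2,7,5,3,8,6,1,0,4], [5,9,8,3,1,6,4,2,7,0]),
  ([9,3,8,6,2,7,5,1,0,4], [5,9,8,4,2,7,3,1,6,0]),
  ([7,8,1,4,9,2,5,3,6,0], [9,3,6,4,7,0,5,8,1,2]),
  ([7,9,2,5,8,1,4,3,6,0], [9,3,6,5,8,1,4,7,0,2]),
  ([8,7,1,4,9,3,6,2,5,0], [9,4,7,3,6,0,5,8,2,1]),
  ([8,9,3,6,7,1,4,2,5,0], [9,4,7,5,8,2,3,6,0,1]),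
  ([9,7,2,5,8,3,6,1,4,0], [9,5,8,3,6,1,4,7,2,0]),
  ([9,8,3,6,7,2,5,1,4,0], [9,5,8,4,7,2,3,6,1,0]),
  ([4,5,6,0,7,8,1,9,2,3], [6,7,0,8,1,2,9,3,4,5]),
  ([4,7,8,1,5,6,0,9,2,3], [6,7,0,9,3,4,8,1,2,5]),
  ([5,4,6,0,7,9,2,8,1,3], [6,8,1,7,0,2,9,3,5,4]),
  ([5,7,9,2,4,6,0,8,1,3], [6,8,1,9,3,5,7,0,2,4]),
  ([7,4,8,1,5,9,2,6,0,3], [6,9,3,7,0,4,8,1,5,2]),
  ([7,5,9,2,4,8,1,6,0,3], [6,9,3,8,1,5,7,0,4,2]),
  ([4,6,5,0,8,7,1,9,3,2], [7,6,0,8,2,1,9,4,3,5]),
  ([4,8,7,1,6,5,0,9,3,2], [7,6,0,9,4,3,8,2,1,5]),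
  ([6,4,5,0,8,9,3,7,1,2], [7,8,2,6,0,1,9,4,5,3]),
  ([6,8,9,3,4,5,0,7,1,2], [7,8,2,9,4,5,6,0,1,3]),
  ([8,4,7,1,6,9,3,5,0,2], [7,9,4,6,0,3,8,2,5,1]),
  ([8,6,9,3,4,7,1,5,0,2], [7,9,4,8,2,5,6,0,3,1]),
  ([5,6,4,0,9,7,2,8,3,1], [8,6,1,7,2,0,9,5,3,4]),
  ([5,9,7,2,6,4,0,8,3,1], [8,6,1,9,5,3,7,2,0,4]),
  ([6,5,4,0,9,8,3,7,2,1], [8,7,2,6,1,0,9,5,4,3]),
  ([6,9,8,3,5,4,0,7,2,1], [8,7,2,9,5,4,6,1,0,3]),
  ([9,5,7,2,6,8,3,4,0,1], [8,9,5,6,1,3,7,2,4,0]),
  ([9,6,8,3,5,7,2,4,0,1], [8,9,5,7,2,4,6,1,3,0]),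
  ([7,8,4,1,9,5,2,6,3,0], [9,6,3,7,4,0,8,5,1,2]),
  ([7,9,5,2,8,4,1,6,3,0], [9,6,3,8,5,1,7,4,0,2]),
  ([8,7,4,1,9,6,3,5,2,0], [9,7,4,6,3,0,8,5,2,1]),
  ([8,9,6,3,7,4,1,5,2,0], [9,7,4,8,5,2,6,3,0,1]),
  ([9,7,5,2,8,6,3,4,1,0], [9,8,5,6,3,1,7,4,2,0]),
  ([9,8,6,3,7,5,2,4,1,0], [9,8,5,7,4,2,6,3,1,0])]

theorem srcT_eq : srcT = P5.map fun p => (csrc p, lsrc p) := by decide +kernel

/-- a vertex and three others -/
def L20 : List (Fin 5 × Fin 5 × Fin 5 × Fin 5) := [(0,1,2,3), (0,1,2,4), (0,1,3,4), (0,2,3,4), (1,0,2,3), (1,0,2,4), (1,0,3,4), (1,2,3,4), (2,0,1,3), (2,0,1,4), (2,0,3,4), (2,1,3,4), (3,0,1,2), (3,0,1,4), (3,0,2,4), (3,1,2,4), (4,0,1,2), (4,0,1,3), (4,0,2,3), (4,1,2,3)]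

/-- no vertex lies in three edges of a 4-set -/
noncomputable def free5 (c : ℕ) : Bool :=
  L20.all fun t => !(c.testBit (C.tid t.1 t.2.1 t.2.2.1) && (c.testBit (C.tid t.1 t.2.1 t.2.2.2) &&
    c.testBit (C.tid t.1 t.2.2.1 t.2.2.2)))

theorem free5_code (H : TG (Fin 7)) (f : Fin 5 → Fin 7) : free5 (code5 (H.pull f)) = true := by
  unfold free5
  rw [List.all_eq_true]
  intro t _
  rw [tb5f, tb5f, tb5f]
  have := H.free (f t.1) (f t.2.1) (f t.2.2.1) (f t.2.2.2)
  revert this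
  cases H.E (f t.1) (f t.2.1) (f t.2.2.1) <;> cases H.E (f t.1) (f t.2.1) (f t.2.2.2) <;>
    cases H.E (f t.1) (f t.2.2.1) (f t.2.2.2) <;> simp

/-- test of an entry of the table, given the selected permutations -/
def cdbL (off : ℕ) (gt : ℕ → ℕ) (c G n pad : ℕ) (masks : List ℕ) (L : List (List ℕ × List ℕ)) :
    Bool :=
  (Nat.beq n L.length && Nat.beq pad ((120 - L.length) * off)) &&
    (decide (masks = masksOf 10 (L.map fun s => s.2) 0 10) &&
      L.all fun s => Nat.beq (gt (gath s.1 c)) G)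

theorem cdbL_sound (off : ℕ) (gt : ℕ → ℕ) (c G n pad : ℕ) (masks : List ℕ)
    (L : List (List ℕ × List ℕ)) (h : cdbL off gt c G n pad masks L = true) :
    n = L.length ∧ pad = (120 - L.length) * off ∧ masks = masksOf 10 (L.map fun s => s.2) 0 10 ∧
      ∀ s ∈ L, gt (gath s.1 c) = G := by
  unfold cdbL at h
  simp only [Bool.and_eq_true, decide_eq_true_eq, List.all_eq_true] at h
  obtain ⟨⟨h1, h2⟩, h3, h4⟩ := h
  exact ⟨Nat.eq_of_beq_eq_true h1, Nat.eq_of_beq_eq_true h2, h3,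
    fun s hs => Nat.eq_of_beq_eq_true (h4 s hs)⟩

/-- test of an entry of the table -/
noncomputable def cdb (off : ℕ) (gt : ℕ → ℕ) (c : ℕ) (cd : CD) : Bool :=
  CD.rec (motive := fun _ => Bool) (fun G n pad masks =>
    cdbL off gt c G n pad masks (srcT.filter fun s => decide (gath s.1 c ∈ g5))) cd

theorem filter_map' {α β : Type} (f : α → β) (P : β → Bool) (L : List α) :
    (L.map f).filter P = (L.filter fun a => P (f a)).map f := List.filter_map

theorem cdb_sound (off : ℕ) (gt : ℕ → ℕ) (c : ℕ) (cd : CD) (h : cdb off gt c cd = true) :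
    CDok off gt c cd := by
  cases cd with
  | mk G n pad masks =>
    obtain ⟨h1, h2, h3, h4⟩ := cdbL_sound off gt c G n pad masks _ h
    have e : srcT.filter (fun s => decide (gath s.1 c ∈ g5))
        = (P5.filter fun p => decide (gath (csrc p) c ∈ g5)).map fun p => (csrc p, lsrc p) := by
      rw [srcT_eq]
      exact filter_map' (fun p => (csrc p, lsrc p)) (fun s => decide (gath s.1 c ∈ g5)) P5
    rw [e] at h1 h2 h3 h4
    rw [List.length_map] at h1 h2
    rw [List.map_map] at h3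
    have h5 : ∀ p ∈ P5.filter (fun p => decide (gath (csrc p) c ∈ g5)),
        gt (gath (csrc p) c) = G := fun p hp =>
      h4 (csrc p, lsrc p) (List.mem_map_of_mem (f := fun p => (csrc p, lsrc p)) hp)
    clear h4 e h
    unfold CDok
    generalize P5.filter (fun p => decide (gath (csrc p) c ∈ g5)) = L at *
    exact ⟨G, masks, by rw [h1, h2], h3, h5⟩

/-- the table of the codes -/
def TabOK (off : ℕ) (gt : ℕ → ℕ) (tab : Tr CD) : Prop :=
  ∀ c < 1024, free5 c = true → CDok off gt c (tab.get c)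

noncomputable def tabChk (off : ℕ) (gt : ℕ → ℕ) (tab : Tr CD) (c : ℕ) : Bool :=
  Bool.rec true (cdb off gt c (tab.get c)) (free5 c)

theorem tabChk_sound (off : ℕ) (gt : ℕ → ℕ) (tab : Tr CD) (c : ℕ) (h : tabChk off gt tab c = true)
    (hc : free5 c = true) : CDok off gt c (tab.get c) := by
  apply cdb_sound
  unfold tabChk at h
  rw [hc] at h
  exact h

/-- root vector of the transversal element `i` -/
def rv (i : Fin 21) : Fin 5 → Fin 7 := fun j => R7 i (![0,1,2,3,4] j)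

noncomputable def src5 : List (List ℕ) :=
  (List.finRange 21).flatMap fun i => [cs (rv i), ls (rv i) (R7 i 5), ls (rv i) (R7 i 6)]

def src5L : List (List ℕ) := [
  [0,1,2,3,4,5,6,7,8,9],
  [10,11,12,13,14,15,16,17,18,19],
  [20,21,22,23,24,25,26,27,28,29],
  [0,1,2,3,10,11,12,13,14,15],
  [4,5,6,7,8,9,16,17,18,19],
  [20,21,22,23,24,25,30,31,32,33],
  [0,1,2,3,20,21,22,23,24,25],
  [4,5,6,7,8,9,26,27,28,29],
  [10,11,12,13,14,15,30,31,32,33],
  [0,4,5,6,10,11,12,16,17,18],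
  [1,2,3,7,8,9,13,14,15,19],
  [20,21,22,26,27,28,30,31,32,34],
  [0,4,5,6,20,21,22,26,27,28],
  [1,2,3,7,8,9,23,24,25,29],
  [10,11,12,16,17,18,30,31,32,34],
  [0,10,11,12,20,21,22,30,31,32],
  [1,2,3,13,14,15,23,24,25,33],
  [4,5,6,16,17,18,26,27,28,34],
  [1,4,7,8,10,13,14,16,17,19],
  [0,2,3,5,6,9,11,12,15,18],
  [20,23,24,26,27,29,30,31,33,34],
  [1,4,7,8,20,23,24,26,27,29],
  [0,2,3,5,6,9,21,22,25,28],
  [10,13,14,16,17,19,30,31,33,34],
  [1,10,13,14,20,23,24,30,31,33],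
  [0,2,3,11,12,15,21,22,25,32],
  [4,7,8,16,17,19,26,27,29,34],
  [4,10,16,17,20,26,27,30,31,34],
  [0,5,6,11,12,18,21,22,28,32],
  [1,7,8,13,14,19,23,24,29,33],
  [2,5,7,9,11,13,15,16,18,19],
  [0,1,3,4,6,8,10,12,14,17],
  [21,23,25,26,28,29,30,32,33,34],
  [2,5,7,9,21,23,25,26,28,29],
  [0,1,3,4,6,8,20,22,24,27],
  [11,13,15,16,18,19,30,32,33,34],
  [2,11,13,15,21,23,25,30,32,33],
  [0,1,3,10,12,14,20,22,24,31],
  [5,7,9,16,18,19,26,28,29,34],
  [5,11,16,18,21,26,28,30,32,34],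
  [0,4,6,10,12,17,20,22,27,31],
  [2,7,9,13,15,19,23,25,29,33],
  [7,13,16,19,23,26,29,30,33,34],
  [1,4,8,10,14,17,20,24,27,31],
  [2,5,9,11,15,18,21,25,28,32],
  [3,6,8,9,12,14,15,17,18,19],
  [0,1,2,4,5,7,10,11,13,16],
  [22,24,25,27,28,29,31,32,33,34],
  [3,6,8,9,22,24,25,27,28,29],
  [0,1,2,4,5,7,20,21,23,26],
  [12,14,15,17,18,19,31,32,33,34],
  [3,12,14,15,22,24,25,31,32,33],
  [0,1,2,10,11,13,20,21,23,30],
  [6,8,9,17,18,19,27,28,29,34],
  [6,12,17,18,22,27,28,31,32,34],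
  [0,4,5,10,11,16,20,21,26,30],
  [3,8,9,14,15,19,24,25,29,33],
  [8,14,17,19,24,27,29,31,33,34],
  [1,4,7,10,13,16,20,23,26,30],
  [3,6,9,12,15,18,22,25,28,32],
  [9,15,18,19,25,28,29,32,33,34],
  [2,5,7,11,13,16,21,23,26,30],
  [3,6,8,12,14,17,22,24,27,31]]

theorem src5_eq : src5 = src5L := by decide +kernel

def masks5 : List ℕ := [
  0x400000010000000400000010000000000000010000000400000010000000400000010000000400000010000000400000000040000001000000040000001000000040000001,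
  0x10000000000000020000000800000020000000400000000000000800000020000000800004000000000001000000040000001000010000000400000010000000002000000080000002,
  0x400000000000000000000040000001000000040000100000004000000000001000000040000001000000000000800000020000000800000020000000800000020000000004000000100000004,
  0x100000004000000100000000000040000001000000040000000000000000001000000040000001000000000000001000000040000001000000040000001000000040000000008000000200000008,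
  0x20000000800000000000002000000080000000800000020000000000000080000002000000000040100000000000080000002004000000000002000000080000400000010000000010,
  0x800000000000001000000000000004000000100000200000000000040100000000000080000002000020000000000000080000002000008000000000004000000100000800000020000000020,
  0x200000008000000000001004000000000002000000080000000000040000000000000100000004000000040000000000000100000004000010000000000008000000200001000000040000000040,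
  0x1000000040000000000000000000008000000200000000001008000000200000000000100000004008000000200000000000100000004000000000002000000080000002000000080000000080,
  0x400000000000040200000008000000000004000000100001000000000000000000000200000008000010000000400000000000200000008000000000004000000100000004000000100000000100,
  0x1010000000400000010000000000008000000200400000010000000400000000000200000008000000000000000000200000008000000000000008000000200000008000000200000000200,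
  0x80000002000000080000000000000400000002000000080000002000000000000010000000000080000002004000000000010000000080100000000000400100000000000400000400,
  0x2000000000000004000000100000000000000800000800000000000080000002004000000000010000080000002000000000000010000000000100200000000000800200000000000800000800,
  0x800000020000000000002000000080100000000000400000000000100000004000000000000020000000100000004000000000000020000000000200400000000001000400000000001000001000,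
  0x4000000100000000000000200000000000001000000000002020000000000004008000000000020020000000000004008000000000020000080000000000000400000800000000002000002000,
  0x1000000000000080800000000000100200000000000800004000000000000008000000000000040000040000000000008010000000000040000100000000000000800001000000000004000004000,
  0x2040000001000000000000200400000000001001000000040000000000008010000000000040000000000008000000000000040000000200000000000001000002000000000008000008000,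
  0x8000000200000008000000000000000000002000000000004000000100800000020000000000080000000100800000020000000000080020000000800000000002000000000000400000010000,
  0x2000000000000100000004020000000800000000002000008000000200000000000000000000080000000000201000000040000000000100040000001000000000004000000000000800000020000,
  0x4080000000000008040000001000000000004002000000000000201000000040000000000100000200000000000000000000080000080000002000000000008000000000001000000040000,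
  0x8000000202000000080000002000000000008000000008080000002000000080000000000200080000002000000080000000000200000000000000000002000000000000002000000080000,
  0x400000010000000400000010000000000000010000000400000010000000400000000000000000400000010000000400100000000000400000010004000000000010004000000100000,
  0x10000000000000020000000800000020000000000004000000000000400000010000000400100000000400000010000000400000000000000000800000020008000000000020008000000200000,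
  0x4000000100000000000010000000400000010004000000000000000800000020000000800000000000000800000020000000800000000000000001000000040010000000000040010000000400000,
  0x20000000800000000000001000000040000000000000000010100000000000020000000800200000100000000000020000000800200000000400000010000000000000000080020000000800000,
  0x8000000000000404000000000000800000020008000000020000000000000040000001000000000000200000000000040000001000400000000800000020000000000000000100040000001000000,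
  0x10200000008000000000001000000040010000008000000200000000000040000001000400000000000000040000001000000000000001000000040000000000000000200080000002000000,
  0x40000001000000040000000000000080000000000000000020000000804000000000002000800000000000804000000000002000800000100000000000080020000000010000000000004000000,
  0x10000000000000800000020100000000000080020000000040000001000000000000002000000000000000001008000000000004001000000200000000000100040000000020000000000008000000,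
  0x20400000000000040200000000000100040000010000000000001008000000000004001000000001000000000000002000000000000400000000000200080000000040000000000010000000,
  0x40000001010000000400000000000200080000000000040400000010000000000008002000000400000010000000000008002000000000000000080000000000000080000000000020000000,
  0x80000002000000080000002000000000000000000000000080000002000000080100000004000000000002000000080100000004000000000002004000000100000004000000100000000000000,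
  0x20000000000002000000080000002004000000100000000080000002000000080000000000000000000000004000000100200000008000000000004008000000200000008000000200000000000000,
  0x80800000000000100000004008000000200000020000000000004000000100200000008000000002000000080000000000000000000000008010000000400000010000000400000000000000,
  0x100000004020000000000008010000000400000000000100800000000000200400000010000000800000000000200400000010000000002000000000000000000020000000800000000000000,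
  0x200000008000000200800000020000000800000000000200000008020000000800000020000000000008020000000800000020000000800000020000000800000000000000000000000000000]

theorem masks5_eq : masks5 = masksOf 10 src5L 0 35 := by decide +kernel

theorem src5L_lt : (src5L.all fun s => s.all fun t => decide (t < 35)) = true := by decide +kernel

theorem scat5 (H : TG (Fin 7)) : scat masks5 (code7 H) 0
    = packF 10 (((List.finRange 21).map fun i =>
        (code5 (H.pull (rv i)), lk H (rv i) (R7 i 5), lk H (rv i) (R7 i 6))).flatMap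
          fun t => [t.1, t.2.1, t.2.2]) := by
  have h1 : scat (masksOf 10 src5L 0 35) (code7 H) 0
      = packF 10 (src5L.map fun s => gath s (code7 H)) :=
    scat_masksOf _ _ _ _ fun s hs t ht =>
      of_decide_eq_true (List.all_eq_true.1 (List.all_eq_true.1 src5L_lt s hs) t ht)
  have h2 : (src5.map fun s => gath s (code7 H))
      = ((List.finRange 21).map fun i =>
        (code5 (H.pull (rv i)), lk H (rv i) (R7 i 5), lk H (rv i) (R7 i 6))).flatMap
          fun t => [t.1, t.2.1, t.2.2] := by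
    unfold src5
    rw [List.map_flatMap, List.flatMap_map]
    refine congrArg (fun g => List.flatMap g (List.finRange 21)) ?_
    funext i
    simp only [List.map_cons, List.map_nil, code5_pull, lk_eq]
  rw [masks5_eq, h1, ← src5_eq, h2]

/-- the functional with five roots -/
noncomputable def h5 (W : ℕ) (Q : Tr (Tr ℕ)) (gt : ℕ → ℕ) (H : TG (Fin 7)) : ℤ :=
  q5 W Q gt (code5 (H.pull ![0,1,2,3,4])) (lk H ![0,1,2,3,4] 5) (lk H ![0,1,2,3,4] 6)

theorem code5p_lt (H : TG (Fin 7)) (f : Fin 5 → Fin 7) : code5 (H.pull f) < 1024 := by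
  rw [code5_pull]; exact gath10_lt _ rfl _

theorem lk_lt (H : TG (Fin 7)) (f : Fin 5 → Fin 7) (x : Fin 7) : lk H f x < 1024 := by
  rw [lk_eq]; exact gath10_lt _ rfl _

theorem sum_h5 (W : ℕ) (Q : Tr (Tr ℕ)) (gt : ℕ → ℕ) (tab : Tr CD)
    (hsym : ∀ τ x y, x < 1024 → y < 1024 → q5 W Q gt τ x y = q5 W Q gt τ y x)
    (htab : TabOK (2 ^ (W - 1)) gt tab) (H : TG (Fin 7)) :
    ∑ σ : Equiv.Perm (Fin 7), h5 W Q gt (H.pull σ)
      = 2 * ((s5 W (2 ^ W) Q tab 21 (scat masks5 (code7 H) 0) 0 : ℕ) - 2520 * 2 ^ (W - 1)) := by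
  have h1 := sum_perm7_52 (fun f x y => q5 W Q gt (code5 (H.pull f)) (lk H f x) (lk H f y))
    (fun f x y => hsym _ _ _ (lk_lt H f x) (lk_lt H f y))
  have h2 : ∀ σ : Equiv.Perm (Fin 7), h5 W Q gt (H.pull σ)
      = (fun f x y => q5 W Q gt (code5 (H.pull f)) (lk H f x) (lk H f y))
        (fun i => σ (![0,1,2,3,4] i)) (σ 5) (σ 6) := fun σ => rfl
  rw [Finset.sum_congr rfl fun σ _ => h2 σ, h1, scat5]
  have h3 := s5_eq W (2 ^ W) Q tab ((List.finRange 21).map fun i =>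
        (code5 (H.pull (rv i)), lk H (rv i) (R7 i 5), lk H (rv i) (R7 i 6))) (fun t ht => ?_) 0
  · rw [List.length_map, List.length_finRange] at h3
    rw [h3, List.map_map, zero_add]
    have h4 : ∀ i : Fin 21, (P5.map fun π => (fun f x y => q5 W Q gt (code5 (H.pull f))
        (lk H f x) (lk H f y)) (fun j => R7 i (![0,1,2,3,4] (π j))) (R7 i 5) (R7 i 6)).sum
        = (vval W (2 ^ W) Q (tab.get (code5 (H.pull (rv i)))) (lk H (rv i) (R7 i 5))
            (lk H (rv i) (R7 i 6)) : ℤ) - 120 * 2 ^ (W - 1) := by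
      intro i
      rw [← sum_orders W Q gt _ _ (htab _ (code5p_lt H _) (free5_code H _))]
      refine congrArg List.sum (List.map_congr_left fun p _ => ?_)
      have e1 := code5_relabel H (rv i) p
      have e2 := lk_relabel H (rv i) p (R7 i 5)
      have e3 := lk_relabel H (rv i) p (R7 i 6)
      rw [← e1, ← e2, ← e3]
      rfl
    rw [Finset.sum_congr rfl fun i _ => h4 i, Finset.sum_sub_distrib, Finset.sum_const,
      Finset.card_univ, Fintype.card_fin]
    have h5 : (((List.finRange 21).map ((fun t : ℕ × ℕ × ℕ => vval W (2 ^ W) Q (tab.get t.1) t.2.1 t.2.2)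
        ∘ fun i => (code5 (H.pull (rv i)), lk H (rv i) (R7 i 5), lk H (rv i) (R7 i 6)))).sum : ℕ)
        = ∑ i : Fin 21, vval W (2 ^ W) Q (tab.get (code5 (H.pull (rv i)))) (lk H (rv i) (R7 i 5))
            (lk H (rv i) (R7 i 6)) := by
      rw [Fin.sum_univ_def]; rfl
    rw [h5]
    push_cast
    ring
  · obtain ⟨i, _, rfl⟩ := List.mem_map.1 ht
    exact ⟨code5p_lt _ _, lk_lt _ _ _, lk_lt _ _ _⟩

end K4m.Ev
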