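import Pool.Agent.Lib.MP_392c14_co.Ev.Chk

/-! Kernel test of `Q = M^T M` with packed rows (raw operations, no Mathlib). -/

set_option autoImplicit false

namespace K4m.Ev

/-- digit `j` of `r`, digits of `W` bits, `B = 2 ^ W` -/
noncomputable def dgR (W B r j : Nat) : Nat := Nat.mod (Nat.shiftRight r (Nat.mul W j)) B

/-- the row `i` of `M^T M` against `q`; `A = c0 * P`, `D = c0 * rep`, `E = off * rep`,
`F = cnt * c0 * c0 * rep`; the digits `i` of the rows are below `w2` -/
noncomputable def rowChk (W B w2 i q A D E F : Nat) (L : List Nat) : Nat → Nat → Bool :=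
  List.rec (motive := fun _ => Nat → Nat → Bool)
    (fun X S => Nat.beq (Nat.add (Nat.add q A) (Nat.mul D S)) (Nat.add (Nat.add E X) F))
    (fun r _ ih X S => force (fun m => Bool.rec false (ih (Nat.add X (Nat.mul m r)) (Nat.add S m))
      (Nat.ble (Nat.succ m) w2)) (dgR W B r i)) L

/-- assemble `n` leaves of `w` bits, starting with number `ch` -/
noncomputable def asm (pw : Nat) (t : Tr Nat) (n : Nat) : Nat → Nat :=
  Nat.rec (motive := fun _ => Nat → Nat) (fun _ => 0)
    (fun _ ih ch => Nat.add (Tr.get t ch) (Nat.mul pw (ih (Nat.succ ch)))) n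

/-- the leaves are below `pw` -/
noncomputable def leafChk (pw : Nat) (t : Tr Nat) (n : Nat) : Nat → Bool :=
  Nat.rec (motive := fun _ => Nat → Bool) (fun _ => true)
    (fun _ ih ch => Bool.rec false (ih (Nat.succ ch)) (Nat.ble (Nat.succ (Tr.get t ch)) pw)) n

/-- rows `i, ..., i + k - 1` of a test -/
noncomputable def rowsR (row : Nat → Nat) (Bn : Nat) (test : Nat → Nat → Bool) (k : Nat) :
    Nat → Bool :=
  Nat.rec (motive := fun _ => Nat → Bool) (fun _ => true)
    (fun _ ih i => Bool.rec false (ih (Nat.succ i))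
      (force (fun j => force (fun q => Bool.rec false (test j q) (Nat.ble (Nat.succ q) Bn))
        (row j)) i)) k

/-- rows `i, ..., i + k - 1` : the leaves -/
noncomputable def leavesR (pw base cb nch : Nat) (Q : Tr (Tr Nat)) (k : Nat) : Nat → Bool :=
  Nat.rec (motive := fun _ => Nat → Bool) (fun _ => true)
    (fun _ ih i => Bool.rec false (ih (Nat.succ i))
      (leafChk pw (Tr.get Q (Nat.add base i)) nch cb)) k

/-- all rows of `M` are below `Bn` -/
noncomputable def mChk (Bn : Nat) (L : List Nat) : Bool :=
  List.rec (motive := fun _ => Bool) true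
    (fun r _ ih => Bool.rec false ih (Nat.ble (Nat.succ r) Bn)) L

/-- sum of a list and its length -/
noncomputable def sumR (L : List Nat) : Nat → Nat :=
  List.rec (motive := fun _ => Nat → Nat) (fun acc => acc)
    (fun r _ ih acc => ih (Nat.add acc r)) L

noncomputable def lenR (L : List Nat) : Nat :=
  List.rec (motive := fun _ => Nat) 0 (fun _ _ ih => Nat.succ ih) L

/-- global data of the test: `rep` is the repunit, `P` the sum, `cnt` the length -/
noncomputable def dataChk (B Bn rep P cnt w2 off : Nat) (L : List Nat) : Bool :=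
  Bool.rec false (Bool.rec false (Bool.rec false (Bool.rec false (mChk Bn L)
    (Nat.ble (Nat.succ (Nat.mul cnt (Nat.mul w2 w2))) off))
    (Nat.beq cnt (lenR L))) (Nat.beq P (sumR L 0)))
    (Nat.beq (Nat.add (Nat.mul rep (Nat.pred B)) 1) Bn)

/-- row test -/
noncomputable def rowT (W B w2 c0 off rep P cnt : Nat) (L : List Nat) : Nat → Nat → Bool :=
  fun i q => force (fun A => force (fun D => force (fun E => force (fun F =>
    rowChk W B w2 i q A D E F L 0 0) (Nat.mul cnt (Nat.mul c0 (Nat.mul c0 rep))))
      (Nat.mul off rep)) (Nat.mul c0 rep)) (Nat.mul c0 P)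

end K4m.Ev
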