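import Mathlib
import Pool.Agent.Lib.MP_392c14_co.Ev.ChkP

/-! Soundness of the kernel test of `Q = M^T M`. -/

set_option autoImplicit false

namespace K4m.Ev

/-- digit `j` of `r`, `W` bits -/
def dg (W r j : ℕ) : ℕ := r / 2 ^ (W * j) % 2 ^ W

theorem dgR_eq (W r j : ℕ) : dgR W (2 ^ W) r j = dg W r j := by
  show (r >>> (W * j)) % 2 ^ W = _
  rw [Nat.shiftRight_eq_div_pow]; rfl

theorem dg_lt (W r j : ℕ) : dg W r j < 2 ^ W := Nat.mod_lt _ (by positivity)

theorem sum_dg (W r : ℕ) : ∀ n, ∑ j ∈ Finset.range n, dg W r j * (2 ^ W) ^ j = r % (2 ^ W) ^ n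
  | 0 => by simp [Nat.mod_one]
  | n + 1 => by
    rw [Finset.sum_range_succ, sum_dg W r n, Nat.mod_pow_succ, dg, pow_mul]
    ring

theorem sum_dg_of_lt (W r n : ℕ) (h : r < (2 ^ W) ^ n) :
    ∑ j ∈ Finset.range n, dg W r j * (2 ^ W) ^ j = r := by
  rw [sum_dg, Nat.mod_eq_of_lt h]

theorem bal (B : ℤ) (hB : 0 < B) : ∀ (n : ℕ) (d : ℕ → ℤ), (∀ j < n, |d j| < B) →
    ∑ j ∈ Finset.range n, d j * B ^ j = 0 → ∀ j < n, d j = 0
  | 0, _, _, _ => fun j hj => absurd hj (Nat.not_lt_zero _)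
  | n + 1, d, hd, h => by
    rw [Finset.sum_range_succ'] at h
    have e : ∑ j ∈ Finset.range n, d (j + 1) * B ^ (j + 1)
        = B * ∑ j ∈ Finset.range n, d (j + 1) * B ^ j := by
      rw [Finset.mul_sum]; exact Finset.sum_congr rfl fun j _ => by ring
    rw [e, pow_zero, mul_one] at h
    have h0 : d 0 = 0 := by
      apply Int.eq_zero_of_abs_lt_dvd (m := B) _ (hd 0 (Nat.succ_pos _))
      exact ⟨-∑ j ∈ Finset.range n, d (j + 1) * B ^ j, by linarith⟩
    rw [h0, add_zero] at h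
    have h1 : ∑ j ∈ Finset.range n, d (j + 1) * B ^ j = 0 := by
      rcases mul_eq_zero.1 h with h | h
      · exact absurd h hB.ne'
      · exact h
    have ih := bal B hB n (fun j => d (j + 1)) (fun j hj => hd _ (Nat.succ_lt_succ hj)) h1
    intro j hj
    cases j with
    | zero => exact h0
    | succ j => exact ih j (Nat.lt_of_succ_lt_succ hj)

theorem abs_list_sum_le (l : List ℤ) (c : ℤ) (h : ∀ x ∈ l, |x| ≤ c) :
    |l.sum| ≤ l.length * c := by
  induction l with
  | nil => simp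
  | cons a l ih =>
    rw [List.sum_cons, List.length_cons]
    have h1 := ih fun x hx => h x (List.mem_cons_of_mem _ hx)
    have h2 := h a List.mem_cons_self
    have h3 := abs_add_le a l.sum
    push_cast
    linarith

/-- the entries of `M^T M` -/
def ent (W c0 : ℕ) (L : List ℕ) (i j : ℕ) : ℤ :=
  (L.map fun r => ((dg W r i : ℤ) - c0) * ((dg W r j : ℤ) - c0)).sum

theorem ent_abs (W c0 w2 : ℕ) (L : List ℕ) (i j : ℕ) (hc : c0 ≤ w2)
    (hi : ∀ r ∈ L, dg W r i < w2) (hj : ∀ r ∈ L, dg W r j < w2) :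
    |ent W c0 L i j| ≤ L.length * ((w2 : ℤ) * w2) := by
  have := abs_list_sum_le (L.map fun r => ((dg W r i : ℤ) - c0) * ((dg W r j : ℤ) - c0))
    ((w2 : ℤ) * w2) ?_
  · rwa [List.length_map] at this
  · intro x hx
    obtain ⟨r, hr, rfl⟩ := List.mem_map.1 hx
    rw [abs_mul]
    have h1 : |(dg W r i : ℤ) - c0| ≤ w2 := by
      have := hi r hr; rw [abs_le]; constructor <;> omega
    have h2 : |(dg W r j : ℤ) - c0| ≤ w2 := by
      have := hj r hr; rw [abs_le]; constructor <;> omega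
    exact mul_le_mul h1 h2 (abs_nonneg _) (by positivity)

/-- the weighted sum of the entries of a row -/
theorem ent_sum (W c0 n : ℕ) (rep : ℤ) (hrep : rep = ∑ j ∈ Finset.range n, ((2 : ℤ) ^ W) ^ j)
    (L : List ℕ) (hL : ∀ r ∈ L, r < (2 ^ W) ^ n) (i : ℕ) :
    ∑ j ∈ Finset.range n, ent W c0 L i j * ((2 : ℤ) ^ W) ^ j
      = ((L.map fun r => (dg W r i : ℤ) * r).sum - c0 * rep * (L.map fun r => (dg W r i : ℤ)).sum
        - c0 * (L.map fun r : ℕ => (r : ℤ)).sum + L.length * (c0 * (c0 * rep))) := by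
  induction L with
  | nil => simp [ent]
  | cons r L ih =>
    have ih' := ih fun r hr => hL r (List.mem_cons_of_mem _ hr)
    have e : ∀ j, ent W c0 (r :: L) i j
        = ((dg W r i : ℤ) - c0) * ((dg W r j : ℤ) - c0) + ent W c0 L i j := fun j => by
      simp [ent]
    have hr : ∑ j ∈ Finset.range n, (dg W r j : ℤ) * ((2 : ℤ) ^ W) ^ j = r := by
      exact_mod_cast sum_dg_of_lt W r n (hL r List.mem_cons_self)
    have e2 : ∑ j ∈ Finset.range n, ((dg W r i : ℤ) - c0) * ((dg W r j : ℤ) - c0) * ((2 : ℤ) ^ W) ^ j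
        = ((dg W r i : ℤ) - c0) * (r - c0 * rep) := by
      have : ∀ j, ((dg W r i : ℤ) - c0) * ((dg W r j : ℤ) - c0) * ((2 : ℤ) ^ W) ^ j
          = ((dg W r i : ℤ) - c0) * ((dg W r j : ℤ) * ((2 : ℤ) ^ W) ^ j - c0 * ((2 : ℤ) ^ W) ^ j) :=
        fun j => by ring
      simp only [this]
      rw [← Finset.mul_sum, Finset.sum_sub_distrib, hr, ← Finset.mul_sum, hrep]
    simp only [e, add_mul, Finset.sum_add_distrib]
    rw [ih', e2]
    simp only [List.map_cons, List.sum_cons, List.length_cons]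
    push_cast
    ring

/-- main step: a row of the table -/
theorem row_main (W w2 c0 n i q : ℕ) (L : List ℕ) (hW : 1 ≤ W)
    (rep : ℤ) (hrep : rep = ∑ j ∈ Finset.range n, ((2 : ℤ) ^ W) ^ j)
    (hq : q < (2 ^ W) ^ n) (hL : ∀ r ∈ L, r < (2 ^ W) ^ n) (hc : c0 ≤ w2)
    (hdig : ∀ j < n, ∀ r ∈ L, dg W r j < w2) (hi : i < n)
    (hb : L.length * (w2 * w2) < 2 ^ (W - 1))
    (hrow : (q : ℤ) + c0 * (L.map fun r : ℕ => (r : ℤ)).sum
        + c0 * rep * (L.map fun r => (dg W r i : ℤ)).sum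
      = (2 : ℤ) ^ (W - 1) * rep + (L.map fun r => (dg W r i : ℤ) * r).sum
        + L.length * (c0 * (c0 * rep))) :
    ∀ j < n, (dg W q j : ℤ) - 2 ^ (W - 1) = ent W c0 L i j := by
  have hqs : ∑ j ∈ Finset.range n, (dg W q j : ℤ) * ((2 : ℤ) ^ W) ^ j = q := by
    exact_mod_cast sum_dg_of_lt W q n hq
  have key : ∑ j ∈ Finset.range n, (((dg W q j : ℤ) - 2 ^ (W - 1)) - ent W c0 L i j)
      * ((2 : ℤ) ^ W) ^ j = 0 := by
    simp only [sub_mul, Finset.sum_sub_distrib]
    rw [hqs, ent_sum W c0 n rep hrep L hL i, ← Finset.mul_sum, ← hrep]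
    linarith
  have hB : (0 : ℤ) < 2 ^ W := by positivity
  have h2 : (2 : ℤ) ^ W = 2 * 2 ^ (W - 1) := by
    rw [← pow_succ', Nat.sub_add_cancel hW]
  intro j hj
  have := bal _ hB n _ (fun j hj => ?_) key j hj
  · linarith
  · have h1 := ent_abs W c0 w2 L i j hc (hdig i hi) (hdig j hj)
    have h3 : (L.length : ℤ) * ((w2 : ℤ) * w2) < 2 ^ (W - 1) := by exact_mod_cast hb
    have h4 : (dg W q j : ℤ) < 2 ^ W := by exact_mod_cast dg_lt W q j
    have h5 : (0 : ℤ) ≤ dg W q j := by positivity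
    rw [abs_le] at h1
    rw [abs_lt]
    constructor <;> linarith [h1.1, h1.2]

/-! ### soundness of the raw functions -/

theorem brec {a b : Bool} (h : (Bool.rec false a b : Bool) = true) : b = true ∧ a = true := by
  cases b
  · exact absurd h Bool.false_ne_true
  · exact ⟨rfl, h⟩

theorem force_eq' {β : Type} (k : ℕ → β) (i : ℕ) : force k i = k i := by cases i <;> rfl

theorem rowChk_sound (W w2 i q A D E F : ℕ) (L : List ℕ) : ∀ X S,
    rowChk W (2 ^ W) w2 i q A D E F L X S = true →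
    (∀ r ∈ L, dg W r i < w2) ∧
      q + A + D * (S + (L.map fun r => dg W r i).sum)
        = E + (X + (L.map fun r => dg W r i * r).sum) + F := by
  induction L with
  | nil =>
    intro X S h
    have h' : Nat.beq (q + A + D * S) (E + X + F) = true := h
    refine ⟨fun r hr => absurd hr List.not_mem_nil, ?_⟩
    simpa using Nat.eq_of_beq_eq_true h'
  | cons r L ih =>
    intro X S h
    have h0 : rowChk W (2 ^ W) w2 i q A D E F (r :: L) X S
        = force (fun m => (Bool.rec false (rowChk W (2 ^ W) w2 i q A D E F L (X + m * r) (S + m))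
            (Nat.ble (Nat.succ m) w2) : Bool)) (dgR W (2 ^ W) r i) := rfl
    rw [h0, force_eq', dgR_eq] at h
    obtain ⟨h1, h2⟩ := brec h
    obtain ⟨h3, h4⟩ := ih _ _ h2
    refine ⟨?_, ?_⟩
    · intro s hs
      rcases List.mem_cons.1 hs with rfl | hs
      · exact Nat.le_of_ble_eq_true h1
      · exact h3 s hs
    · simp only [List.map_cons, List.sum_cons]
      linarith

theorem allR_sound (p : ℕ → Bool) (L : List ℕ) (h : allR p L = true) : ∀ m ∈ L, p m = true := by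
  induction L with
  | nil => exact fun m hm => absurd hm List.not_mem_nil
  | cons a L ih =>
    have h' : (Bool.rec false (allR p L) (force p a) : Bool) = true := h
    obtain ⟨h1, h2⟩ := brec h'
    rw [force_eq'] at h1
    intro m hm
    rcases List.mem_cons.1 hm with rfl | hm
    · exact h1
    · exact ih h2 m hm

theorem mChk_sound (Bn : ℕ) (L : List ℕ) (h : mChk Bn L = true) : ∀ r ∈ L, r < Bn := by
  induction L with
  | nil => exact fun r hr => absurd hr List.not_mem_nil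
  | cons r L ih =>
    obtain ⟨h1, h2⟩ := brec (a := mChk Bn L) (b := Nat.ble (Nat.succ r) Bn) h
    intro s hs
    rcases List.mem_cons.1 hs with rfl | hs
    · exact Nat.le_of_ble_eq_true h1
    · exact ih h2 s hs

theorem sumR_eq (L : List ℕ) : ∀ acc, sumR L acc = acc + L.sum := by
  induction L with
  | nil => intro acc; rfl
  | cons r L ih =>
    intro acc
    have : sumR (r :: L) acc = sumR L (acc + r) := rfl
    rw [this, ih, List.sum_cons]; ring

theorem lenR_eq (L : List ℕ) : lenR L = L.length := by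
  induction L with
  | nil => rfl
  | cons r L ih => rw [List.length_cons, ← ih]; rfl

theorem rowsR_sound (row : ℕ → ℕ) (Bn : ℕ) (test : ℕ → ℕ → Bool) (k : ℕ) : ∀ i,
    rowsR row Bn test k i = true → ∀ j, i ≤ j → j < i + k → row j < Bn ∧ test j (row j) = true := by
  induction k with
  | zero => intro i _ j h1 h2; omega
  | succ k ih =>
    intro i h j h1 h2
    have h' : (Bool.rec false (rowsR row Bn test k (i + 1)) (force (fun j => force (fun q =>
      (Bool.rec false (test j q) (Nat.ble (Nat.succ q) Bn) : Bool)) (row j)) i) : Bool) = true := h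
    obtain ⟨h3, h4⟩ := brec h'
    rw [force_eq', force_eq'] at h3
    obtain ⟨h5, h6⟩ := brec h3
    rcases Nat.eq_or_lt_of_le h1 with rfl | h1
    · exact ⟨Nat.le_of_ble_eq_true h5, h6⟩
    · exact ih _ h4 j h1 (by omega)

theorem leafChk_sound (pw : ℕ) (t : Tr ℕ) (n : ℕ) : ∀ ch, leafChk pw t n ch = true →
    ∀ c, ch ≤ c → c < ch + n → t.get c < pw := by
  induction n with
  | zero => intro i _ j h1 h2; omega
  | succ k ih =>
    intro i h j h1 h2
    obtain ⟨h3, h4⟩ := brec (a := leafChk pw t k (i + 1)) (b := Nat.ble (Nat.succ (t.get i)) pw) h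
    rcases Nat.eq_or_lt_of_le h1 with rfl | h1
    · exact Nat.le_of_ble_eq_true h3
    · exact ih _ h4 j h1 (by omega)

theorem leavesR_sound (pw base cb nch : ℕ) (Q : Tr (Tr ℕ)) (k : ℕ) : ∀ i,
    leavesR pw base cb nch Q k i = true → ∀ j, i ≤ j → j < i + k →
      ∀ c, cb ≤ c → c < cb + nch → (Q.get (base + j)).get c < pw := by
  induction k with
  | zero => intro i _ j h1 h2; omega
  | succ k ih =>
    intro i h j h1 h2
    obtain ⟨h3, h4⟩ := brec (a := leavesR pw base cb nch Q k (i + 1))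
      (b := leafChk pw (Q.get (base + i)) nch cb) h
    rcases Nat.eq_or_lt_of_le h1 with rfl | h1
    · exact leafChk_sound _ _ _ _ h3
    · exact ih _ h4 j h1 (by omega)

theorem dg_asm (W pw : ℕ) (hpw : pw = 2 ^ (W * 64)) (t : Tr ℕ) (n : ℕ) : ∀ ch,
    (∀ c, ch ≤ c → c < ch + n → t.get c < pw) →
    ∀ j, j < 64 * n → dg W (asm pw t n ch) j = dg W (t.get (ch + j / 64)) (j % 64) := by
  induction n with
  | zero => intro ch _ j hj; omega
  | succ n ih =>
    intro ch hlt j hj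
    have e : asm pw t (n + 1) ch = t.get ch + pw * asm pw t n (ch + 1) := rfl
    have h0 := hlt ch (Nat.le_refl _) (by omega)
    rw [e]
    by_cases h : j < 64
    · rw [Nat.div_eq_of_lt h, Nat.mod_eq_of_lt h, Nat.add_zero, dg, dg]
      have e2 : pw = 2 ^ (W * j) * (2 ^ W * 2 ^ (W * (63 - j))) := by
        rw [hpw, ← pow_add, ← pow_add]; congr 1
        have : 64 = j + (1 + (63 - j)) := by omega
        calc W * 64 = W * (j + (1 + (63 - j))) := by rw [← this]
          _ = _ := by ring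
      rw [e2, mul_assoc, mul_assoc, Nat.add_mul_div_left _ _ (by positivity),
        Nat.add_mul_mod_self_left, Nat.add_zero]
    · obtain ⟨k, rfl⟩ : ∃ k, j = 64 + k := ⟨j - 64, by omega⟩
      have e3 := ih (ch + 1) (fun c h1 h2 => hlt c (by omega) (by omega)) k (by omega)
      have e4 : ch + (64 + k) / 64 = ch + 1 + k / 64 := by omega
      have e5 : (64 + k) % 64 = k % 64 := by omega
      rw [e4, e5, ← e3, dg, dg]
      congr 1
      rw [mul_add, pow_add, ← Nat.div_div_eq_div_mul, ← hpw, Nat.add_mul_div_left _ _ (by omega),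
        Nat.div_eq_of_lt h0, Nat.zero_add]

/-- conclusion of the test for a block -/
def BlockOK (W c0 off n base : ℕ) (look : ℕ → ℕ → ℕ) (L : List ℕ) : Prop :=
  ∀ i < n, ∀ j < n, (look (base + i) (base + j) : ℤ) - off = ent W c0 L i j

theorem dataChk_sound (W n rep P cnt w2 off : ℕ) (L : List ℕ)
    (h : dataChk (2 ^ W) ((2 ^ W) ^ n) rep P cnt w2 off L = true) :
    (∀ r ∈ L, r < (2 ^ W) ^ n) ∧ L.length * (w2 * w2) < off ∧ cnt = L.length ∧ P = L.sum ∧
      rep * (2 ^ W - 1) + 1 = (2 ^ W) ^ n := by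
  obtain ⟨h1, h⟩ := brec h
  obtain ⟨h2, h⟩ := brec h
  obtain ⟨h3, h⟩ := brec h
  obtain ⟨h4, h⟩ := brec h
  have h3' := Nat.eq_of_beq_eq_true h3
  rw [lenR_eq] at h3'
  have h2' := Nat.eq_of_beq_eq_true h2
  rw [sumR_eq, zero_add] at h2'
  have h4' : cnt * (w2 * w2) < off := Nat.le_of_ble_eq_true h4
  exact ⟨mChk_sound _ _ h, h3' ▸ h4', h3', h2', Nat.eq_of_beq_eq_true h1⟩

theorem rep_sum (W n rep : ℕ) (hW : 1 ≤ W) (h : rep * (2 ^ W - 1) + 1 = (2 ^ W) ^ n) :
    (rep : ℤ) = ∑ j ∈ Finset.range n, ((2 : ℤ) ^ W) ^ j := by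
  have h1 : (1 : ℕ) ≤ 2 ^ W := Nat.one_le_two_pow
  have h2 : (rep : ℤ) * (2 ^ W - 1) + 1 = (2 ^ W) ^ n := by
    have : ((rep * (2 ^ W - 1) + 1 : ℕ) : ℤ) = (((2 ^ W) ^ n : ℕ) : ℤ) := by rw [h]
    push_cast [h1] at this
    exact this
  have h3 := geom_sum_mul ((2 : ℤ) ^ W) n
  have h4 : (2 : ℤ) ^ W - 1 ≠ 0 := by
    have : (2 : ℤ) ≤ 2 ^ W := by
      calc (2 : ℤ) = 2 ^ 1 := by norm_num
        _ ≤ 2 ^ W := pow_le_pow_right₀ (by norm_num) hW
    linarith
  exact mul_right_cancel₀ h4 (by linarith)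

theorem rowT_sound (W w2 c0 n rep P cnt : ℕ) (L : List ℕ) (hW : 1 ≤ W)
    (hc : c0 ≤ w2)
    (hd : dataChk (2 ^ W) ((2 ^ W) ^ n) rep P cnt w2 (2 ^ (W - 1)) L = true)
    (row : ℕ → ℕ)
    (hr : ∀ i < n, row i < (2 ^ W) ^ n ∧
      rowT W (2 ^ W) w2 c0 (2 ^ (W - 1)) rep P cnt L i (row i) = true) :
    ∀ i < n, ∀ j < n, (dg W (row i) j : ℤ) - 2 ^ (W - 1) = ent W c0 L i j := by
  obtain ⟨d1, d2, d3, d4, d5⟩ := dataChk_sound W n rep P cnt w2 _ L hd
  have hrep := rep_sum W n rep hW d5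
  have hall : ∀ i < n, (∀ r ∈ L, dg W r i < w2) ∧
      row i + c0 * P + c0 * rep * (0 + (L.map fun r => dg W r i).sum)
        = 2 ^ (W - 1) * rep + (0 + (L.map fun r => dg W r i * r).sum) + cnt * (c0 * (c0 * rep)) := by
    intro i hi
    have h := (hr i hi).2
    unfold rowT at h
    rw [force_eq', force_eq', force_eq', force_eq'] at h
    exact rowChk_sound W w2 i (row i) _ _ _ _ L 0 0 h
  intro i hi
  obtain ⟨h1, h2⟩ := hall i hi
  refine row_main W w2 c0 n i (row i) L hW rep hrep (hr i hi).1 d1 hc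
    (fun j hj => (hall j hj).1) hi d2 ?_
  have h3 := congrArg (Nat.cast : ℕ → ℤ) h2
  rw [d3, d4] at h3
  push_cast [Nat.cast_list_sum, List.map_map] at h3
  simp only [Function.comp_def, zero_add] at h3
  push_cast at h3
  linarith

/-- two-level tables -/
theorem blockQ5 (W w2 c0 n rep P cnt base cb nch : ℕ) (L : List ℕ) (Q : Tr (Tr ℕ)) (hW : 1 ≤ W)
    (hc : c0 ≤ w2) (hbase : base = 64 * cb) (hn : n ≤ 64 * nch)
    (hd : dataChk (2 ^ W) ((2 ^ W) ^ n) rep P cnt w2 (2 ^ (W - 1)) L = true)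
    (hl : ∀ i < n, ∀ c, cb ≤ c → c < cb + nch → (Q.get (base + i)).get c < 2 ^ (W * 64))
    (hr : ∀ i < n, asm (2 ^ (W * 64)) (Q.get (base + i)) nch cb < (2 ^ W) ^ n ∧
      rowT W (2 ^ W) w2 c0 (2 ^ (W - 1)) rep P cnt L i
        (asm (2 ^ (W * 64)) (Q.get (base + i)) nch cb) = true) :
    BlockOK W c0 (2 ^ (W - 1)) n base (look W (2 ^ W) Q) L := by
  intro i hi j hj
  have h := rowT_sound W w2 c0 n rep P cnt L hW hc hd
    (fun i => asm (2 ^ (W * 64)) (Q.get (base + i)) nch cb) hr i hi j hj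
  rw [← h, dg_asm W _ rfl _ nch cb (hl i hi) j (by omega)]
  have e : look W (2 ^ W) Q (base + i) (base + j)
      = dg W ((Q.get (base + i)).get ((base + j) / 64)) ((base + j) % 64) := by
    unfold look
    rw [force_eq', force_eq', ← dgR_eq]
    rfl
  have e1 : (base + j) / 64 = cb + j / 64 := by omega
  have e2 : (base + j) % 64 = j % 64 := by omega
  rw [e, e1, e2]
  push_cast
  rfl

/-- one-level tables -/
theorem blockQ3 (W w2 c0 n rep P cnt base cb : ℕ) (L : List ℕ) (Q : Tr ℕ) (hW : 1 ≤ W)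
    (hc : c0 ≤ w2) (hbase : base = 128 * cb) (hn : n ≤ 128)
    (hd : dataChk (2 ^ W) ((2 ^ W) ^ n) rep P cnt w2 (2 ^ (W - 1)) L = true)
    (hr : ∀ i < n, Q.get (base + i) < (2 ^ W) ^ n ∧
      rowT W (2 ^ W) w2 c0 (2 ^ (W - 1)) rep P cnt L i (Q.get (base + i)) = true) :
    BlockOK W c0 (2 ^ (W - 1)) n base (look3 W (2 ^ W) Q) L := by
  intro i hi j hj
  have h := rowT_sound W w2 c0 n rep P cnt L hW hc hd (fun i => Q.get (base + i)) hr i hi j hj
  rw [← h]
  have e : look3 W (2 ^ W) Q (base + i) (base + j) = dg W (Q.get (base + i)) ((base + j) % 128) := by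
    unfold look3
    rw [force_eq', ← dgR_eq]
    rfl
  have e2 : (base + j) % 128 = j := by omega
  rw [e, e2]
  push_cast
  rfl

/-- two-level tables, numerals -/
theorem blockN5 (W B Bn pw off w2 c0 n rep P cnt base cb nch : ℕ) (L : List ℕ) (Q : Tr (Tr ℕ))
    (hB : B = 2 ^ W) (hBn : Bn = (2 ^ W) ^ n) (hpw : pw = 2 ^ (W * 64)) (hoff : off = 2 ^ (W - 1))
    (hW : 1 ≤ W) (hc : c0 ≤ w2) (hbase : base = 64 * cb) (hn : n ≤ 64 * nch)
    (hd : dataChk B Bn rep P cnt w2 off L = true)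
    (hl : ∀ i < n, ∀ c, cb ≤ c → c < cb + nch → (Q.get (base + i)).get c < pw)
    (hr : ∀ i < n, asm pw (Q.get (base + i)) nch cb < Bn ∧
      rowT W B w2 c0 off rep P cnt L i (asm pw (Q.get (base + i)) nch cb) = true) :
    BlockOK W c0 (2 ^ (W - 1)) n base (look W (2 ^ W) Q) L := by
  subst hB hBn hpw hoff
  exact blockQ5 W w2 c0 n rep P cnt base cb nch L Q hW hc hbase hn hd hl hr

/-- one-level tables, numerals -/
theorem blockN3 (W B Bn off w2 c0 n rep P cnt base cb : ℕ) (L : List ℕ) (Q : Tr ℕ)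
    (hB : B = 2 ^ W) (hBn : Bn = (2 ^ W) ^ n) (hoff : off = 2 ^ (W - 1))
    (hW : 1 ≤ W) (hc : c0 ≤ w2) (hbase : base = 128 * cb) (hn : n ≤ 128)
    (hd : dataChk B Bn rep P cnt w2 off L = true)
    (hr : ∀ i < n, Q.get (base + i) < Bn ∧
      rowT W B w2 c0 off rep P cnt L i (Q.get (base + i)) = true) :
    BlockOK W c0 (2 ^ (W - 1)) n base (look3 W (2 ^ W) Q) L := by
  subst hB hBn hoff
  exact blockQ3 W w2 c0 n rep P cnt base cb L Q hW hc hbase hn hd hr

/-- rows of a two-level table -/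
noncomputable def row5 (pw base cb nch : ℕ) (Q : Tr (Tr ℕ)) (i : ℕ) : ℕ :=
  asm pw (Tr.get Q (Nat.add base i)) nch cb

/-- rows of a one-level table -/
noncomputable def row3 (base : ℕ) (Q : Tr ℕ) (i : ℕ) : ℕ := Tr.get Q (Nat.add base i)

end K4m.Ev
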