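import Mathlib
import Pool.Agent.Lib.MP_392c14_co.Ev.FiveT
import Pool.Agent.Lib.MP_392c14_co.Ev.Psd
import Pool.Agent.Lib.MP_392c14_co.Sem1

/-! The five-root term is nonnegative. -/

set_option autoImplicit false

namespace K4m.Ev

/-- checked data of the quadratic forms of the types with five roots -/
structure Data5 (W c0 : ℕ) (Q : Tr (Tr ℕ)) (gt base num : ℕ → ℕ) (M : ℕ → List ℕ) : Prop where
  blk : ∀ τ ∈ g5, BlockOK W c0 (2 ^ (W - 1)) (num τ) (base τ) (look W (2 ^ W) Q) (M τ)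
  rng : ∀ τ ∈ g5, ∀ x < 1024, base τ ≤ gf (gt τ) x ∧ gf (gt τ) x < base τ + num τ

theorem ent_symm (W c0 : ℕ) (L : List ℕ) (i j : ℕ) : ent W c0 L i j = ent W c0 L j i := by
  unfold ent
  exact congrArg List.sum (List.map_congr_left fun r _ => mul_comm _ _)

theorem q5_sos {W c0 : ℕ} {Q : Tr (Tr ℕ)} {gt base num : ℕ → ℕ} {M : ℕ → List ℕ}
    (D : Data5 W c0 Q gt base num M) (τ x y : ℕ) (hτ : τ ∈ g5) (hx : x < 1024) (hy : y < 1024) :
    q5 W Q gt τ x y = ent W c0 (M τ) (gf (gt τ) x - base τ) (gf (gt τ) y - base τ) := by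
  obtain ⟨a1, a2⟩ := D.rng τ hτ x hx
  obtain ⟨b1, b2⟩ := D.rng τ hτ y hy
  have h := D.blk τ hτ (gf (gt τ) x - base τ) (by omega) (gf (gt τ) y - base τ) (by omega)
  rw [Nat.add_sub_cancel' a1, Nat.add_sub_cancel' b1] at h
  rw [q5, if_pos hτ, ← h]
  push_cast
  rfl

theorem q5_symm {W c0 : ℕ} {Q : Tr (Tr ℕ)} {gt base num : ℕ → ℕ} {M : ℕ → List ℕ}
    (D : Data5 W c0 Q gt base num M) (τ x y : ℕ) (hx : x < 1024) (hy : y < 1024) :
    q5 W Q gt τ x y = q5 W Q gt τ y x := by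
  by_cases hτ : τ ∈ g5
  · rw [q5_sos D τ x y hτ hx hy, q5_sos D τ y x hτ hy hx, ent_symm]
  · rw [q5, q5, if_neg hτ, if_neg hτ]

theorem Ex_list_sum {V α : Type} [Fintype V] (G : TG V) (w : V → ℝ) (L : List α)
    (f : α → TG (Fin 7) → ℝ) :
    Ex G w (fun H => (L.map fun a => f a H).sum) = (L.map fun a => Ex G w (f a)).sum := by
  induction L with
  | nil => simp [Ex]
  | cons a L ih =>
    rw [List.map_cons, List.sum_cons, ← ih]
    unfold Ex
    rw [← Finset.sum_add_distrib]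
    refine Finset.sum_congr rfl fun φ _ => ?_
    simp only [List.map_cons, List.sum_cons]; ring

theorem list_sum_nonneg {α : Type} (L : List α) (f : α → ℝ) (h : ∀ a ∈ L, 0 ≤ f a) :
    0 ≤ (L.map f).sum := by
  apply List.sum_nonneg
  intro x hx
  obtain ⟨a, ha, rfl⟩ := List.mem_map.1 hx
  exact h a ha

theorem sum_ite_nodup (L : List ℕ) (hL : L.Nodup) (c : ℕ) (A : ℕ → ℝ) :
    (L.map fun τ => if c = τ then A τ else 0).sum = if c ∈ L then A c else 0 := by
  induction L with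
  | nil => simp
  | cons a L ih =>
    rw [List.map_cons, List.sum_cons, ih (List.nodup_cons.1 hL).2]
    by_cases h : c = a
    · subst h
      rw [if_pos rfl, if_neg (List.nodup_cons.1 hL).1, if_pos List.mem_cons_self, add_zero]
    · rw [if_neg h, zero_add]
      by_cases h2 : c ∈ L
      · rw [if_pos h2, if_pos (List.mem_cons_of_mem _ h2)]
      · rw [if_neg h2, if_neg]
        intro h3
        rcases List.mem_cons.1 h3 with h3 | h3
        · exact h h3
        · exact h2 h3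

/-- link of the last vertex of a 3-graph on six vertices -/
def lk6 (K : TG (Fin 6)) : ℕ :=
  bits [K.E 0 1 5, K.E 0 2 5, K.E 1 2 5, K.E 0 3 5, K.E 1 3 5, K.E 2 3 5, K.E 0 4 5, K.E 1 4 5,
    K.E 2 4 5, K.E 3 4 5]

/-- the summands -/
noncomputable def F5 (W c0 : ℕ) (gt base : ℕ → ℕ) (τ r : ℕ) (K : TG (Fin 6)) : ℝ :=
  if code5 (K.pull ![0,1,2,3,4]) = τ then (dg W r (gf (gt τ) (lk6 K) - base τ) : ℝ) - c0 else 0

theorem h5_eq {W c0 : ℕ} {Q : Tr (Tr ℕ)} {gt base num : ℕ → ℕ} {M : ℕ → List ℕ}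
    (D : Data5 W c0 Q gt base num M) (H : TG (Fin 7)) :
    (h5 W Q gt H : ℝ) = (g5.map fun τ => ((M τ).map fun r =>
      F5 W c0 gt base τ r (H.pull ![0,1,2,3,4,5]) * F5 W c0 gt base τ r (H.pull ![0,1,2,3,4,6])).sum
      ).sum := by
  have e1 : code5 ((H.pull ![0,1,2,3,4,5]).pull ![0,1,2,3,4]) = code5 (H.pull ![0,1,2,3,4]) := rfl
  have e2 : code5 ((H.pull ![0,1,2,3,4,6]).pull ![0,1,2,3,4]) = code5 (H.pull ![0,1,2,3,4]) := rfl
  have e3 : lk6 (H.pull ![0,1,2,3,4,5]) = lk H ![0,1,2,3,4] 5 := rfl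
  have e4 : lk6 (H.pull ![0,1,2,3,4,6]) = lk H ![0,1,2,3,4] 6 := rfl
  set c := code5 (H.pull ![0,1,2,3,4]) with hc
  have key : ∀ τ, ((M τ).map fun r =>
      F5 W c0 gt base τ r (H.pull ![0,1,2,3,4,5]) * F5 W c0 gt base τ r (H.pull ![0,1,2,3,4,6])).sum
      = if c = τ then ((ent W c0 (M τ) (gf (gt τ) (lk H ![0,1,2,3,4] 5) - base τ)
          (gf (gt τ) (lk H ![0,1,2,3,4] 6) - base τ) : ℤ) : ℝ) else 0 := by
    intro τ
    by_cases h : c = τ
    · rw [if_pos h]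
      unfold ent
      rw [Int.cast_list_sum, List.map_map]
      refine congrArg List.sum (List.map_congr_left fun r _ => ?_)
      simp only [F5, e1, e2, e3, e4, if_pos h, Function.comp_apply]
      push_cast
      rfl
    · rw [if_neg h]
      have : ∀ r, F5 W c0 gt base τ r (H.pull ![0,1,2,3,4,5])
          * F5 W c0 gt base τ r (H.pull ![0,1,2,3,4,6]) = 0 := by
        intro r
        simp only [F5, e1, if_neg h, zero_mul]
      simp only [this]
      simp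
  simp only [key]
  rw [sum_ite_nodup g5 (by decide) c]
  by_cases h : c ∈ g5
  · rw [if_pos h, h5, ← hc, q5_sos D c _ _ h (lk_lt _ _ _) (lk_lt _ _ _)]
  · rw [if_neg h, h5, ← hc, q5, if_neg h]; simp

theorem Ex_h5_nonneg {V : Type} [Fintype V] (G : TG V) (w : V → ℝ) (hw : IsW w)
    {W c0 : ℕ} {Q : Tr (Tr ℕ)} {gt base num : ℕ → ℕ} {M : ℕ → List ℕ}
    (D : Data5 W c0 Q gt base num M) : 0 ≤ Ex G w fun H => (h5 W Q gt H : ℝ) := by
  have h : (fun H : TG (Fin 7) => (h5 W Q gt H : ℝ)) = fun H =>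
      (g5.map fun τ => ((M τ).map fun r => F5 W c0 gt base τ r (H.pull ![0,1,2,3,4,5])
        * F5 W c0 gt base τ r (H.pull ![0,1,2,3,4,6])).sum).sum := funext fun H => h5_eq D H
  rw [h, Ex_list_sum]
  refine list_sum_nonneg _ _ fun τ _ => ?_
  rw [Ex_list_sum]
  refine list_sum_nonneg _ _ fun r _ => ?_
  exact Ex_sos5 G w hw (F5 W c0 gt base τ r)

end K4m.Ev
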