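import Mathlib
import Pool.Agent.Lib.MP_392c14_co.Ev.Three
import Pool.Agent.Lib.MP_392c14_co.Ev.Psd5

/-! The three-root term is nonnegative. -/

set_option autoImplicit false

namespace K4m.Ev

/-- the functional with three roots -/
noncomputable def h3 (W I3 : ℕ) (Q : Tr ℕ) (H : TG (Fin 7)) : ℤ :=
  (v3 W (2 ^ W) I3 Q (code5 (H.pull ![0,1,2,3,4])) (code5 (H.pull ![0,1,2,5,6])) : ℤ) - 2 ^ (W - 1)

/-- checked data of the quadratic forms of the types with three roots -/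
structure Data3 (W c0 I3 n0 n1 : ℕ) (Q : Tr ℕ) (M0 M1 : List ℕ) : Prop where
  blk0 : BlockOK W c0 (2 ^ (W - 1)) n0 (128 * 0) (look3 W (2 ^ W) Q) M0
  blk1 : BlockOK W c0 (2 ^ (W - 1)) n1 (128 * 1) (look3 W (2 ^ W) Q) M1
  rng0 : ∀ c ∈ lab5, c % 2 = 0 → idx3 I3 c < n0
  rng1 : ∀ c ∈ lab5, c % 2 = 1 → 128 ≤ idx3 I3 c ∧ idx3 I3 c < 128 + n1

/-- the summands -/
noncomputable def F3 (W c0 I3 t r : ℕ) (K : TG (Fin 5)) : ℝ :=
  if code5 K % 2 = t then (dg W r (idx3 I3 (code5 K) - 128 * t) : ℝ) - c0 else 0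

theorem map_sum_zero (L : List ℕ) (f : ℕ → ℝ) (h : ∀ r, f r = 0) : (L.map f).sum = 0 := by
  induction L with
  | nil => rfl
  | cons a L ih => rw [List.map_cons, List.sum_cons, ih, h, add_zero]

/-- the sum of the products of the summands, when the root digits are right -/
theorem F3_sum (W c0 I3 t c d : ℕ) (M : List ℕ) (K L : TG (Fin 5)) (hK : code5 K = c)
    (hL : code5 L = d) (hc : c % 2 = t) (hd : d % 2 = t) :
    (M.map fun r => F3 W c0 I3 t r K * F3 W c0 I3 t r L).sum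
      = ((ent W c0 M (idx3 I3 c - 128 * t) (idx3 I3 d - 128 * t) : ℤ) : ℝ) := by
  unfold ent
  rw [Int.cast_list_sum, List.map_map]
  refine congrArg List.sum (List.map_congr_left fun r _ => ?_)
  unfold F3
  rw [hK, hL, if_pos hc, if_pos hd]
  simp only [Function.comp_apply]
  push_cast
  rfl

theorem F3_zero (W c0 I3 t c : ℕ) (M : List ℕ) (K L : TG (Fin 5)) (hK : code5 K = c)
    (hc : ¬ c % 2 = t) :
    (M.map fun r => F3 W c0 I3 t r K * F3 W c0 I3 t r L).sum = 0 := by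
  refine map_sum_zero _ _ fun r => ?_
  have h : F3 W c0 I3 t r K = 0 := by
    unfold F3
    rw [hK, if_neg hc]
  rw [h, zero_mul]

theorem h3_eq {W c0 I3 n0 n1 : ℕ} {Q : Tr ℕ} {M0 M1 : List ℕ}
    (D : Data3 W c0 I3 n0 n1 Q M0 M1) (H : TG (Fin 7)) :
    (h3 W I3 Q H : ℝ) = (M0.map fun r =>
      F3 W c0 I3 0 r (H.pull ![0,1,2,3,4]) * F3 W c0 I3 0 r (H.pull ![0,1,2,5,6])).sum
      + (M1.map fun r =>
      F3 W c0 I3 1 r (H.pull ![0,1,2,3,4]) * F3 W c0 I3 1 r (H.pull ![0,1,2,5,6])).sum := by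
  have hc := code5_mem (H.pull ![0,1,2,3,4])
  have hd := code5_mem (H.pull ![0,1,2,5,6])
  have hm : code5 (H.pull ![0,1,2,3,4]) % 2 = code5 (H.pull ![0,1,2,5,6]) % 2 := by
    rw [code5_mod, code5_mod]; rfl
  unfold h3
  generalize hcdef : code5 (H.pull ![0,1,2,3,4]) = c at *
  generalize hddef : code5 (H.pull ![0,1,2,5,6]) = d at *
  rw [v3_eq]
  rcases Nat.mod_two_eq_zero_or_one c with h | h
  · have hd2 : d % 2 = 0 := by omega
    have b := D.blk0 (idx3 I3 c) (D.rng0 c hc h) (idx3 I3 d) (D.rng0 d hd hd2)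
    rw [Nat.mul_zero, Nat.zero_add, Nat.zero_add] at b
    rw [F3_sum W c0 I3 0 c d M0 _ _ hcdef hddef h hd2,
      F3_zero W c0 I3 1 c M1 _ _ hcdef (by omega), add_zero, Nat.mul_zero, Nat.sub_zero,
      Nat.sub_zero, ← b]
    push_cast
    rfl
  · have hd2 : d % 2 = 1 := by omega
    obtain ⟨c1, c2⟩ := D.rng1 c hc h
    obtain ⟨d1, d2⟩ := D.rng1 d hd hd2
    have b := D.blk1 (idx3 I3 c - 128) (by omega) (idx3 I3 d - 128) (by omega)
    rw [Nat.mul_one, Nat.add_sub_cancel' c1, Nat.add_sub_cancel' d1] at b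
    rw [F3_sum W c0 I3 1 c d M1 _ _ hcdef hddef h hd2,
      F3_zero W c0 I3 0 c M0 _ _ hcdef (by omega), zero_add, Nat.mul_one, ← b]
    push_cast
    rfl

theorem Ex_add {V : Type} [Fintype V] (G : TG V) (w : V → ℝ) (f g : TG (Fin 7) → ℝ) :
    Ex G w (fun H => f H + g H) = Ex G w f + Ex G w g := by
  unfold Ex
  rw [← Finset.sum_add_distrib]
  exact Finset.sum_congr rfl fun φ _ => by ring

theorem Ex_h3_nonneg {V : Type} [Fintype V] (G : TG V) (w : V → ℝ) (hw : IsW w)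
    {W c0 I3 n0 n1 : ℕ} {Q : Tr ℕ} {M0 M1 : List ℕ}
    (D : Data3 W c0 I3 n0 n1 Q M0 M1) : 0 ≤ Ex G w fun H => (h3 W I3 Q H : ℝ) := by
  rw [show (fun H : TG (Fin 7) => (h3 W I3 Q H : ℝ)) = fun H => (M0.map fun r =>
      F3 W c0 I3 0 r (H.pull ![0,1,2,3,4]) * F3 W c0 I3 0 r (H.pull ![0,1,2,5,6])).sum
      + (M1.map fun r =>
      F3 W c0 I3 1 r (H.pull ![0,1,2,3,4]) * F3 W c0 I3 1 r (H.pull ![0,1,2,5,6])).sum from
      funext fun H => h3_eq D H, Ex_add, Ex_list_sum, Ex_list_sum]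
  exact add_nonneg (list_sum_nonneg _ _ fun r _ => Ex_sos3 G w hw (F3 W c0 I3 0 r))
    (list_sum_nonneg _ _ fun r _ => Ex_sos3 G w hw (F3 W c0 I3 1 r))

/-- the sum over `S_7` of the three-root functional -/
theorem sum_h3 (W I3 : ℕ) (Q : Tr ℕ) (hq : Sym3 W (2 ^ W) I3 Q) (H : TG (Fin 7)) :
    ∑ σ : Equiv.Perm (Fin 7), h3 W I3 Q (H.pull σ) =
      48 * ((s3 W (2 ^ W) I3 Q 105 (scat masks3 (code7 H) 0) 0 : ℤ) - 105 * 2 ^ (W - 1)) :=
  sum_three W (2 ^ W) I3 (2 ^ (W - 1)) Q hq H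

end K4m.Ev
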