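import Mathlib
import Pool.Agent.Lib.MP_392c14_co.Ev.MaskL
import Pool.Agent.Lib.MP_392c14_co.Ev.ChkF
import Pool.Agent.Lib.MP_392c14_co.Ev.CutW
import Pool.Agent.Lib.MP_392c14_co.Ev.Psd3
import Pool.Agent.Lib.MP_392c14_co.Sym

/-! Assembly of the certificate: the functional, its sum over `S_7`, its expectation. -/

set_option autoImplicit false

namespace K4m.Ev

/-- the data of a certificate -/
structure Cert where
  W : ℕ
  Q : Tr (Tr ℕ)
  gt : ℕ → ℕ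
  tab : Tr CD
  W3 : ℕ
  I3 : ℕ
  Q3 : Tr ℕ
  cl : CL
  Wm : ℕ
  Tm : ℕ
  a5 : ℕ
  a3 : ℕ

/-- all tables of the cuts are right -/
def CL.Good : CL → Prop
  | .nil => True
  | .cons T _ U L => SymC T U ∧ L.Good
  | .consw T _ L => SymW T ∧ L.Good

/-- what has to be checked, apart from the inequalities -/
structure Cert.Good (C : Cert) : Prop where
  d5 : ∃ (c0 : ℕ) (base num : ℕ → ℕ) (M : ℕ → List ℕ), Data5 C.W c0 C.Q C.gt base num M
  tab : TabOK (2 ^ (C.W - 1)) C.gt C.tab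
  d3 : ∃ (c0 n0 n1 : ℕ) (M0 M1 : List ℕ), Data3 C.W3 c0 C.I3 n0 n1 C.Q3 M0 M1
  s3 : Sym3 C.W3 (2 ^ C.W3) C.I3 C.Q3
  cuts : C.cl.Good
  dg : SymD C.Wm (2 ^ C.Wm) C.Tm

/-- indicator of a set of codes of 3-graphs on five vertices -/
noncomputable def UI (U : List ℕ) (K : TG (Fin 5)) : ℝ := if code5 K ∈ U then 1 else 0

theorem UI_nonneg (U : List ℕ) (K : TG (Fin 5)) : 0 ≤ UI U K := by
  unfold UI; split_ifs <;> norm_num

/-- cut functional -/
noncomputable def cutf (U : List ℕ) (r : ℝ) (H : TG (Fin 7)) : ℝ :=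
  UI U (H.pull ![0,1,2,3,4]) * UI U (H.pull ![0,1,2,3,5]) * UI U (H.pull ![0,1,2,3,6])
    * (r - ind (H.E 4 5 6))

/-- weight of a 3-graph on five vertices -/
noncomputable def UW (T : Tr ℕ) (K : TG (Fin 5)) : ℝ := (wt T (code5 K) : ℝ)

theorem UW_nonneg (T : Tr ℕ) (K : TG (Fin 5)) : 0 ≤ UW T K := Nat.cast_nonneg _

/-- weighted cut functional -/
noncomputable def cutfW (T : Tr ℕ) (r : ℝ) (H : TG (Fin 7)) : ℝ :=
  UW T (H.pull ![0,1,2,3,4]) * UW T (H.pull ![0,1,2,3,5]) * UW T (H.pull ![0,1,2,3,6])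
    * (r - ind (H.E 4 5 6))

/-- multiplier of the degree functional -/
noncomputable def muf (W T : ℕ) (K : TG (Fin 5)) : ℝ :=
  ((tabW W (2 ^ W) T (code5 K) : ℤ) - 2 ^ (W - 1) : ℤ)

/-- degree functional -/
noncomputable def degf (W T : ℕ) (t : ℝ) (H : TG (Fin 7)) : ℝ :=
  muf W T (H.pull ![0,1,2,3,4]) * (ind (H.E 0 5 6) - t)

/-- all cut functionals -/
noncomputable def CL.f (r : ℝ) (H : TG (Fin 7)) : CL → ℝ
  | .nil => 0
  | .cons _ l U L => l * cutf U r H + L.f r H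
  | .consw T l L => l * cutfW T r H + L.f r H

/-- the functional -/
noncomputable def Cert.h (C : Cert) (r t : ℝ) (H : TG (Fin 7)) : ℝ :=
  C.a5 * (h5 C.W C.Q C.gt H : ℝ) + C.a3 * (h3 C.W3 C.I3 C.Q3 H : ℝ) + C.cl.f r H
    + degf C.Wm C.Tm t H

theorem cut_case (p q s : Prop) [Decidable p] [Decidable q] [Decidable s] (r : ℝ) (b : Bool) :
    (if p then (1 : ℝ) else 0) * (if q then 1 else 0) * (if s then 1 else 0) * (r - ind b)
      = r * ((if (p ∧ q ∧ s) ∧ b.toNat = 1 then (1 : ℝ) else 0)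
        + (if (p ∧ q ∧ s) ∧ b.toNat = 0 then (1 : ℝ) else 0))
      - (if (p ∧ q ∧ s) ∧ b.toNat = 1 then (1 : ℝ) else 0) := by
  by_cases b4 : p <;> by_cases b5 : q <;> by_cases b6 : s <;> cases b <;> simp [b4, b5, b6, ind]

theorem sum_cutf (T : ℕ) (U : List ℕ) (hT : SymC T U) (r : ℝ) (H : TG (Fin 7)) :
    ∑ σ : Equiv.Perm (Fin 7), cutf U r (H.pull σ)
      = 6 * r * ((cut T 1 35 (scat masksC (code7 H) 0) 0 : ℕ)
          + (cut T 0 35 (scat masksC (code7 H) 0) 0 : ℕ))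
        - 6 * (cut T 1 35 (scat masksC (code7 H) 0) 0 : ℕ) := by
  have h1 := congrArg (Int.cast : ℤ → ℝ) (sum_cut T U hT 1 H)
  have h0 := congrArg (Int.cast : ℤ → ℝ) (sum_cut T U hT 0 H)
  push_cast at h1 h0
  have e : ∀ σ : Equiv.Perm (Fin 7), cutf U r (H.pull σ)
      = r * ((if (code5 (H.pull fun i => σ (![0, 1, 2, 3, 4] i)) ∈ U ∧
      code5 (H.pull fun i => σ (![0, 1, 2, 3, 5] i)) ∈ U ∧
      code5 (H.pull fun i => σ (![0, 1, 2, 3, 6] i)) ∈ U) ∧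
      (H.E (σ 4) (σ 5) (σ 6)).toNat = 1 then (1 : ℝ) else 0)
        + (if (code5 (H.pull fun i => σ (![0, 1, 2, 3, 4] i)) ∈ U ∧
      code5 (H.pull fun i => σ (![0, 1, 2, 3, 5] i)) ∈ U ∧
      code5 (H.pull fun i => σ (![0, 1, 2, 3, 6] i)) ∈ U) ∧
      (H.E (σ 4) (σ 5) (σ 6)).toNat = 0 then (1 : ℝ) else 0))
      - (if (code5 (H.pull fun i => σ (![0, 1, 2, 3, 4] i)) ∈ U ∧
      code5 (H.pull fun i => σ (![0, 1, 2, 3, 5] i)) ∈ U ∧
      code5 (H.pull fun i => σ (![0, 1, 2, 3, 6] i)) ∈ U) ∧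
      (H.E (σ 4) (σ 5) (σ 6)).toNat = 1 then (1 : ℝ) else 0) := by
    intro σ
    have f4 : UI U ((H.pull σ).pull ![0,1,2,3,4])
      = if code5 (H.pull fun i => σ (![0, 1, 2, 3, 4] i)) ∈ U then 1 else 0 := rfl
    have f5 : UI U ((H.pull σ).pull ![0,1,2,3,5])
      = if code5 (H.pull fun i => σ (![0, 1, 2, 3, 5] i)) ∈ U then 1 else 0 := rfl
    have f6 : UI U ((H.pull σ).pull ![0,1,2,3,6])
      = if code5 (H.pull fun i => σ (![0, 1, 2, 3, 6] i)) ∈ U then 1 else 0 := rfl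
    have fe : (H.pull σ).E 4 5 6 = H.E (σ 4) (σ 5) (σ 6) := rfl
    unfold cutf
    rw [f4, f5, f6, fe]
    exact cut_case _ _ _ r (H.E (σ 4) (σ 5) (σ 6))
  rw [Finset.sum_congr rfl fun σ _ => e σ, Finset.sum_sub_distrib, ← Finset.mul_sum,
    Finset.sum_add_distrib, h1, h0]
  ring

theorem cutW_case (a b c r : ℝ) (e : Bool) :
    a * b * c * (r - ind e)
      = r * ((if e.toNat = 1 then a * (b * c) else 0) + (if e.toNat = 0 then a * (b * c) else 0))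
        - (if e.toNat = 1 then a * (b * c) else 0) := by
  cases e
  · simp [ind]; ring
  · simp [ind]; ring

theorem sum_cutfW (T : Tr ℕ) (hT : SymW T) (r : ℝ) (H : TG (Fin 7)) :
    ∑ σ : Equiv.Perm (Fin 7), cutfW T r (H.pull σ)
      = 6 * r * ((cutW T 1 35 (scat masksC (code7 H) 0) 0 : ℕ)
          + (cutW T 0 35 (scat masksC (code7 H) 0) 0 : ℕ))
        - 6 * (cutW T 1 35 (scat masksC (code7 H) 0) 0 : ℕ) := by
  have h1 := congrArg (Int.cast : ℤ → ℝ) (sum_cutW T hT 1 H)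
  have h0 := congrArg (Int.cast : ℤ → ℝ) (sum_cutW T hT 0 H)
  push_cast at h1 h0
  have ec : ∀ (e0 : ℕ) (σ : Equiv.Perm (Fin 7)), ((gW T e0 H σ : ℤ) : ℝ)
      = if (H.E (σ 4) (σ 5) (σ 6)).toNat = e0 then
        (wt T (code5 (H.pull fun i => σ (![0, 1, 2, 3, 4] i))) : ℝ)
        * ((wt T (code5 (H.pull fun i => σ (![0, 1, 2, 3, 5] i))) : ℝ)
        * (wt T (code5 (H.pull fun i => σ (![0, 1, 2, 3, 6] i))) : ℝ)) else 0 := by
    intro e0 σ
    unfold gW gW'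
    split_ifs
    · push_cast; rfl
    · simp
  have e : ∀ σ : Equiv.Perm (Fin 7), cutfW T r (H.pull σ)
      = r * (((gW T 1 H σ : ℤ) : ℝ) + ((gW T 0 H σ : ℤ) : ℝ)) - ((gW T 1 H σ : ℤ) : ℝ) := by
    intro σ
    have f4 : UW T ((H.pull σ).pull ![0,1,2,3,4])
      = (wt T (code5 (H.pull fun i => σ (![0, 1, 2, 3, 4] i))) : ℝ) := rfl
    have f5 : UW T ((H.pull σ).pull ![0,1,2,3,5])
      = (wt T (code5 (H.pull fun i => σ (![0, 1, 2, 3, 5] i))) : ℝ) := rfl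
    have f6 : UW T ((H.pull σ).pull ![0,1,2,3,6])
      = (wt T (code5 (H.pull fun i => σ (![0, 1, 2, 3, 6] i))) : ℝ) := rfl
    have fe : (H.pull σ).E 4 5 6 = H.E (σ 4) (σ 5) (σ 6) := rfl
    unfold cutfW
    rw [f4, f5, f6, fe, ec, ec]
    exact cutW_case _ _ _ r (H.E (σ 4) (σ 5) (σ 6))
  rw [Finset.sum_congr rfl fun σ _ => e σ, Finset.sum_sub_distrib, ← Finset.mul_sum,
    Finset.sum_add_distrib, h1, h0]
  ring

theorem cutsR_add (e0 out : ℕ) (L : CL) : ∀ acc, cutsR e0 out L acc = acc + cutsR e0 out L 0 := by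
  induction L with
  | nil => intro acc; rfl
  | cons T l U L ih =>
    intro acc
    have e : ∀ a, cutsR e0 out (CL.cons T l U L) a
        = cutsR e0 out L (a + l * cut T e0 35 out 0) := fun a => rfl
    rw [e, e, ih, ih (0 + l * cut T e0 35 out 0)]
    omega
  | consw T l L ih =>
    intro acc
    have e : ∀ a, cutsR e0 out (CL.consw T l L) a
        = cutsR e0 out L (a + l * cutW T e0 35 out 0) := fun a => rfl
    rw [e, e, ih, ih (0 + l * cutW T e0 35 out 0)]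
    omega

theorem sum_cuts (L : CL) (hL : L.Good) (r : ℝ) (H : TG (Fin 7)) :
    ∑ σ : Equiv.Perm (Fin 7), L.f r (H.pull σ)
      = 6 * r * (((cutsR 1 (scat masksC (code7 H) 0) L 0 : ℕ) : ℝ)
          + (cutsR 0 (scat masksC (code7 H) 0) L 0 : ℕ))
        - 6 * (cutsR 1 (scat masksC (code7 H) 0) L 0 : ℕ) := by
  induction L with
  | nil =>
    have e : ∀ e0 out, cutsR e0 out CL.nil 0 = 0 := fun _ _ => rfl
    simp only [CL.f, e, Finset.sum_const_zero, Nat.cast_zero]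
    ring
  | cons T l U L ih =>
    have e : ∀ e0 out, cutsR e0 out (CL.cons T l U L) 0
        = l * cut T e0 35 out 0 + cutsR e0 out L 0 := by
      intro e0 out
      have : cutsR e0 out (CL.cons T l U L) 0 = cutsR e0 out L (0 + l * cut T e0 35 out 0) := rfl
      rw [this, cutsR_add, Nat.zero_add]
    have h1 := sum_cutf T U hL.1 r H
    have h2 := ih hL.2
    rw [e, e]
    have e3 : ∀ σ : Equiv.Perm (Fin 7), (CL.cons T l U L).f r (H.pull σ)
        = l * cutf U r (H.pull σ) + L.f r (H.pull σ) := fun σ => rfl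
    rw [Finset.sum_congr rfl fun σ _ => e3 σ, Finset.sum_add_distrib, ← Finset.mul_sum, h1, h2]
    generalize cut T 1 35 (scat masksC (code7 H) 0) 0 = z1
    generalize cut T 0 35 (scat masksC (code7 H) 0) 0 = z2
    generalize cutsR 1 (scat masksC (code7 H) 0) L 0 = z3
    generalize cutsR 0 (scat masksC (code7 H) 0) L 0 = z4
    push_cast
    ring
  | consw T l L ih =>
    have e : ∀ e0 out, cutsR e0 out (CL.consw T l L) 0
        = l * cutW T e0 35 out 0 + cutsR e0 out L 0 := by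
      intro e0 out
      have : cutsR e0 out (CL.consw T l L) 0 = cutsR e0 out L (0 + l * cutW T e0 35 out 0) := rfl
      rw [this, cutsR_add, Nat.zero_add]
    have h1 := sum_cutfW T hL.1 r H
    have h2 := ih hL.2
    rw [e, e]
    have e3 : ∀ σ : Equiv.Perm (Fin 7), (CL.consw T l L).f r (H.pull σ)
        = l * cutfW T r (H.pull σ) + L.f r (H.pull σ) := fun σ => rfl
    rw [Finset.sum_congr rfl fun σ _ => e3 σ, Finset.sum_add_distrib, ← Finset.mul_sum, h1, h2]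
    generalize cutW T 1 35 (scat masksC (code7 H) 0) 0 = z1
    generalize cutW T 0 35 (scat masksC (code7 H) 0) 0 = z2
    generalize cutsR 1 (scat masksC (code7 H) 0) L 0 = z3
    generalize cutsR 0 (scat masksC (code7 H) 0) L 0 = z4
    push_cast
    ring

theorem deg_case (A t : ℝ) (b : Bool) : A * (ind b - t)
    = (if b.toNat = 1 then A else 0) - t * ((if b.toNat = 1 then A else 0)
      + (if b.toNat = 0 then A else 0)) := by
  cases b
  · simp [ind]; ring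
  · simp [ind]; ring

theorem sum_degf (W T : ℕ) (hT : SymD W (2 ^ W) T) (t : ℝ) (H : TG (Fin 7)) :
    ∑ σ : Equiv.Perm (Fin 7), degf W T t (H.pull σ)
      = 48 * (((dsum W (2 ^ W) T (2 ^ (W - 1)) 1 105 (scat masksD (code7 H) 0) 0 : ℕ) : ℝ)
          - 105 * 2 ^ (W - 1))
        - t * (48 * (((dsum W (2 ^ W) T (2 ^ (W - 1)) 1 105 (scat masksD (code7 H) 0) 0 : ℕ) : ℝ)
          + ((dsum W (2 ^ W) T (2 ^ (W - 1)) 0 105 (scat masksD (code7 H) 0) 0 : ℕ) : ℝ)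
          - 210 * 2 ^ (W - 1))) := by
  have h1 := congrArg (Int.cast : ℤ → ℝ) (sum_deg W (2 ^ W) T (2 ^ (W - 1)) 1 hT H)
  have h0 := congrArg (Int.cast : ℤ → ℝ) (sum_deg W (2 ^ W) T (2 ^ (W - 1)) 0 hT H)
  push_cast at h1 h0
  have e : ∀ σ : Equiv.Perm (Fin 7), degf W T t (H.pull σ)
      = (if (H.E (σ 0) (σ 5) (σ 6)).toNat = 1 then
      (tabW W (2 ^ W) T (code5 (H.pull fun i => σ (![0, 1, 2, 3, 4] i))) : ℝ) - 2 ^ (W - 1) else 0)
      - t * ((if (H.E (σ 0) (σ 5) (σ 6)).toNat = 1 then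
      (tabW W (2 ^ W) T (code5 (H.pull fun i => σ (![0, 1, 2, 3, 4] i))) : ℝ) - 2 ^ (W - 1) else 0)
      + (if (H.E (σ 0) (σ 5) (σ 6)).toNat = 0 then
      (tabW W (2 ^ W) T (code5 (H.pull fun i => σ (![0, 1, 2, 3, 4] i))) : ℝ) - 2 ^ (W - 1) else 0)) := by
    intro σ
    have f4 : muf W T ((H.pull σ).pull ![0,1,2,3,4])
      = (tabW W (2 ^ W) T (code5 (H.pull fun i => σ (![0, 1, 2, 3, 4] i))) : ℝ)
        - 2 ^ (W - 1) := by
      unfold muf
      push_cast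
      rfl
    have fe : (H.pull σ).E 0 5 6 = H.E (σ 0) (σ 5) (σ 6) := rfl
    unfold degf
    rw [f4, fe]
    exact deg_case _ t (H.E (σ 0) (σ 5) (σ 6))
  rw [Finset.sum_congr rfl fun σ _ => e σ, Finset.sum_sub_distrib, ← Finset.mul_sum,
    Finset.sum_add_distrib, h1, h0]
  ring

theorem Cert.sum_h (C : Cert) (hC : C.Good) (r t : ℝ) (H : TG (Fin 7)) :
    ∑ σ : Equiv.Perm (Fin 7), C.h r t (H.pull σ)
      = C.a5 * (2 * (((s5 C.W (2 ^ C.W) C.Q C.tab 21 (scat masks5 (code7 H) 0) 0 : ℕ) : ℝ)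
          - 2520 * 2 ^ (C.W - 1)))
        + C.a3 * (48 * (((s3 C.W3 (2 ^ C.W3) C.I3 C.Q3 105 (scat masks3 (code7 H) 0) 0 : ℕ) : ℝ)
          - 105 * 2 ^ (C.W3 - 1)))
        + (6 * r * (((cutsR 1 (scat masksC (code7 H) 0) C.cl 0 : ℕ) : ℝ)
          + (cutsR 0 (scat masksC (code7 H) 0) C.cl 0 : ℕ))
          - 6 * (cutsR 1 (scat masksC (code7 H) 0) C.cl 0 : ℕ))
        + (48 * (((dsum C.Wm (2 ^ C.Wm) C.Tm (2 ^ (C.Wm - 1)) 1 105 (scat masksD (code7 H) 0) 0 : ℕ)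
          : ℝ) - 105 * 2 ^ (C.Wm - 1))
        - t * (48 * (((dsum C.Wm (2 ^ C.Wm) C.Tm (2 ^ (C.Wm - 1)) 1 105 (scat masksD (code7 H) 0) 0
          : ℕ) : ℝ)
          + ((dsum C.Wm (2 ^ C.Wm) C.Tm (2 ^ (C.Wm - 1)) 0 105 (scat masksD (code7 H) 0) 0 : ℕ) : ℝ)
          - 210 * 2 ^ (C.Wm - 1)))) := by
  obtain ⟨c0, base, num, M, D5⟩ := hC.d5
  have s5' := congrArg (Int.cast : ℤ → ℝ) (sum_h5 C.W C.Q C.gt C.tab
    (fun τ x y hx hy => q5_symm D5 τ x y hx hy) hC.tab H)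
  have s3' := congrArg (Int.cast : ℤ → ℝ) (sum_h3 C.W3 C.I3 C.Q3 hC.s3 H)
  push_cast at s5' s3'
  unfold Cert.h
  rw [Finset.sum_add_distrib, Finset.sum_add_distrib, Finset.sum_add_distrib, ← Finset.mul_sum,
    ← Finset.mul_sum, sum_cuts C.cl hC.cuts r H, sum_degf C.Wm C.Tm hC.dg t H, s5', s3']

theorem Ex_smul {V : Type} [Fintype V] (G : TG V) (w : V → ℝ) (c : ℝ) (f : TG (Fin 7) → ℝ) :
    Ex G w (fun H => c * f H) = c * Ex G w f := by
  unfold Ex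
  rw [Finset.mul_sum]
  exact Finset.sum_congr rfl fun φ _ => by ring

theorem comb_nonneg (a b : ℕ) (x y z v : ℝ) (hx : 0 ≤ x) (hy : 0 ≤ y) (hz : 0 ≤ z)
    (hv : v = 0) : 0 ≤ a * x + b * y + z + v := by
  rw [hv]; positivity

theorem Cert.Ex_h_eq (C : Cert) {V : Type} [Fintype V] (G : TG V) (w : V → ℝ) (r t : ℝ) :
    Ex G w (C.h r t) = C.a5 * Ex G w (fun H => (h5 C.W C.Q C.gt H : ℝ))
      + C.a3 * Ex G w (fun H => (h3 C.W3 C.I3 C.Q3 H : ℝ)) + Ex G w (fun H => C.cl.f r H)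
      + Ex G w (fun H => degf C.Wm C.Tm t H) := by
  unfold Cert.h
  rw [Ex_add, Ex_add, Ex_add, Ex_smul, Ex_smul]

theorem Ex_cutf {V : Type} [Fintype V] (G : TG V) (w : V → ℝ) (hw : IsW w) (U : List ℕ) :
    0 ≤ Ex G w (fun H => cutf U rho H) := by
  have := Ex_cut G w hw (UI U) (UI_nonneg U)
  exact this

theorem Ex_cutfW {V : Type} [Fintype V] (G : TG V) (w : V → ℝ) (hw : IsW w) (T : Tr ℕ) :
    0 ≤ Ex G w (fun H => cutfW T rho H) := by
  have := Ex_cut G w hw (UW T) (UW_nonneg T)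
  exact this

theorem Ex_cuts {V : Type} [Fintype V] (G : TG V) (w : V → ℝ) (hw : IsW w) (L : CL) :
    0 ≤ Ex G w (fun H => L.f rho H) := by
  induction L with
  | nil =>
    have : (fun H : TG (Fin 7) => CL.nil.f rho H) = fun _ => 0 := rfl
    rw [this]
    unfold Ex
    simp
  | cons T l U L ih =>
    have : (fun H : TG (Fin 7) => (CL.cons T l U L).f rho H)
        = fun H => l * cutf U rho H + L.f rho H := rfl
    rw [this, Ex_add, Ex_smul]
    exact add_nonneg (mul_nonneg (Nat.cast_nonneg l) (Ex_cutf G w hw U)) ih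
  | consw T l L ih =>
    have : (fun H : TG (Fin 7) => (CL.consw T l L).f rho H)
        = fun H => l * cutfW T rho H + L.f rho H := rfl
    rw [this, Ex_add, Ex_smul]
    exact add_nonneg (mul_nonneg (Nat.cast_nonneg l) (Ex_cutfW G w hw T)) ih

theorem Ex_degf {V : Type} [Fintype V] (G : TG V) (w : V → ℝ) (hw : IsW w) (t : ℝ)
    (hd : ∀ x, deg G w x = t) (W T : ℕ) :
    Ex G w (fun H => degf W T t H) = 0 := by
  have := Ex_deg G w hw t hd (muf W T)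
  exact this

/-- the expectation of the functional is nonnegative -/
theorem Cert.Ex_h_nonneg (C : Cert) (hC : C.Good) {V : Type} [Fintype V] (G : TG V) (w : V → ℝ)
    (hw : IsW w) (t : ℝ) (hd : ∀ x, deg G w x = t) : 0 ≤ Ex G w (C.h rho t) := by
  obtain ⟨c0, base, num, M, D5⟩ := hC.d5
  obtain ⟨c3, n0, n1, M0, M1, D3⟩ := hC.d3
  rw [Cert.Ex_h_eq]
  exact comb_nonneg _ _ _ _ _ _ (Ex_h5_nonneg G w hw D5) (Ex_h3_nonneg G w hw D3)
    (Ex_cuts G w hw C.cl) (Ex_degf G w hw t hd C.Wm C.Tm)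

end K4m.Ev
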