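import Mathlib
import Pool.Agent.Lib.MP_392c14_co.Ev.Fin
import Pool.Agent.Lib.MP_392c14_co.Ev.ChkG

/-! The bound obtained from a checked certificate. -/

set_option autoImplicit false

namespace K4m.Ev

/-- the test of one graph, for a certificate `C` and a penalty `pp - pn` -/
noncomputable def Cert.test (C : Cert) (p0 q0 c0 p1 q1 c1 Dm : ℕ) (pp pn : ℕ → ℕ) (m : ℕ) : Bool :=
  evalR C.W (2 ^ C.W) C.Q C.tab C.W3 (2 ^ C.W3) C.I3 C.Q3 C.cl C.Wm (2 ^ C.Wm) C.Tm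
    (2 ^ (C.Wm - 1)) masks5 masks3 masksC masksD
    (force (fun pp => force (fun pn => chkR C.a5 C.a3 (2 ^ (C.W - 1)) (2 ^ (C.W3 - 1))
      (2 ^ (C.Wm - 1)) p0 q0 c0 p1 q1 c1 Dm pp pn) (pn m)) (pp m)) m

theorem evalR_eq (W B : ℕ) (Q : Tr (Tr ℕ)) (tab : Tr CD) (W3 B3 I3 : ℕ) (Q3 : Tr ℕ)
    (cl : CL) (Wm Bm Tm offm : ℕ) (M5 M3 MC MD : List ℕ)
    (k : ℕ → ℕ → ℕ → ℕ → ℕ → ℕ → Bool) (m : ℕ) :
    evalR W B Q tab W3 B3 I3 Q3 cl Wm Bm Tm offm M5 M3 MC MD k m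
      = k (s5 W B Q tab 21 (scat M5 m 0) 0) (s3 W3 B3 I3 Q3 105 (scat M3 m 0) 0)
        (cutsR 1 (scat MC m 0) cl 0) (cutsR 0 (scat MC m 0) cl 0)
        (dsum Wm Bm Tm offm 1 105 (scat MD m 0) 0) (dsum Wm Bm Tm offm 0 105 (scat MD m 0) 0) := by
  unfold evalR
  simp only [force_eq]

/-- the value of the functional on a code, at `rho = r`, `t` -/
noncomputable def valR (a5 a3 K5 K3 Km : ℕ) (r t : ℝ) (s5v s3v x y d1 d0 : ℕ) : ℝ :=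
  a5 * (2 * ((s5v : ℝ) - 2520 * K5)) + a3 * (48 * ((s3v : ℝ) - 105 * K3))
    + (6 * r * ((x : ℝ) + y) - 6 * x)
    + (48 * ((d1 : ℝ) - 105 * Km) - t * (48 * ((d1 : ℝ) + d0 - 210 * Km)))

theorem ineqR_sound (a5 a3 K5 K3 Km p q c pp pn s5v s3v x y d1 d0 : ℕ) (hq : 0 < q)
    (h : ineqR a5 a3 K5 K3 Km p q c pp pn s5v s3v x y d1 d0 = true) :
    (pp : ℝ) - pn + valR a5 a3 K5 K3 Km (p / q) (p / q) s5v s3v x y d1 d0 ≤ c := by
  have h1 : q * (2 * a5 * s5v + 48 * a3 * s3v + 48 * d1 + pp)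
      + p * (6 * (x + y) + 10080 * Km)
      ≤ q * (c + pn + 5040 * a5 * K5 + 5040 * a3 * K3 + 6 * x + 5040 * Km)
        + p * (48 * (d1 + d0)) := Nat.le_of_ble_eq_true h
  have h2 : (q : ℝ) * (2 * a5 * s5v + 48 * a3 * s3v + 48 * d1 + pp)
      + p * (6 * (x + y) + 10080 * Km)
      ≤ q * (c + pn + 5040 * a5 * K5 + 5040 * a3 * K3 + 6 * x + 5040 * Km)
        + p * (48 * (d1 + d0)) := by exact_mod_cast h1
  have hq' : (0 : ℝ) < q := by exact_mod_cast hq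
  have h3 : (q : ℝ) * ((pp : ℝ) - pn
      + valR a5 a3 K5 K3 Km (p / q) (p / q) s5v s3v x y d1 d0) ≤ q * c := by
    have e : (q : ℝ) * ((pp : ℝ) - pn
      + valR a5 a3 K5 K3 Km (p / q) (p / q) s5v s3v x y d1 d0)
      = (q : ℝ) * (2 * a5 * s5v + 48 * a3 * s3v + 48 * d1 + pp)
      + p * (6 * (x + y) + 10080 * Km)
      - (q * (pn + 5040 * a5 * K5 + 5040 * a3 * K3 + 6 * x + 5040 * Km)
        + p * (48 * (d1 + d0))) := by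
      unfold valR
      field_simp
      ring
    rw [e]
    linarith
  exact le_of_mul_le_mul_left h3 hq'

theorem valR_lin (a5 a3 K5 K3 Km : ℕ) (r0 r1 s t : ℝ) (s5v s3v x y d1 d0 : ℕ) :
    valR a5 a3 K5 K3 Km ((1 - s) * r0 + s * r1) t s5v s3v x y d1 d0
      = (1 - s) * valR a5 a3 K5 K3 Km r0 r0 s5v s3v x y d1 d0
        + s * valR a5 a3 K5 K3 Km r1 r1 s5v s3v x y d1 d0
        + (((1 - s) * r0 + s * r1) - t) * (48 * ((d1 : ℝ) + d0 - 210 * Km)) := by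
  unfold valR; ring

theorem dbR_sound (Km Dm d1 d0 : ℕ) (h : dbR Km Dm d1 d0 = true) :
    |48 * ((d1 : ℝ) + d0 - 210 * Km)| ≤ Dm := by
  obtain ⟨h1, h2⟩ := brec h
  have a1 : 48 * (d1 + d0) ≤ Dm + 10080 * Km := Nat.le_of_ble_eq_true h1
  have a2 : 10080 * Km ≤ Dm + 48 * (d1 + d0) := Nat.le_of_ble_eq_true h2
  have b1 : (48 : ℝ) * (d1 + d0) ≤ Dm + 10080 * Km := by exact_mod_cast a1
  have b2 : (10080 : ℝ) * Km ≤ Dm + 48 * (d1 + d0) := by exact_mod_cast a2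
  rw [abs_le]
  constructor <;> linarith

/-- the sum over `S_7` does not depend on the labelling -/
theorem sum_pull_pull (f : TG (Fin 7) → ℝ) (H : TG (Fin 7)) (τ : Equiv.Perm (Fin 7)) :
    ∑ σ : Equiv.Perm (Fin 7), f ((H.pull τ).pull σ) = ∑ σ : Equiv.Perm (Fin 7), f (H.pull σ) := by
  refine Fintype.sum_equiv (Equiv.mulLeft τ) _ _ fun σ => ?_
  rfl

theorem real_step (s L0 L1 B0 B1 e D Dm : ℝ) (hs0 : 0 ≤ s) (hs1 : s ≤ 1) (h0 : L0 ≤ B0)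
    (h1 : L1 ≤ B1) (hD : |D| ≤ Dm) :
    (1 - s) * L0 + s * L1 + e * D ≤ (1 - s) * B0 + s * B1 + |e| * Dm := by
  have a := mul_le_mul_of_nonneg_left h0 (sub_nonneg.2 hs1)
  have b := mul_le_mul_of_nonneg_left h1 hs0
  have c : e * D ≤ |e| * Dm := by
    calc e * D ≤ |e * D| := le_abs_self _
      _ = |e| * |D| := abs_mul _ _
      _ ≤ |e| * Dm := mul_le_mul_of_nonneg_left hD (abs_nonneg _)
  linarith

/-! the values of a certificate on a code -/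

noncomputable def Cert.v5 (C : Cert) (m : ℕ) : ℕ := s5 C.W (2 ^ C.W) C.Q C.tab 21 (scat masks5 m 0) 0
noncomputable def Cert.v3 (C : Cert) (m : ℕ) : ℕ :=
  s3 C.W3 (2 ^ C.W3) C.I3 C.Q3 105 (scat masks3 m 0) 0
noncomputable def Cert.x (C : Cert) (m : ℕ) : ℕ := cutsR 1 (scat masksC m 0) C.cl 0
noncomputable def Cert.y (C : Cert) (m : ℕ) : ℕ := cutsR 0 (scat masksC m 0) C.cl 0
noncomputable def Cert.d1 (C : Cert) (m : ℕ) : ℕ :=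
  dsum C.Wm (2 ^ C.Wm) C.Tm (2 ^ (C.Wm - 1)) 1 105 (scat masksD m 0) 0
noncomputable def Cert.d0 (C : Cert) (m : ℕ) : ℕ :=
  dsum C.Wm (2 ^ C.Wm) C.Tm (2 ^ (C.Wm - 1)) 0 105 (scat masksD m 0) 0

theorem Cert.sum_h' (C : Cert) (hC : C.Good) (r t : ℝ) (H : TG (Fin 7)) :
    ∑ σ : Equiv.Perm (Fin 7), C.h r t (H.pull σ)
      = valR C.a5 C.a3 (2 ^ (C.W - 1)) (2 ^ (C.W3 - 1)) (2 ^ (C.Wm - 1)) r t
        (C.v5 (code7 H)) (C.v3 (code7 H)) (C.x (code7 H)) (C.y (code7 H))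
        (C.d1 (code7 H)) (C.d0 (code7 H)) := by
  have h := C.sum_h hC r t H
  have e5 : s5 C.W (2 ^ C.W) C.Q C.tab 21 (scat masks5 (code7 H) 0) 0 = C.v5 (code7 H) := rfl
  have e3 : s3 C.W3 (2 ^ C.W3) C.I3 C.Q3 105 (scat masks3 (code7 H) 0) 0 = C.v3 (code7 H) := rfl
  have e1 : cutsR 1 (scat masksC (code7 H) 0) C.cl 0 = C.x (code7 H) := rfl
  have e1' : cutsR 0 (scat masksC (code7 H) 0) C.cl 0 = C.y (code7 H) := rfl
  have ed : dsum C.Wm (2 ^ C.Wm) C.Tm (2 ^ (C.Wm - 1)) 1 105 (scat masksD (code7 H) 0) 0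
    = C.d1 (code7 H) := rfl
  have ed' : dsum C.Wm (2 ^ C.Wm) C.Tm (2 ^ (C.Wm - 1)) 0 105 (scat masksD (code7 H) 0) 0
    = C.d0 (code7 H) := rfl
  rw [e5, e3, e1, e1', ed, ed'] at h
  rw [h]
  generalize C.v5 (code7 H) = z1
  generalize C.v3 (code7 H) = z2
  generalize C.x (code7 H) = z3
  generalize C.y (code7 H) = z4
  generalize C.d1 (code7 H) = z7
  generalize C.d0 (code7 H) = z8
  unfold valR
  push_cast
  rfl

theorem Cert.test_eq (C : Cert) (p0 q0 c0 p1 q1 c1 Dm : ℕ) (pp pn : ℕ → ℕ) (m : ℕ) :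
    C.test p0 q0 c0 p1 q1 c1 Dm pp pn m = chkR C.a5 C.a3 (2 ^ (C.W - 1)) (2 ^ (C.W3 - 1))
      (2 ^ (C.Wm - 1)) p0 q0 c0 p1 q1 c1 Dm (pp m) (pn m)
      (C.v5 m) (C.v3 m) (C.x m) (C.y m) (C.d1 m) (C.d0 m) := by
  unfold Cert.test
  rw [evalR_eq, force_eq, force_eq]
  rfl

theorem chkR_sound (a5 a3 K5 K3 Km p0 q0 c0 p1 q1 c1 Dm pp pn s5v s3v x y d1 d0 : ℕ)
    (hq0 : 0 < q0) (hq1 : 0 < q1)
    (h : chkR a5 a3 K5 K3 Km p0 q0 c0 p1 q1 c1 Dm pp pn s5v s3v x y d1 d0 = true)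
    (s t : ℝ) (hs0 : 0 ≤ s) (hs1 : s ≤ 1) :
    (pp : ℝ) - pn + valR a5 a3 K5 K3 Km ((1 - s) * (p0 / q0) + s * (p1 / q1)) t
        s5v s3v x y d1 d0
      ≤ (1 - s) * c0 + s * c1 + |((1 - s) * (p0 / q0) + s * (p1 / q1)) - t| * Dm := by
  unfold chkR at h
  obtain ⟨t0, h⟩ := brec h
  obtain ⟨t1, td⟩ := brec h
  have i0 := ineqR_sound _ _ _ _ _ _ _ _ _ _ _ _ _ _ _ _ hq0 t0
  have i1 := ineqR_sound _ _ _ _ _ _ _ _ _ _ _ _ _ _ _ _ hq1 t1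
  have iD := dbR_sound _ _ _ _ td
  rw [valR_lin]
  have := real_step s _ _ c0 c1 (((1 - s) * (p0 / q0 : ℝ) + s * (p1 / q1)) - t) _ Dm hs0 hs1 i0 i1 iD
  refine le_trans ?_ this
  linarith

/-- the inequality for every graph -/
theorem Cert.graph_bound (C : Cert) (hC : C.Good) (P : TG (Fin 7) → ℝ) (pp pn : ℕ → ℕ)
    (hP : ∀ H, code7 H ∈ reps → ∑ σ : Equiv.Perm (Fin 7), P (H.pull σ)
      ≤ (pp (code7 H) : ℝ) - pn (code7 H))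
    (p0 q0 c0 p1 q1 c1 Dm : ℕ) (hq0 : 0 < q0) (hq1 : 0 < q1)
    (hchk : ∀ m ∈ reps, C.test p0 q0 c0 p1 q1 c1 Dm pp pn m = true)
    (s t : ℝ) (hs0 : 0 ≤ s) (hs1 : s ≤ 1) (H : TG (Fin 7)) :
    ∑ σ : Equiv.Perm (Fin 7), (P (H.pull σ)
        + C.h ((1 - s) * (p0 / q0) + s * (p1 / q1)) t (H.pull σ))
      ≤ (1 - s) * c0 + s * c1 + |((1 - s) * (p0 / q0) + s * (p1 / q1)) - t| * Dm := by
  obtain ⟨τ, hτ⟩ := complete H
  have hsum := sum_pull_pull (fun K => P K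
    + C.h ((1 - s) * (p0 / q0) + s * (p1 / q1)) t K) H τ
  rw [← hsum]
  generalize H.pull τ = K at hτ
  have ht := hchk _ hτ
  rw [C.test_eq] at ht
  have hp := hP K hτ
  have hk := chkR_sound _ _ _ _ _ _ _ _ _ _ _ _ _ _ _ _ _ _ _ _ hq0 hq1 ht s t hs0 hs1
  rw [Finset.sum_add_distrib, C.sum_h' hC]
  refine le_trans ?_ hk
  linarith

/-- the bound on the penalty -/
theorem Cert.bound (C : Cert) (hC : C.Good) (P : TG (Fin 7) → ℝ) (pp pn : ℕ → ℕ)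
    (hP : ∀ H, code7 H ∈ reps → ∑ σ : Equiv.Perm (Fin 7), P (H.pull σ)
      ≤ (pp (code7 H) : ℝ) - pn (code7 H))
    (p0 q0 c0 p1 q1 c1 Dm : ℕ) (hq0 : 0 < q0) (hq1 : 0 < q1)
    (hchk : ∀ m ∈ reps, C.test p0 q0 c0 p1 q1 c1 Dm pp pn m = true)
    (s t : ℝ) (hs0 : 0 ≤ s) (hs1 : s ≤ 1) (hr : rho = (1 - s) * (p0 / q0) + s * (p1 / q1))
    {V : Type} [Fintype V] (G : TG V) (w : V → ℝ) (hw : IsW w) (hd : ∀ x, deg G w x = t) :
    Ex G w P ≤ ((1 - s) * c0 + s * c1 + |rho - t| * Dm) / 5040 := by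
  have h1 : Ex G w (fun H => P H + C.h rho t H)
      ≤ ((1 - s) * c0 + s * c1 + |rho - t| * Dm) / 5040 := by
    refine Ex_le G w hw _ _ fun H => ?_
    have := C.graph_bound hC P pp pn hP p0 q0 c0 p1 q1 c1 Dm hq0 hq1 hchk s t hs0 hs1 H
    rw [← hr] at this
    refine this.trans (le_of_eq ?_)
    ring
  have h2 := C.Ex_h_nonneg hC G w hw t hd
  rw [Ex_add] at h1
  have h3 : Ex G w (fun H => C.h rho t H) = Ex G w (C.h rho t) := rfl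
  rw [h3] at h1
  linarith

end K4m.Ev
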