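import Pool.Agent.Lib.MP_392c14_co.Ev.ChkF
import Pool.Agent.Lib.MP_392c14_co.Ev.ChkP

/-! Merged table of all weighted cuts (raw operations, no Mathlib): the entry of three codes with
the same root type is the weighted sum over all weighted cuts and the 24 orders of the roots. -/

set_option autoImplicit false

namespace K4m.Ev

/-- number of a code in its root class (6 bits each) -/
noncomputable def locV (LT c : Nat) : Nat := Nat.mod (Nat.shiftRight LT (Nat.mul 6 c)) 64

/-- entry of the merged table -/
noncomputable def lookV (W B LT : Nat) (Q : Tr (Tr Nat)) (a b c : Nat) : Nat :=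
  Nat.mod (Nat.shiftRight (force (Tr.get (Tr.get Q a)) (locV LT b)) (Nat.mul W (locV LT c))) B

/-- cut term with the merged table: `k` root sets, four 10-bit fields each (three codes and one
edge bit) -/
noncomputable def cutV (W B LT : Nat) (Q : Tr (Tr Nat)) (e0 : Nat) (k : Nat) : Nat → Nat → Nat :=
  Nat.rec (motive := fun _ => Nat → Nat → Nat) (fun _ acc => acc)
    (fun _ ih out acc => ih (Nat.shiftRight out 40)
      (Bool.rec (motive := fun _ => Nat) acc (Nat.add acc
        (force (fun a => force (fun b => force (fun c => lookV W B LT Q a b c)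
          (Nat.mod (Nat.shiftRight out 20) 1024)) (Nat.mod (Nat.shiftRight out 10) 1024))
          (Nat.mod out 1024)))
        (Nat.beq (Nat.mod (Nat.shiftRight out 30) 1024) e0))) k

/-- the sum of `l * R[i] * R[j] * R` over the list -/
noncomputable def vrow (W B i j : Nat) (L : List (Nat × Nat)) : Nat → Nat :=
  List.rec (motive := fun _ => Nat → Nat) (fun acc => acc)
    (fun p _ ih acc => ih (Nat.add acc (Nat.mul (Nat.mul p.1
      (Nat.mul (dgR W B p.2 i) (dgR W B p.2 j))) p.2))) L

/-- the rows `j, ..., j + n - 1` of the code number `i` -/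
noncomputable def rowsV (W B : Nat) (VP : List (Nat × Nat)) (t : Tr Nat) (i n : Nat) : Nat → Bool :=
  Nat.rec (motive := fun _ => Nat → Bool) (fun _ => true)
    (fun _ ih j => Bool.rec (motive := fun _ => Bool) false (ih (Nat.succ j))
      (force (fun j => Nat.beq (Tr.get t j) (vrow W B i j VP 0)) j)) n

/-- the rows of the codes `cs`, the first of them having the number `i` -/
noncomputable def tabV (W B : Nat) (VP : List (Nat × Nat)) (Q : Tr (Tr Nat)) (n : Nat)
    (cs : List Nat) : Nat → Bool :=
  List.rec (motive := fun _ => Nat → Bool) (fun _ => true)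
    (fun c _ ih i => Bool.rec (motive := fun _ => Bool) false (ih (Nat.succ i))
      (force (fun i => rowsV W B VP (Tr.get Q c) i n 0) i)) cs

/-- the part of the list without weighted cuts -/
noncomputable def CL.u (L : CL) : CL :=
  CL.rec (motive := fun _ => CL) .nil (fun T l U _ ih => .cons T l U ih) (fun _ _ _ ih => ih) L

/-- all the terms of the certificate on the code `m`, with the merged table -/
noncomputable def evalV (W B : Nat) (Q : Tr (Tr Nat)) (tab : Tr CD) (W3 B3 I3 : Nat) (Q3 : Tr Nat)
    (cl : CL) (Wv Bv LT : Nat) (QV : Tr (Tr Nat)) (Wm Bm Tm offm : Nat) (M5 M3 MC MD : List Nat)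
    (k : Nat → Nat → Nat → Nat → Nat → Nat → Bool) (m : Nat) : Bool :=
  force (fun o5 => force (fun o3 => force (fun oC => force (fun oD =>
    force (fun a5 => force (fun a3 => force (fun x => force (fun y =>
      force (fun d1 => force (fun d0 => k a5 a3 x y d1 d0)
        (dsum Wm Bm Tm offm 0 105 oD 0)) (dsum Wm Bm Tm offm 1 105 oD 0))
        (cutsR 0 oC cl (cutV Wv Bv LT QV 0 35 oC 0))) (cutsR 1 oC cl (cutV Wv Bv LT QV 1 35 oC 0)))
        (s3 W3 B3 I3 Q3 105 o3 0)) (s5 W B Q tab 21 o5 0))
    (scat MD m 0)) (scat MC m 0)) (scat M3 m 0)) (scat M5 m 0)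

end K4m.Ev
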