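import Pool.Agent.Lib.MP_392c14_co.Ev.Chk

/-! Kernel functions for the penalty of the wrong triples (raw operations, no Mathlib). -/

set_option autoImplicit false

namespace K4m.Ev

noncomputable def k3 (K c : Nat) : Nat := Nat.mod (Nat.shiftRight K (Nat.mul 3 c)) 8

/-- weight of the classes `a, b, c` and edge bit `e` (`W` bits each, `B = 2 ^ W`) -/
noncomputable def wt4 (W B T a b c e : Nat) : Nat :=
  Nat.mod (Nat.shiftRight T (Nat.mul W
    (Nat.add a (Nat.add (Nat.mul 8 b) (Nat.add (Nat.mul 64 c) (Nat.mul 512 e)))))) B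

/-- `k` root sets, four 10-bit fields each (three codes and one edge bit) -/
noncomputable def msum (K W B T : Nat) (k : Nat) : Nat → Nat → Nat :=
  Nat.rec (motive := fun _ => Nat → Nat → Nat) (fun _ acc => acc)
    (fun _ ih out acc => ih (Nat.shiftRight out 40)
      (force (fun a => Bool.rec (motive := fun _ => Nat)
        (Nat.add acc (wt4 W B T a (force (k3 K) (Nat.mod (Nat.shiftRight out 10) 1024))
          (force (k3 K) (Nat.mod (Nat.shiftRight out 20) 1024))
          (Nat.mod (Nat.shiftRight out 30) 1024)))
        acc (Nat.beq a 7)) (force (k3 K) (Nat.mod out 1024)))) k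

end K4m.Ev
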