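import Mathlib
import Pool.Agent.Lib.MP_392c14_co.Ev.Cut
import Pool.Agent.Lib.MP_392c14_co.Ev.ChkM

/-! Functionals with four roots spanning exactly two edges and three further points, weighted by a
function of the classes of the three points and of their edge. -/

set_option autoImplicit false
set_option maxRecDepth 100000

namespace K4m.Ev

/-- class of the fifth vertex of a labelled 5-graph with root edges 012, 013 exactly: class `i` of
the standard partition (classes 2 and 3 are not separated, both are called 2), or 7 -/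
def clM (c : ℕ) : ℕ :=
  if c = 323 then 0 else if c = 163 then 1 else if c = 19 then 2 else if c = 803 then 4
    else if c = 707 then 5 else 7

/-- class in the first visible order of the roots (3 bits per code) -/
def KT : ℕ :=
  0x3f0000000000000000000000000000000000000000000000000000000000070000000009ff00000002703f00000003ffff000000000000000000000000000000000007000000000bff00000000000000000000000000002700003f00003f000fff0000000000000000000001c70000001071c70000001c7fff0001070001c70001c7000fff0071ff1fffff0021ff1fffff00000000000000000000000700000000000000000002f03f00000000000000002f00003f00000000000000003f03f03f0000000000000000001471c70000000070070000001ff1ff0040070070070071ff1fffff00700f03f03f0070bf1fffff0000000000000001470001c70050070070070071ff1fffff0000070000070001ff0003ff00703f00f03f0071ff0bffff0000000000000011c71c71c70070471c71c70071d71fffff0071c70471c70071ff1d7fff0071ff1ff5ff0071ff1fffff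

/-- transition of the classes (3 bits for each root pattern and order of the roots) -/
def RT : ℕ :=
  0x9249249249249249249249249249249249249249249249249249242e491092492492492492492492492492492490b9249244249249249249242e49109249249249249249249249249249249249249249249242e492492491092492492490b9249244249249249249249249249249249249242e4910924924924924924924924924924924924924924924924924924924

/-- weight 1 for the wrong triples with a point in class 4 or 5 -/
def WTM : ℕ :=
  0x1734003023230000342700301313000000000000000000003030000000000000231300003030000023130000303000000000000000000000000000000000000000030000101000000300000020200000000000000000000000000000000000001020000000000000102000000000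

/-- the class of a code with sorted roots -/
noncomputable def k0 (c : ℕ) : ℕ := k3 KT c

def rho4 (P k : ℕ) : ℕ := (RT >>> (3 * (24 * P + k))) % 8

/-- exchange of the classes 0 and 1, and of the classes 4 and 5 -/
def pi8 (g x : ℕ) : ℕ :=
  if g = 4 then 7
  else if g = 0 then x
  else if g = 1 then (if x = 0 then 1 else if x = 1 then 0 else x)
  else if g = 2 then (if x = 4 then 5 else if x = 5 then 4 else x)
  else (if x = 0 then 1 else if x = 1 then 0 else if x = 4 then 5 else if x = 5 then 4 else x)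

theorem cl_act : ∀ c ∈ lab5, ∀ k < 24, clM (act (tau k) c) = pi8 (rho4 (c % 16) k) (k0 c) := by
  decide +kernel

theorem k0_lt : ∀ c ∈ lab5, k0 c < 8 := by decide +kernel

theorem rho4_le : ∀ P < 16, ∀ k < 24, rho4 P k ≤ 4 := by decide +kernel

/-- number of visible orders of the roots -/
def nvis (P : ℕ) : ℕ := ∑ k ∈ Finset.range 24, if rho4 P k = 4 then 0 else 1

theorem nvis_eq : ∀ P < 16, nvis P = 4 ∨ nvis P = 0 := by decide +kernel

theorem k0_seven : ∀ c ∈ lab5, nvis (c % 16) = 0 → k0 c = 7 := by decide +kernel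

/-- admissible weight tables -/
structure WM (W B T : ℕ) : Prop where
  s12 : ∀ a < 8, ∀ b < 8, ∀ c < 8, ∀ e < 2, wt4 W B T b a c e = wt4 W B T a b c e
  s23 : ∀ a < 8, ∀ b < 8, ∀ c < 8, ∀ e < 2, wt4 W B T a c b e = wt4 W B T a b c e
  seven : ∀ b < 8, ∀ c < 8, ∀ e < 2, wt4 W B T 7 b c e = 0
  inv : ∀ g < 4, ∀ a < 8, ∀ b < 8, ∀ c < 8, ∀ e < 2,
    wt4 W B T (pi8 g a) (pi8 g b) (pi8 g c) e = wt4 W B T a b c e

/-- the penalty as a function of the codes -/
noncomputable def gM' (W B T : ℕ) (a b c : ℕ) (e : Bool) : ℤ :=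
  (wt4 W B T (clM a) (clM b) (clM c) e.toNat : ℤ)

theorem clM_lt (c : ℕ) : clM c < 8 := by
  unfold clM; split_ifs <;> norm_num

theorem toNat_lt2 (e : Bool) : e.toNat < 2 := by cases e <;> decide

theorem gM'_12 {W B T : ℕ} (h : WM W B T) (a b c : ℕ) (e : Bool) :
    gM' W B T b a c e = gM' W B T a b c e := by
  unfold gM'
  rw [h.s12 _ (clM_lt a) _ (clM_lt b) _ (clM_lt c) _ (toNat_lt2 e)]

theorem gM'_23 {W B T : ℕ} (h : WM W B T) (a b c : ℕ) (e : Bool) :
    gM' W B T a c b e = gM' W B T a b c e := by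
  unfold gM'
  rw [h.s23 _ (clM_lt a) _ (clM_lt b) _ (clM_lt c) _ (toNat_lt2 e)]

/-- the penalty -/
noncomputable def gM (W B T : ℕ) (H : TG (Fin 7)) (σ : Equiv.Perm (Fin 7)) : ℤ :=
  gM' W B T (code5 (H.pull fun i => σ (![0, 1, 2, 3, 4] i)))
    (code5 (H.pull fun i => σ (![0, 1, 2, 3, 5] i)))
    (code5 (H.pull fun i => σ (![0, 1, 2, 3, 6] i))) (H.E (σ 4) (σ 5) (σ 6))

theorem gM_45 {W B T : ℕ} (h : WM W B T) (H : TG (Fin 7)) :
    RInv (gM W B T H) (Equiv.swap 4 5) := by
  intro σ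
  unfold gM
  rw [pull_comp' H σ (Equiv.swap 4 5) ![0, 1, 2, 3, 4] ![0, 1, 2, 3, 5] (by decide),
    pull_comp' H σ (Equiv.swap 4 5) ![0, 1, 2, 3, 5] ![0, 1, 2, 3, 4] (by decide),
    pull_comp' H σ (Equiv.swap 4 5) ![0, 1, 2, 3, 6] ![0, 1, 2, 3, 6] (by decide),
    Equiv.Perm.mul_apply, Equiv.Perm.mul_apply, Equiv.Perm.mul_apply, Equiv.swap_apply_left,
    Equiv.swap_apply_right, Equiv.swap_apply_of_ne_of_ne (by decide) (by decide), H.symm₁]
  exact gM'_12 h _ _ _ _

theorem gM_56 {W B T : ℕ} (h : WM W B T) (H : TG (Fin 7)) :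
    RInv (gM W B T H) (Equiv.swap 5 6) := by
  intro σ
  unfold gM
  rw [pull_comp' H σ (Equiv.swap 5 6) ![0, 1, 2, 3, 4] ![0, 1, 2, 3, 4] (by decide),
    pull_comp' H σ (Equiv.swap 5 6) ![0, 1, 2, 3, 5] ![0, 1, 2, 3, 6] (by decide),
    pull_comp' H σ (Equiv.swap 5 6) ![0, 1, 2, 3, 6] ![0, 1, 2, 3, 5] (by decide),
    Equiv.Perm.mul_apply, Equiv.Perm.mul_apply, Equiv.Perm.mul_apply, Equiv.swap_apply_left,
    Equiv.swap_apply_right, Equiv.swap_apply_of_ne_of_ne (by decide) (by decide), H.symm₂]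
  exact gM'_23 h _ _ _ _

/-- the value at a product -/
theorem gM_val (W B T : ℕ) (H : TG (Fin 7)) (s : ℕ) (hs : C.isPerm s = true) (k : ℕ)
    (hk : k < 24) :
    gM W B T H (toP s * toP (c24 k)) =
      gM' W B T (act (tau k) (code5 (H.pull fun i => vec s (![0, 1, 2, 3, 4] i))))
        (act (tau k) (code5 (H.pull fun i => vec s (![0, 1, 2, 3, 5] i))))
        (act (tau k) (code5 (H.pull fun i => vec s (![0, 1, 2, 3, 6] i))))
        (H.E (vec s 4) (vec s 5) (vec s 6)) := by
  have e : ∀ i, toP s i = vec s i := toP_apply s hs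
  have e2 : ∀ i, toP (c24 k) i = vec (c24 k) i := toP_apply _ (c24_perm k hk)
  unfold gM
  rw [pull_comp H (toP s) (toP (c24 k)) ![0, 1, 2, 3, 4] ![0, 1, 2, 3, 4] (tau k)
      (fun i => by rw [e2]; exact c24_tau4 k hk i),
    pull_comp H (toP s) (toP (c24 k)) ![0, 1, 2, 3, 5] ![0, 1, 2, 3, 5] (tau k)
      (fun i => by rw [e2]; exact c24_tau5 k hk i),
    pull_comp H (toP s) (toP (c24 k)) ![0, 1, 2, 3, 6] ![0, 1, 2, 3, 6] (tau k)
      (fun i => by rw [e2]; exact c24_tau6 k hk i),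
    Equiv.Perm.mul_apply, Equiv.Perm.mul_apply, Equiv.Perm.mul_apply, e2, e2, e2,
    (c24_fix k hk).1, (c24_fix k hk).2.1, (c24_fix k hk).2.2, e, e, e]
  simp only [e]

theorem code5_mod16 (H : TG (Fin 5)) :
    code5 H % 16 = bits [H.E 0 1 2, H.E 0 1 3, H.E 0 2 3, H.E 1 2 3] := by
  unfold code5
  cases H.E 0 1 2 <;> cases H.E 0 1 3 <;> cases H.E 0 2 3 <;> cases H.E 1 2 3 <;>
    simp only [bits, Bool.toNat_false, Bool.toNat_true] <;> omega

theorem code5_mod_eq (H : TG (Fin 7)) (s : Fin 7 → Fin 7) (x y : Fin 7) :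
    code5 (H.pull fun i => s (![0, 1, 2, 3, x] i)) % 16 =
      code5 (H.pull fun i => s (![0, 1, 2, 3, y] i)) % 16 := by
  rw [code5_mod16, code5_mod16]; rfl

/-- the value of one root set -/
noncomputable def mval (W B T : ℕ) (p : ℕ × ℕ × ℕ × ℕ) : ℕ :=
  wt4 W B T (k0 p.1) (k0 p.2.1) (k0 p.2.2.1) p.2.2.2

theorem sum_ordersM {W B T : ℕ} (h : WM W B T) (a b c : ℕ) (e : Bool) (ha : a ∈ lab5)
    (hb : b ∈ lab5) (hc : c ∈ lab5) (hab : b % 16 = a % 16) (hac : c % 16 = a % 16) :
    ∑ k ∈ Finset.range 24, gM' W B T (act (tau k) a) (act (tau k) b) (act (tau k) c) e =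
      4 * ((mval W B T (a, b, c, e.toNat) : ℕ) : ℤ) := by
  have hP : a % 16 < 16 := Nat.mod_lt _ (by norm_num)
  have h1 : ∀ k ∈ Finset.range 24,
      gM' W B T (act (tau k) a) (act (tau k) b) (act (tau k) c) e =
        (if rho4 (a % 16) k = 4 then (0 : ℤ) else 1) * ((mval W B T (a, b, c, e.toNat) : ℕ) : ℤ) := by
    intro k hk
    have hk' := Finset.mem_range.1 hk
    unfold gM' mval
    dsimp only
    rw [cl_act a ha k hk', cl_act b hb k hk', cl_act c hc k hk', hab, hac]
    have hr := rho4_le (a % 16) hP k hk'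
    by_cases h4 : rho4 (a % 16) k = 4
    · rw [if_pos h4, h4, zero_mul]
      have : pi8 4 (k0 a) = 7 := rfl
      rw [this]
      have h7 : pi8 4 (k0 b) = 7 := rfl
      have h8 : pi8 4 (k0 c) = 7 := rfl
      rw [h7, h8, h.seven 7 (by norm_num) 7 (by norm_num) _ (toNat_lt2 e)]; rfl
    · rw [if_neg h4, one_mul, h.inv _ (by omega) _ (k0_lt a ha) _ (k0_lt b hb) _ (k0_lt c hc) _
        (toNat_lt2 e)]
  rw [Finset.sum_congr rfl h1, ← Finset.sum_mul]
  have h2 : (∑ k ∈ Finset.range 24, (if rho4 (a % 16) k = 4 then (0 : ℤ) else 1)) =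
      ((nvis (a % 16) : ℕ) : ℤ) := by
    unfold nvis; push_cast; rfl
  rw [h2]
  rcases nvis_eq (a % 16) hP with h3 | h3
  · rw [h3]; rfl
  · have h5 : mval W B T (a, b, c, e.toNat) = 0 := by
      unfold mval
      dsimp only
      rw [k0_seven a ha h3]
      exact h.seven _ (k0_lt b hb) _ (k0_lt c hc) _ (toNat_lt2 e)
    rw [h5, Nat.cast_zero, mul_zero, mul_zero]

theorem msum_succ (K W B T k out acc : ℕ) :
    msum K W B T (k + 1) out acc = msum K W B T k (out >>> 40)
      (force (fun a => Bool.rec (motive := fun _ => ℕ)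
        (acc + wt4 W B T a (force (k3 K) ((out >>> 10) % 1024))
          (force (k3 K) ((out >>> 20) % 1024)) ((out >>> 30) % 1024))
        acc (Nat.beq a 7)) (force (k3 K) (out % 1024))) := rfl

theorem brec_seven (x y a : ℕ) (h : a = 7 → x = y) :
    Bool.rec (motive := fun _ => ℕ) x y (Nat.beq a 7) = x := by
  cases hb : Nat.beq a 7
  · rfl
  · exact (h (Nat.eq_of_beq_eq_true hb)).symm

theorem k3_lt (K c : ℕ) : k3 K c < 8 := Nat.mod_lt _ (by norm_num)

theorem msum_eq {W B T : ℕ} (h : WM W B T) (l : List (ℕ × ℕ × ℕ × ℕ))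
    (hl : ∀ p ∈ l, p.1 < 1024 ∧ p.2.1 < 1024 ∧ p.2.2.1 < 1024 ∧ p.2.2.2 < 2) : ∀ acc : ℕ,
    msum KT W B T l.length (packF 10 (l.flatMap fun p => [p.1, p.2.1, p.2.2.1, p.2.2.2])) acc =
      acc + (l.map (mval W B T)).sum := by
  induction l with
  | nil => intro acc; rfl
  | cons p l ih =>
    intro acc
    obtain ⟨ha, hb, hc, hd⟩ := hl p List.mem_cons_self
    obtain ⟨h1, h2, h3, h4, h5⟩ := four_fields p.1 p.2.1 p.2.2.1 p.2.2.2
      (l.flatMap fun p => [p.1, p.2.1, p.2.2.1, p.2.2.2]) ha hb hc (by omega)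
    have e : (p :: l).flatMap (fun p => [p.1, p.2.1, p.2.2.1, p.2.2.2]) =
        p.1 :: p.2.1 :: p.2.2.1 :: p.2.2.2 ::
          l.flatMap (fun p => [p.1, p.2.1, p.2.2.1, p.2.2.2]) := rfl
    rw [e, List.length_cons, msum_succ, h1, h2, h3, h4, h5, force_eq, force_eq, force_eq, force_eq,
      brec_seven, ih (fun q hq => hl q (List.mem_cons_of_mem _ hq)), List.map_cons, List.sum_cons,
      Nat.add_assoc]
    · rfl
    · intro h7
      rw [h7, h.seven _ (k3_lt _ _) _ (k3_lt _ _) _ hd]; rfl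

/-- the kernel function -/
noncomputable def pm (W B T m : ℕ) : ℕ := msum KT W B T 35 (scat masksC m 0) 0

theorem gath_one_lt2 (t m : ℕ) : gath [t] m < 2 := gath_lt [t] m

theorem cast_sum_map' {α : Type} (l : List α) (g : α → ℕ) :
    (l.map fun a => ((g a : ℕ) : ℤ)).sum = (((l.map g).sum : ℕ) : ℤ) := by
  induction l with
  | nil => rfl
  | cons a l ih => rw [List.map_cons, List.sum_cons, ih, List.map_cons, List.sum_cons]; push_cast; rfl

attribute [local irreducible] gath cs bits code7 wt4 in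
theorem mis_aux {W B T : ℕ} (h : WM W B T) (H : TG (Fin 7)) (S : List ℕ)
    (src : List (List ℕ)) (hp : ∀ s ∈ S, C.isPerm s = true)
    (hsrc : (S.flatMap fun s => [cs fun i => vec s (![0, 1, 2, 3, 4] i),
      cs fun i => vec s (![0, 1, 2, 3, 5] i), cs fun i => vec s (![0, 1, 2, 3, 6] i),
      [C.tid (vec s 4) (vec s 5) (vec s 6)]]) = src) (hlt : ∀ s ∈ src, ∀ t ∈ s, t < 35) :
    (S.map fun s => (KC1.map fun a => gM W B T H (toP s * a)).sum).sum =
      4 * ((msum KT W B T S.length (scat (masksOf 10 src 0 35) (code7 H) 0) 0 : ℕ) : ℤ) := by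
  rw [scat_masksOf 10 src 35 (code7 H) hlt, ← hsrc, map_four]
  have hl : ∀ p ∈ (S.map fun s => ((gath (cs fun i => vec s (![0, 1, 2, 3, 4] i)) (code7 H),
      gath (cs fun i => vec s (![0, 1, 2, 3, 5] i)) (code7 H),
      gath (cs fun i => vec s (![0, 1, 2, 3, 6] i)) (code7 H),
      gath [C.tid (vec s 4) (vec s 5) (vec s 6)] (code7 H)) : ℕ × ℕ × ℕ × ℕ)),
      p.1 < 1024 ∧ p.2.1 < 1024 ∧ p.2.2.1 < 1024 ∧ p.2.2.2 < 2 := by
    intro p hp
    obtain ⟨s, _, hs⟩ := List.mem_map.1 hp
    rw [← hs]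
    dsimp only
    exact ⟨gath_cs_lt _ _, gath_cs_lt _ _, gath_cs_lt _ _, gath_one_lt2 _ _⟩
  have h3 := msum_eq h _ hl 0
  rw [List.length_map, Nat.zero_add] at h3
  rw [h3, List.map_map, ← cast_sum_map', ← List.sum_map_mul_left]
  refine congrArg List.sum (List.map_congr_left ?_)
  intro s hs
  have h4 : (KC1.map fun a => gM W B T H (toP s * a)) = (List.range 24).map fun k =>
      gM' W B T (act (tau k) (code5 (H.pull fun i => vec s (![0, 1, 2, 3, 4] i))))
        (act (tau k) (code5 (H.pull fun i => vec s (![0, 1, 2, 3, 5] i))))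
        (act (tau k) (code5 (H.pull fun i => vec s (![0, 1, 2, 3, 6] i))))
        (H.E (vec s 4) (vec s 5) (vec s 6)) := by
    rw [KC1, List.map_map]
    refine List.map_congr_left fun k hk => ?_
    exact gM_val W B T H s (hp s hs) k (List.mem_range.1 hk)
  rw [h4, sum_range_list, sum_ordersM h _ _ _ _ (code5_mem _) (code5_mem _) (code5_mem _)
    (code5_mod_eq H (vec s) 5 4) (code5_mod_eq H (vec s) 6 4)]
  simp only [code5_pull, bit_eq, Function.comp_def]

/-- **evaluation of the penalty** -/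
theorem sum_mis {W B T : ℕ} (h : WM W B T) (H : TG (Fin 7)) :
    ∑ σ : Equiv.Perm (Fin 7), (wt4 W B T (clM (code5 (H.pull fun i => σ (![0, 1, 2, 3, 4] i))))
      (clM (code5 (H.pull fun i => σ (![0, 1, 2, 3, 5] i))))
      (clM (code5 (H.pull fun i => σ (![0, 1, 2, 3, 6] i)))) (H.E (σ 4) (σ 5) (σ 6)).toNat : ℤ) =
      24 * ((pm W B T (code7 H) : ℕ) : ℤ) := by
  have h1 := sum_codes betaC SC (pr KC1 KC2) SC_perm (by rw [SC_keys]; exact SC_nodup) KC_nodup
    KC_beta SC_KC (gM W B T H)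
  have h2 : ∀ b ∈ KC2, RInv (gM W B T H) b := RInv.six (gM_45 h H) (gM_56 h H)
  have h3 : (SC.map fun s => ((pr KC1 KC2).map fun k => gM W B T H (toP s * k)).sum) =
      SC.map fun s => (6 : ℤ) * (KC1.map fun a => gM W B T H (toP s * a)).sum :=
    List.map_congr_left fun s _ => pr_sum _ KC1 KC2 h2 (toP s)
  have h4 := mis_aux h H SC srcC SC_perm srcC_eq srcC_lt
  rw [SC_length] at h4
  rw [h3, List.sum_map_mul_left, h4] at h1
  have h5 : (6 : ℤ) * (4 * ((msum KT W B T 35 (scat (masksOf 10 srcC 0 35) (code7 H) 0) 0 : ℕ) : ℤ))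
      = 24 * ((pm W B T (code7 H) : ℕ) : ℤ) := by
    rw [← mul_assoc]; rfl
  rw [h5] at h1
  exact h1

/-! ### the unweighted table -/

theorem WTM_ok : WM 1 2 WTM where
  s12 := by decide +kernel
  s23 := by decide +kernel
  seven := by decide +kernel
  inv := by decide +kernel

/-- the pattern of the three classes (2 stands for 2 or 3) -/
def patM (a b c : ℕ) : Bool :=
  [7, 11, 21, 41, 49, 38, 26, 50, 28, 44].contains (2 ^ a + 2 ^ b + 2 ^ c)

/-- the members of a class -/
def clsM (a : ℕ) : List ℕ := if a = 2 then [2, 3] else [a]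

/-- weight 1 iff all classes are visible, one of them is 4 or 5, and the edge bit differs from the
pattern for all possible classes (no edge if two classes coincide) -/
theorem WTM_spec : ∀ a < 8, ∀ b < 8, ∀ c < 8, ∀ e < 2, wt4 1 2 WTM a b c e =
    if (a = 4 ∨ b = 4 ∨ c = 4 ∨ a = 5 ∨ b = 5 ∨ c = 5) ∧ a ≠ 7 ∧ b ≠ 7 ∧ c ≠ 7 ∧ a ≠ 3 ∧ b ≠ 3 ∧
      c ≠ 3 ∧ a ≠ 6 ∧ b ≠ 6 ∧ c ≠ 6 ∧ ¬ (a = b ∧ b = c) ∧ (∀ x ∈ clsM a, ∀ y ∈ clsM b,
        ∀ z ∈ clsM c, (x ≠ y ∧ x ≠ z ∧ y ≠ z ∧ patM x y z = true) ↔ e = 0) then 1 else 0 := by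
  decide +kernel

end K4m.Ev
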