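import Mathlib
import Pool.Agent.Lib.MP_392c14_co.Ev.Fin
import Pool.Agent.Lib.MP_392c14_co.Ev.Mis
import Pool.Agent.Lib.MP_392c14_co.Ev.ChkV

/-! The merged table of the weighted cuts. -/

set_option autoImplicit false
set_option maxRecDepth 100000

namespace K4m.Ev

/-! ### packed lists -/

theorem packF_addL {α : Type} (w : ℕ) (f g : α → ℕ) (l : List α) :
    packF w (l.map fun s => f s + g s) = packF w (l.map f) + packF w (l.map g) := by
  induction l with
  | nil => rfl
  | cons s l ih => simp only [List.map_cons, packF, ih]; ring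

theorem packF_mulL {α : Type} (w c : ℕ) (f : α → ℕ) (l : List α) :
    packF w (l.map fun s => c * f s) = c * packF w (l.map f) := by
  induction l with
  | nil => rfl
  | cons s l ih => simp only [List.map_cons, packF, ih]; ring

theorem packF_zeroL {α : Type} (w : ℕ) (l : List α) : packF w (l.map fun _ => 0) = 0 := by
  induction l with
  | nil => rfl
  | cons s l ih => rw [List.map_cons, packF, ih]; simp

theorem packF_digit (w : ℕ) (l : List ℕ) : ∀ (m : ℕ) (_ : ∀ x ∈ l, x < 2 ^ w)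
    (hm : m < l.length), packF w l / 2 ^ (w * m) % 2 ^ w = l[m] := by
  induction l with
  | nil => intro m _ hm; exact absurd hm (Nat.not_lt_zero _)
  | cons a l ih =>
    intro m hl hm
    have ha := hl a List.mem_cons_self
    cases m with
    | zero =>
      rw [Nat.mul_zero, pow_zero, Nat.div_one, packF_mod w a l ha]
      rfl
    | succ m =>
      have e : w * (m + 1) = w + w * m := by ring
      rw [e, pow_add, ← Nat.div_div_eq_div_mul, packF_div w a l ha,
        ih m (fun x hx => hl x (List.mem_cons_of_mem _ hx)) (by simpa using hm)]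
      rfl

theorem dgR_packF (w : ℕ) (l : List ℕ) (m : ℕ) (hl : ∀ x ∈ l, x < 2 ^ w) (hm : m < l.length) :
    dgR w (2 ^ w) (packF w l) m = l[m] := by
  rw [← packF_digit w l m hl hm]
  unfold dgR
  have e : ∀ x y : ℕ, Nat.shiftRight x y = x / 2 ^ y := fun x y => Nat.shiftRight_eq_div_pow x y
  rw [e]
  rfl

/-! ### the values -/

/-- weighted sum of the values of the weighted cuts -/
noncomputable def CL.ws (a b c : ℕ) : CL → ℕ
  | .nil => 0
  | .cons _ _ _ L => L.ws a b c
  | .consw T l L => l * cvalW T a b c + L.ws a b c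

/-- sum of the multipliers -/
def CL.ls : CL → ℕ
  | .nil => 0
  | .cons _ _ _ L => L.ls
  | .consw _ l L => l + L.ls

theorem wd_lt (T : Tr ℕ) (k c : ℕ) : wd T k c < 1024 := Nat.mod_lt _ (by norm_num)

theorem cvalW_le (T : Tr ℕ) (a b c : ℕ) : cvalW T a b c ≤ 24 * 2 ^ 30 := by
  unfold cvalW
  have h : ∀ k ∈ Finset.range 24, wd T k a * (wd T k b * wd T k c) ≤ 2 ^ 30 := by
    intro k _
    have h1 := (wd_lt T k a).le
    have h2 := (wd_lt T k b).le
    have h3 := (wd_lt T k c).le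
    calc wd T k a * (wd T k b * wd T k c) ≤ 1024 * (1024 * 1024) :=
          Nat.mul_le_mul h1 (Nat.mul_le_mul h2 h3)
      _ = 2 ^ 30 := by norm_num
  refine (Finset.sum_le_sum h).trans ?_
  rw [Finset.sum_const, Finset.card_range, smul_eq_mul]

theorem ws_le (L : CL) (a b c : ℕ) : L.ws a b c ≤ 24 * 2 ^ 30 * L.ls := by
  induction L with
  | nil => exact Nat.zero_le _
  | cons _ _ _ L ih => exact ih
  | consw T l L ih =>
    have h := cvalW_le T a b c
    show l * cvalW T a b c + L.ws a b c ≤ 24 * 2 ^ 30 * (l + L.ls)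
    nlinarith

/-! ### splitting the sum of the cuts -/

theorem cutV_succ (W B LT : ℕ) (Q : Tr (Tr ℕ)) (e0 k out acc : ℕ) :
    cutV W B LT Q e0 (k + 1) out acc = cutV W B LT Q e0 k (out >>> 40)
      (Bool.rec (motive := fun _ => ℕ) acc (acc +
        (force (fun a => force (fun b => force (fun c => lookV W B LT Q a b c)
          ((out >>> 20) % 1024)) ((out >>> 10) % 1024)) (out % 1024)))
        (Nat.beq ((out >>> 30) % 1024) e0)) := rfl

theorem cutV_eq (W B LT : ℕ) (Q : Tr (Tr ℕ)) (e0 : ℕ) (l : List (ℕ × ℕ × ℕ × ℕ))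
    (hl : ∀ p ∈ l, p.1 < 1024 ∧ p.2.1 < 1024 ∧ p.2.2.1 < 1024 ∧ p.2.2.2 < 1024) : ∀ acc : ℕ,
    cutV W B LT Q e0 l.length (packF 10 (l.flatMap fun p => [p.1, p.2.1, p.2.2.1, p.2.2.2])) acc =
      acc + (l.map fun p => if p.2.2.2 = e0 then lookV W B LT Q p.1 p.2.1 p.2.2.1 else 0).sum := by
  induction l with
  | nil => intro acc; rfl
  | cons p l ih =>
    intro acc
    obtain ⟨ha, hb, hc, hd⟩ := hl p List.mem_cons_self
    obtain ⟨h1, h2, h3, h4, h5⟩ := four_fields p.1 p.2.1 p.2.2.1 p.2.2.2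
      (l.flatMap fun p => [p.1, p.2.1, p.2.2.1, p.2.2.2]) ha hb hc hd
    have e : (p :: l).flatMap (fun p => [p.1, p.2.1, p.2.2.1, p.2.2.2]) =
        p.1 :: p.2.1 :: p.2.2.1 :: p.2.2.2 ::
          l.flatMap (fun p => [p.1, p.2.1, p.2.2.1, p.2.2.2]) := rfl
    have h6 : (Nat.beq p.2.2.2 e0 = true) ↔ p.2.2.2 = e0 :=
      ⟨Nat.eq_of_beq_eq_true, fun h => by rw [h]; exact Nat.beq_refl e0⟩
    rw [e, List.length_cons, cutV_succ, h1, h2, h3, h4, h5, force_eq, force_eq, force_eq,
      brec_nat, ih (fun q hq => hl q (List.mem_cons_of_mem _ hq)), List.map_cons, List.sum_cons]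
    simp only [h6]
    split_ifs <;> omega

theorem u_nil : CL.u .nil = .nil := rfl
theorem u_cons (T l : ℕ) (U : List ℕ) (L : CL) : CL.u (.cons T l U L) = .cons T l U L.u := rfl
theorem u_consw (T : Tr ℕ) (l : ℕ) (L : CL) : CL.u (.consw T l L) = L.u := rfl

theorem sum_map_add' {α : Type} (l : List α) (f g : α → ℕ) :
    (l.map fun a => f a + g a).sum = (l.map f).sum + (l.map g).sum := by
  induction l with
  | nil => rfl
  | cons a l ih => simp only [List.map_cons, List.sum_cons, ih]; ring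

theorem sum_map_mul' {α : Type} (l : List α) (c : ℕ) (f : α → ℕ) :
    (l.map fun a => c * f a).sum = c * (l.map f).sum := by
  induction l with
  | nil => rfl
  | cons a l ih => simp only [List.map_cons, List.sum_cons, ih]; ring

theorem cuts_split (e0 : ℕ) (l : List (ℕ × ℕ × ℕ × ℕ)) (h35 : l.length = 35)
    (hl : ∀ p ∈ l, p.1 < 1024 ∧ p.2.1 < 1024 ∧ p.2.2.1 < 1024 ∧ p.2.2.2 < 1024) (L : CL) :
    ∀ acc : ℕ, cutsR e0 (packF 10 (l.flatMap fun p => [p.1, p.2.1, p.2.2.1, p.2.2.2])) L acc =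
      cutsR e0 (packF 10 (l.flatMap fun p => [p.1, p.2.1, p.2.2.1, p.2.2.2])) L.u
        (acc + (l.map fun p => if p.2.2.2 = e0 then L.ws p.1 p.2.1 p.2.2.1 else 0).sum) := by
  set out := packF 10 (l.flatMap fun p => [p.1, p.2.1, p.2.2.1, p.2.2.2]) with hout
  induction L with
  | nil =>
    intro acc
    have h : (l.map fun p => if p.2.2.2 = e0 then CL.nil.ws p.1 p.2.1 p.2.2.1 else 0).sum = 0 := by
      have : (fun p : ℕ × ℕ × ℕ × ℕ => if p.2.2.2 = e0 then CL.nil.ws p.1 p.2.1 p.2.2.1 else 0)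
          = fun _ => 0 := by
        funext p
        have : CL.nil.ws p.1 p.2.1 p.2.2.1 = 0 := rfl
        rw [this, ite_self]
      rw [this, List.map_const', List.sum_replicate, smul_zero]
    rw [h, Nat.add_zero]
    rfl
  | cons T m U L ih =>
    intro acc
    have e1 : cutsR e0 out (CL.cons T m U L) acc
        = cutsR e0 out L (acc + m * cut T e0 35 out 0) := rfl
    have e2 : ∀ a, cutsR e0 out (CL.cons T m U L).u a
        = cutsR e0 out L.u (a + m * cut T e0 35 out 0) := fun a => rfl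
    have e3 : ∀ a b c, (CL.cons T m U L).ws a b c = L.ws a b c := fun _ _ _ => rfl
    rw [e1, e2, ih]
    simp only [e3]
    congr 1
    omega
  | consw T m L ih =>
    intro acc
    have e1 : cutsR e0 out (CL.consw T m L) acc
        = cutsR e0 out L (acc + m * cutW T e0 35 out 0) := rfl
    have e2 : ∀ a, cutsR e0 out (CL.consw T m L).u a = cutsR e0 out L.u a := fun a => rfl
    have e3 : (l.map fun p => if p.2.2.2 = e0 then (CL.consw T m L).ws p.1 p.2.1 p.2.2.1
        else 0).sum = m * (l.map fun p => if p.2.2.2 = e0 then cvalW T p.1 p.2.1 p.2.2.1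
          else 0).sum
        + (l.map fun p => if p.2.2.2 = e0 then L.ws p.1 p.2.1 p.2.2.1 else 0).sum := by
      rw [← sum_map_mul', ← sum_map_add']
      refine congrArg List.sum (List.map_congr_left fun p _ => ?_)
      have : (CL.consw T m L).ws p.1 p.2.1 p.2.2.1
        = m * cvalW T p.1 p.2.1 p.2.2.1 + L.ws p.1 p.2.1 p.2.2.1 := rfl
      rw [this]
      split_ifs <;> simp
    have e4 := cutW_eq T e0 l hl 0
    rw [h35, Nat.zero_add] at e4
    rw [e1, e2, ih, e3, hout, e4]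
    congr 1
    omega

/-! ### the table -/

/-- the merged table is right -/
def VOk (W LT : ℕ) (Q : Tr (Tr ℕ)) (L : CL) : Prop :=
  ∀ a ∈ lab5, ∀ b ∈ lab5, ∀ c ∈ lab5, a % 16 = b % 16 → a % 16 = c % 16 →
    lookV W (2 ^ W) LT Q a b c = L.ws a b c

attribute [local irreducible] gath cs wd bits code7 lookV in
theorem cuts_V_aux (W LT : ℕ) (Q : Tr (Tr ℕ)) (L : CL) (hV : VOk W LT Q L) (e0 : ℕ)
    (H : TG (Fin 7)) (S : List ℕ) (src : List (List ℕ)) (h35 : S.length = 35)
    (hsrc : (S.flatMap fun s => [cs fun i => vec s (![0, 1, 2, 3, 4] i),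
      cs fun i => vec s (![0, 1, 2, 3, 5] i), cs fun i => vec s (![0, 1, 2, 3, 6] i),
      [C.tid (vec s 4) (vec s 5) (vec s 6)]]) = src) (hlt : ∀ s ∈ src, ∀ t ∈ s, t < 35) :
    cutsR e0 (scat (masksOf 10 src 0 35) (code7 H) 0) L.u
      (cutV W (2 ^ W) LT Q e0 35 (scat (masksOf 10 src 0 35) (code7 H) 0) 0)
      = cutsR e0 (scat (masksOf 10 src 0 35) (code7 H) 0) L 0 := by
  rw [scat_masksOf 10 src 35 (code7 H) hlt, ← hsrc, map_four]
  have hl : ∀ p ∈ (S.map fun s => ((gath (cs fun i => vec s (![0, 1, 2, 3, 4] i)) (code7 H),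
      gath (cs fun i => vec s (![0, 1, 2, 3, 5] i)) (code7 H),
      gath (cs fun i => vec s (![0, 1, 2, 3, 6] i)) (code7 H),
      gath [C.tid (vec s 4) (vec s 5) (vec s 6)] (code7 H)) : ℕ × ℕ × ℕ × ℕ)),
      (p.1 < 1024 ∧ p.2.1 < 1024 ∧ p.2.2.1 < 1024 ∧ p.2.2.2 < 1024) ∧
        lookV W (2 ^ W) LT Q p.1 p.2.1 p.2.2.1 = L.ws p.1 p.2.1 p.2.2.1 := by
    intro p hp
    obtain ⟨s, _, hs⟩ := List.mem_map.1 hp
    rw [← hs]
    dsimp only
    refine ⟨⟨gath_cs_lt _ _, gath_cs_lt _ _, gath_cs_lt _ _, gath_one_lt _ _⟩, ?_⟩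
    rw [← code5_pull, ← code5_pull, ← code5_pull]
    exact hV _ (code5_mem _) _ (code5_mem _) _ (code5_mem _) (code5_mod_eq H (vec s) 4 5)
      (code5_mod_eq H (vec s) 4 6)
  have hlen : (S.map fun s => ((gath (cs fun i => vec s (![0, 1, 2, 3, 4] i)) (code7 H),
      gath (cs fun i => vec s (![0, 1, 2, 3, 5] i)) (code7 H),
      gath (cs fun i => vec s (![0, 1, 2, 3, 6] i)) (code7 H),
      gath [C.tid (vec s 4) (vec s 5) (vec s 6)] (code7 H)) : ℕ × ℕ × ℕ × ℕ)).length = 35 := by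
    rw [List.length_map, h35]
  generalize (S.map fun s => ((gath (cs fun i => vec s (![0, 1, 2, 3, 4] i)) (code7 H),
      gath (cs fun i => vec s (![0, 1, 2, 3, 5] i)) (code7 H),
      gath (cs fun i => vec s (![0, 1, 2, 3, 6] i)) (code7 H),
      gath [C.tid (vec s 4) (vec s 5) (vec s 6)] (code7 H)) : ℕ × ℕ × ℕ × ℕ)) = l at hl hlen
  have h1 := cutV_eq W (2 ^ W) LT Q e0 l (fun p hp => (hl p hp).1) 0
  rw [hlen, Nat.zero_add] at h1
  rw [h1, cuts_split e0 l hlen (fun p hp => (hl p hp).1) L 0, Nat.zero_add]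
  congr 1
  refine congrArg List.sum (List.map_congr_left fun p hp => ?_)
  rw [(hl p hp).2]

theorem cuts_V (W LT : ℕ) (Q : Tr (Tr ℕ)) (L : CL) (hV : VOk W LT Q L) (e0 : ℕ)
    (H : TG (Fin 7)) :
    cutsR e0 (scat masksC (code7 H) 0) L.u
      (cutV W (2 ^ W) LT Q e0 35 (scat masksC (code7 H) 0) 0)
      = cutsR e0 (scat masksC (code7 H) 0) L 0 :=
  cuts_V_aux W LT Q L hV e0 H SC srcC SC_length srcC_eq srcC_lt

/-! ### the tests -/

theorem vrow_eq (W B i j : ℕ) (L : List (ℕ × ℕ)) : ∀ acc, vrow W B i j L acc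
    = acc + (L.map fun p => p.1 * (dgR W B p.2 i * dgR W B p.2 j) * p.2).sum := by
  induction L with
  | nil => intro acc; rfl
  | cons p L ih =>
    intro acc
    have e : vrow W B i j (p :: L) acc
        = vrow W B i j L (acc + p.1 * (dgR W B p.2 i * dgR W B p.2 j) * p.2) := rfl
    rw [e, ih, List.map_cons, List.sum_cons]
    ring

/-- multipliers and packed digits -/
noncomputable def CL.vl (W : ℕ) (cs : List ℕ) : CL → List (ℕ × ℕ)
  | .nil => []
  | .cons _ _ _ L => L.vl W cs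
  | .consw T l L => ((List.range 24).map fun k => (l, packF W (cs.map (wd T k)))) ++ L.vl W cs

theorem list_sum_range (F : ℕ → ℕ) (n : ℕ) :
    ((List.range n).map F).sum = ∑ k ∈ Finset.range n, F k := by
  induction n with
  | zero => rfl
  | succ n ih =>
    rw [List.range_succ, List.map_append, List.sum_append, ih, Finset.sum_range_succ]
    simp

theorem packF_sum (w : ℕ) (cs : List ℕ) (g : ℕ → ℕ → ℕ) (n : ℕ) :
    packF w (cs.map fun c => ∑ k ∈ Finset.range n, g k c)
      = ∑ k ∈ Finset.range n, packF w (cs.map (g k)) := by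
  induction n with
  | zero =>
    have : (fun c => ∑ k ∈ Finset.range 0, g k c) = fun _ => 0 := by funext c; simp
    rw [this, packF_zeroL]
    simp
  | succ n ih =>
    rw [Finset.sum_range_succ, ← ih, ← packF_addL]
    refine congrArg (packF w) (List.map_congr_left fun c _ => ?_)
    rw [Finset.sum_range_succ]

theorem vl_consw (W : ℕ) (cs : List ℕ) (T : Tr ℕ) (l : ℕ) (L : CL) : (CL.consw T l L).vl W cs
    = ((List.range 24).map fun k => (l, packF W (cs.map (wd T k)))) ++ L.vl W cs := rfl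

theorem cval_packF (W : ℕ) (cs : List ℕ) (T : Tr ℕ) (a b : ℕ) :
    packF W (cs.map fun c => cvalW T a b c)
      = ∑ k ∈ Finset.range 24, packF W (cs.map fun c => wd T k a * (wd T k b * wd T k c)) := by
  unfold cvalW
  exact packF_sum W cs (fun k c => wd T k a * (wd T k b * wd T k c)) 24

theorem vl_term (W : ℕ) (cs : List ℕ) (i j : ℕ) (hi : i < cs.length) (hj : j < cs.length)
    (T : Tr ℕ) (l k : ℕ) (hlt : ∀ x ∈ cs.map (wd T k), x < 2 ^ W) :
    l * (dgR W (2 ^ W) (packF W (cs.map (wd T k))) i *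
      dgR W (2 ^ W) (packF W (cs.map (wd T k))) j) * packF W (cs.map (wd T k))
    = l * packF W (cs.map fun c => wd T k cs[i] * (wd T k cs[j] * wd T k c)) := by
  have d1 := dgR_packF W (cs.map (wd T k)) i hlt (by rw [List.length_map]; exact hi)
  have d2 := dgR_packF W (cs.map (wd T k)) j hlt (by rw [List.length_map]; exact hj)
  rw [List.getElem_map] at d1 d2
  rw [d1, d2]
  have e3 : (fun c => wd T k cs[i] * (wd T k cs[j] * wd T k c))
    = fun c => (wd T k cs[i] * wd T k cs[j]) * wd T k c := by funext c; ring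
  rw [e3, packF_mulL]
  ring

attribute [local irreducible] wd packF cvalW in
theorem vrow_vl (W : ℕ) (hW : 10 ≤ W) (cs : List ℕ) (i j : ℕ) (hi : i < cs.length)
    (hj : j < cs.length) (L : CL) :
    vrow W (2 ^ W) i j (L.vl W cs) 0 = packF W (cs.map fun c => L.ws cs[i] cs[j] c) := by
  have hlt : ∀ (T : Tr ℕ) (k : ℕ), ∀ x ∈ cs.map (wd T k), x < 2 ^ W := by
    intro T k x hx
    obtain ⟨c, _, rfl⟩ := List.mem_map.1 hx
    have h10 : (1024 : ℕ) ≤ 2 ^ W :=
      calc (1024 : ℕ) = 2 ^ 10 := by norm_num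
        _ ≤ 2 ^ W := Nat.pow_le_pow_right (by norm_num) hW
    exact lt_of_lt_of_le (wd_lt T k c) h10
  rw [vrow_eq, Nat.zero_add]
  induction L with
  | nil =>
    have : (fun c => CL.nil.ws cs[i] cs[j] c) = fun _ => 0 := rfl
    rw [this, packF_zeroL]
    rfl
  | cons T l U L ih => exact ih
  | consw T l L ih =>
    rw [vl_consw, List.map_append, List.sum_append, ih, List.map_map]
    have e2 : packF W (cs.map fun c => (CL.consw T l L).ws cs[i] cs[j] c)
      = l * packF W (cs.map fun c => cvalW T cs[i] cs[j] c)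
        + packF W (cs.map fun c => L.ws cs[i] cs[j] c) := by
      rw [← packF_mulL, ← packF_addL]
      rfl
    rw [e2]
    refine congrArg (fun z => z + packF W (cs.map fun c => L.ws cs[i] cs[j] c)) ?_
    rw [cval_packF W cs T cs[i] cs[j], Finset.mul_sum]
    refine (list_sum_range _ 24).trans (Finset.sum_congr rfl fun k _ => ?_)
    exact vl_term W cs i j hi hj T l k (hlt T k)

/-- the codes with the root type `P` -/
def cls (P : ℕ) : List ℕ := lab5.filter fun c => Nat.beq (c % 16) P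

/-- the rows of one class are right -/
def RowsOK (W : ℕ) (Q : Tr (Tr ℕ)) (cs : List ℕ) (VP : List (ℕ × ℕ)) : Prop :=
  ∀ i, ∀ hi : i < cs.length, ∀ j < cs.length, (Q.get cs[i]).get j = vrow W (2 ^ W) i j VP 0

theorem rowsV_sound (W B : ℕ) (VP : List (ℕ × ℕ)) (t : Tr ℕ) (i n : ℕ) : ∀ j0 : ℕ,
    rowsV W B VP t i n j0 = true → ∀ j, j0 ≤ j → j < j0 + n → t.get j = vrow W B i j VP 0 := by
  induction n with
  | zero => intro j0 _ j h1 h2; omega
  | succ n ih =>
    intro j0 h j h1 h2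
    have e : rowsV W B VP t i (n + 1) j0 = Bool.rec (motive := fun _ => Bool) false
        (rowsV W B VP t i n (j0 + 1))
        (force (fun j => Nat.beq (Tr.get t j) (vrow W B i j VP 0)) j0) := rfl
    rw [e, force_eq] at h
    obtain ⟨h3, h4⟩ := brec h
    rcases Nat.eq_or_lt_of_le h1 with rfl | h5
    · exact Nat.eq_of_beq_eq_true h3
    · exact ih (j0 + 1) h4 j h5 (by omega)

theorem tabV_sound (W B : ℕ) (VP : List (ℕ × ℕ)) (Q : Tr (Tr ℕ)) (n : ℕ) (cs : List ℕ) :
    ∀ i0 : ℕ, tabV W B VP Q n cs i0 = true → ∀ m, ∀ hm : m < cs.length, ∀ j < n,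
      (Q.get cs[m]).get j = vrow W B (i0 + m) j VP 0 := by
  induction cs with
  | nil => intro i0 _ m hm; exact absurd hm (Nat.not_lt_zero _)
  | cons c cs ih =>
    intro i0 h m hm j hj
    have e : tabV W B VP Q n (c :: cs) i0 = Bool.rec (motive := fun _ => Bool) false
        (tabV W B VP Q n cs (i0 + 1))
        (force (fun i => rowsV W B VP (Tr.get Q c) i n 0) i0) := rfl
    rw [e, force_eq] at h
    obtain ⟨h3, h4⟩ := brec h
    cases m with
    | zero => exact rowsV_sound W B VP _ i0 n 0 h3 j (Nat.zero_le _) (by omega)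
    | succ m =>
      have := ih (i0 + 1) h4 m (by simpa using hm) j hj
      rw [show i0 + (m + 1) = i0 + 1 + m by omega]
      exact this

/-- chunks of 8 codes -/
theorem rows_of_chunks (W : ℕ) (VP : List (ℕ × ℕ)) (Q : Tr (Tr ℕ)) (cs : List ℕ)
    (h : ∀ k, 8 * k < cs.length →
      tabV W (2 ^ W) VP Q cs.length (List.take 8 (List.drop (8 * k) cs)) (8 * k) = true) :
    RowsOK W Q cs VP := by
  intro i hi j hj
  have h1 : 8 * (i / 8) < cs.length := lt_of_le_of_lt (Nat.mul_div_le i 8) hi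
  have hlen : i % 8 < (List.take 8 (List.drop (8 * (i / 8)) cs)).length := by
    rw [List.length_take, List.length_drop]
    have := Nat.div_add_mod i 8
    have := Nat.mod_lt i (show 0 < 8 by norm_num)
    omega
  have h2 := tabV_sound W (2 ^ W) VP Q cs.length _ _ (h (i / 8) h1) (i % 8) hlen j hj
  have e : (List.take 8 (List.drop (8 * (i / 8)) cs))[i % 8] = cs[i] := by
    rw [List.getElem_take, List.getElem_drop]
    congr 1
    exact Nat.div_add_mod i 8
  rw [e, Nat.div_add_mod] at h2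
  exact h2

theorem vok (W LT : ℕ) (Q : Tr (Tr ℕ)) (L : CL) (hW : 10 ≤ W)
    (hb : 24 * 2 ^ 30 * L.ls < 2 ^ W)
    (hLT : ∀ c ∈ lab5, (cls (c % 16))[locV LT c]? = some c)
    (hR : ∀ P < 16, ∃ VP, VP = L.vl W (cls P) ∧ RowsOK W Q (cls P) VP) : VOk W LT Q L := by
  intro a ha b hb' c hc hab hac
  obtain ⟨VP, hVP, hrow⟩ := hR (a % 16) (Nat.mod_lt _ (by norm_num))
  have la := hLT a ha
  have lb := hLT b hb'
  have lc := hLT c hc
  rw [← hab] at lb
  rw [← hac] at lc
  obtain ⟨ia, ea⟩ := List.getElem?_eq_some_iff.1 la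
  obtain ⟨ib, eb⟩ := List.getElem?_eq_some_iff.1 lb
  obtain ⟨ic, ec⟩ := List.getElem?_eq_some_iff.1 lc
  have h1 := hrow _ ia _ ib
  rw [ea, hVP, vrow_vl W hW (cls (a % 16)) _ _ ia ib L, ea, eb] at h1
  unfold lookV
  rw [force_eq, h1]
  have h2 := dgR_packF W ((cls (a % 16)).map fun c => L.ws a b c) (locV LT c) (by
    intro x hx
    obtain ⟨c', _, rfl⟩ := List.mem_map.1 hx
    exact lt_of_le_of_lt (ws_le L a b c') hb) (by rw [List.length_map]; exact ic)
  rw [List.getElem_map, ec] at h2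
  exact h2

end K4m.Ev
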