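import Mathlib
import Pool.Agent.Lib.MP_392c14_co.Ev.Bound
import Pool.Agent.Lib.MP_392c14_co.Ev.CutV

/-! The bound obtained from a checked certificate, with the test only for the codes of
`K_4^-`-free 3-graphs, and the evaluation with the merged table of the weighted cuts. -/

set_option autoImplicit false

namespace K4m.Ev

/-- the inequality for every graph -/
theorem Cert.graph_bound' (C : Cert) (hC : C.Good) (P : TG (Fin 7) → ℝ) (pp pn : ℕ → ℕ)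
    (hP : ∀ H, code7 H ∈ reps → ∑ σ : Equiv.Perm (Fin 7), P (H.pull σ)
      ≤ (pp (code7 H) : ℝ) - pn (code7 H))
    (p0 q0 c0 p1 q1 c1 Dm : ℕ) (hq0 : 0 < q0) (hq1 : 0 < q1)
    (hchk : ∀ K : TG (Fin 7), code7 K ∈ reps →
      C.test p0 q0 c0 p1 q1 c1 Dm pp pn (code7 K) = true)
    (s t : ℝ) (hs0 : 0 ≤ s) (hs1 : s ≤ 1) (H : TG (Fin 7)) :
    ∑ σ : Equiv.Perm (Fin 7), (P (H.pull σ)
        + C.h ((1 - s) * (p0 / q0) + s * (p1 / q1)) t (H.pull σ))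
      ≤ (1 - s) * c0 + s * c1 + |((1 - s) * (p0 / q0) + s * (p1 / q1)) - t| * Dm := by
  obtain ⟨τ, hτ⟩ := complete H
  have hsum := sum_pull_pull (fun K => P K
    + C.h ((1 - s) * (p0 / q0) + s * (p1 / q1)) t K) H τ
  rw [← hsum]
  generalize H.pull τ = K at hτ
  have ht := hchk _ hτ
  rw [C.test_eq] at ht
  have hp := hP K hτ
  have hk := chkR_sound _ _ _ _ _ _ _ _ _ _ _ _ _ _ _ _ _ _ _ _ hq0 hq1 ht s t hs0 hs1
  rw [Finset.sum_add_distrib, C.sum_h' hC]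
  refine le_trans ?_ hk
  linarith

/-- the bound on the penalty -/
theorem Cert.bound' (C : Cert) (hC : C.Good) (P : TG (Fin 7) → ℝ) (pp pn : ℕ → ℕ)
    (hP : ∀ H, code7 H ∈ reps → ∑ σ : Equiv.Perm (Fin 7), P (H.pull σ)
      ≤ (pp (code7 H) : ℝ) - pn (code7 H))
    (p0 q0 c0 p1 q1 c1 Dm : ℕ) (hq0 : 0 < q0) (hq1 : 0 < q1)
    (hchk : ∀ K : TG (Fin 7), code7 K ∈ reps →
      C.test p0 q0 c0 p1 q1 c1 Dm pp pn (code7 K) = true)
    (s t : ℝ) (hs0 : 0 ≤ s) (hs1 : s ≤ 1) (hr : rho = (1 - s) * (p0 / q0) + s * (p1 / q1))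
    {V : Type} [Fintype V] (G : TG V) (w : V → ℝ) (hw : IsW w) (hd : ∀ x, deg G w x = t) :
    Ex G w P ≤ ((1 - s) * c0 + s * c1 + |rho - t| * Dm) / 5040 := by
  have h1 : Ex G w (fun H => P H + C.h rho t H)
      ≤ ((1 - s) * c0 + s * c1 + |rho - t| * Dm) / 5040 := by
    refine Ex_le G w hw _ _ fun H => ?_
    have := C.graph_bound' hC P pp pn hP p0 q0 c0 p1 q1 c1 Dm hq0 hq1 hchk s t hs0 hs1 H
    rw [← hr] at this
    refine this.trans (le_of_eq ?_)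
    ring
  have h2 := C.Ex_h_nonneg hC G w hw t hd
  rw [Ex_add] at h1
  have h3 : Ex G w (fun H => C.h rho t H) = Ex G w (C.h rho t) := rfl
  rw [h3] at h1
  linarith

theorem evalV_eq (W B : ℕ) (Q : Tr (Tr ℕ)) (tab : Tr CD) (W3 B3 I3 : ℕ) (Q3 : Tr ℕ)
    (cl : CL) (Wv Bv LT : ℕ) (QV : Tr (Tr ℕ)) (Wm Bm Tm offm : ℕ) (M5 M3 MC MD : List ℕ)
    (k : ℕ → ℕ → ℕ → ℕ → ℕ → ℕ → Bool) (m : ℕ) :
    evalV W B Q tab W3 B3 I3 Q3 cl Wv Bv LT QV Wm Bm Tm offm M5 M3 MC MD k m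
      = k (s5 W B Q tab 21 (scat M5 m 0) 0) (s3 W3 B3 I3 Q3 105 (scat M3 m 0) 0)
        (cutsR 1 (scat MC m 0) cl (cutV Wv Bv LT QV 1 35 (scat MC m 0) 0))
        (cutsR 0 (scat MC m 0) cl (cutV Wv Bv LT QV 0 35 (scat MC m 0) 0))
        (dsum Wm Bm Tm offm 1 105 (scat MD m 0) 0) (dsum Wm Bm Tm offm 0 105 (scat MD m 0) 0) := by
  unfold evalV
  simp only [force_eq]

/-- the evaluation with the merged table agrees with the evaluation of all weighted cuts -/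
theorem evalV_evalR (W B : ℕ) (Q : Tr (Tr ℕ)) (tab : Tr CD) (W3 B3 I3 : ℕ) (Q3 : Tr ℕ)
    (L : CL) (Wv LT : ℕ) (QV : Tr (Tr ℕ)) (Wm Bm Tm offm : ℕ) (M5 M3 MD : List ℕ)
    (k : ℕ → ℕ → ℕ → ℕ → ℕ → ℕ → Bool) (hV : VOk Wv LT QV L) (H : TG (Fin 7)) :
    evalR W B Q tab W3 B3 I3 Q3 L Wm Bm Tm offm M5 M3 masksC MD k (code7 H)
      = evalV W B Q tab W3 B3 I3 Q3 L.u Wv (2 ^ Wv) LT QV Wm Bm Tm offm M5 M3 masksC MD k
        (code7 H) := by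
  rw [evalV_eq, evalR_eq, cuts_V Wv LT QV L hV 1 H, cuts_V Wv LT QV L hV 0 H]

end K4m.Ev
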