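import Pool.Agent.Lib.MP_392c14_co.Ev.Chk

/-! Kernel functions for the functionals supported on the copies of the six vertex design
(raw operations, no Mathlib). -/

set_option autoImplicit false

namespace K4m.Ev

/-- finite table with a default value -/
inductive WL where
  | nil : Nat → WL
  | cons : Nat → Nat → WL → WL

noncomputable def wl (W : WL) : Nat → Nat :=
  WL.rec (motive := fun _ => Nat → Nat) (fun d _ => d)
    (fun k w _ ih x => Bool.rec (motive := fun _ => Nat) (ih x) w (Nat.beq x k)) W

/-- codes with masks -/
inductive DL where
  | nil : DL
  | cons : Nat → List Nat → DL → DL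

/-- sum of the weights `wl W (relabelled l)` over the entries of `D` with code `c` -/
noncomputable def pjc (W : WL) (D : DL) (c l : Nat) : Nat → Nat :=
  DL.rec (motive := fun _ => Nat → Nat) (fun acc => acc)
    (fun d M _ ih acc => ih (Bool.rec (motive := fun _ => Nat) acc
      (Nat.add acc (force (wl W) (scat M l 0))) (Nat.beq c d))) D

/-- `n` fields of 35 bits (a code of 20 bits and a link of 15 bits) -/
noncomputable def pj7 (W : WL) (D : DL) (n : Nat) : Nat → Nat → Nat :=
  Nat.rec (motive := fun _ => Nat → Nat → Nat) (fun _ acc => acc)
    (fun _ ih out acc => ih (Nat.shiftRight out 35)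
      (force (fun x => force (fun c => pjc W D c (Nat.div x 1048576) acc) (Nat.mod x 1048576))
        (Nat.mod out 34359738368))) n

end K4m.Ev
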