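import Mathlib
import Pool.Agent.Lib.MP_392c14_co.Lower
import Pool.Agent.Lib.MP_392c14_co.Ev.Base
import Pool.Agent.Lib.MP_392c14_co.Ev.PermC
import Pool.Agent.Lib.MP_392c14_co.Ev.Chk6

/-! Functionals of the type: the first six vertices form the standard copy of the design, weighted
by a function of the link of the seventh vertex. -/

set_option autoImplicit false
set_option maxRecDepth 100000

namespace K4m.Ev

/-- moving the vertex `v` to the end -/
def S7 : List ℕ :=
  [219345, 481488, 743624, 1005704, 1267336, 1525384, 1754760]

/-- representatives of the cosets of the automorphism group of the design -/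
def P12 : List ℕ :=
  [1754760, 1726088, 1751176, 1693832, 1718920, 1690248, 1747144, 1661128, 1714888, 1657544,
  1682184, 1653512]

/-- the automorphisms of the design -/
def K60 : List ℕ :=
  [1754760, 1725640, 1751120, 1692432, 1714776, 1655640, 1677984, 1619296, 1644776, 1615656,
  1726081, 1754305, 1718801, 1687889, 1746969, 1659161, 1641185, 1582945, 1673385, 1586473, 1693762,
  1749762, 1690122, 1716554, 1608474, 1579354, 1742370, 1626338, 1705578, 1589994, 1657411, 1712963,
  1660939, 1745163, 1579795, 1608019, 1737827, 1594019, 1709099, 1622187, 1620612, 1676612, 1583820,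
  1640268, 1627668, 1741012, 1594460, 1737372, 1679916, 1650796, 1616069, 1644293, 1587341, 1672461,
  1590869, 1704661, 1623069, 1708189, 1651237, 1679461]

/-- code of the design -/
def d0 : ℕ := 242467

/-- the 12 labelled designs -/
def D12 : List ℕ :=
  [242467, 248515, 357141, 420505, 378309, 435625, 612950, 670266, 628070, 691434, 800060, 806108]

/-- ordered blocks -/
def BB : ℕ :=
  46133567122635015609515964846883243859877118515737526319036346834486548682061940224

def S84keys : List ℕ :=
  
  [6648547702488666292506337909703414914297711536973419201981486884938686135610925565574781345703395328,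
  6665506238843392397836663652918733677052447825272602807216079380263356593146418905865965383045873664,
  10989933009299551622685976080671653058553948320399761625164786371369085951951693248820199313144545280,
  13177062652664627518131835642985210125775957194072883264726678610973263090427284445376218399877627904,
  11041994515524000631666247507334961626232244737188986955469598200998582982556874637837507530193895424,
  13212165622534350421781781326433199930699517322562924989796897945278089663496972494102342579584499712,
  19993251832305347251959370615123453369325614716939683158179313656399993544678680948120564349670522880,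
  22163422939315697042074904434221691673792887302313621192506613400679500225618778804385399399061127168,
  20028354802175070155609316298571443174249174845429724883249532990704820117748368996846688529377394688,
  22215484445540146051055175860885000241471183719102846522811425230308997256223960193402707616110477312,
  26539911215996305275904488288637919622972684214230005340760132221414726615029234536356941546209148928,
  26556869752351031381234814031853238385727420502529188945994724716739397072564727876648125583551627264,
  5546378197925551282393414005522742284742279899465171525686799742358777472602321047281603876338663424,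
  5571813965167034608864624546217990997104203392687484694108897535976934076312580499789377468272869376,
  9887763504736436612690725661021978511934427453128214685535270893530055513214506421608620432141451264,
  13168451857912232961254110186195493484524857937378665683951911051970003895471580998105256823773331456,
  9948368486130278491660828470096227954706113285181751314320007130204629246130978533932673041431658496,
  13203621072064591513753002454574494214934620276209889144314549495026421024677793657921535841129332736,
  18899559558628989478163592057823426301474196623948547025649635167166808435281755503917438521104400384,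
  22154812144563302500255766042301692561702703614976684855644177531988600213828570627906301320802074624,
  18934728772781348030662484326202427031883958962779770486012273610223225564487968163733717538460401664,
  22215417125957144379225868851375942004474389447030221484428913768663173946745042740230353930092281856,
  26531366665526546383051969966179929519304613507470951475855287126216295383646968662049596893960863744,
  26556802432768029709523180506875178231666537000693264644277384919834451987357228114557370485895069696,
  3358973277666777389097986397798521383416713077948316512648864210073049833812327969407269854418832384,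
  3367450508553534610238871195278451333023900282871446075836369508366535979987094081623859409010560000,
  9870529691488012509754407656034055285917722498227672217199395652309446194039363276787893576407192576,
  10964088401298732962871932618894013191286144108805001576054143571145217437820846656728510881305990144,
  9931271793857907993816893065427425586289051391486066003004768451608291400051352693420806618948314112,
  11016353272781871225793533230807453542050285797140265798672011072150576497658069961144834369255384064,
  18882325745380565405351686092777967615714717669668752189257156693491206285921300234449964433898739712,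
  19967407224304528637328326258157995571475952075322951984924399314033491383528017502173992184205809664,
  18934590616863703668273286704691407966478859358004016411875024194496565345758523538866287921848133632,
  20028149326674424121390811667551365871847280968581345770729772113332336589540006918806905226746931200,
  26531228509608902020906348128306969824741103183937571912092798257275246803592276113970939394143563776,
  26539705740495659242047232925786899774348290388860701475280303555568732949767042226187528948735291392,
  3323605362749828391785951610342201154972307243495969364603210968865534406554498869769503795436882432,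
  3332148837919221261775782992753142030065696658760280663083135375910611108865789593076248187677739520,
  5493776469760178182145061213078498830281169110112281909305271259930652726169348802823110961622454784,
  6587401423853534284229206245400465744071703701267493740117609952258892750358774484935481692532019712,
  5519415602260350762557600939023879325728937874880633970040424724924671359111650170729899824456704512,
  6604497081184313994651914588934905364426083050771534502372839010207834680989785129535526163125412352,
  18882127044615975022893944185057767789613898214256266325037556620301217178667600846584491642704893952,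
  19967208523539938254988257834968793828311043390147166857369970905584380500545735805390117981373601792,
  18899222701946754733316652528592207409968277563760307087292785678250159109298611491184536113298286592,
  19992847656040110835400797560914174323758812154915518918105124370578399133488037173296906844207851520,
  22154475287881067755770075781239531123974284606267520164327260254598440750791596383043769618152566784,
  22163018763050460625759907163650471999067674021531831462807184661643517453102887106350514010393423872,
  3281215197901463711910463641008022914055690733774231159184323143405485355741468791098918615202170368,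
  3281281442184099360759410225939033839541892944115412894476742252157075911877993402189073452851299840,
  5468344841266539637724311026902103892376514889310474941064372697340281302706499939796962587258819072,
  6561969795359895754867043124093788335327965049822968015789043079980880510061420892701196816013627904,
  5468548206525228891665640212152235675462360160856513833377428368716143331938541855195977858158862848,
  6562106916335949359959425724412909192927608111027825172809679642605151983156938197010057249264542208,
  9844899362229783582875915562137460521912248822013379384738897016529085663322815025896272410849711104,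
  10938458072040504051169701074398134039377496772184690724171148290418094314541211367710351801955390464,
  9845036483205837187968298162456581379511891883218236541759533579153357136418332330205132844100625408,
  10938661437299193305111030259648265822463342043730729616484203961793956343773253283109367072855434240,
  13125724836381633582075931060611335875297963988925791663071834406977161734601759820717256207262953472,
  13125791080664269230924877645542346800784166199266973398364253515728752290738284431807411044912082944,
  25970889462840523978371064250217193503133680484030997495022878690643081513169816431263743450842624,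
  26037133745476172944991133712226201925246661061913469452613652183111861921112118603017169461609984,
  42929425817566659433108847408000496515095969403962234673012141560320708863351032075700549321918976,
  51472900986959544599200779219656983705311724262255513730439903658634818611554717255907027769657856,
  43132791076255913735687300827189733378441292429076374026000024462672601041562715345086525378568704,
  51610021963013149935159163176837212146544066709487181125837013068517930381824098353539577815540224,
  78098639969925274405075211675118981794593118680524255164236974318725253138898434929592405471661056,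
  86575870856682510604547074024766460562695892960935062264073962924570582479159817938045457908632576,
  78235760945978879741033595632299210235825461127755922559634083728608364909167816027224955517543424,
  86779236115371764907125527443955697426041215986049201617061845826922474657371501207431433965282304,
  103671528187462251395243241139729992015890524328097966837460335204131321599610414680114813825591296,
  103737772470097900361863310601739000438003504905980438795051108696600102007552716851868239836358656,
  46133567122635015609515964846883243859877118515737526319036346834486548682061940224,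
  46251240607166013692451875617119944596542290180478404543307764525568147270423578112,
  76257979162577480149773190847503991491820515283282533488851034709839801450590538240,
  91434239711978195761870017187097973472398018638335770896287947671713263536797420032,
  76619228430746537603550690898983066738860447494809023351797204477710172155747144192,
  91677815495616255132711606468340347982772779185121382534962699748502035653592388096,
  138731053258465597904642925657949330051949101672984520903920369452877414289384279040,
  153789640323335315433803841227306611295861433363296880087085864723669277787229522944,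
  138974629042103657275484514939191704562323862219770132542595121529666186406179247104,
  154150889591504372887581341278785686542901365574823369950032034491539648492386128896,
  184157628146915839344902656509169733438179590677627498895575304675811302672553089024,
  184275301631446837427838567279406434174844762342368377119846722366892901260914726912]

noncomputable def DLst : DL :=
  (.cons 242467 [1, 2, 4, 8, 16, 32, 64, 128, 256, 512, 1024, 2048, 4096, 8192, 16384] (.cons 248515
  [1, 2, 4, 8, 16, 32, 1024, 2048, 4096, 8192, 64, 128, 256, 512, 16384] (.cons 357141 [1, 2, 4, 64,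
  128, 256, 8, 16, 32, 512, 1024, 2048, 4096, 16384, 8192] (.cons 420505 [1, 2, 4, 1024, 2048, 4096,
  8, 16, 32, 8192, 64, 128, 256, 16384, 512] (.cons 378309 [1, 2, 4, 64, 128, 256, 1024, 2048, 4096,
  16384, 8, 16, 32, 512, 8192] (.cons 435625 [1, 2, 4, 1024, 2048, 4096, 64, 128, 256, 16384, 8, 16,
  32, 8192, 512] (.cons 612950 [1, 64, 128, 2, 4, 256, 8, 16, 512, 32, 1024, 2048, 16384, 4096,
  8192] (.cons 670266 [1, 1024, 2048, 2, 4, 4096, 8, 16, 8192, 32, 64, 128, 16384, 256, 512] (.cons
  628070 [1, 64, 128, 2, 4, 256, 1024, 2048, 16384, 4096, 8, 16, 512, 32, 8192] (.cons 691434 [1,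
  1024, 2048, 2, 4, 4096, 64, 128, 16384, 256, 8, 16, 8192, 32, 512] (.cons 800060 [1, 64, 128,
  1024, 2048, 16384, 2, 4, 256, 4096, 8, 16, 512, 8192, 32] (.cons 806108 [1, 1024, 2048, 64, 128,
  16384, 2, 4, 4096, 256, 8, 16, 8192, 512, 32] .nil))))))))))))

def masksJ : List ℕ :=
  [1645504557369096527808422005955997579584676352675962949932679168,
  3291009114738193055616844054447209892172367133612916207444295680,
  6582018229476386111233688108894419786820611984469236376148115456,
  13164036458952772222467376217788839573641223969082587871644221441,
  26328072917905545906414088680999780926622178126382834630589939712,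
  52656145835811091812828177361999561863147871844105767907143712768,
  105312291671622183625656354723999123726295743688787996429118341122,
  210624583343244367251312709788279965296808557451578426683702640640,
  421249166686488734502625419576559930593617114904309774597067112452,
  842498333372977469005250839153119861226848292173979943777989558280,
  1684996716913728870260156854370241482423901726691127324942660534272,
  3369993433827457740520313708740482964927031578112975439053031735296,
  6739986867654915481040627417480965929854063156230562563024710795280,
  13479973735309830962081254837684185602461862873053144596653149257728,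
  26959947470619661924162509675368371204923725746115512563143593164832,
  53919894941239323848325019350736742410164363991153908282958028996672,
  107839789882478647790184716221180499334206470714353746734703353790464,
  215679579764957295580369432442360998668412941428725940204683250368640,
  431359159529914591160738864884721997337459707553066191823448938905856,
  862718319059829182321477729791222024618216958493402010684378293731840,
  1725436586697689986715998101260416577715901980710025629284425615278080,
  3450873173395379973431996202520833155433071609602354061799979118231552,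
  6901746346790759946863992405041666310866143219204781910505880035525632,
  13803492693581519893727984810126888432386097015520698692552316231352320,
  27606985387163039787455969620253776864772194031041544958916476060829696,
  55213970774326079574911939240507553729549458654812301130757463672360960,
  110427941548652159151320364813441170054476919612536084655600576556433408,
  220855883097304318302640729626882340108953839225072464458543365332410368,
  441711766194608636605281459253764680217917819616260538229383161947635712,
  883423532389217273210562918507877806921086406278357800806406520322424832,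
  1766847064829806346999585280904113638622289479533834496955546505253486592,
  3533694129659612693999170561808227277244578959067669584202399735225581568,
  7067388259319225387998341123616454554489178200235456629666761231193735168,
  14134776518638450775996682247233605985998121985375709990549126933421228032,
  28269553037276901552017308275790210379197914707978118829878149451585421312]

/-- the links of the vertices of the design (15 bits: the pairs in colexicographic order) -/
def clones : List ℕ := [24852, 21002, 10817, 5505, 3122, 236]

/-- sources of `code7 (H.pull f)` -/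
noncomputable def cs7 (f : Fin 7 → Fin 7) : List ℕ :=
  trs.map fun t => C.tid (f t.1) (f t.2.1) (f t.2.2)

theorem code7_pull (H : TG (Fin 7)) (f : Fin 7 → Fin 7) :
    code7 (H.pull f) = gath (cs7 f) (code7 H) := by
  rw [code7_eq, gath, cs7, List.map_map]
  congr 1
  refine List.map_congr_left fun t _ => ?_
  show H.E (f t.1) (f t.2.1) (f t.2.2) = _
  simp only [Function.comp_apply, tb]

theorem cs7_length (f : Fin 7 → Fin 7) : (cs7 f).length = 35 := by
  rw [cs7, List.length_map]; rfl

theorem gath_append (A B : List ℕ) (m : ℕ) :
    gath (A ++ B) m = gath A m + 2 ^ A.length * gath B m := by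
  induction A with
  | nil => simp [gath, bits]
  | cons a l ih =>
    have h1 : gath ((a :: l) ++ B) m = (m.testBit a).toNat + 2 * gath (l ++ B) m := rfl
    have h2 : gath (a :: l) m = (m.testBit a).toNat + 2 * gath l m := rfl
    rw [h1, h2, ih, List.length_cons, pow_succ]; ring

theorem gath_congr (A : List ℕ) (m m' : ℕ) (h : ∀ t ∈ A, m.testBit t = m'.testBit t) :
    gath A m = gath A m' := by
  unfold gath
  rw [List.map_congr_left h]

theorem gath_sub (A : List ℕ) (k m : ℕ) (h : ∀ t ∈ A, k ≤ t) :
    gath A m = gath (A.map fun t => t - k) (m / 2 ^ k) := by
  unfold gath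
  rw [List.map_map]
  congr 1
  refine List.map_congr_left fun t ht => ?_
  simp only [Function.comp_apply]
  rw [Nat.testBit_div_two_pow, Nat.sub_add_cancel (h t ht)]

theorem gath_mod (A : List ℕ) (k m : ℕ) (h : ∀ t ∈ A, t < k) :
    gath A m = gath A (m % 2 ^ k) := by
  refine gath_congr A _ _ fun t ht => ?_
  rw [Nat.testBit_mod_two_pow]
  simp [h t ht]

theorem testBit_gath (A : List ℕ) (m n : ℕ) :
    (gath A m).testBit n = ((A[n]?).map fun i => m.testBit i).getD false := by
  unfold gath
  rw [testBit_bits, List.getElem?_map]

/-- `gath` is injective if all positions are read -/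
theorem gath_inj (A : List ℕ) (k x y : ℕ) (hA : ∀ t < k, t ∈ A) (hx : x < 2 ^ k) (hy : y < 2 ^ k)
    (h : gath A x = gath A y) : x = y := by
  apply Nat.eq_of_testBit_eq
  intro i
  by_cases hi : i < k
  · obtain ⟨n, hn, hn'⟩ := List.getElem_of_mem (hA i hi)
    have h1 := testBit_gath A x n
    have h2 := testBit_gath A y n
    rw [h] at h1
    rw [h2, List.getElem?_eq_getElem hn, hn'] at h1
    simpa using h1.symm
  · rw [Nat.testBit_lt_two_pow (lt_of_lt_of_le hx (Nat.pow_le_pow_right (by norm_num) (by omega))),
      Nat.testBit_lt_two_pow (lt_of_lt_of_le hy (Nat.pow_le_pow_right (by norm_num) (by omega)))]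

/-- sources of the code of the first six vertices -/
noncomputable def sA (p : ℕ) : List ℕ := (cs7 (vec p)).take 20

/-- sources of the link of the seventh vertex -/
noncomputable def sB (p : ℕ) : List ℕ := ((cs7 (vec p)).drop 20).map fun t => t - 20

/-- the value as a function of the code -/
noncomputable def FJ (W : WL) (m : ℕ) : ℕ := if m % 2 ^ 20 = d0 then wl W (m / 2 ^ 20) else 0

/-- all tests for one permutation fixing the last vertex, which maps the labelled design `d` to
the standard one -/
def okP (p d : ℕ) : Prop :=
  C.isPerm p = true ∧ (∀ t ∈ sA p, t < 20) ∧ (∀ t < 20, t ∈ sA p) ∧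
    (∀ t ∈ (cs7 (vec p)).drop 20, 20 ≤ t) ∧ (∀ t ∈ sB p, t < 15) ∧ (∀ t < 15, t ∈ sB p) ∧
      gath (sA p) d = d0 ∧ d < 2 ^ 20

theorem FJ_gath (W : WL) (p d m : ℕ) (h : okP p d) :
    FJ W (gath (cs7 (vec p)) m) =
      if m % 2 ^ 20 = d then wl W (gath (sB p) (m / 2 ^ 20)) else 0 := by
  obtain ⟨-, h1, h2, h3, -, -, h6, h7⟩ := h
  have hl : (sA p).length = 20 := by
    rw [sA, List.length_take, cs7_length]; rfl
  have e : gath (cs7 (vec p)) m = gath (sA p) (m % 2 ^ 20) + 2 ^ 20 * gath (sB p) (m / 2 ^ 20) := by
    conv_lhs => rw [← List.take_append_drop 20 (cs7 (vec p)), gath_append]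
    rw [show (List.take 20 (cs7 (vec p))) = sA p from rfl, hl, gath_mod (sA p) 20 m h1,
      gath_sub _ 20 m h3]
    rfl
  have hA : gath (sA p) (m % 2 ^ 20) < 2 ^ 20 := by
    have := gath_lt (sA p) (m % 2 ^ 20)
    rwa [hl] at this
  rw [FJ, e, Nat.add_mul_mod_self_left, Nat.mod_eq_of_lt hA, Nat.add_mul_div_left _ _ (by norm_num),
    Nat.div_eq_of_lt hA, Nat.zero_add]
  have key : gath (sA p) (m % 2 ^ 20) = d0 ↔ m % 2 ^ 20 = d := by
    constructor
    · intro h
      exact gath_inj (sA p) 20 _ _ h2 (Nat.mod_lt _ (by norm_num)) h7 (h.trans h6.symm)
    · intro h; rw [h, h6]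
  simp only [key]

noncomputable instance (p d : ℕ) : Decidable (okP p d) := by
  unfold okP; infer_instance

theorem K60_ok : ∀ k ∈ K60, okP k d0 := by decide +kernel

theorem P12_ok : ∀ q ∈ P12.zip D12, okP q.1 q.2 := by decide +kernel

/-- colour of the ordered triples: the blocks -/
def beta3J (i j k : Fin 7) : ℕ := (BB.testBit (49 * (i : ℕ) + 7 * (j : ℕ) + (k : ℕ))).toNat

def pkey3 (σ : Fin 7 → Fin 7) : ℕ :=
  ∑ i : Fin 7, ∑ j : Fin 7, ∑ k : Fin 7,
    beta3J i j k * 2 ^ (49 * (σ i : ℕ) + 7 * (σ j : ℕ) + (σ k : ℕ))

theorem pkey3_mul (s k : Equiv.Perm (Fin 7)) (hk : ∀ i j l, beta3J (k i) (k j) (k l) = beta3J i j l) :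
    pkey3 (s * k : Equiv.Perm (Fin 7)) = pkey3 s := by
  unfold pkey3
  rw [← Equiv.sum_comp k (fun i => ∑ j : Fin 7, ∑ l : Fin 7,
    beta3J i j l * 2 ^ (49 * (s i : ℕ) + 7 * (s j : ℕ) + (s l : ℕ)))]
  refine Finset.sum_congr rfl fun i _ => ?_
  rw [← Equiv.sum_comp k (fun j => ∑ l : Fin 7,
    beta3J (k i) j l * 2 ^ (49 * (s (k i) : ℕ) + 7 * (s j : ℕ) + (s l : ℕ)))]
  refine Finset.sum_congr rfl fun j _ => ?_
  rw [← Equiv.sum_comp k (fun l =>
    beta3J (k i) (k j) l * 2 ^ (49 * (s (k i) : ℕ) + 7 * (s (k j) : ℕ) + (s l : ℕ)))]
  refine Finset.sum_congr rfl fun l _ => ?_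
  rw [hk]; rfl

/-- composition of coded permutations -/
def comp (s p : ℕ) : ℕ := enc fun i => vec s (vec p i)

def S84 : List ℕ := S7.flatMap fun s => P12.map fun p => comp s p

theorem S84_perm : ∀ s ∈ S84, C.isPerm s = true := by decide +kernel

theorem comp_vec : ∀ s ∈ S7, ∀ p ∈ P12, ∀ i, vec (comp s p) i = vec s (vec p i) := by
  decide +kernel

theorem S84_keys : (S84.map fun s => pkey3 (vec s)) = S84keys := by decide +kernel

theorem S84_nodup : S84keys.Nodup := by decide +kernel

theorem K60_nodup : K60.Nodup := by decide +kernel

theorem K60_pres : ∀ k ∈ K60, ∀ i j l, beta3J (vec k i) (vec k j) (vec k l) = beta3J i j l := by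
  decide +kernel

theorem K60_enc : ∀ k ∈ K60, enc (vec k) = k := by decide +kernel

theorem S84_length : S84.length = 84 := by decide +kernel

theorem enc_toP (s : ℕ) (h : C.isPerm s = true) : enc (toP s) = enc (vec s) := by
  unfold enc
  simp only [toP_apply s h]

/-- the sum over the symmetric group of a function invariant under the automorphisms -/
theorem sum_84 (f : Equiv.Perm (Fin 7) → ℤ) (hf : ∀ k ∈ K60, ∀ σ, f (σ * toP k) = f σ) :
    ∑ σ, f σ = 60 * (S84.map fun s => f (toP s)).sum := by
  have hK : (K60.map toP).Nodup := by
    have : (K60.map toP).map (fun k : Equiv.Perm (Fin 7) => enc k) = K60 := by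
      rw [List.map_map]
      conv_rhs => rw [← List.map_id K60]
      refine List.map_congr_left fun k hk => ?_
      show enc (toP k) = k
      rw [enc_toP k (K60_ok k hk).1, K60_enc k hk]
    exact List.Nodup.of_map (fun k : Equiv.Perm (Fin 7) => enc k) (by rw [this]; exact K60_nodup)
  have h := sum_cosets_gen (fun σ : Equiv.Perm (Fin 7) => pkey3 σ) (S84.map toP) (K60.map toP)
    ?_ hK ?_ ?_ f
  · rw [h, List.map_map, ← List.sum_map_mul_left]
    congr 1
    refine List.map_congr_left fun s _ => ?_
    show ((K60.map toP).map fun k => f (toP s * k)).sum = 60 * f (toP s)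
    rw [List.map_map]
    have : K60.map ((fun k => f (toP s * k)) ∘ toP) = K60.map (fun _ => f (toP s)) :=
      List.map_congr_left fun k hk => hf k hk (toP s)
    rw [this, List.map_const', List.sum_replicate, nsmul_eq_mul]
    rfl
  · rw [List.map_map]
    have : S84.map ((fun σ : Equiv.Perm (Fin 7) => pkey3 σ) ∘ toP)
        = S84.map fun s => pkey3 (vec s) := by
      refine List.map_congr_left fun s hs => ?_
      show pkey3 (toP s) = _
      congr 1
      funext i
      exact toP_apply s (S84_perm s hs) i
    rw [this, S84_keys]; exact S84_nodup
  · intro k hk s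
    obtain ⟨k', hk', rfl⟩ := List.mem_map.1 hk
    refine pkey3_mul s (toP k') fun i j l => ?_
    have hp := (K60_ok k' hk').1
    rw [toP_apply _ hp, toP_apply _ hp, toP_apply _ hp]
    exact K60_pres k' hk' i j l
  · rw [List.length_map, List.length_map, S84_length]; rfl

/-! ### the tables -/

def WL.keys : WL → List ℕ
  | .nil _ => []
  | .cons k _ W => k :: W.keys

theorem wl_nil (d x : ℕ) : wl (.nil d) x = d := rfl

theorem wl_cons (k w : ℕ) (W : WL) (x : ℕ) :
    wl (.cons k w W) x = if x = k then w else wl W x := by
  have h : wl (.cons k w W) x = Bool.rec (motive := fun _ => ℕ) (wl W x) w (Nat.beq x k) := rfl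
  rw [h]
  by_cases hx : x = k
  · subst hx; rw [Nat.beq_refl, if_pos rfl]
  · have : Nat.beq x k = false := by
      cases hb : Nat.beq x k
      · rfl
      · exact absurd (Nat.eq_of_beq_eq_true hb) hx
    rw [this, if_neg hx]

theorem wl_not_mem (W : WL) (x y : ℕ) (hx : x ∉ W.keys) (hy : y ∉ W.keys) : wl W x = wl W y := by
  induction W with
  | nil d => rfl
  | cons k w W ih =>
    simp only [WL.keys, List.mem_cons, not_or] at hx hy
    rw [wl_cons, wl_cons, if_neg hx.1, if_neg hy.1, ih hx.2 hy.2]

/-- the table is invariant under the automorphisms of the design -/
def WOk (W : WL) : Prop :=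
  W.keys.Nodup ∧ (∀ x ∈ W.keys, x < 2 ^ 15) ∧
    ∀ k ∈ K60, ∀ x ∈ W.keys, gath (sB k) x ∈ W.keys ∧ wl W (gath (sB k) x) = wl W x

noncomputable instance (W : WL) : Decidable (WOk W) := by
  unfold WOk; infer_instance

theorem WOk.inv {W : WL} (h : WOk W) (k : ℕ) (hk : k ∈ K60) (x : ℕ) (hx : x < 2 ^ 15) :
    wl W (gath (sB k) x) = wl W x := by
  obtain ⟨h1, h2, h3⟩ := h
  obtain ⟨-, -, -, -, -, h15, -, -⟩ := K60_ok k hk
  by_cases hm : x ∈ W.keys
  · exact (h3 k hk x hm).2
  · refine wl_not_mem W _ _ ?_ hm
    intro hg
    have hinj : Set.InjOn (gath (sB k)) (W.keys.toFinset : Set ℕ) := by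
      intro a ha b hb hab
      rw [List.coe_toFinset] at ha hb
      exact gath_inj (sB k) 15 a b h15 (h2 a ha) (h2 b hb) hab
    have himg : W.keys.toFinset.image (gath (sB k)) = W.keys.toFinset := by
      apply Finset.eq_of_subset_of_card_le
      · intro y hy
        obtain ⟨a, ha, rfl⟩ := Finset.mem_image.1 hy
        exact List.mem_toFinset.2 (h3 k hk a (List.mem_toFinset.1 ha)).1
      · rw [Finset.card_image_of_injOn hinj]
    have : gath (sB k) x ∈ W.keys.toFinset.image (gath (sB k)) := by
      rw [himg]; exact List.mem_toFinset.2 hg
    obtain ⟨a, ha, hax⟩ := Finset.mem_image.1 this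
    have ha' := List.mem_toFinset.1 ha
    have := gath_inj (sB k) 15 a x h15 (h2 a ha') hx hax
    exact hm (this ▸ ha')

/-! ### the kernel function -/

def DL.toL : DL → List (ℕ × List ℕ)
  | .nil => []
  | .cons d M D => (d, M) :: D.toL

theorem pjc_eq (W : WL) (D : DL) (c l : ℕ) : ∀ acc : ℕ,
    pjc W D c l acc = acc + (D.toL.map fun q => if c = q.1 then wl W (scat q.2 l 0) else 0).sum := by
  induction D with
  | nil => intro acc; rfl
  | cons d M D ih =>
    intro acc
    have h : pjc W (.cons d M D) c l acc = pjc W D c l (Bool.rec (motive := fun _ => ℕ) acc
      (acc + force (wl W) (scat M l 0)) (Nat.beq c d)) := rfl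
    rw [h, ih, DL.toL, List.map_cons, List.sum_cons]
    by_cases hc : c = d
    · subst hc; rw [Nat.beq_refl, if_pos rfl, force_eq]; simp only [Nat.add_assoc]
    · have : Nat.beq c d = false := by
        cases hb : Nat.beq c d
        · rfl
        · exact absurd (Nat.eq_of_beq_eq_true hb) hc
      rw [this, if_neg hc, Nat.zero_add]

theorem DLst_eq : DLst.toL = (P12.zip D12).map fun q => (q.2, masksOf 15 [sB q.1] 0 15) := by
  decide +kernel

theorem pjc_FJ (W : WL) (m acc : ℕ) :
    pjc W DLst (m % 2 ^ 20) (m / 2 ^ 20) acc =
      acc + ((P12.zip D12).map fun q => FJ W (gath (cs7 (vec q.1)) m)).sum := by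
  rw [pjc_eq, DLst_eq, List.map_map]
  refine congrArg (fun z => acc + z) (congrArg List.sum ?_)
  refine List.map_congr_left fun q hq => ?_
  have h := P12_ok q hq
  rw [FJ_gath W q.1 q.2 m h]
  simp only [Function.comp_apply]
  rw [scat_masksOf 15 [sB q.1] 15 _ (by
    intro s hs t ht
    rw [List.mem_singleton] at hs; subst hs
    exact h.2.2.2.2.1 t ht)]
  simp [packF]

theorem P12_zip : (P12.zip D12).map (fun q => q.1) = P12 := by decide +kernel

theorem P12_map (g : ℕ → ℕ) : ((P12.zip D12).map fun q => g q.1) = P12.map g := by
  have h := congrArg (List.map g) P12_zip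
  rw [List.map_map] at h
  exact h

theorem pj7_succ (W : WL) (D : DL) (n out acc : ℕ) :
    pj7 W D (n + 1) out acc = pj7 W D n (out >>> 35)
      (force (fun x => force (fun c => pjc W D c (x / 1048576) acc) (x % 1048576))
        (out % 34359738368)) := rfl

theorem pj7_eq (W : WL) (l : List ℕ) (hl : ∀ x ∈ l, x < 2 ^ 35) : ∀ acc : ℕ,
    pj7 W DLst l.length (packF 35 l) acc =
      acc + (l.map fun x => (P12.map fun p => FJ W (gath (cs7 (vec p)) x)).sum).sum := by
  induction l with
  | nil => intro acc; rfl
  | cons a l ih =>
    intro acc
    have e : (2 : ℕ) ^ 35 = 34359738368 := by norm_num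
    have e2 : (2 : ℕ) ^ 20 = 1048576 := by norm_num
    have h1 := packF_mod 35 a l (hl a List.mem_cons_self)
    have h2 := packF_div 35 a l (hl a List.mem_cons_self)
    rw [List.length_cons, pj7_succ, force_eq, force_eq, Nat.shiftRight_eq_div_pow, h2, ← e, h1,
      ← e2, pjc_FJ,
      ih (fun x hx => hl x (List.mem_cons_of_mem _ hx)), List.map_cons, List.sum_cons]
    rw [P12_map (fun p => FJ W (gath (cs7 (vec p)) a)), Nat.add_assoc]

theorem masksJ_eq : masksJ = masksOf 35 (S7.map fun s => cs7 (vec s)) 0 35 := by decide +kernel

theorem srcJ_lt : ∀ s ∈ S7.map (fun s => cs7 (vec s)), ∀ t ∈ s, t < 35 := by decide +kernel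

theorem S7_perm : ∀ s ∈ S7, C.isPerm s = true := by decide +kernel

/-- the kernel function -/
noncomputable def pj (W : WL) (m : ℕ) : ℕ := pj7 W DLst 7 (scat masksJ m 0) 0

theorem pj_eq (W : WL) (m : ℕ) :
    pj W m = (S7.map fun s => (P12.map fun p =>
      FJ W (gath (cs7 (vec p)) (gath (cs7 (vec s)) m))).sum).sum := by
  have h : pj W m = pj7 W DLst 7 (scat masksJ m 0) 0 := rfl
  rw [h, masksJ_eq, scat_masksOf 35 _ 35 m srcJ_lt]
  have hl : ((S7.map fun s => cs7 (vec s)).map fun s => gath s m).length = 7 := by
    rw [List.length_map, List.length_map]; rfl
  have h2 := pj7_eq W ((S7.map fun s => cs7 (vec s)).map fun s => gath s m) (by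
    intro x hx
    obtain ⟨s, hs, rfl⟩ := List.mem_map.1 hx
    obtain ⟨s', _, rfl⟩ := List.mem_map.1 hs
    have := gath_lt (cs7 (vec s')) m
    rwa [cs7_length] at this) 0
  rw [hl] at h2
  rw [h2, Nat.zero_add, List.map_map, List.map_map]
  rfl

/-- the link of the last vertex -/
def lk6J (H : TG (Fin 7)) : ℕ :=
  bits [H.E 0 1 6, H.E 0 2 6, H.E 1 2 6, H.E 0 3 6, H.E 1 3 6, H.E 2 3 6,
    H.E 0 4 6, H.E 1 4 6, H.E 2 4 6, H.E 3 4 6,
    H.E 0 5 6, H.E 1 5 6, H.E 2 5 6, H.E 3 5 6, H.E 4 5 6]

/-- the code of the first six vertices -/
def c6 (H : TG (Fin 7)) : ℕ := code6 (H.pull Fin.castSucc)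

theorem bits_lt (l : List Bool) : bits l < 2 ^ l.length := by
  induction l with
  | nil => simp [bits]
  | cons b l ih =>
    rw [bits, List.length_cons, pow_succ]
    have := Bool.toNat_le b
    omega

theorem bits_append (l l' : List Bool) : bits (l ++ l') = bits l + 2 ^ l.length * bits l' := by
  induction l with
  | nil => simp [bits]
  | cons b l ih => rw [List.cons_append, bits, ih, bits, List.length_cons, pow_succ]; ring

theorem code7_split (H : TG (Fin 7)) : code7 H = c6 H + 2 ^ 20 * lk6J H := by
  unfold c6 lk6J code6
  have h := bits_append [H.E 0 1 2, H.E 0 1 3, H.E 0 2 3, H.E 1 2 3,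
    H.E 0 1 4, H.E 0 2 4, H.E 1 2 4, H.E 0 3 4, H.E 1 3 4, H.E 2 3 4,
    H.E 0 1 5, H.E 0 2 5, H.E 1 2 5, H.E 0 3 5, H.E 1 3 5, H.E 2 3 5,
    H.E 0 4 5, H.E 1 4 5, H.E 2 4 5, H.E 3 4 5]
    [H.E 0 1 6, H.E 0 2 6, H.E 1 2 6, H.E 0 3 6, H.E 1 3 6, H.E 2 3 6,
    H.E 0 4 6, H.E 1 4 6, H.E 2 4 6, H.E 3 4 6,
    H.E 0 5 6, H.E 1 5 6, H.E 2 5 6, H.E 3 5 6, H.E 4 5 6]
  exact h

theorem c6_lt (H : TG (Fin 7)) : c6 H < 2 ^ 20 := by
  unfold c6 code6
  exact bits_lt _

theorem lk6J_lt (H : TG (Fin 7)) : lk6J H < 2 ^ 15 := by
  unfold lk6J
  exact bits_lt _

theorem code7_mod (H : TG (Fin 7)) : code7 H % 2 ^ 20 = c6 H := by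
  rw [code7_split, Nat.add_mul_mod_self_left, Nat.mod_eq_of_lt (c6_lt H)]

theorem code7_div (H : TG (Fin 7)) : code7 H / 2 ^ 20 = lk6J H := by
  rw [code7_split, Nat.add_mul_div_left _ _ (by norm_num), Nat.div_eq_of_lt (c6_lt H), Nat.zero_add]

theorem d0_eq : d0 = code6 D6 := by decide +kernel

theorem FJ_code7 (W : WL) (H : TG (Fin 7)) :
    FJ W (code7 H) = if c6 H = code6 D6 then wl W (lk6J H) else 0 := by
  rw [FJ, code7_mod, code7_div, d0_eq]

theorem FJ_inv {W : WL} (hW : WOk W) (H : TG (Fin 7)) (k : ℕ) (hk : k ∈ K60)
    (σ : Equiv.Perm (Fin 7)) :
    FJ W (code7 (H.pull (σ * toP k : Equiv.Perm (Fin 7)))) = FJ W (code7 (H.pull σ)) := by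
  have hp := (K60_ok k hk).1
  have e : H.pull (σ * toP k : Equiv.Perm (Fin 7)) = (H.pull σ).pull (vec k) := by
    have : ((σ * toP k : Equiv.Perm (Fin 7)) : Fin 7 → Fin 7) = fun i => σ (vec k i) := by
      funext i
      rw [Equiv.Perm.mul_apply, toP_apply k hp]
    rw [this]; rfl
  rw [e, code7_pull, FJ_gath W k d0 _ (K60_ok k hk), code7_mod, code7_div,
    hW.inv k hk _ (lk6J_lt _), FJ, code7_mod, code7_div]

theorem cast_sum_mapJ {α : Type} (l : List α) (g : α → ℕ) :
    (l.map fun a => ((g a : ℕ) : ℤ)).sum = (((l.map g).sum : ℕ) : ℤ) := by
  induction l with
  | nil => rfl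
  | cons a l ih => rw [List.map_cons, List.sum_cons, ih, List.map_cons, List.sum_cons]; push_cast; rfl

attribute [local irreducible] gath cs7 bits code7 FJ wl vec toP code6 lk6J in
theorem sum84_FJ (W : WL) (H : TG (Fin 7)) :
    (S84.map fun s => FJ W (code7 (H.pull (toP s)))).sum = pj W (code7 H) := by
  rw [pj_eq, S84, List.map_flatMap, sum_flatMap]
  refine congrArg List.sum (List.map_congr_left fun s hs => ?_)
  rw [List.map_map]
  refine congrArg List.sum (List.map_congr_left fun p hp => ?_)
  have hc : comp s p ∈ S84 := by
    rw [S84, List.mem_flatMap]
    exact ⟨s, hs, List.mem_map.2 ⟨p, hp, rfl⟩⟩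
  have e0 : ((toP (comp s p) : Equiv.Perm (Fin 7)) : Fin 7 → Fin 7) =
        fun i => vec s (vec p i) := by
    funext i
    rw [toP_apply _ (S84_perm _ hc), comp_vec s hs p hp]
  have e : H.pull (toP (comp s p)) = (H.pull (vec s)).pull (vec p) := by
    rw [e0]; rfl
  rw [Function.comp_apply, e, code7_pull, code7_pull]

attribute [local irreducible] gath cs7 bits code7 pj FJ wl vec toP code6 lk6J in
/-- **evaluation of the functional** -/
theorem sum_six {W : WL} (hW : WOk W) (H : TG (Fin 7)) :
    ∑ σ : Equiv.Perm (Fin 7), (if code6 ((H.pull σ).pull Fin.castSucc) = code6 D6 then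
      (wl W (lk6J (H.pull σ)) : ℤ) else 0) = 60 * ((pj W (code7 H) : ℕ) : ℤ) := by
  have e1 : ∀ σ : Equiv.Perm (Fin 7), (if code6 ((H.pull σ).pull Fin.castSucc) = code6 D6 then
      (wl W (lk6J (H.pull σ)) : ℤ) else 0) = ((FJ W (code7 (H.pull σ)) : ℕ) : ℤ) := by
    intro σ
    rw [FJ_code7]
    have h : code6 ((H.pull σ).pull Fin.castSucc) = c6 (H.pull σ) := rfl
    rw [h]
    by_cases hc : c6 (H.pull σ) = code6 D6
    · rw [if_pos hc, if_pos hc]
    · rw [if_neg hc, if_neg hc]; rfl
  have h84 := sum_84 (fun σ => ((FJ W (code7 (H.pull σ)) : ℕ) : ℤ)) (fun k hk σ => by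
      show ((FJ W (code7 (H.pull (σ * toP k : Equiv.Perm (Fin 7)))) : ℕ) : ℤ) = _
      rw [FJ_inv hW H k hk σ])
  rw [Finset.sum_congr rfl fun σ _ => e1 σ, h84,
    cast_sum_mapJ S84 (fun s => FJ W (code7 (H.pull (toP s)))), sum84_FJ]

/-! ### instances -/

/-- number of copies of the design -/
noncomputable def W6 : WL := .nil 1

theorem W6_ok : WOk W6 := by decide +kernel

/-- nonclones -/
noncomputable def WJ : WL :=
  .cons 24852 0 (.cons 21002 0 (.cons 10817 0 (.cons 5505 0 (.cons 3122 0 (.cons 236 0 (.nil 1))))))

theorem WJ_ok : WOk WJ := by decide +kernel

/-- nonclones, except for isolated vertices -/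
noncomputable def WJ' : WL :=
  .cons 0 0 (.cons 24852 0 (.cons 21002 0 (.cons 10817 0 (.cons 5505 0 (.cons 3122 0
    (.cons 236 0 (.nil 1)))))))

theorem WJ'_ok : WOk WJ' := by decide +kernel

/-- isolated vertices -/
noncomputable def WI : WL := .cons 0 1 (.nil 0)

theorem WI_ok : WOk WI := by decide +kernel

/-- the links of the vertices of the design -/
theorem clones_eq : clones = (List.finRange 6).map fun i =>
    bits [D6.E 0 1 i, D6.E 0 2 i, D6.E 1 2 i, D6.E 0 3 i, D6.E 1 3 i, D6.E 2 3 i,
      D6.E 0 4 i, D6.E 1 4 i, D6.E 2 4 i, D6.E 3 4 i,
      D6.E 0 5 i, D6.E 1 5 i, D6.E 2 5 i, D6.E 3 5 i, D6.E 4 5 i] := by decide +kernel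

end K4m.Ev
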