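import Mathlib
import Pool.Agent.Lib.MP_392c14_co.Ev.Bound2
import Pool.Agent.Lib.MP_392c14_co.Ev.SixJ
import Pool.Agent.Lib.MP_392c14_co.StepA1

/-! From a checked certificate with a penalty supported on the copies of the design to a bound
of the functional of Step A. -/

set_option autoImplicit false

namespace K4m.Ev

/-- the link of `y` on the six points `u` (15 bits) -/
def lk15 {V : Type} (G : TG V) (u : Fin 6 → V) (y : V) : ℕ :=
  bits [G.E (u 0) (u 1) y, G.E (u 0) (u 2) y, G.E (u 1) (u 2) y, G.E (u 0) (u 3) y,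
    G.E (u 1) (u 3) y, G.E (u 2) (u 3) y, G.E (u 0) (u 4) y, G.E (u 1) (u 4) y,
    G.E (u 2) (u 4) y, G.E (u 3) (u 4) y, G.E (u 0) (u 5) y, G.E (u 1) (u 5) y,
    G.E (u 2) (u 5) y, G.E (u 3) (u 5) y, G.E (u 4) (u 5) y]

theorem code6_eq_iff (H H' : TG (Fin 6)) : code6 H = code6 H' ↔
    ∀ a b c, H.E a b c = H'.E a b c := by
  constructor
  · intro h
    have e : H = H' := by
      apply TG.ext_lt
      unfold code6 at h
      have h1 := bits_inj _ _ (by rfl) h
      simp only [List.cons.injEq, and_true] at h1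
      obtain ⟨e012, e013, e023, e123, e014, e024, e124, e034, e134, e234,
        e015, e025, e125, e035, e135, e235, e045, e145, e245, e345⟩ := h1
      intro i j k hij hjk
      fin_cases i <;> fin_cases j <;> first
        | exact absurd hij (by decide)
        | (fin_cases k <;> first | exact absurd hjk (by decide) | assumption)
    rw [e]
    exact fun _ _ _ => rfl
  · intro h
    unfold code6
    simp only [h]

theorem code6_St {V : Type} (G : TG V) (u : Fin 6 → V) :
    code6 (G.pull u) = code6 D6 ↔ St G u := code6_eq_iff _ _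

theorem sum_snoc {V : Type} [Fintype V] (F : (Fin 7 → V) → ℝ) :
    ∑ φ : Fin 7 → V, F φ = ∑ u : Fin 6 → V, ∑ y, F (Fin.snoc (α := fun _ => V) u y) := by
  rw [← Equiv.sum_comp (Fin.snocEquiv (fun _ : Fin 7 => V)) F, Fintype.sum_prod_type_right]
  rfl

theorem FJ_snoc {V : Type} [Fintype V] [DecidableEq V] (W : WL) (G : TG V) (u : Fin 6 → V) (y : V) :
    (FJ W (code7 (G.pull (Fin.snoc (α := fun _ => V) u y))) : ℝ)
      = st G u * (wl W (lk15 G u y) : ℝ) := by
  have h1 : c6 (G.pull (Fin.snoc (α := fun _ => V) u y)) = code6 (G.pull u) := by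
    unfold c6
    rw [pull_pull]
    congr 2
    funext i
    exact Fin.snoc_castSucc (α := fun _ => V) y u i
  have e0 : Fin.snoc (α := fun _ => V) u y (0 : Fin 7) = u 0 :=
    Fin.snoc_castSucc (α := fun _ => V) y u 0
  have e1 : Fin.snoc (α := fun _ => V) u y (1 : Fin 7) = u 1 :=
    Fin.snoc_castSucc (α := fun _ => V) y u 1
  have e2 : Fin.snoc (α := fun _ => V) u y (2 : Fin 7) = u 2 :=
    Fin.snoc_castSucc (α := fun _ => V) y u 2
  have e3 : Fin.snoc (α := fun _ => V) u y (3 : Fin 7) = u 3 :=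
    Fin.snoc_castSucc (α := fun _ => V) y u 3
  have e4 : Fin.snoc (α := fun _ => V) u y (4 : Fin 7) = u 4 :=
    Fin.snoc_castSucc (α := fun _ => V) y u 4
  have e5 : Fin.snoc (α := fun _ => V) u y (5 : Fin 7) = u 5 :=
    Fin.snoc_castSucc (α := fun _ => V) y u 5
  have e6 : Fin.snoc (α := fun _ => V) u y (6 : Fin 7) = y :=
    Fin.snoc_last (α := fun _ => V) y u
  have h2 : lk6J (G.pull (Fin.snoc (α := fun _ => V) u y)) = lk15 G u y := by
    unfold lk6J lk15 TG.pull
    simp only [e0, e1, e2, e3, e4, e5, e6]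
  rw [FJ_code7, h1, h2]
  by_cases h : St G u
  · rw [if_pos ((code6_St G u).2 h), st_of G u h, one_mul]
  · rw [if_neg fun h' => h ((code6_St G u).1 h')]
    rcases st_cases G u with h' | h'
    · exact absurd h'.1 h
    · rw [h'.2, zero_mul]
      exact Nat.cast_zero

/-- expectation of the functional over the random seven points -/
theorem Ex_FJ {V : Type} [Fintype V] [DecidableEq V] (G : TG V) (w : V → ℝ) (W : WL) :
    Ex G w (fun H => (FJ W (code7 H) : ℝ))
      = EU G w (fun u => ∑ y, w y * (wl W (lk15 G u y) : ℝ)) := by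
  unfold Ex EU
  rw [sum_snoc]
  refine Finset.sum_congr rfl fun u _ => ?_
  rw [Finset.mul_sum, Finset.mul_sum]
  refine Finset.sum_congr rfl fun y _ => ?_
  show (∏ i, w (Fin.snoc (α := fun _ => V) u y i))
    * (FJ W (code7 (G.pull (Fin.snoc (α := fun _ => V) u y))) : ℝ) = _
  rw [FJ_snoc, Fin.prod_univ_castSucc]
  simp only [Fin.snoc_castSucc, Fin.snoc_last]
  unfold pw
  ring

theorem sum_FJ {W : WL} (hW : WOk W) (H : TG (Fin 7)) :
    ∑ σ : Equiv.Perm (Fin 7), (FJ W (code7 (H.pull σ)) : ℝ) = (60 * pj W (code7 H) : ℕ) := by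
  have h := congrArg (Int.cast : ℤ → ℝ) (sum_six hW H)
  push_cast at h
  rw [Nat.cast_mul, Nat.cast_ofNat, ← h]
  refine Finset.sum_congr rfl fun σ _ => ?_
  rw [FJ_code7]
  have h : code6 ((H.pull σ).pull Fin.castSucc) = c6 (H.pull σ) := rfl
  rw [h]
  by_cases hc : c6 (H.pull σ) = code6 D6
  · rw [if_pos hc, if_pos hc]
  · rw [if_neg hc, if_neg hc]
    exact Nat.cast_zero

/-- the conclusion of a certificate with the penalty `W - W'` -/
theorem Cert.planB (C : Cert) (hC : C.Good) (W W' : WL) (hW : WOk W) (hW' : WOk W')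
    (K p0 q0 c0 p1 q1 c1 Dm d0 : ℕ) (hq0 : 0 < q0) (hq1 : 0 < q1)
    (hr01 : (p0 : ℝ) / q0 < p1 / q1) (h0 : c0 + d0 ≤ K) (h1 : c1 + d0 ≤ K)
    (hchk : ∀ H : TG (Fin 7), code7 H ∈ reps → C.test p0 q0 c0 p1 q1 c1 Dm
      (fun m => 60 * pj W m + K) (fun m => 60 * pj W' m) (code7 H) = true)
    (hl : (p0 : ℝ) / q0 ≤ rho) (hu : rho ≤ p1 / q1)
    {V : Type} [Fintype V] [DecidableEq V] (G : TG V) (w : V → ℝ) (hw : IsW w) (t : ℝ)
    (hd : ∀ x, deg G w x = t) :
    EU G w (fun u => ∑ y, w y * (wl W (lk15 G u y) : ℝ)) + d0 / 5040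
      ≤ EU G w (fun u => ∑ y, w y * (wl W' (lk15 G u y) : ℝ)) + |rho - t| * Dm / 5040 := by
  set r0 : ℝ := (p0 : ℝ) / q0 with hr0
  set r1 : ℝ := (p1 : ℝ) / q1 with hr1'
  have hpos : 0 < r1 - r0 := sub_pos.2 hr01
  set s : ℝ := (rho - r0) / (r1 - r0) with hs
  have hs0 : 0 ≤ s := div_nonneg (sub_nonneg.2 hl) hpos.le
  have hs1 : s ≤ 1 := by rw [hs, div_le_one hpos]; linarith
  have hsr : s * (r1 - r0) = rho - r0 := by rw [hs, div_mul_cancel₀ _ hpos.ne']
  have hr : rho = (1 - s) * r0 + s * r1 := by linarith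
  have hb := C.bound' hC (fun H => (FJ W (code7 H) : ℝ) + ((K : ℝ) / 5040 - FJ W' (code7 H)))
    (fun m => 60 * pj W m + K) (fun m => 60 * pj W' m) (fun H _ => by
      rw [Finset.sum_add_distrib, Finset.sum_sub_distrib, sum_FJ hW, sum_FJ hW',
        Finset.sum_const, Finset.card_univ, Fintype.card_perm, Fintype.card_fin]
      have : (Nat.factorial 7) = 5040 := rfl
      rw [this]
      push_cast
      refine le_of_eq ?_
      simp only [nsmul_eq_mul]
      push_cast
      ring) p0 q0 c0 p1 q1 c1 Dm hq0 hq1 hchk s t hs0 hs1 hr G w hw hd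
  have e : Ex G w (fun H => (FJ W (code7 H) : ℝ) + ((K : ℝ) / 5040 - FJ W' (code7 H)))
      = EU G w (fun u => ∑ y, w y * (wl W (lk15 G u y) : ℝ)) + K / 5040
        - EU G w (fun u => ∑ y, w y * (wl W' (lk15 G u y) : ℝ)) := by
    rw [← Ex_FJ, ← Ex_FJ]
    have hone : Ex G w (fun _ => (1 : ℝ)) = 1 := by
      rw [Ex_eq]
      simp only [mul_one]
      simp only [← Finset.mul_sum, hw.sum_eq, mul_one]
    have hK : (K : ℝ) / 5040 = Ex G w (fun _ => (K : ℝ) / 5040) := by
      have : Ex G w (fun _ => (K : ℝ) / 5040) = (K : ℝ) / 5040 * Ex G w (fun _ => (1 : ℝ)) := by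
        unfold Ex
        rw [Finset.mul_sum]
        refine Finset.sum_congr rfl fun φ _ => ?_
        ring
      rw [this, hone, mul_one]
    conv_rhs => rw [hK]
    unfold Ex
    rw [← Finset.sum_add_distrib, ← Finset.sum_sub_distrib]
    refine Finset.sum_congr rfl fun φ _ => ?_
    ring
  rw [e] at hb
  have h0' : (c0 : ℝ) + d0 ≤ K := by exact_mod_cast h0
  have h1' : (c1 : ℝ) + d0 ≤ K := by exact_mod_cast h1
  have e1 : (1 - s) * (c0 : ℝ) ≤ (1 - s) * (K - d0) :=
    mul_le_mul_of_nonneg_left (by linarith) (sub_nonneg.2 hs1)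
  have e2 : s * (c1 : ℝ) ≤ s * (K - d0) := mul_le_mul_of_nonneg_left (by linarith) hs0
  have e3 : (1 - s) * ((K : ℝ) - d0) + s * (K - d0) = K - d0 := by ring
  have e4 : ((1 - s) * (c0 : ℝ) + s * c1 + |rho - t| * Dm) / 5040
      ≤ (K - d0 + |rho - t| * Dm) / 5040 := by
    apply div_le_div_of_nonneg_right _ (by norm_num)
    linarith
  have e5 : ((K : ℝ) - d0 + |rho - t| * Dm) / 5040
      = K / 5040 - d0 / 5040 + |rho - t| * Dm / 5040 := by ring
  linarith

end K4m.Ev
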