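import Pool.Agent.Lib.MP_392c14_co.Ev.Chk

/-! Kernel checks of the symmetries of the tables (raw operations, no Mathlib). -/

set_option autoImplicit false

namespace K4m.Ev

/-- codes with three relabellings each -/
inductive QL where
  | nil : QL
  | cons : Nat → Nat → Nat → Nat → QL → QL

noncomputable def and' (a b : Bool) : Bool := Bool.rec (motive := fun _ => Bool) false b a

noncomputable def p8 (P x : Nat) : Nat := Nat.mod (Nat.shiftRight P (Nat.mul 8 x)) 256

/-- lower bound of the indices of the codes with root digit `r` -/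
noncomputable def lo3 (b r : Nat) : Nat := Nat.mul b r

/-- upper bound -/
noncomputable def hi3 (b N0 N1 r : Nat) : Nat :=
  Nat.add (Nat.mul b r) (Nat.rec (motive := fun _ => Nat) N0 (fun _ _ => N1) r)

/-- `idx3 c` is in `[0, N0)` or `[b, b+N1)` (according to the parity of `c`), invariant under the first
relabelling, and is transformed by the tables `P1`, `P2` under the other two -/
noncomputable def ichk3 (I3 P1 P2 b N0 N1 : Nat) (L : QL) : Bool :=
  QL.rec (motive := fun _ => Bool) true (fun c c1 c2 c3 _ ih =>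
    and' (Nat.ble (Nat.succ (idx3 I3 c)) (hi3 b N0 N1 (Nat.mod c 2)))
      (and' (Nat.ble (lo3 b (Nat.mod c 2)) (idx3 I3 c))
      (and' (Nat.beq (idx3 I3 c1) (idx3 I3 c))
      (and' (Nat.beq (idx3 I3 c2) (p8 P1 (idx3 I3 c)))
        (and' (Nat.beq (idx3 I3 c3) (p8 P2 (idx3 I3 c))) ih))))) L

/-- tests of the entries `x, b + y` with `y < n` -/
noncomputable def qrow3 (W B : Nat) (Q : Tr Nat) (P1 P2 b x n : Nat) : Bool :=
  Nat.rec (motive := fun _ => Bool) true (fun y ih =>
    and' (force (fun v => and' (Nat.beq (look3 W B Q (Nat.add b y) x) v)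
      (and' (Nat.beq (look3 W B Q (p8 P1 x) (p8 P1 (Nat.add b y))) v)
        (Nat.beq (look3 W B Q (p8 P2 x) (p8 P2 (Nat.add b y))) v)))
          (look3 W B Q x (Nat.add b y))) ih) n

/-- tests of the entries `b + x, b + y` with `y ≤ x < n` -/
noncomputable def qchk3 (W B : Nat) (Q : Tr Nat) (P1 P2 b n : Nat) : Bool :=
  Nat.rec (motive := fun _ => Bool) true (fun x ih =>
    and' (force (fun x' => qrow3 W B Q P1 P2 b x' (Nat.succ x)) (Nat.add b x)) ih) n

/-- the whole test for the three-rooted flags: the flags without the root edge have the indices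
`0, ..., N0 - 1`, those with the root edge `b, ..., b + N1 - 1` -/
noncomputable def chk3 (W B I3 : Nat) (Q : Tr Nat) (P1 P2 b N0 N1 : Nat) (L : QL) : Bool :=
  and' (ichk3 I3 P1 P2 b N0 N1 L) (and' (qchk3 W B Q P1 P2 0 N0) (qchk3 W B Q P1 P2 b N1))

/-- `tabW` is invariant under the three relabellings -/
noncomputable def chkD (W B T : Nat) (L : QL) : Bool :=
  QL.rec (motive := fun _ => Bool) true (fun c c1 c2 c3 _ ih =>
    force (fun v => and' (Nat.beq (tabW W B T c1) v) (and' (Nat.beq (tabW W B T c2) v)
      (and' (Nat.beq (tabW W B T c3) v) ih))) (tabW W B T c)) L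

end K4m.Ev
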