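import Mathlib
import Pool.Agent.Lib.MP_392c14_co.Ev.Base
import Pool.Agent.Lib.MP_392c14_co.Ev.PermC
import Pool.Agent.Lib.MP_392c14_co.Ev.Cut

/-! The number of edges of a labelled 7-vertex 3-graph as a sum over all permutations. -/

set_option autoImplicit false

namespace K4m.Ev

/-- the permutations whose first three values are the triple number `0, ..., 34` -/
def SE : List ℕ :=
  [1754760, 1754312, 1753808, 1753297, 1750280, 1749776, 1749265, 1745688, 1745177, 1741082,
    1717576, 1717072, 1716561, 1712984, 1712473, 1708378, 1680224, 1679713, 1675618, 1642851,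
    1455496, 1454992, 1454481, 1450904, 1450393, 1446298, 1418144, 1417633, 1413538, 1380771,
    1156008, 1155497, 1151402, 1118635, 856492]

/-- colour 1 on the first three vertices -/
def betaE (i j : Fin 7) : ℕ :=
  if i = j then (if (i : ℕ) < 3 then 1 else 0) else 0

def KE1 : List (Equiv.Perm (Fin 7)) := six (Equiv.swap 0 1) (Equiv.swap 1 2)

def KE2 : List (Equiv.Perm (Fin 7)) := tf (Equiv.swap 3 4) (Equiv.swap 4 5) (Equiv.swap 5 6)

theorem SE_perm : ∀ s ∈ SE, C.isPerm s = true := by decide +kernel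

theorem SE_keys : (SE.map fun s => pkey betaE (vec s)).Nodup := by decide +kernel

theorem SE_tid : (SE.map fun s => C.tid (vec s 0) (vec s 1) (vec s 2)) = List.range 35 := by
  decide +kernel

theorem KE_nodup : ((pr KE1 KE2).map fun k : Equiv.Perm (Fin 7) => enc k).Nodup := by
  decide +kernel

theorem KE_length : (pr KE1 KE2).length = 144 := by decide +kernel

theorem KE_beta : ∀ k ∈ pr KE1 KE2, ∀ i j, betaE (k i) (k j) = betaE i j :=
  Pres.pr (Pres.six (by unfold Pres; decide +kernel) (by unfold Pres; decide +kernel))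
    (Pres.tf (by unfold Pres; decide +kernel) (by unfold Pres; decide +kernel)
      (by unfold Pres; decide +kernel))

/-- the indicator of an edge on the images of 0, 1, 2 -/
def edgeF (H : TG (Fin 7)) (σ : Equiv.Perm (Fin 7)) : ℤ :=
  if H.E (σ 0) (σ 1) (σ 2) = true then 1 else 0

theorem edgeF_swap01 (H : TG (Fin 7)) : RInv (edgeF H) (Equiv.swap 0 1) := by
  intro σ
  have h0 : (Equiv.swap (0 : Fin 7) 1) 0 = 1 := by decide
  have h1 : (Equiv.swap (0 : Fin 7) 1) 1 = 0 := by decide
  have h2 : (Equiv.swap (0 : Fin 7) 1) 2 = 2 := by decide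
  unfold edgeF
  rw [Equiv.Perm.mul_apply, Equiv.Perm.mul_apply, Equiv.Perm.mul_apply, h0, h1, h2, H.symm₁]

theorem edgeF_swap12 (H : TG (Fin 7)) : RInv (edgeF H) (Equiv.swap 1 2) := by
  intro σ
  have h0 : (Equiv.swap (1 : Fin 7) 2) 0 = 0 := by decide
  have h1 : (Equiv.swap (1 : Fin 7) 2) 1 = 2 := by decide
  have h2 : (Equiv.swap (1 : Fin 7) 2) 2 = 1 := by decide
  unfold edgeF
  rw [Equiv.Perm.mul_apply, Equiv.Perm.mul_apply, Equiv.Perm.mul_apply, h0, h1, h2, H.symm₂]

theorem edgeF_fix (H : TG (Fin 7)) (a : Equiv.Perm (Fin 7)) (h0 : a 0 = 0) (h1 : a 1 = 1)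
    (h2 : a 2 = 2) : RInv (edgeF H) a := by
  intro σ
  unfold edgeF
  rw [Equiv.Perm.mul_apply, Equiv.Perm.mul_apply, Equiv.Perm.mul_apply, h0, h1, h2]

theorem edgeF_inv (H : TG (Fin 7)) : ∀ k ∈ pr KE1 KE2, RInv (edgeF H) k :=
  RInv.pr (RInv.six (edgeF_swap01 H) (edgeF_swap12 H))
    (RInv.tf (edgeF_fix H _ (by decide) (by decide) (by decide))
      (edgeF_fix H _ (by decide) (by decide) (by decide))
      (edgeF_fix H _ (by decide) (by decide) (by decide)))

theorem sum_listRange (n : ℕ) (f : ℕ → ℤ) :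
    ((List.range n).map f).sum = ∑ k ∈ Finset.range n, f k := by
  induction n with
  | zero => rfl
  | succ n ih => rw [List.range_succ, List.map_append, List.sum_append, ih, Finset.sum_range_succ]; simp

theorem sum_edge (H : TG (Fin 7)) :
    ∑ σ : Equiv.Perm (Fin 7), (if H.E (σ 0) (σ 1) (σ 2) = true then (1 : ℤ) else 0) =
      144 * ((popc 35 (code7 H) 0 : ℕ) : ℤ) := by
  have h := sum_codes_inv betaE SE (pr KE1 KE2) SE_perm SE_keys KE_nodup KE_beta
    (by rw [KE_length]; rfl) (edgeF H) (edgeF_inv H)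
  rw [KE_length] at h
  have h2 : (SE.map fun s => edgeF H (toP s)).sum =
      ((popc 35 (code7 H) 0 : ℕ) : ℤ) := by
    have e1 : (SE.map fun s => edgeF H (toP s)) =
        (SE.map fun s => C.tid (vec s 0) (vec s 1) (vec s 2)).map
          fun t => (((code7 H).testBit t).toNat : ℤ) := by
      rw [List.map_map]
      refine List.map_congr_left fun s hs => ?_
      have hp := SE_perm s hs
      show edgeF H (toP s) = (((code7 H).testBit (C.tid (vec s 0) (vec s 1) (vec s 2))).toNat : ℤ)
      unfold edgeF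
      rw [toP_apply s hp, toP_apply s hp, toP_apply s hp, tb]
      cases (H.E (vec s 0) (vec s 1) (vec s 2)) <;> rfl
    rw [e1, SE_tid, popc_eq, Nat.zero_add, Nat.cast_sum, sum_listRange]
  show ∑ σ, edgeF H σ = _
  rw [h, h2]; rfl

end K4m.Ev
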