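import Mathlib
import Pool.Agent.Lib.MP_392c14_co.Ev.Bound
import Pool.Agent.Lib.MP_392c14_co.Ev.Edge
import Pool.Agent.Lib.MP_392c14_co.Sem2
import Pool.Agent.Lib.MP_392c14_co.Root4

/-! From a checked certificate with an edge term to an upper bound of `rho`. -/

set_option autoImplicit false

namespace K4m.Ev

/-- the sum over `S_7` of the edge term -/
theorem sum_edgeR (cE : ℕ) (H : TG (Fin 7)) :
    ∑ σ : Equiv.Perm (Fin 7), (cE : ℝ) * ind ((H.pull σ).E 0 1 2)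
      = (144 * cE * popc 35 (code7 H) 0 : ℕ) := by
  have h := congrArg (Int.cast : ℤ → ℝ) (sum_edge H)
  push_cast at h
  have e : ∀ σ : Equiv.Perm (Fin 7), (cE : ℝ) * ind ((H.pull σ).E 0 1 2)
      = cE * (if H.E (σ 0) (σ 1) (σ 2) = true then (1 : ℝ) else 0) := fun σ => rfl
  rw [Finset.sum_congr rfl fun σ _ => e σ, ← Finset.mul_sum, h]
  push_cast
  ring

/-- the conclusion of the edge certificate -/
theorem Cert.planA (C : Cert) (hC : C.Good) (cE p0 q0 c0 p1 q1 c1 Dm d0 : ℕ) (hq0 : 0 < q0)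
    (hq1 : 0 < q1) (hd0 : 0 < d0)
    (hr01 : (p0 : ℝ) / q0 < p1 / q1) (hr1 : 1 / 3 ≤ (p1 : ℝ) / q1)
    (h0 : (c0 : ℝ) + d0 ≤ 5040 * cE * (p0 / q0)) (h1 : (c1 : ℝ) + d0 ≤ 5040 * cE * (p1 / q1))
    (hchk : ∀ m ∈ reps, C.test p0 q0 c0 p1 q1 c1 Dm (fun m => 144 * cE * popc 35 m 0)
      (fun _ => 0) m = true) :
    rho < p0 / q0 := by
  by_contra hcon
  rw [not_lt] at hcon
  set r0 : ℝ := (p0 : ℝ) / q0 with hr0
  set r1 : ℝ := (p1 : ℝ) / q1 with hr1'
  have hle : rho ≤ r1 := rho_le_third.trans hr1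
  have hpos : 0 < r1 - r0 := sub_pos.2 hr01
  set s : ℝ := (rho - r0) / (r1 - r0) with hs
  have hs0 : 0 ≤ s := div_nonneg (sub_nonneg.2 hcon) hpos.le
  have hs1 : s ≤ 1 := by rw [hs, div_le_one hpos]; linarith
  have hsr : s * (r1 - r0) = rho - r0 := by rw [hs, div_mul_cancel₀ _ hpos.ne']
  have hr : rho = (1 - s) * r0 + s * r1 := by linarith
  have hd0' : (0 : ℝ) < d0 := by exact_mod_cast hd0
  have hden : (0 : ℝ) < 5040 * cE + Dm + 1 := by positivity
  set ε : ℝ := d0 / (2 * (5040 * cE + Dm + 1)) with hε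
  have hεpos : 0 < ε := by rw [hε]; positivity
  obtain ⟨n, G, w, hw, -, hdeg, hval⟩ := exists_near ε hεpos
  have hb := C.bound hC (fun H => (cE : ℝ) * ind (H.E 0 1 2)) (fun m => 144 * cE * popc 35 m 0)
    (fun _ => 0) (fun H _ => by
      rw [sum_edgeR]
      simp) p0 q0 c0 p1 q1 c1 Dm hq0 hq1 hchk s (val G w) hs0 hs1 hr G w hw hdeg
  rw [Ex_smul, Ex_edge G w hw] at hb
  have hv : val G w ≤ rho := val_le_rho G w hw
  have habs : |rho - val G w| ≤ ε := by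
    rw [abs_le]; constructor <;> linarith
  have hDm : |rho - val G w| * Dm ≤ ε * Dm := mul_le_mul_of_nonneg_right habs (by positivity)
  have e1 : (1 - s) * (c0 : ℝ) ≤ (1 - s) * (5040 * cE * r0 - d0) :=
    mul_le_mul_of_nonneg_left (by linarith) (sub_nonneg.2 hs1)
  have e2 : s * (c1 : ℝ) ≤ s * (5040 * cE * r1 - d0) :=
    mul_le_mul_of_nonneg_left (by linarith) hs0
  have e3 : (1 - s) * (5040 * cE * r0 - d0) + s * (5040 * cE * r1 - d0) = 5040 * cE * rho - d0 := by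
    rw [hr]; ring
  have e4 : (cE : ℝ) * val G w * 5040 ≤ 5040 * cE * rho - d0 + ε * Dm := by
    rw [le_div_iff₀ (by norm_num)] at hb
    linarith
  have e5 : (cE : ℝ) * (rho - val G w) ≤ cE * ε :=
    mul_le_mul_of_nonneg_left (by linarith) (by positivity)
  have e6 : (d0 : ℝ) ≤ ε * (5040 * cE + Dm + 1) := by nlinarith
  have e7 : ε * (5040 * cE + Dm + 1) = d0 / 2 := by
    rw [hε]; field_simp
  linarith

end K4m.Ev
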