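import Pool.Agent.Lib.MP_392c14_co.Ev.WFast

/-! Multiples of a table. -/

set_option autoImplicit false

namespace K4m.Ev

/-- the table with all values multiplied by `T` -/
def WL.smul (T : ℕ) : WL → WL
  | .nil d => .nil (T * d)
  | .cons k w W => .cons k (T * w) (W.smul T)

theorem wl_smul (T : ℕ) (W : WL) (x : ℕ) : wl (W.smul T) x = T * wl W x := by
  induction W with
  | nil d => rfl
  | cons k w W ih =>
    rw [WL.smul, wl_cons, wl_cons, ih]
    split_ifs <;> rfl

end K4m.Ev
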