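import Mathlib
import Pool.Agent.Lib.MP_392c14_co.Ev.PlanB
import Pool.Agent.Lib.MP_392c14_co.Ev.WScale
import Pool.Agent.Lib.MP_392c14_co.StepA6

/-! Scaling of the functional of Plan B; selection of a good standard copy. -/

set_option autoImplicit false

namespace K4m.Ev

section

variable {V : Type} [Fintype V] [DecidableEq V] (G : TG V) (w : V → ℝ)

theorem EU_smul (T : ℕ) (W : WL) :
    EU G w (fun u => ∑ y, w y * (wl (W.smul T) (lk15 G u y) : ℝ)) =
      (T : ℝ) * EU G w (fun u => ∑ y, w y * (wl W (lk15 G u y) : ℝ)) := by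
  unfold EU
  rw [Finset.mul_sum]
  refine Finset.sum_congr rfl fun u _ => ?_
  have h : ∑ y, w y * (wl (W.smul T) (lk15 G u y) : ℝ) =
      (T : ℝ) * ∑ y, w y * (wl W (lk15 G u y) : ℝ) := by
    rw [Finset.mul_sum]
    refine Finset.sum_congr rfl fun y _ => ?_
    rw [wl_smul]
    push_cast
    ring
  beta_reduce
  rw [h]
  ring

theorem EU_nil (hw : IsW w) (d : ℕ) :
    EU G w (fun u => ∑ y, w y * (wl (.nil d) (lk15 G u y) : ℝ)) =
      (d : ℝ) * EU G w (fun _ => 1) := by
  unfold EU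
  rw [Finset.mul_sum]
  refine Finset.sum_congr rfl fun u _ => ?_
  have h : ∑ y, w y * (wl (.nil d) (lk15 G u y) : ℝ) = d := by
    have e : ∀ y, w y * (wl (.nil d) (lk15 G u y) : ℝ) = w y * d := fun y => rfl
    rw [Finset.sum_congr rfl fun y _ => e y, ← Finset.sum_mul, hw.sum_eq, one_mul]
  beta_reduce
  rw [h]
  ring

omit [Fintype V] [DecidableEq V] in
theorem pw_nonneg' (hw : ∀ x, 0 ≤ w x) (u : Fin 6 → V) : 0 ≤ pw w u :=
  Finset.prod_nonneg fun i _ => hw (u i)

/-- a standard copy with a small functional -/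
theorem exists_sel (hw : ∀ x, 0 ≤ w x) (F : (Fin 6 → V) → ℝ) (θ : ℝ)
    (h : EU G w F < θ * EU G w (fun _ => 1)) : ∃ u, St G u ∧ F u < θ := by
  by_contra hcon
  push Not at hcon
  have h2 : θ * EU G w (fun _ => 1) ≤ EU G w F := by
    unfold EU
    rw [Finset.mul_sum]
    refine Finset.sum_le_sum fun u _ => ?_
    have hp := pw_nonneg' w hw u
    rcases st_cases G u with ⟨hs, e⟩ | ⟨_, e⟩
    · rw [e, one_mul, one_mul, mul_one]
      have := hcon u hs
      nlinarith
    · rw [e]
      simp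
  linarith

/-- selection of a standard copy by the table -/
theorem exists_sel_table (hw : ∀ x, 0 < w x) (a b c : ℕ) (W : WL) (θ : ℝ)
    (hT : tabB a b c 0 W = true)
    (h : EU G w (fun u => ∑ y, w y * (wl W (lk15 G u y) : ℝ)) < θ * EU G w (fun _ => 1)) :
    ∃ u, St G u ∧ (a : ℝ) * Xu G w u + b * Pf G w u + c * Qf G w u < θ := by
  have h1 := EU_table G w hw a b c 0 W hT
  have h2 : EU G w (fun u => (a : ℝ) * Xu G w u + b * Pf G w u + c * Qf G w u) < θ *
      EU G w (fun _ => 1) := by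
    refine lt_of_le_of_lt (le_of_eq ?_) (lt_of_le_of_lt h1 h)
    congr 1
    funext u
    push_cast
    ring
  exact exists_sel G w (fun x => (hw x).le) _ θ h2

end

end K4m.Ev
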