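import Pool.Agent.Lib.MP_392c14_co.Ev.SixJ

/-! Fast verification that a table of weights of links is invariant under the automorphisms of the
design: two generators, lookups by raw operations. Use: `theorem W_ok : WOk W := WOk_of W (by decide +kernel)`. -/

set_option autoImplicit false
set_option maxRecDepth 100000

namespace K4m.Ev

theorem gath_gath (A B : List ℕ) (m : ℕ) (h : ∀ t ∈ A, t < B.length) :
    gath A (gath B m) = gath (A.map fun t => B.getD t 0) m := by
  apply Nat.eq_of_testBit_eq
  intro i
  rw [testBit_gath, testBit_gath, List.getElem?_map]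
  cases hA : A[i]? with
  | none => rfl
  | some t =>
    have ht : t < B.length := h t (List.mem_of_getElem? hA)
    simp only [Option.map_some, Option.getD_some]
    rw [testBit_gath, List.getElem?_eq_getElem ht, List.getD_eq_getElem?_getD,
      List.getElem?_eq_getElem ht]
    rfl

/-- every automorphism of the design as a product of two earlier ones -/
def chain60 : List (ℕ × ℕ × ℕ) :=
  [(1754760, 1725640, 1725640), (1687889, 1725640, 1718801), (1746969, 1718801, 1725640),
  (1693762, 1718801, 1718801), (1659161, 1687889, 1725640), (1749762, 1687889, 1718801), (1705578,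
  1746969, 1718801), (1657411, 1693762, 1725640), (1589994, 1659161, 1718801), (1712963, 1749762,
  1725640), (1737827, 1705578, 1725640), (1677984, 1705578, 1718801), (1587341, 1657411, 1718801),
  (1594019, 1589994, 1725640), (1619296, 1589994, 1718801), (1672461, 1712963, 1718801), (1708189,
  1737827, 1718801), (1644776, 1677984, 1725640), (1583820, 1587341, 1725640), (1627668, 1587341,
  1718801), (1623069, 1594019, 1718801), (1615656, 1619296, 1725640), (1640268, 1672461, 1725640),
  (1741012, 1672461, 1718801), (1679916, 1708189, 1718801), (1582945, 1644776, 1718801), (1608019,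
  1583820, 1718801), (1650796, 1623069, 1718801), (1641185, 1615656, 1718801), (1579795, 1640268,
  1718801), (1651237, 1679916, 1725640), (1586473, 1582945, 1725640), (1608474, 1582945, 1718801),
  (1644293, 1608019, 1718801), (1679461, 1650796, 1725640), (1673385, 1641185, 1725640), (1579354,
  1641185, 1718801), (1616069, 1579795, 1718801), (1594460, 1651237, 1718801), (1626338, 1586473,
  1718801), (1676612, 1644293, 1725640), (1737372, 1679461, 1718801), (1742370, 1673385, 1718801),
  (1620612, 1616069, 1725640), (1590869, 1594460, 1725640), (1622187, 1594460, 1718801), (1655640,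
  1626338, 1718801), (1745163, 1676612, 1718801), (1704661, 1737372, 1725640), (1709099, 1737372,
  1718801), (1714776, 1742370, 1718801), (1660939, 1620612, 1718801), (1692432, 1655640, 1725640),
  (1716554, 1745163, 1725640), (1751120, 1714776, 1725640), (1690122, 1660939, 1725640), (1754305,
  1692432, 1718801), (1726081, 1751120, 1718801)]
noncomputable def chkChain : List ℕ → List (ℕ × ℕ × ℕ) → Bool
  | _, [] => true
  | S, q :: r => decide (q.2.1 ∈ S) && (decide (q.2.2 ∈ S) &&
      (decide (∀ t ∈ sB q.2.1, t < (sB q.2.2).length) &&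
        (decide (sB q.1 = (sB q.2.1).map fun t => (sB q.2.2).getD t 0) && chkChain (q.1 :: S) r)))

theorem chkChain_ind (P : ℕ → Prop)
    (hP : ∀ k a b, P a → P b → (∀ t ∈ sB a, t < (sB b).length) →
      sB k = ((sB a).map fun t => (sB b).getD t 0) → P k) (L : List (ℕ × ℕ × ℕ)) :
    ∀ S : List ℕ, (∀ x ∈ S, P x) → chkChain S L = true → ∀ x ∈ L.map (·.1), P x := by
  induction L with
  | nil => intro S _ _ x hx; simp at hx
  | cons q r ih =>
    intro S hS h x hx
    rw [chkChain] at h
    simp only [Bool.and_eq_true, decide_eq_true_eq] at h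
    obtain ⟨h1, h2, h3, h4, h5⟩ := h
    have hq : P q.1 := hP q.1 q.2.1 q.2.2 (hS _ h1) (hS _ h2) h3 h4
    rw [List.map_cons, List.mem_cons] at hx
    rcases hx with hx | hx
    · rw [hx]; exact hq
    · refine ih (q.1 :: S) ?_ h5 x hx
      intro y hy
      rcases List.mem_cons.1 hy with hy | hy
      · rw [hy]; exact hq
      · exact hS y hy

theorem chain60_ok : chkChain [1725640, 1718801] chain60 = true := by decide +kernel

theorem K60_chain : ∀ k ∈ K60, k ∈ [1725640, 1718801] ∨ k ∈ chain60.map (·.1) := by
  decide +kernel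

/-- `w + 1` for the first entry with the key `x`, and `0` if there is none -/
noncomputable def lkp (W : WL) : Nat → Nat :=
  WL.rec (motive := fun _ => Nat → Nat) (fun _ _ => 0)
    (fun k w _ ih x => Bool.rec (motive := fun _ => Nat) (ih x) (Nat.succ w) (Nat.beq x k)) W

/-- the entries of `W` are mapped to entries of `W0` with the same value -/
noncomputable def chkG (W0 : WL) (M : List Nat) (W : WL) : Bool :=
  WL.rec (motive := fun _ => Bool) (fun _ => true)
    (fun x w _ ih => Bool.rec (motive := fun _ => Bool) false ih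
      (Nat.beq (force (lkp W0) (scat M x 0)) (Nat.succ w))) W

/-- the keys are distinct, less than `2 ^ 15`, and not among the digits of `acc` -/
noncomputable def ndc (W : WL) : Nat → Bool :=
  WL.rec (motive := fun _ => Nat → Bool) (fun _ _ => true)
    (fun x _ _ ih acc => Bool.rec (motive := fun _ => Bool) false
      (Bool.rec (motive := fun _ => Bool) false (force ih (Nat.lor acc (Nat.shiftLeft 1 x)))
        (Nat.ble (Nat.succ x) 32768))
      (Nat.beq (Nat.mod (Nat.shiftRight acc x) 2) 0)) W

noncomputable def wchk (W : WL) : Bool :=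
  Bool.rec (motive := fun _ => Bool) false
    (Bool.rec (motive := fun _ => Bool) false
      (chkG W [2, 4, 1, 256, 64, 128, 4096, 1024, 2048, 16384, 32, 8, 16, 512, 8192] W)
      (chkG W [1, 8, 16, 2, 4, 32, 1024, 2048, 8192, 4096, 64, 128, 512, 256, 16384] W))
    (ndc W 0)

private theorem brec {b c : Bool} (h : Bool.rec (motive := fun _ => Bool) false c b = true) :
    b = true ∧ c = true := by
  cases b
  · exact absurd h (by simp)
  · exact ⟨rfl, h⟩

theorem lkp_cons (k w : ℕ) (W : WL) (x : ℕ) :
    lkp (.cons k w W) x = if x = k then w + 1 else lkp W x := by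
  have h : lkp (.cons k w W) x =
    Bool.rec (motive := fun _ => ℕ) (lkp W x) (w + 1) (Nat.beq x k) := rfl
  rw [h]
  by_cases hx : x = k
  · subst hx; rw [Nat.beq_refl, if_pos rfl]
  · have : Nat.beq x k = false := by
      cases hb : Nat.beq x k
      · rfl
      · exact absurd (Nat.eq_of_beq_eq_true hb) hx
    rw [this, if_neg hx]

theorem lkp_spec (W : WL) (y w : ℕ) (h : lkp W y = w + 1) : y ∈ W.keys ∧ wl W y = w := by
  induction W with
  | nil d => exact absurd h (by show (0 : ℕ) ≠ w + 1; omega)
  | cons k v W ih =>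
    rw [lkp_cons] at h
    rw [wl_cons, WL.keys, List.mem_cons]
    by_cases hy : y = k
    · rw [if_pos hy] at h
      rw [if_pos hy]
      exact ⟨Or.inl hy, by omega⟩
    · rw [if_neg hy] at h
      rw [if_neg hy]
      exact ⟨Or.inr (ih h).1, (ih h).2⟩

theorem chkG_spec (W0 : WL) (M : List ℕ) (W : WL) (h : chkG W0 M W = true) :
    ∀ x ∈ W.keys, lkp W0 (scat M x 0) = wl W x + 1 := by
  induction W with
  | nil d => intro x hx; simp [WL.keys] at hx
  | cons k v W ih =>
    intro x hx
    have h' : Bool.rec (motive := fun _ => Bool) false (chkG W0 M W)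
      (Nat.beq (force (lkp W0) (scat M k 0)) (Nat.succ v)) = true := h
    obtain ⟨h1, h2⟩ := brec h'
    have h3 := Nat.eq_of_beq_eq_true h1
    rw [force_eq] at h3
    rw [wl_cons]
    by_cases hxk : x = k
    · rw [if_pos hxk, hxk, h3]
    · rw [if_neg hxk]
      rw [WL.keys, List.mem_cons] at hx
      exact ih h2 x (hx.resolve_left hxk)

theorem ndc_spec (W : WL) : ∀ acc : ℕ, ndc W acc = true →
    W.keys.Nodup ∧ ∀ x ∈ W.keys, x < 2 ^ 15 ∧ acc.testBit x = false := by
  induction W with
  | nil d => intro acc _; exact ⟨List.nodup_nil, by intro x hx; simp [WL.keys] at hx⟩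
  | cons k v W ih =>
    intro acc h
    have h' : Bool.rec (motive := fun _ => Bool) false
      (Bool.rec (motive := fun _ => Bool) false (force (ndc W) (Nat.lor acc (Nat.shiftLeft 1 k)))
        (Nat.ble (Nat.succ k) 32768))
      (Nat.beq (Nat.mod (Nat.shiftRight acc k) 2) 0) = true := h
    obtain ⟨h1, h2⟩ := brec h'
    obtain ⟨h3, h4⟩ := brec h2
    rw [force_eq] at h4
    have h4' : ndc W (acc ||| (1 <<< k)) = true := h4
    have h1' : (acc >>> k) % 2 = 0 := Nat.eq_of_beq_eq_true h1
    have h3' : k < 32768 := Nat.le_of_ble_eq_true h3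
    obtain ⟨hn, hk⟩ := ih _ h4'
    have hkt : acc.testBit k = false := by
      rw [Nat.testBit_eq_decide_div_mod_eq, ← Nat.shiftRight_eq_div_pow, h1']
      rfl
    have hor : ∀ x, (acc ||| (1 <<< k)).testBit x = false → acc.testBit x = false ∧ x ≠ k := by
      intro x hx
      rw [Nat.testBit_or, Bool.or_eq_false_iff] at hx
      refine ⟨hx.1, ?_⟩
      rintro rfl
      have h5 := hx.2
      rw [Nat.one_shiftLeft, Nat.testBit_two_pow_self] at h5
      exact absurd h5 (by simp)
    refine ⟨?_, ?_⟩
    · rw [WL.keys, List.nodup_cons]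
      exact ⟨fun hm => (hor k (hk k hm).2).2 rfl, hn⟩
    · intro x hx
      rw [WL.keys, List.mem_cons] at hx
      rcases hx with hx | hx
      · rw [hx]; exact ⟨h3', hkt⟩
      · exact ⟨(hk x hx).1, (hor x (hk x hx).2).1⟩

theorem chkG_inv (W : WL) (M : List ℕ) (k : ℕ) (hM : M = masksOf 15 [sB k] 0 15)
    (hk : ∀ t ∈ sB k, t < 15) (h : chkG W M W = true) :
    ∀ x ∈ W.keys, gath (sB k) x ∈ W.keys ∧ wl W (gath (sB k) x) = wl W x := by
  intro x hx
  have h1 := chkG_spec W M W h x hx
  have h2 : scat M x 0 = gath (sB k) x := by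
    rw [hM, scat_masksOf 15 [sB k] 15 x (by
      intro s hs
      rw [List.mem_singleton] at hs
      rw [hs]
      exact hk)]
    simp [packF]
  rw [h2] at h1
  exact lkp_spec W _ _ h1

theorem gens_masks :
    ([2, 4, 1, 256, 64, 128, 4096, 1024, 2048, 16384, 32, 8, 16, 512, 8192] : List ℕ) =
      masksOf 15 [sB 1718801] 0 15 ∧ (∀ t ∈ sB 1718801, t < 15) ∧
    ([1, 8, 16, 2, 4, 32, 1024, 2048, 8192, 4096, 64, 128, 512, 256, 16384] : List ℕ) =
      masksOf 15 [sB 1725640] 0 15 ∧ (∀ t ∈ sB 1725640, t < 15) := by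
  decide +kernel

/-- the fast test -/
theorem WOk_of (W : WL) (h : wchk W = true) : WOk W := by
  obtain ⟨h1, h2⟩ := brec h
  obtain ⟨h3, h4⟩ := brec h2
  obtain ⟨hn, hb⟩ := ndc_spec W 0 h1
  refine ⟨hn, fun x hx => (hb x hx).1, ?_⟩
  obtain ⟨m1, b1, m2, b2⟩ := gens_masks
  have hg1 := chkG_inv W _ 1725640 m2 b2 h3
  have hg2 := chkG_inv W _ 1718801 m1 b1 h4
  let P : ℕ → Prop := fun k =>
    ∀ x ∈ W.keys, gath (sB k) x ∈ W.keys ∧ wl W (gath (sB k) x) = wl W x
  have hseed : ∀ x ∈ [1725640, 1718801], P x := by
    intro x hx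
    rcases List.mem_cons.1 hx with hx | hx
    · rw [hx]; exact hg1
    · rw [List.mem_singleton] at hx
      rw [hx]; exact hg2
  have hind := chkChain_ind P (by
    intro k a b ha hb' hlt he x hx
    obtain ⟨hx1, hx2⟩ := hb' x hx
    obtain ⟨hy1, hy2⟩ := ha _ hx1
    rw [gath_gath _ _ _ hlt, ← he] at hy1 hy2
    exact ⟨hy1, hy2.trans hx2⟩) chain60 [1725640, 1718801] hseed chain60_ok
  intro k hk
  rcases K60_chain k hk with hk' | hk'
  · exact hseed k hk'
  · exact hind k hk'

end K4m.Ev
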